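import Pool.Agent.Lib.MP_226de1_co.H.TopZ

/-! (A4): where `|arg xi| ≥ pi/4` we are on the left of the line `Re x = u`.

`W` is an open preconnected set of values of `g` (with `s = sinh`) or of `q` (with `s = id`),
`X` the inverse chart, continued along `W`, `1 + s^2 = xi^2`. -/

set_option autoImplicit false

namespace EQH

open Complex Filter Topology Set

variable {k μ u : ℝ} {q LX LD : ℂ → ℂ}

theorem HL.a4 (h : HL k μ u q LX LD) {W : Set ℂ} (hWo : IsOpen W) (hWc : IsPreconnected W)
    {X s : ℂ → ℂ} (hX : DifferentiableOn ℂ X W) (hs : DifferentiableOn ℂ s W)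
    (him : ∀ g ∈ W, 0 < (X g).im ∧ (X g).im < Real.pi / 2)
    (hA : ∀ g ∈ W, (1 + s g ^ 2).re ≤ 0) {g0 : ℂ} (hg0 : g0 ∈ W) (h0 : (X g0).re < u)
    (hev : ∀ᶠ g in 𝓝 g0, q (X g) = s g) :
    ∀ g ∈ W, (X g).re < u ∧ q (X g) = s g := by
  have hl : 0 < Real.log μ := Real.log_pos h.ch.hμ
  set V : Set ℂ := {g : ℂ | g ∈ W ∧ (X g).re < u ∧ ∀ᶠ g' in 𝓝 g, q (X g') = s g'} with hV
  have hXc : ∀ g ∈ W, ContinuousAt X g := fun g hg =>
    (hX.differentiableAt (hWo.mem_nhds hg)).continuousAt
  have hsc : ∀ g ∈ W, ContinuousAt s g := fun g hg =>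
    (hs.differentiableAt (hWo.mem_nhds hg)).continuousAt
  have hqd : ∀ x : ℂ, x.re < u + Real.log μ → DifferentiableAt ℂ q x := by
    intro x hx
    exact h.ch.dq.differentiableAt
      ((isOpen_lt Complex.continuous_re continuous_const).mem_nhds hx)
  have hVo : IsOpen V := by
    rw [isOpen_iff_mem_nhds]
    rintro g ⟨h1, h2, h3⟩
    have e1 : ∀ᶠ g' in 𝓝 g, g' ∈ W := hWo.mem_nhds h1
    have e2 : ∀ᶠ g' in 𝓝 g, (X g').re < u :=
      (Complex.continuous_re.continuousAt.comp (hXc g h1)).eventually_lt continuousAt_const h2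
    have e3 := h3.eventually_nhds
    filter_upwards [e1, e2, e3] with g' h4 h5 h6 using ⟨h4, h5, h6⟩
  -- closed in `W`
  have hVc : ∀ g ∈ W, g ∈ closure V → g ∈ V := by
    intro g hg hcl
    have hfr : ∃ᶠ g' in 𝓝 g, g' ∈ V := mem_closure_iff_frequently.mp hcl
    have hre : (X g).re ≤ u := by
      by_contra hcon
      rw [not_le] at hcon
      have : ∀ᶠ g' in 𝓝 g, u < (X g').re :=
        continuousAt_const.eventually_lt
          (Complex.continuous_re.continuousAt.comp (hXc g hg)) hcon
      obtain ⟨g', h1, h2⟩ := (hfr.and_eventually this).exists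
      exact absurd h1.2.1 (not_lt.mpr h2.le)
    have hqc : ContinuousAt (fun g' => q (X g')) g :=
      ContinuousAt.comp (g := q) (f := X) (hqd _ (by linarith)).continuousAt (hXc g hg)
    have heq : q (X g) = s g := by
      by_contra hcon
      have hc2 : ContinuousAt (fun g' => q (X g') - s g') g := hqc.sub (hsc g hg)
      have : ∀ᶠ g' in 𝓝 g, q (X g') - s g' ≠ 0 :=
        hc2.eventually_ne (sub_ne_zero.mpr hcon)
      obtain ⟨g', h1, h2⟩ := (hfr.and_eventually this).exists
      exact h2 (sub_eq_zero.mpr h1.2.2.self_of_nhds)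
    have hlt : (X g).re < u := by
      rcases hre.lt_or_eq with h1 | h1
      · exact h1
      · exfalso
        have h2 := (h.xi (X g).im (him g hg).1 (him g hg).2).2
        have e : (⟨u, (X g).im⟩ : ℂ) = X g := Complex.ext h1.symm rfl
        rw [e, heq] at h2
        exact absurd h2 (not_lt.mpr (hA g hg))
    refine ⟨hg, hlt, ?_⟩
    -- identity theorem on a small ball
    have hopen : IsOpen {g' : ℂ | g' ∈ W ∧ (X g').re < u} := by
      rw [isOpen_iff_mem_nhds]
      rintro z ⟨h1, h2⟩
      have e1 : ∀ᶠ g' in 𝓝 z, g' ∈ W := hWo.mem_nhds h1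
      have e2 : ∀ᶠ g' in 𝓝 z, (X g').re < u :=
        (Complex.continuous_re.continuousAt.comp (hXc z h1)).eventually_lt continuousAt_const h2
      filter_upwards [e1, e2] with g' h4 h5 using ⟨h4, h5⟩
    obtain ⟨ε, hε, hball⟩ := Metric.isOpen_iff.mp hopen g ⟨hg, hlt⟩
    have hF : DifferentiableOn ℂ (fun g' => q (X g') - s g') (Metric.ball g ε) := by
      intro z hz
      have hz' := hball hz
      have d1 : DifferentiableAt ℂ X z := hX.differentiableAt (hWo.mem_nhds hz'.1)
      have d2 : DifferentiableAt ℂ q (X z) := hqd _ (by linarith [hz'.2])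
      have d3 : DifferentiableAt ℂ s z := hs.differentiableAt (hWo.mem_nhds hz'.1)
      exact ((DifferentiableAt.comp (g := q) (f := X) z d2 d1).sub d3).differentiableWithinAt
    obtain ⟨g1, h1, h2⟩ := (hfr.and_eventually (Metric.ball_mem_nhds g hε)).exists
    have han : AnalyticOnNhd ℂ (fun g' => q (X g') - s g') (Metric.ball g ε) :=
      hF.analyticOnNhd Metric.isOpen_ball
    have hz : EqOn (fun g' => q (X g') - s g') 0 (Metric.ball g ε) := by
      apply han.eqOn_zero_of_preconnected_of_eventuallyEq_zero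
        (Metric.isPreconnected_ball) h2
      filter_upwards [h1.2.2] with g' h3
      simp [h3]
    filter_upwards [Metric.ball_mem_nhds g hε] with g' hg'
    exact sub_eq_zero.mp (hz hg')
  have hsub : W ⊆ V := by
    apply hWc.subset_of_closure_inter_subset hVo ⟨g0, hg0, hg0, h0, hev⟩
    rintro g ⟨h1, h2⟩
    exact hVc g h2 h1
  intro g hg
  have := hsub hg
  exact ⟨this.2.1, this.2.2.self_of_nhds⟩

end EQH
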