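import Pool.Agent.Lib.MP_226de1_co.H.Defs

/-! First consequences of the chart structure. -/

set_option autoImplicit false

namespace EQH

open Complex Filter Topology Set

variable {k μ b : ℝ} {q LX LD : ℂ → ℂ}

private theorem half_nhds {c : ℝ} {x : ℂ} (hx : x.re < c) : {y : ℂ | y.re < c} ∈ 𝓝 x :=
  (isOpen_lt Complex.continuous_re continuous_const).mem_nhds hx

theorem Ch.dq' (h : Ch k μ b q LX LD) {x : ℂ} (hx : x.re < b + Real.log μ) :
    DifferentiableAt ℂ q x := by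
  exact h.dq.differentiableAt (half_nhds hx)

theorem Ch.dD' (h : Ch k μ b q LX LD) {x : ℂ} (hx : x.re < b + Real.log μ) :
    DifferentiableAt ℂ LD x := by
  exact h.dD.differentiableAt (half_nhds hx)

theorem Ch.dX' (h : Ch k μ b q LX LD) {x : ℂ} (hx : x.re < b) : DifferentiableAt ℂ LX x := by
  exact h.dX.differentiableAt (half_nhds hx)

/-- `w ^ 2 = -1` and `exp (2 LX) = 1 + q ^ 2 ≠ 0` -/
theorem Ch.q_ne (h : Ch k μ b q LX LD) {w : ℂ} (hw : w ^ 2 = -1) {x : ℂ} (hx : x.re < b) :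
    q x - w ≠ 0 := by
  intro hq
  have h1 := h.expX x hx
  rw [sub_eq_zero.1 hq, hw] at h1
  exact exp_ne_zero _ (h1.trans (by ring))

theorem Ch.D_ne (h : Ch k μ b q LX LD) {x : ℂ} (hx : x.re < b + Real.log μ) :
    q x - q (x - Real.log μ) ≠ 0 := by
  rw [← h.expD x hx]
  exact exp_ne_zero _

/-- `LX' = q q' / (1 + q^2) = (q'/(q - w) + q'/(q + w)) / 2`, `w ^ 2 = -1` -/
theorem Ch.derivX (h : Ch k μ b q LX LD) {w : ℂ} (hw : w ^ 2 = -1) {x : ℂ} (hx : x.re < b) :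
    deriv LX x = (deriv q x / (q x - w) + deriv q x / (q x - -w)) / 2 := by
  have hμ := el_pos h.hμ
  have hxq : x.re < b + Real.log μ := by linarith
  have e1 : HasDerivAt (fun y => exp (2 * LX y)) (exp (2 * LX x) * (2 * deriv LX x)) x :=
    ((h.dX' hx).hasDerivAt.const_mul 2).cexp
  have e2 : HasDerivAt (fun y => 1 + q y ^ 2) (2 * q x * deriv q x) x := by
    have := ((h.dq' hxq).hasDerivAt.pow 2).const_add 1
    simpa using this
  have e3 : (fun y => exp (2 * LX y)) =ᶠ[𝓝 x] fun y => 1 + q y ^ 2 :=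
    Filter.eventually_of_mem (half_nhds hx) fun y hy => h.expX y hy
  have e4 := e1.unique (e2.congr_of_eventuallyEq e3)
  rw [h.expX x hx] at e4
  have n1 : q x - w ≠ 0 := h.q_ne hw hx
  have n2 : q x - -w ≠ 0 := h.q_ne (by rw [neg_sq]; exact hw) hx
  have e5 : 1 + q x ^ 2 = (q x - w) * (q x - -w) := by
    linear_combination hw
  rw [e5] at e4
  field_simp
  linear_combination e4

/-- `D' = D LD'` -/
theorem Ch.derivD (h : Ch k μ b q LX LD) {x : ℂ} (hx : x.re < b + Real.log μ) :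
    deriv q x - deriv q (x - Real.log μ) = (q x - q (x - Real.log μ)) * deriv LD x := by
  have hμ := el_pos h.hμ
  have hx' : (x - (Real.log μ : ℂ)).re < b + Real.log μ := by
    rw [sub_re, ofReal_re]; linarith
  have e1 : HasDerivAt (fun y => exp (LD y)) (exp (LD x) * deriv LD x) x :=
    (h.dD' hx).hasDerivAt.cexp
  have e2 : HasDerivAt (fun y => q y - q (y - Real.log μ))
      (deriv q x - deriv q (x - Real.log μ)) x :=
    (h.dq' hx).hasDerivAt.sub ((h.dq' hx').hasDerivAt.comp_sub_const x (Real.log μ : ℂ))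
  have e3 : (fun y => exp (LD y)) =ᶠ[𝓝 x] fun y => q y - q (y - Real.log μ) :=
    Filter.eventually_of_mem (half_nhds hx) fun y hy => h.expD y hy
  have e4 := e1.unique (e2.congr_of_eventuallyEq e3)
  rw [h.expD x hx] at e4
  exact e4.symm

/-- `1 - f = P_1 / (C xi^(-k))` -/
theorem Ch.one_sub_f (h : Ch k μ b q LX LD) {x : ℂ} (hx : x.re < b) :
    1 - ff k μ LX LD x =
      exp ((k : ℂ) * (LX x - LD (x + Real.log μ))) / (CK k μ : ℂ) := by
  have hC : (CK k μ : ℂ) ≠ 0 := ofReal_ne_zero.2 (CK_pos h.hμ).ne'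
  have h1 := congrArg (fun z => exp ((k : ℂ) * LX x) * z) (h.feq x hx)
  simp only [mul_add, ← exp_add] at h1
  have e1 : (k : ℂ) * LX x + -(k : ℂ) * LD x = (k : ℂ) * (LX x - LD x) := by ring
  have e2 : (k : ℂ) * LX x + -(k : ℂ) * LD (x + Real.log μ) =
      (k : ℂ) * (LX x - LD (x + Real.log μ)) := by ring
  have e3 : exp ((k : ℂ) * LX x) * ((CK k μ : ℂ) * exp (-(k : ℂ) * LX x)) = (CK k μ : ℂ) := by
    rw [mul_left_comm, ← exp_add]
    have : (k : ℂ) * LX x + -(k : ℂ) * LX x = 0 := by ring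
    rw [this, exp_zero, mul_one]
  rw [e1, e2, e3] at h1
  unfold ff
  rw [eq_div_iff hC, sub_mul, div_mul_cancel₀ _ hC, one_mul]
  linear_combination (-1 : ℂ) * h1

/-- the logarithmic derivative of the functional equation:
`f M_0 + (1 - f) M_1 = R` -/
theorem Ch.derivF (h : Ch k μ b q LX LD) {x : ℂ} (hx : x.re < b) :
    ff k μ LX LD x * deriv LD x + (1 - ff k μ LX LD x) * deriv LD (x + Real.log μ) =
      deriv LX x := by
  have hμ := el_pos h.hμ
  have hx0 : x.re < b + Real.log μ := by linarith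
  have hx1 : (x + (Real.log μ : ℂ)).re < b + Real.log μ := by
    rw [add_re, ofReal_re]; linarith
  have hC : (CK k μ : ℂ) ≠ 0 := ofReal_ne_zero.2 (CK_pos h.hμ).ne'
  have hk : (k : ℂ) ≠ 0 := ofReal_ne_zero.2 h.hk.ne'
  have d0 : HasDerivAt (fun y => exp (-(k : ℂ) * LD y))
      (exp (-(k : ℂ) * LD x) * (-(k : ℂ) * deriv LD x)) x :=
    ((h.dD' hx0).hasDerivAt.const_mul (-(k : ℂ))).cexp
  have d1 : HasDerivAt (fun y => exp (-(k : ℂ) * LD (y + Real.log μ)))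
      (exp (-(k : ℂ) * LD (x + Real.log μ)) * (-(k : ℂ) * deriv LD (x + Real.log μ))) x :=
    (((h.dD' hx1).hasDerivAt.comp_add_const x (Real.log μ : ℂ)).const_mul (-(k : ℂ))).cexp
  have d2 : HasDerivAt (fun y => (CK k μ : ℂ) * exp (-(k : ℂ) * LX y))
      ((CK k μ : ℂ) * (exp (-(k : ℂ) * LX x) * (-(k : ℂ) * deriv LX x))) x :=
    (((h.dX' hx).hasDerivAt.const_mul (-(k : ℂ))).cexp).const_mul _
  have e3 : (fun y => exp (-(k : ℂ) * LD y) + exp (-(k : ℂ) * LD (y + Real.log μ))) =ᶠ[𝓝 x]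
      fun y => (CK k μ : ℂ) * exp (-(k : ℂ) * LX y) :=
    Filter.eventually_of_mem (half_nhds hx) fun y hy => h.feq y hy
  have e4 := (d0.add d1).unique (d2.congr_of_eventuallyEq e3)
  have s1 : ff k μ LX LD x * ((CK k μ : ℂ) * exp (-(k : ℂ) * LX x)) =
      exp (-(k : ℂ) * LD x) := by
    unfold ff
    rw [← mul_assoc, div_mul_cancel₀ _ hC, ← exp_add]
    congr 1
    ring
  have s2 : (1 - ff k μ LX LD x) * ((CK k μ : ℂ) * exp (-(k : ℂ) * LX x)) =
      exp (-(k : ℂ) * LD (x + Real.log μ)) := by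
    rw [h.one_sub_f hx, ← mul_assoc, div_mul_cancel₀ _ hC, ← exp_add]
    congr 1
    ring
  have hS : (k : ℂ) * ((CK k μ : ℂ) * exp (-(k : ℂ) * LX x)) ≠ 0 :=
    mul_ne_zero hk (mul_ne_zero hC (exp_ne_zero _))
  rw [← s1, ← s2] at e4
  apply mul_left_cancel₀ hS
  linear_combination (-1 : ℂ) * e4

/-- `f` is analytic -/
theorem Ch.df (h : Ch k μ b q LX LD) {x : ℂ} (hx : x.re < b) :
    DifferentiableAt ℂ (ff k μ LX LD) x := by
  have hμ := el_pos h.hμ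
  have hx0 : x.re < b + Real.log μ := by linarith
  exact ((((h.dX' hx).sub (h.dD' hx0)).const_mul (k : ℂ)).cexp).div_const _

/-- `f (x + pi I) = f x` -/
theorem Ch.fpi (h : Ch k μ b q LX LD) {x : ℂ} (hx : x.re < b) :
    ff k μ LX LD (x + Real.pi * I) = ff k μ LX LD x := by
  have hμ := el_pos h.hμ
  have hx0 : x.re < b + Real.log μ := by linarith
  unfold ff
  rw [h.Xpi x hx, h.Dpi x hx0]
  congr 3
  ring

/-- `f -> 1 / (1 + μ^k)` at `-infinity`: `LX - LD -> - log (μ - 1)`. -/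
theorem Ch.flim (h : Ch k μ b q LX LD) :
    Tendsto (ff k μ LX LD) (comap Complex.re atBot) (𝓝 ((1 / (1 + μ ^ k) : ℝ) : ℂ)) := by
  have h1 := ((h.lX.sub h.lD).const_mul (k : ℂ)).cexp.div_const (CK k μ : ℂ)
  have e1 : (fun x : ℂ => exp ((k : ℂ) * (LX x + x - (LD x + x))) / (CK k μ : ℂ)) =
      ff k μ LX LD := by
    funext x
    unfold ff
    congr 3
    ring
  rw [e1] at h1
  have hm : (0 : ℝ) < μ - 1 := by linarith [h.hμ]
  have hp : 0 < μ ^ k := Real.rpow_pos_of_pos (by linarith [h.hμ]) k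
  have hq : 0 < (μ - 1) ^ k := Real.rpow_pos_of_pos hm k
  have e2 : exp ((k : ℂ) * (0 - (Real.log (μ - 1) : ℂ))) / (CK k μ : ℂ) =
      ((1 / (1 + μ ^ k) : ℝ) : ℂ) := by
    have e3 : (k : ℂ) * (0 - (Real.log (μ - 1) : ℂ)) = ((-(Real.log (μ - 1) * k) : ℝ) : ℂ) := by
      push_cast
      ring
    rw [e3, ← ofReal_exp, ← ofReal_div, Real.exp_neg, ← Real.rpow_def_of_pos hm]
    congr 1
    unfold CK
    field_simp
  rw [e2] at h1
  exact h1

private theorem Ch.s1 (h : Ch k μ b q LX LD) {x : ℂ} (_hx : x.re < b) :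
    ff k μ LX LD x * ((CK k μ : ℂ) * exp (-(k : ℂ) * LX x)) = exp (-(k : ℂ) * LD x) := by
  have hC : (CK k μ : ℂ) ≠ 0 := ofReal_ne_zero.2 (CK_pos h.hμ).ne'
  unfold ff
  rw [← mul_assoc, div_mul_cancel₀ _ hC, ← exp_add]
  congr 1
  ring

private theorem Ch.s2 (h : Ch k μ b q LX LD) {x : ℂ} (hx : x.re < b) :
    (1 - ff k μ LX LD x) * ((CK k μ : ℂ) * exp (-(k : ℂ) * LX x)) =
      exp (-(k : ℂ) * LD (x + Real.log μ)) := by
  have hC : (CK k μ : ℂ) ≠ 0 := ofReal_ne_zero.2 (CK_pos h.hμ).ne'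
  rw [h.one_sub_f hx, ← mul_assoc, div_mul_cancel₀ _ hC, ← exp_add]
  congr 1
  ring

private theorem Ch.sn (h : Ch k μ b q LX LD) (x : ℂ) :
    0 < ‖(CK k μ : ℂ) * exp (-(k : ℂ) * LX x)‖ := by
  have hC : (CK k μ : ℂ) ≠ 0 := ofReal_ne_zero.2 (CK_pos h.hμ).ne'
  exact norm_pos_iff.2 (mul_ne_zero hC (exp_ne_zero _))

private theorem nsq (z : ℂ) : ‖1 - z‖ ^ 2 - ‖z‖ ^ 2 = 1 - 2 * z.re := by
  rw [← normSq_eq_norm_sq, ← normSq_eq_norm_sq, normSq_apply, normSq_apply]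
  simp only [sub_re, one_re, sub_im, one_im]
  ring

private theorem nle_iff (z : ℂ) : ‖z‖ ≤ ‖1 - z‖ ↔ z.re ≤ 1 / 2 := by
  have h1 := nsq z
  rw [← sq_le_sq₀ (norm_nonneg _) (norm_nonneg _)]
  constructor <;> intro h2 <;> linarith

private theorem nlt_iff (z : ℂ) : ‖z‖ < ‖1 - z‖ ↔ z.re < 1 / 2 := by
  have h1 := nsq z
  rw [← sq_lt_sq₀ (norm_nonneg _) (norm_nonneg _)]
  constructor <;> intro h2 <;> linarith

/-- `‖P_0‖ ≤ ‖P_1‖` iff `Re f ≤ 1/2`, as `P_0/P_1 = f/(1-f)`, and `=` iff `=`.  -/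
theorem Ch.f_le_iff (h : Ch k μ b q LX LD) {x : ℂ} (hx : x.re < b) :
    ‖exp (-(k : ℂ) * LD x)‖ ≤ ‖exp (-(k : ℂ) * LD (x + Real.log μ))‖ ↔
      (ff k μ LX LD x).re ≤ 1 / 2 := by
  rw [← h.s1 hx, ← h.s2 hx, norm_mul (ff k μ LX LD x), norm_mul (1 - ff k μ LX LD x),
    mul_le_mul_iff_left₀ (h.sn x)]
  exact nle_iff _

theorem Ch.f_lt_iff (h : Ch k μ b q LX LD) {x : ℂ} (hx : x.re < b) :
    ‖exp (-(k : ℂ) * LD x)‖ < ‖exp (-(k : ℂ) * LD (x + Real.log μ))‖ ↔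
      (ff k μ LX LD x).re < 1 / 2 := by
  rw [← h.s1 hx, ← h.s2 hx, norm_mul (ff k μ LX LD x), norm_mul (1 - ff k μ LX LD x),
    mul_lt_mul_iff_left₀ (h.sn x)]
  exact nlt_iff _

end EQH
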