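import Pool.Agent.Lib.MP_226de1_co.H.Loc1

/-! The equation `P (x-l) + P x = C G (x-l)` for the local chart, and the asymptotics. -/

set_option autoImplicit false

namespace EQH

open Complex Set Filter Topology
open EQK

noncomputable section

variable {k μ A r : ℝ}

theorem VL.mono (h : VL k μ A r) {s : ℝ} (hs : 0 < s) (hsr : s ≤ r) : VL k μ A s := by
  have hsub : Metric.ball (0 : ℂ) s ⊆ Metric.ball 0 r := Metric.ball_subset_ball hsr
  refine ⟨h.hk, h.hμ, hs, hsr.trans h.hr1, h.hA, ?_, h.dX.mono hsub, h.dY.mono hsub,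
    fun t ht => h.ok t (ht.trans_le hsr), fun t ht => h.feq t (ht.trans_le hsr),
    fun t ht => h.bX t (ht.trans_le hsr), fun t ht => h.bY t (ht.trans_le hsr),
    fun t ht => h.cj t (ht.trans_le hsr), fun t ht => h.ng t (ht.trans_le hsr)⟩
  exact (mul_le_mul_of_nonneg_left (pow_le_pow_left₀ hs.le hsr 2) h.hA.le).trans h.hAr

/-- `log λ`, as a function of `R` -/
def Lbas (k μ : ℝ) (R : ℂ) : ℂ := log (bas k μ R) / k

theorem bas_one (hμ : 0 < μ) : bas k μ 1 = ((μ ^ k : ℝ) : ℂ) := by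
  rw [bas_eq hμ, Complex.log_one]
  simp

theorem Lbas_one (hk : 0 < k) (hμ : 0 < μ) : Lbas k μ 1 = (Real.log μ : ℂ) := by
  unfold Lbas
  rw [bas_one hμ, ← Complex.ofReal_log (Real.rpow_nonneg hμ.le _), Real.log_rpow hμ]
  have : (k : ℂ) ≠ 0 := by exact_mod_cast hk.ne'
  push_cast
  field_simp

theorem Lbas_cont (hμ : 0 < μ) : ContinuousAt (Lbas k μ) 1 := by
  have h0 : (1 : ℂ) ∈ slitPlane := Complex.one_mem_slitPlane
  have h1 : bas k μ 1 ∈ slitPlane := by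
    rw [bas_one hμ]
    left
    simpa using Real.rpow_pos_of_pos hμ k
  have h2 : ContinuousAt (fun R : ℂ => bas k μ R) 1 := by
    unfold bas
    have h3 : ContinuousAt Complex.log 1 := continuousAt_clog h0
    fun_prop
  unfold Lbas
  exact (h2.clog h1).div_const _

structure VL2 (k μ A r : ℝ) : Prop extends VL k μ A r where
  bL : ∀ t : ℂ, ‖t‖ < r → ‖Lbas k μ (RRc (VC k μ t)) - (Real.log μ : ℂ)‖ ≤ 1

theorem VL2_exists (hk : 0 < k) (hμ : 1 < μ) : ∃ A r : ℝ, VL2 k μ A r := by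
  have hμ0 : 0 < μ := by linarith
  obtain ⟨A, r, h⟩ := VL_exists hk hμ
  obtain ⟨δ, hδ, hδ'⟩ := Metric.continuousAt_iff.1 (Lbas_cont (k := k) hμ0) 1 one_pos
  rw [Lbas_one hk hμ0] at hδ'
  have hA := h.hA
  have hc : 0 < 5 / 2 * A + 2 := by linarith
  set s : ℝ := min r (min 1 (δ / (5 / 2 * A + 2))) with hs
  have hs0 : 0 < s := lt_min h.hr (lt_min one_pos (by positivity))
  have hsr : s ≤ r := min_le_left _ _
  have hs1 : s ≤ 1 := (min_le_right _ _).trans (min_le_left _ _)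
  have hsδ : s ≤ δ / (5 / 2 * A + 2) := (min_le_right _ _).trans (min_le_right _ _)
  refine ⟨A, s, h.mono hs0 hsr, ?_⟩
  intro t ht
  have h1 := h.bR (ht.trans_le hsr)
  have h2 : ‖t‖ ^ 2 < s := by
    have h3 : ‖t‖ < 1 := ht.trans_le hs1
    have h4 := norm_nonneg t
    nlinarith
  have h5 : (5 / 2 * A + 2) * ‖t‖ ^ 2 < δ := by
    calc (5 / 2 * A + 2) * ‖t‖ ^ 2 < (5 / 2 * A + 2) * s := mul_lt_mul_of_pos_left h2 hc
      _ ≤ (5 / 2 * A + 2) * (δ / (5 / 2 * A + 2)) := mul_le_mul_of_nonneg_left hsδ hc.le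
      _ = δ := by field_simp
  have h6 : dist (RRc (VC k μ t)) 1 < δ := by
    rw [dist_eq_norm]
    exact h1.trans_lt h5
  have h7 := hδ' h6
  rw [dist_eq_norm] at h7
  exact h7.le

/-- the constant `C` -/
def Ck (k μ : ℝ) : ℝ := (1 + μ ^ k) / (μ - 1) ^ k

theorem VL.lyx_le (h : VL k μ A r) {x : ℂ} (hx : x.re < Real.log r) :
    ‖lyx k μ x‖ ≤ 3 / 2 * (A * ‖exp x‖ ^ 2) := by
  have h1 := h.bY' (h.norm_exp_lt hx) (exp_ne_zero x)
  have h2 := h.A_le (h.norm_exp_lt hx)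
  unfold lyx
  have h3 : (VC k μ (exp x)).2 / exp x = 1 + ((VC k μ (exp x)).2 / exp x - 1) := by ring
  rw [h3]
  refine (Complex.norm_log_one_add_half_le_self (h1.trans (h2.trans (by norm_num)))).trans ?_
  exact mul_le_mul_of_nonneg_left h1 (by norm_num)

theorem VL2.LY_step (h : VL2 k μ A r) {x : ℂ} (hx : x.re < Real.log r) :
    LYx k μ x = LYx k μ (x - (Real.log μ : ℂ)) +
      Lbas k μ (RRc (VC k μ (exp (x - (Real.log μ : ℂ))))) := by
  have hμ0 : 0 < μ := by linarith [h.hμ]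
  have hl : 0 < Real.log μ := Real.log_pos h.hμ
  have hx' : (x - (Real.log μ : ℂ)).re < Real.log r := by
    rw [Complex.sub_re, Complex.ofReal_re]
    linarith
  have e1 : exp (LYx k μ x) = exp (LYx k μ (x - (Real.log μ : ℂ)) +
      Lbas k μ (RRc (VC k μ (exp (x - (Real.log μ : ℂ)))))) := by
    rw [Complex.exp_add, h.exp_LY hx, h.exp_LY hx', h.sub_l]
    have h3 := h.feq (exp x) (h.norm_exp_lt hx)
    have h5 : (VC k μ (exp x)).2 =
        lamC k μ (RRc (VC k μ (exp x / μ))) * (VC k μ (exp x / μ)).2 := by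
      rw [← h3]
      rfl
    rw [h5, mul_comm]
    rfl
  obtain ⟨n, hn⟩ := Complex.exp_eq_exp_iff_exists_int.1 e1
  have b1 := h.lyx_le hx
  have b2 := h.lyx_le hx'
  have c1 := h.A_le (h.norm_exp_lt hx)
  have c2 := h.A_le (h.norm_exp_lt hx')
  have b3 := h.bL _ (h.norm_exp_lt hx')
  set L := Lbas k μ (RRc (VC k μ (exp (x - (Real.log μ : ℂ)))))
  have h6 : (n : ℂ) * (2 * Real.pi * I) =
      lyx k μ x - lyx k μ (x - (Real.log μ : ℂ)) - (L - (Real.log μ : ℂ)) := by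
    unfold LYx at hn
    linear_combination -hn
  have h7 : ‖(n : ℂ) * (2 * Real.pi * I)‖ ≤ 2 := by
    rw [h6]
    calc _ ≤ ‖lyx k μ x‖ + ‖lyx k μ (x - (Real.log μ : ℂ))‖ + ‖L - (Real.log μ : ℂ)‖ := by
          refine (norm_sub_le _ _).trans ?_
          exact add_le_add_left (norm_sub_le _ _) _
      _ ≤ 2 := by linarith
  have h8 : n = 0 := by
    by_contra hne
    have h9 : (1 : ℝ) ≤ ‖(n : ℂ)‖ := by
      rw [Complex.norm_intCast]
      exact_mod_cast Int.one_le_abs hne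
    have h10 : ‖(2 * Real.pi * I : ℂ)‖ = 2 * Real.pi := by
      simp [Real.pi_pos.le]
    rw [norm_mul, h10] at h7
    have := Real.pi_gt_three
    nlinarith
  rw [h8] at hn
  simpa using hn

/-- `P (x-l) + P x = C G (x-l)` -/
theorem VL2.P_eq (h : VL2 k μ A r) {x : ℂ} (hx : x.re < Real.log r) :
    exp (-(k : ℂ) * LD0 k μ (x - (Real.log μ : ℂ))) + exp (-(k : ℂ) * LD0 k μ x) =
      (Ck k μ : ℂ) * exp (-(k : ℂ) * LX0 k μ (x - (Real.log μ : ℂ))) := by
  have hμ0 : 0 < μ := by linarith [h.hμ]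
  have hμ1 : 0 < μ - 1 := by linarith [h.hμ]
  have hl : 0 < Real.log μ := Real.log_pos h.hμ
  have hk := h.hk
  have hkC : (k : ℂ) ≠ 0 := by exact_mod_cast hk.ne'
  have hx' : (x - (Real.log μ : ℂ)).re < Real.log r := by
    rw [Complex.sub_re, Complex.ofReal_re]
    linarith
  have h1 := h.LY_step hx
  set y := x - (Real.log μ : ℂ) with hy
  set R := RRc (VC k μ (exp y)) with hR
  have hok := h.ok _ (h.norm_exp_lt hx')
  have hb : bas k μ R ≠ 0 := slitPlane_ne_zero hok.2.2.2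
  have h2 : exp ((k : ℂ) * Lbas k μ R) = bas k μ R := by
    unfold Lbas
    rw [mul_div_cancel₀ _ hkC, Complex.exp_log hb]
  have h3 : exp (-(k : ℂ) * LD0 k μ x) = exp (-(k : ℂ) * LD0 k μ y) * bas k μ R := by
    rw [← h2, ← Complex.exp_add]
    congr 1
    unfold LD0
    rw [h1]
    ring
  have h4 : exp (-(k : ℂ) * LX0 k μ y) =
      exp ((k : ℂ) * (Real.log (μ - 1) : ℂ)) * exp (-(k : ℂ) * LD0 k μ y) *
        exp (-((k : ℂ) / 2) * log R) := by
    rw [← Complex.exp_add, ← Complex.exp_add]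
    congr 1
    unfold LX0 LD0 LRx
    rw [← hR]
    ring
  have h5 : exp ((k : ℂ) * (Real.log (μ - 1) : ℂ)) = (((μ - 1) ^ k : ℝ) : ℂ) := by
    rw [Real.rpow_def_of_pos hμ1]
    push_cast
    rw [mul_comm]
  have h6 : (((μ - 1) ^ k : ℝ) : ℂ) ≠ 0 := by
    exact_mod_cast (Real.rpow_pos_of_pos hμ1 k).ne'
  rw [h3, h4, h5, bas_eq hμ0]
  unfold Ck
  push_cast at h6 ⊢
  field_simp
  ring

end

end EQH
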