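import Pool.Agent.Lib.MP_226de1_co.H.BodyEnd
import Pool.Agent.Lib.MP_226de1_co.H.Loc2

/-! Near `Re x = -infinity` the real chart is the real unstable curve `Vr k μ`. -/

set_option autoImplicit false

namespace EQH

open Complex Set Filter Topology
open EQK

variable {k μ : ℝ}

/-- The real chart and the curve `Vr`: for real `x < b`, with `q = q0 k μ x`, `D = exp (LD0 k μ x)`
(both real, `D > 0`): `Vr k μ (e^x) = (-q (μ-1)/D, (μ-1)/D)`. -/
theorem base_chart (hk : 1 ≤ k) (hμ : 1 < μ) : ∃ b : ℝ, ∀ x : ℝ, x < b →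
    Real.exp x ≤ tcr k μ ∧
    (q0 k μ (x : ℂ)).im = 0 ∧ (exp (LD0 k μ (x : ℂ))).im = 0 ∧
    0 < (exp (LD0 k μ (x : ℂ))).re ∧
    Vr k μ (Real.exp x) = (-(q0 k μ (x : ℂ)).re * (μ - 1) / (exp (LD0 k μ (x : ℂ))).re,
      (μ - 1) / (exp (LD0 k μ (x : ℂ))).re) := by
  have hk0 : 0 < k := by linarith
  obtain ⟨A, r, h⟩ := VL_exists hk0 hμ
  obtain ⟨ε, r', A', hε, hr', -, hA', -, hall⟩ := Vr_loc hk0 hμ
  obtain ⟨_, _, _, hT⟩ := tcr_isTc hk hμ
  have htc := hT.pos
  have hr := h.hr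
  have hm : 0 < min (min r r') (tcr k μ) := lt_min (lt_min hr hr') htc
  refine ⟨Real.log (min (min r r') (tcr k μ)), fun x hx => ?_⟩
  have ht := (Real.lt_log_iff_exp_lt hm).1 hx
  have ht1 : Real.exp x < r := ht.trans_le ((min_le_left _ _).trans (min_le_left _ _))
  have ht2 : Real.exp x < r' := ht.trans_le ((min_le_left _ _).trans (min_le_right _ _))
  have ht3 : Real.exp x ≤ tcr k μ := (ht.trans_le (min_le_right _ _)).le
  have hte : exp (x : ℂ) = ((Real.exp x : ℝ) : ℂ) := (Complex.ofReal_exp x).symm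
  have htn : ‖((Real.exp x : ℝ) : ℂ)‖ < r := by
    rw [Complex.norm_real, Real.norm_of_nonneg (Real.exp_pos x).le]
    exact ht1
  obtain ⟨e1, e2, e3⟩ := hall k μ (Real.exp x) (by simpa using hε) (by simpa using hε)
    (by rw [abs_of_pos (Real.exp_pos x)]; exact ht2)
  -- reality
  have hcj := h.cj _ htn
  rw [Complex.conj_ofReal] at hcj
  set W := VC k μ ((Real.exp x : ℝ) : ℂ) with hW
  have c1 : W.1 = (starRingEnd ℂ) W.1 := congrArg Prod.fst hcj
  have c2 : W.2 = (starRingEnd ℂ) W.2 := congrArg Prod.snd hcj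
  have i1 : W.1.im = 0 := Complex.conj_eq_iff_im.1 c1.symm
  have i2 : W.2.im = 0 := Complex.conj_eq_iff_im.1 c2.symm
  have f1 : W.1 = ((W.1.re : ℝ) : ℂ) := Complex.ext (by simp) (by simp [i1])
  have f2 : W.2 = ((W.2.re : ℝ) : ℂ) := Complex.ext (by simp) (by simp [i2])
  have hvr : Vr k μ (Real.exp x) = (W.1.re, W.2.re) := by
    rw [e1]
    rfl
  have hxr : ((x : ℝ) : ℂ).re < Real.log r := by
    rw [Complex.ofReal_re]
    exact (Real.lt_log_iff_exp_lt hr).2 ht1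
  have hY : 0 < W.2.re := by
    have := hT.Ypos (Real.exp x) (Real.exp_pos x) ht3
    rw [hvr] at this
    exact this
  have hq : q0 k μ (x : ℂ) = ((-(W.1.re / W.2.re) : ℝ) : ℂ) := by
    unfold q0
    rw [hte, ← hW, f1, f2]
    push_cast
    rfl
  have hD : exp (LD0 k μ (x : ℂ)) = (((μ - 1) / W.2.re : ℝ) : ℂ) := by
    rw [h.exp_LD hxr, hte, ← hW, f2]
    push_cast
    rfl
  have hw : 0 < μ - 1 := by linarith
  refine ⟨ht3, ?_, ?_, ?_, ?_⟩
  · rw [hq, Complex.ofReal_im]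
  · rw [hD, Complex.ofReal_im]
  · rw [hD, Complex.ofReal_re]
    positivity
  · rw [hvr, hq, hD, Complex.ofReal_re, Complex.ofReal_re]
    ext
    · simp only
      field_simp
    · simp only
      field_simp

end EQH
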