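import Mathlib

/-! Theorem H, all real `k > 0`: definitions.

`q` is the (complexified) chart coordinate, `exp (LX x) = xi x` with `xi ^ 2 = 1 + q ^ 2`,
`exp (LD x) = D x = q x - q (x - log μ)`, and the functional equation is
`D(x)^(-k) + D(x + log μ)^(-k) = C xi(x)^(-k)`.
`Ch k μ b q LX LD` is such a chart on the half plane `Re x < b` (with `q`, `LD` living on
`Re x < b + log μ`), `pi`-antiperiodic and symmetric under conjugation, asymptotic to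
`q = -exp (-x)` at `Re x = -infinity`. `TCh` is the same in the variable `t = exp x`:
`q x = - exp (-x) * α (exp x)`, `LX x = lX (exp x) - x`, `LD x = lD (exp x) - x`. -/

set_option autoImplicit false

namespace EQH

open Complex Filter Topology Set

/-- the constant of the functional equation -/
noncomputable def CK (k μ : ℝ) : ℝ := (1 + μ ^ k) / (μ - 1) ^ k

/-- the chart on `Re x < b` -/
structure Ch (k μ b : ℝ) (q LX LD : ℂ → ℂ) : Prop where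
  hk : 0 < k
  hμ : 1 < μ
  dq : DifferentiableOn ℂ q {x : ℂ | x.re < b + Real.log μ}
  dX : DifferentiableOn ℂ LX {x : ℂ | x.re < b}
  dD : DifferentiableOn ℂ LD {x : ℂ | x.re < b + Real.log μ}
  qpi : ∀ x : ℂ, x.re < b + Real.log μ → q (x + Real.pi * I) = -q x
  Xpi : ∀ x : ℂ, x.re < b → LX (x + Real.pi * I) = LX x - Real.pi * I
  Dpi : ∀ x : ℂ, x.re < b + Real.log μ → LD (x + Real.pi * I) = LD x - Real.pi * I
  qcj : ∀ x : ℂ, x.re < b + Real.log μ → q ((starRingEnd ℂ) x) = (starRingEnd ℂ) (q x)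
  Xcj : ∀ x : ℂ, x.re < b → LX ((starRingEnd ℂ) x) = (starRingEnd ℂ) (LX x)
  Dcj : ∀ x : ℂ, x.re < b + Real.log μ → LD ((starRingEnd ℂ) x) = (starRingEnd ℂ) (LD x)
  expX : ∀ x : ℂ, x.re < b → exp (2 * LX x) = 1 + q x ^ 2
  expD : ∀ x : ℂ, x.re < b + Real.log μ → exp (LD x) = q x - q (x - Real.log μ)
  feq : ∀ x : ℂ, x.re < b →
    exp (-(k : ℂ) * LD x) + exp (-(k : ℂ) * LD (x + Real.log μ)) =
      (CK k μ : ℂ) * exp (-(k : ℂ) * LX x)
  lq : Tendsto (fun x : ℂ => q x * exp x) (comap Complex.re atBot) (𝓝 (-1))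
  lX : Tendsto (fun x : ℂ => LX x + x) (comap Complex.re atBot) (𝓝 0)
  lD : Tendsto (fun x : ℂ => LD x + x) (comap Complex.re atBot) (𝓝 (Real.log (μ - 1) : ℂ))

/-- `f = P_0 / (P_0 + P_1)`, `P = D ^ (-k)`; equals `P_0 / (C xi ^ (-k))` -/
noncomputable def ff (k μ : ℝ) (LX LD : ℂ → ℂ) (x : ℂ) : ℂ :=
  exp ((k : ℂ) * (LX x - LD x)) / (CK k μ : ℂ)

/-- the conclusions of the loop, for a chart on `Re x < b` -/
structure Lp (k μ b : ℝ) (q LX LD : ℂ → ℂ) : Prop where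
  su : ∀ w : ℂ, w ^ 2 = -1 → ∀ x : ℂ, x.re < b + Real.log μ / 2 →
    ‖q x - w‖ < ‖q (x - Real.log μ) - w‖
  mp : ∀ x : ℂ, x.re < b + Real.log μ / 2 → (deriv LD x).re < 0
  ru : ∀ w : ℂ, w ^ 2 = -1 → ∀ x : ℂ, x.re < b → (deriv q x / (q x - w)).re < 0
  rx : ∀ x : ℂ, x.re < b → (deriv LX x).re < 0
  fl : ∀ x : ℂ, x.re < b → (ff k μ LX LD x).re < 1 / 2

/-- quadrant information on the left of `b` -/
structure Qd (μ b : ℝ) (q LX LD : ℂ → ℂ) : Prop where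
  imD : ∀ x : ℂ, x.re < b + Real.log μ / 2 → 0 < x.im → x.im < Real.pi / 2 →
    -(Real.pi / 2) < (LD x).im ∧ (LD x).im < 0
  imX : ∀ x : ℂ, x.re < b → 0 < x.im → x.im < Real.pi / 2 →
    -(Real.pi / 2) < (LX x).im ∧ (LX x).im < 0
  antiX : ∀ x y : ℂ, x.re < b → y.re = x.re → x.im < y.im → (LX y).im < (LX x).im
  antiD : ∀ x y : ℂ, x.re < b + Real.log μ / 2 → y.re = x.re → x.im < y.im →
    (LD y).im < (LD x).im
  quad : ∀ x : ℂ, x.re < b → 0 < x.im → x.im < Real.pi / 2 → (q x).re < 0 ∧ 0 < (q x).im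
  top : ∀ x : ℂ, x.re < b → x.im = Real.pi / 2 → (q x).re = 0 ∧ 1 < (q x).im
  bot : ∀ x : ℂ, x.re < b → x.im = 0 → (q x).im = 0

/-- the chart in the variable `t = exp x`, on `‖t‖ < ρ` -/
structure TCh (k μ ρ : ℝ) (α lX lD : ℂ → ℂ) : Prop where
  hk : 0 < k
  hμ : 1 < μ
  hρ : 0 < ρ
  dα : DifferentiableOn ℂ α (Metric.ball 0 (μ * ρ))
  dX : DifferentiableOn ℂ lX (Metric.ball 0 ρ)
  dD : DifferentiableOn ℂ lD (Metric.ball 0 (μ * ρ))
  even : ∀ t : ℂ, ‖t‖ < μ * ρ → α (-t) = α t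
  cj : ∀ t : ℂ, ‖t‖ < μ * ρ → α ((starRingEnd ℂ) t) = (starRingEnd ℂ) (α t)
  α0 : α 0 = 1
  X0 : lX 0 = 0
  D0 : lD 0 = (Real.log (μ - 1) : ℂ)
  expX : ∀ t : ℂ, ‖t‖ < ρ → exp (2 * lX t) = t ^ 2 + α t ^ 2
  expD : ∀ t : ℂ, ‖t‖ < μ * ρ → exp (lD t) = μ * α (t / μ) - α t
  feq : ∀ t : ℂ, ‖t‖ < ρ →
    exp (-(k : ℂ) * lD t) + (μ ^ k : ℝ) * exp (-(k : ℂ) * lD (μ * t)) =
      (CK k μ : ℂ) * exp (-(k : ℂ) * lX t)

/-- the chart in `x` of a chart in `t` -/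
noncomputable def qT (α : ℂ → ℂ) (x : ℂ) : ℂ := -exp (-x) * α (exp x)

/-- logarithms in `x` of logarithms in `t` -/
noncomputable def LT (l : ℂ → ℂ) (x : ℂ) : ℂ := l (exp x) - x

theorem CK_pos {k μ : ℝ} (hμ : 1 < μ) : 0 < CK k μ := by
  unfold CK
  have h1 : 0 < μ ^ k := Real.rpow_pos_of_pos (by linarith) k
  have h2 : 0 < (μ - 1) ^ k := Real.rpow_pos_of_pos (by linarith) k
  positivity

theorem el_pos {μ : ℝ} (hμ : 1 < μ) : 0 < Real.log μ := Real.log_pos hμ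

end EQH
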