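import Pool.Agent.Lib.MP_226de1_co.K.Finite
import Pool.Agent.Lib.MP_226de1_co.H.Defs

/-! The body side of the end of the proof, on the real axis: any positive real function `E` which
satisfies the recursion of the chart and agrees with the unstable curve near `-infinity` coincides
with the differences `dn`, `dp` of the line system, so that
`E(q)^(-k) + E(-q)^(-k) = C (1+q^2)^(-k/2)` near `q = 0`. -/

set_option autoImplicit false

namespace EQH

open Set Filter Topology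
open EQK

variable {k μ r : ℝ} {V P : ℝ → ℝ × ℝ} {dn dp : Bool → ℝ → ℝ}

/-- `X / Y` is strictly decreasing on `(0, tc]` -/
theorem ratio_strictAnti {tc : ℝ} (hT : IsTc k μ V P tc) :
    StrictAntiOn (fun t => (V t).1 / (V t).2) (Ioc 0 tc) := by
  have hd : ∀ t, 0 < t → t ≤ tc → HasDerivAt (fun t => (V t).1 / (V t).2)
      (-(omg (V t) (P t)) / (V t).2 ^ 2) t := by
    intro t h0 h1
    have h2 := (hT.der1 t h0 h1).div (hT.der2 t h0 h1) (hT.Ypos t h0 h1).ne'
    refine h2.congr_deriv ?_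
    unfold omg
    ring
  refine strictAntiOn_of_deriv_neg (convex_Ioc 0 tc) ?_ ?_
  · intro t ht
    exact (hd t ht.1 ht.2).continuousAt.continuousWithinAt
  · intro t ht
    rw [interior_Ioc] at ht
    rw [(hd t ht.1 ht.2.le).deriv]
    have h1 := (hT.cone t ht.1 ht.2.le).2.1
    have h2 := hT.Ypos t ht.1 ht.2.le
    exact div_neg_of_neg_of_pos (by linarith) (by positivity)

/-- the relation of the line system in the form `dn^(-k) + dp^(-k) = C (1+q^2)^(-k/2)` -/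
theorem rel_neg (hL : LineSys k μ dn dp) (s : Bool) (q : ℝ) :
    dn s q ^ (-k) + dp s q ^ (-k) = CK k μ * (1 + q ^ 2) ^ (-(k / 2)) := by
  have hw : 0 < μ - 1 := sub_pos.2 hL.hμ
  have h := hL.rel s q
  have hn := hL.dn_pos s q
  have hp := hL.dp_pos s q
  have h1 : (0 : ℝ) < 1 + q ^ 2 := by positivity
  have hS : 0 < Real.sqrt (1 + q ^ 2) := Real.sqrt_pos.2 h1
  have hSk : Real.sqrt (1 + q ^ 2) ^ k = (1 + q ^ 2) ^ (k / 2) := by
    rw [Real.sqrt_eq_rpow, ← Real.rpow_mul h1.le]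
    congr 1
    ring
  rw [Real.div_rpow (by positivity) hn.le, Real.div_rpow (by positivity) hp.le,
    Real.mul_rpow hw.le hS.le, hSk] at h
  have h2 : 0 < (μ - 1) ^ k := Real.rpow_pos_of_pos hw k
  have h3 : 0 < (1 + q ^ 2) ^ (k / 2) := Real.rpow_pos_of_pos h1 _
  have h4 : 0 < dn s q ^ k := Real.rpow_pos_of_pos hn k
  have h5 : 0 < dp s q ^ k := Real.rpow_pos_of_pos hp k
  rw [Real.rpow_neg hn.le, Real.rpow_neg hp.le, Real.rpow_neg h1.le]
  unfold CK
  rw [← h]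
  field_simp

theorem rpow_neg_inj {a b : ℝ} (hk : 0 < k) (ha : 0 < a) (hb : 0 < b)
    (h : a ^ (-k) = b ^ (-k)) : a = b := by
  rw [Real.rpow_neg ha.le, Real.rpow_neg hb.le, inv_inj] at h
  exact Real.rpow_left_injOn hk.ne' (mem_ofPred.2 ha.le) (mem_ofPred.2 hb.le) h

/-- `E = dp s (-q)` for `q < ε1` -/
theorem E_eq_dp (hL : LineSys k μ dn dp) {E : ℝ → ℝ} {ε0 : ℝ}
    (hE : ∀ q, q < ε0 → 0 < E q)
    (hrec : ∀ q, q < ε0 → E q ^ (-k) + E (q - E q) ^ (-k) =
      CK k μ * (1 + (q - E q) ^ 2) ^ (-(k / 2)))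
    {Q0 : ℝ} (hbase : ∀ q, q ≤ -Q0 → q < ε0 → ∃ t, 0 < t ∧ t ≤ tcr k μ ∧
      Vr k μ t = (-q * (μ - 1) / E q, (μ - 1) / E q)) :
    ∀ q, q < ε0 → ∀ s, E q = dp s (-q) := by
  have hk1 := hL.hk
  have hk : 0 < k := by linarith
  have hμ := hL.hμ
  have hw : 0 < μ - 1 := sub_pos.2 hμ
  obtain ⟨r, P, hR, hT⟩ := tcr_isTc hk1.le hμ
  obtain ⟨Q, hQ, hnear⟩ := hL.near hR
  have hrt : r ≤ tcr k μ := by
    by_contra hcon
    have h1 := hR.pos1 _ hT.pos (not_le.1 hcon)
    rw [hT.zero] at h1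
    exact lt_irrefl _ h1
  have hanti := ratio_strictAnti hT
  have hC : 0 < CK k μ := CK_pos hμ
  -- lower bound
  set δ : ℝ := CK k μ ^ (-(1 / k)) with hδdef
  have hδ : 0 < δ := Real.rpow_pos_of_pos hC _
  have hlow : ∀ q, q < ε0 → δ ≤ E q := by
    intro q hq
    have h1 := hrec q hq
    have hE0 := hE q hq
    have hE1 := hE (q - E q) (by linarith)
    have h2 : 0 < E (q - E q) ^ (-k) := Real.rpow_pos_of_pos hE1 _
    have h3 : (1 + (q - E q) ^ 2) ^ (-(k / 2)) ≤ 1 :=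
      Real.rpow_le_one_of_one_le_of_nonpos (by nlinarith [sq_nonneg (q - E q)]) (by linarith)
    have h4 : E q ^ (-k) ≤ CK k μ := by
      have := mul_le_mul_of_nonneg_left h3 hC.le
      linarith
    have h5 : δ ^ (-k) = CK k μ := by
      rw [hδdef, ← Real.rpow_mul hC.le]
      have : -(1 / k) * -k = 1 := by field_simp
      rw [this, Real.rpow_one]
    rw [← h5] at h4
    by_contra hcon
    rw [not_le] at hcon
    have h6 := Real.rpow_lt_rpow_of_neg hE0 hcon (show -k < 0 by linarith)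
    linarith
  -- base
  have hb : ∀ q, q ≤ -(max Q0 Q) → q < ε0 → ∀ s, E q = dp s (-q) := by
    intro q hq hq0 s
    obtain ⟨t, h1, h2, h3⟩ := hbase q (hq.trans (neg_le_neg (le_max_left _ _))) hq0
    obtain ⟨t', h1', h2', h3'⟩ := hnear s (-q) (by
      have := hq.trans (neg_le_neg (le_max_right Q0 Q))
      linarith)
    have hE0 := hE q hq0
    have hp := hL.dp_pos s (-q)
    have hr1 : (Vr k μ t).1 / (Vr k μ t).2 = -q := by
      rw [h3]
      simp only
      field_simp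
    have hr2 : (Vr k μ t').1 / (Vr k μ t').2 = -q := by
      rw [h3']
      unfold Vx
      simp only
      field_simp
    have ht : t = t' := hanti.injOn ⟨h1, h2⟩ ⟨h1', (h2'.trans_le hrt).le⟩ (by
      show (Vr k μ t).1 / (Vr k μ t).2 = (Vr k μ t').1 / (Vr k μ t').2
      rw [hr1, hr2])
    rw [ht, h3'] at h3
    have h4 := congrArg Prod.snd h3
    unfold Vx at h4
    simp only at h4
    rw [div_eq_div_iff hp.ne' hE0.ne'] at h4
    exact mul_left_cancel₀ hw.ne' h4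
  have key : ∀ n : ℕ, ∀ q, q < ε0 → q ≤ -(max Q0 Q) + n * δ → ∀ s, E q = dp s (-q) := by
    intro n
    induction n with
    | zero =>
      intro q hq hq' s
      rw [Nat.cast_zero, zero_mul, add_zero] at hq'
      exact hb q hq' hq s
    | succ n ih =>
      intro q hq hq' s
      have hE0 := hE q hq
      have hl := hlow q hq
      have hp1 : q - E q < ε0 := by linarith
      have hIH : E (q - E q) = dp (!s) (-(q - E q)) := by
        refine ih (q - E q) hp1 ?_ (!s)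
        push_cast at hq'
        linarith
      have h1 := hrec q hq
      have h2 := rel_neg hL (!s) (-(q - E q))
      rw [neg_sq, ← h1, ← hIH] at h2
      have h3 : dn (!s) (-(q - E q)) ^ (-k) = E q ^ (-k) := by linarith
      have h4 := rpow_neg_inj hk (hL.dn_pos _ _) hE0 h3
      have h5 := hL.nxt (!s) (-(q - E q))
      rw [h4, Bool.not_not] at h5
      rw [← h5]
      congr 1
      ring
  intro q hq s
  obtain ⟨n, hn⟩ := exists_nat_ge ((q + max Q0 Q) / δ)
  rw [div_le_iff₀ hδ] at hn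
  exact key n q hq (by linarith) s

/-- `E = dn s q` -/
theorem E_eq_dn (hL : LineSys k μ dn dp) {E : ℝ → ℝ} {ε0 : ℝ}
    (hE : ∀ q, q < ε0 → 0 < E q)
    (hrec : ∀ q, q < ε0 → E q ^ (-k) + E (q - E q) ^ (-k) =
      CK k μ * (1 + (q - E q) ^ 2) ^ (-(k / 2)))
    {Q0 : ℝ} (hbase : ∀ q, q ≤ -Q0 → q < ε0 → ∃ t, 0 < t ∧ t ≤ tcr k μ ∧
      Vr k μ t = (-q * (μ - 1) / E q, (μ - 1) / E q)) :
    ∀ q, q < ε0 → ∀ s, E q = dn s q := by
  intro q hq s
  have := E_eq_dp hL.mirror hE hrec hbase q hq s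
  simp only [neg_neg] at this
  exact this

/-- Main theorem: `E(q)^(-k) + E(-q)^(-k) = C (1+q^2)^(-k/2)` for `|q| < ε0`. -/
theorem body_end (hL : LineSys k μ dn dp) {E : ℝ → ℝ} {ε0 : ℝ}
    (hE : ∀ q, q < ε0 → 0 < E q)
    (hrec : ∀ q, q < ε0 → E q ^ (-k) + E (q - E q) ^ (-k) =
      CK k μ * (1 + (q - E q) ^ 2) ^ (-(k / 2)))
    {Q0 : ℝ} (hbase : ∀ q, q ≤ -Q0 → q < ε0 → ∃ t, 0 < t ∧ t ≤ tcr k μ ∧
      Vr k μ t = (-q * (μ - 1) / E q, (μ - 1) / E q)) :
    ∀ q, |q| < ε0 →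
      E q ^ (-k) + E (-q) ^ (-k) = CK k μ * (1 + q ^ 2) ^ (-(k / 2)) := by
  intro q hq
  obtain ⟨h1, h2⟩ := abs_lt.1 hq
  rw [E_eq_dn hL hE hrec hbase q h2 true, E_eq_dp hL hE hrec hbase (-q) (by linarith) true,
    neg_neg]
  exact rel_neg hL true q

end EQH
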