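import Mathlib

/-! The contact lemma (C0): `g`, `h` in the closed half strip `Re ≤ 0`, `0 ≤ Im ≤ pi/2`,
`D = sinh h - sinh g ≠ 0`, `Re D ≥ 0` and `Re h ≤ Re g` imply
`Re (D / cosh g) < |Im (D / cosh g)|`, i.e. `|arg (cosh g / D)| > pi/4`. -/

set_option autoImplicit false

namespace EQH

open Complex

/-- the one variable inequality behind it -/
theorem contact_alg {t C S : ℝ} (ht0 : 0 ≤ t) (ht1 : t < 1) (hC : 0 < C) (hS : 0 ≤ S)
    (h1 : C ^ 2 + S ^ 2 = 1) : 0 < C ^ 2 - t * C + t ^ 2 * (S + S ^ 2) := by
  rcases lt_or_ge C t with h | h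
  · have ht : 0 < t := by linarith
    have hS' : 0 < S := by
      rcases hS.lt_or_eq with h2 | h2
      · exact h2
      · rw [← h2] at h1
        nlinarith
    rcases lt_or_ge (1 / 4) (S + S ^ 2) with h2 | h2
    · have h3 : 0 ≤ (C - t / 2) ^ 2 := sq_nonneg _
      have h4 : 0 < t ^ 2 * (S + S ^ 2 - 1 / 4) := by
        have : 0 < S + S ^ 2 - 1 / 4 := by linarith
        positivity
      nlinarith
    · have hS4 : S ≤ 1 / 4 := by nlinarith
      have hC1 : C < 1 := by linarith
      have e1 : C * (1 - C) ≤ S ^ 2 / 2 := by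
        have : (1 - C) * (1 + C) = S ^ 2 := by linarith [h1]
        nlinarith
      have e2 : C * (t - C) ≤ C * (1 - C) := by
        apply mul_le_mul_of_nonneg_left _ hC.le
        linarith
      have e3 : C ^ 2 * (S + S ^ 2) ≤ t ^ 2 * (S + S ^ 2) := by
        apply mul_le_mul_of_nonneg_right _ (by positivity)
        nlinarith
      have e4 : 15 / 16 ≤ C ^ 2 := by nlinarith
      have e5 : S ^ 2 / 2 < C ^ 2 * (S + S ^ 2) := by
        have : 15 / 16 * (S + S ^ 2) ≤ C ^ 2 * (S + S ^ 2) :=
          mul_le_mul_of_nonneg_right e4 (by positivity)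
        nlinarith
      nlinarith
  · rcases h.lt_or_eq with h2 | h2
    · have h3 : 0 < C * (C - t) := mul_pos hC (by linarith)
      have h4 : 0 ≤ t ^ 2 * (S + S ^ 2) := by positivity
      nlinarith
    · have hS' : 0 < S := by
        rcases hS.lt_or_eq with h5 | h5
        · exact h5
        · exfalso
          rw [← h5] at h1
          have : C < 1 := by linarith
          nlinarith
      have : 0 < t ^ 2 * (S + S ^ 2) := by
        have : 0 < t := by linarith
        positivity
      rw [← h2]
      nlinarith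

/-- real form -/
theorem contact_real {A CA B CB C S c s : ℝ} (hA : 0 < A) (hCA : 0 < CA) (hCA2 : CA ^ 2 = 1 + A ^ 2)
    (hAB : A ≤ B) (hCB : 0 < CB) (hCB2 : CB ^ 2 = 1 + B ^ 2) (hC : 0 ≤ C) (hS : 0 ≤ S)
    (hCS : C ^ 2 + S ^ 2 = 1) (hc : 0 ≤ c) (hs : 0 ≤ s) (hcs : c ^ 2 + s ^ 2 = 1)
    (hD : 0 ≤ A * C - B * c) (hne : ¬ (A * C - B * c = 0 ∧ CB * s - CA * S = 0)) :
    (A * C - B * c) * (CA * C - A * S) < (CB * s - CA * S) * (CA * C + A * S) := by
  have hCAB : CA ≤ CB := by
    by_contra hcon
    rw [not_le] at hcon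
    nlinarith
  have hcC : c ≤ C := by
    have h1 : A * c ≤ B * c := mul_le_mul_of_nonneg_right hAB hc
    have h2 : A * c ≤ A * C := by linarith
    exact le_of_mul_le_mul_left h2 hA
  have hSs : S ≤ s := by
    by_contra hcon
    rw [not_le] at hcon
    nlinarith
  have hDi0 : CA * (s - S) ≤ CB * s - CA * S := by
    have : CA * s ≤ CB * s := mul_le_mul_of_nonneg_right hCAB hs
    linarith
  have hDr0 : A * C - B * c ≤ A * (C - c) := by
    have : A * c ≤ B * c := mul_le_mul_of_nonneg_right hAB hc
    linarith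
  rcases hcC.lt_or_eq with hlt | heq
  · have hC0 : 0 < C := lt_of_le_of_lt hc hlt
    have hSs' : S < s := by
      by_contra hcon
      rw [not_lt] at hcon
      have : s = S := le_antisymm hcon hSs
      rw [this] at hcs
      nlinarith
    have hDi : 0 < CB * s - CA * S := by
      have : 0 < CA * (s - S) := mul_pos hCA (by linarith)
      linarith
    have hpos : 0 < CA * C + A * S := by positivity
    rcases le_or_gt (CA * C - A * S) 0 with h0 | h0
    · have h1 : (A * C - B * c) * (CA * C - A * S) ≤ 0 :=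
        mul_nonpos_of_nonneg_of_nonpos hD h0
      have h2 : 0 < (CB * s - CA * S) * (CA * C + A * S) := mul_pos hDi hpos
      linarith
    · have h1 : (A * C - B * c) * (CA * C - A * S) ≤ A * (C - c) * (CA * C - A * S) :=
        mul_le_mul_of_nonneg_right hDr0 h0.le
      have h2 : CA * (s - S) * (CA * C + A * S) ≤ (CB * s - CA * S) * (CA * C + A * S) :=
        mul_le_mul_of_nonneg_right hDi0 hpos.le
      -- `C (C - c) ≤ (s - S) (1 + S)`
      have h3 : C * (C - c) ≤ (s - S) * (1 + S) := by
        have e : (C - c) * (C + c) = (s - S) * (s + S) := by nlinarith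
        have s1 : s ≤ 1 := by nlinarith
        have : C * (C - c) ≤ (C - c) * (C + c) := by nlinarith
        have : (s - S) * (s + S) ≤ (s - S) * (1 + S) :=
          mul_le_mul_of_nonneg_left (by linarith) (by linarith)
        linarith
      have h4 : 0 < CA ^ 2 * C ^ 2 - A * CA * C + A ^ 2 * (S + S ^ 2) := by
        have := contact_alg (t := A / CA) (C := C) (S := S) (by positivity)
          (by rw [div_lt_one hCA]; nlinarith) hC0 hS hCS
        have h5 : CA ^ 2 * (C ^ 2 - A / CA * C + (A / CA) ^ 2 * (S + S ^ 2)) =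
            CA ^ 2 * C ^ 2 - A * CA * C + A ^ 2 * (S + S ^ 2) := by
          field_simp
        rw [← h5]
        positivity
      have h5 : A * (C - c) * (CA * C - A * S) * C < CA * (s - S) * (CA * C + A * S) * C := by
        have e1 : A * (C - c) * (CA * C - A * S) * C ≤
            A * (CA * C - A * S) * ((s - S) * (1 + S)) := by
          have := mul_le_mul_of_nonneg_left h3 (mul_pos hA h0).le
          linarith
        have e2 : CA * (s - S) * (CA * C + A * S) * C - A * (CA * C - A * S) * ((s - S) * (1 + S))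
            = (s - S) * (CA ^ 2 * C ^ 2 - A * CA * C + A ^ 2 * (S + S ^ 2)) := by ring
        have e3 := mul_pos (sub_pos.mpr hSs') h4
        linarith
      have h6 : A * (C - c) * (CA * C - A * S) < CA * (s - S) * (CA * C + A * S) :=
        lt_of_mul_lt_mul_right h5 hC0.le
      linarith
  · have hsS : s = S := by
      have : s ^ 2 = S ^ 2 := by rw [heq] at hcs; linarith
      nlinarith
    subst heq
    subst hsS
    have hz : A * c - B * c = 0 := by
      have : A * c ≤ B * c := mul_le_mul_of_nonneg_right hAB hc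
      linarith
    have hDi : CB * s - CA * s ≠ 0 := fun h => hne ⟨hz, h⟩
    have hDi' : 0 < CB * s - CA * s := by
      have : CA * s ≤ CB * s := mul_le_mul_of_nonneg_right hCAB hs
      exact lt_of_le_of_ne (by linarith) (Ne.symm hDi)
    have hs0 : 0 < s := by
      rcases hs.lt_or_eq with h | h
      · exact h
      · rw [← h] at hDi; simp at hDi
    rw [hz, zero_mul]
    have : 0 ≤ CA * c := by positivity
    have : 0 < A * s := by positivity
    exact mul_pos hDi' (by linarith)

/-- The contact lemma. -/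
theorem contact {g h : ℂ} (hg : g.re ≤ 0) (hg1 : 0 ≤ g.im) (hg2 : g.im ≤ Real.pi / 2)
    (hg3 : cosh g ≠ 0) (hh1 : 0 ≤ h.im) (hh2 : h.im ≤ Real.pi / 2) (hle : h.re ≤ g.re)
    (hD : 0 ≤ (sinh h - sinh g).re) (hne : sinh h ≠ sinh g) :
    ((sinh h - sinh g) / cosh g).re < |((sinh h - sinh g) / cosh g).im| := by
  have e1 : ∀ z : ℂ, (sinh z).re = Real.sinh z.re * Real.cos z.im := by
    intro z
    conv_lhs => rw [← Complex.re_add_im z]
    rw [Complex.sinh_add, Complex.sinh_mul_I, Complex.cosh_mul_I]
    simp [Complex.sinh_ofReal_re, Complex.cosh_ofReal_re, Complex.sinh_ofReal_im,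
      Complex.cosh_ofReal_im, Complex.cos_ofReal_re, Complex.sin_ofReal_re,
      Complex.cos_ofReal_im, Complex.sin_ofReal_im]
  have e2 : ∀ z : ℂ, (sinh z).im = Real.cosh z.re * Real.sin z.im := by
    intro z
    conv_lhs => rw [← Complex.re_add_im z]
    rw [Complex.sinh_add, Complex.sinh_mul_I, Complex.cosh_mul_I]
    simp [Complex.sinh_ofReal_re, Complex.cosh_ofReal_re, Complex.sinh_ofReal_im,
      Complex.cosh_ofReal_im, Complex.cos_ofReal_re, Complex.sin_ofReal_re,
      Complex.cos_ofReal_im, Complex.sin_ofReal_im]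
  have e3 : (cosh g).re = Real.cosh g.re * Real.cos g.im := by
    conv_lhs => rw [← Complex.re_add_im g]
    rw [Complex.cosh_add, Complex.sinh_mul_I, Complex.cosh_mul_I]
    simp [Complex.sinh_ofReal_re, Complex.cosh_ofReal_re, Complex.sinh_ofReal_im,
      Complex.cosh_ofReal_im, Complex.cos_ofReal_re, Complex.sin_ofReal_re,
      Complex.cos_ofReal_im, Complex.sin_ofReal_im]
  have e4 : (cosh g).im = Real.sinh g.re * Real.sin g.im := by
    conv_lhs => rw [← Complex.re_add_im g]
    rw [Complex.cosh_add, Complex.sinh_mul_I, Complex.cosh_mul_I]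
    simp [Complex.sinh_ofReal_re, Complex.cosh_ofReal_re, Complex.sinh_ofReal_im,
      Complex.cosh_ofReal_im, Complex.cos_ofReal_re, Complex.sin_ofReal_re,
      Complex.cos_ofReal_im, Complex.sin_ofReal_im]
  have hN : 0 < Complex.normSq (cosh g) := Complex.normSq_pos.mpr hg3
  have cg : 0 ≤ Real.cos g.im := Real.cos_nonneg_of_neg_pi_div_two_le_of_le (by linarith [Real.pi_pos]) hg2
  have sg : 0 ≤ Real.sin g.im := Real.sin_nonneg_of_nonneg_of_le_pi hg1 (by linarith [Real.pi_pos])
  have ch : 0 ≤ Real.cos h.im := Real.cos_nonneg_of_neg_pi_div_two_le_of_le (by linarith [Real.pi_pos]) hh2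
  have sh : 0 ≤ Real.sin h.im := Real.sin_nonneg_of_nonneg_of_le_pi hh1 (by linarith [Real.pi_pos])
  have key : (sinh h - sinh g).re * (cosh g).re + (sinh h - sinh g).im * (cosh g).im <
      |(sinh h - sinh g).im * (cosh g).re - (sinh h - sinh g).re * (cosh g).im| := by
    rcases hg.lt_or_eq with hlt | heq
    · have := contact_real (A := Real.sinh (-g.re)) (CA := Real.cosh (-g.re))
        (B := Real.sinh (-h.re)) (CB := Real.cosh (-h.re)) (C := Real.cos g.im)
        (S := Real.sin g.im) (c := Real.cos h.im) (s := Real.sin h.im)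
        (Real.sinh_pos_iff.mpr (by linarith)) (Real.cosh_pos _)
        (by rw [Real.cosh_sq]; ring) (Real.sinh_le_sinh.mpr (by linarith)) (Real.cosh_pos _)
        (by rw [Real.cosh_sq]; ring) cg sg (by rw [add_comm]; exact Real.sin_sq_add_cos_sq _) ch sh
        (by rw [add_comm]; exact Real.sin_sq_add_cos_sq _)
        (by
          rw [sub_re, e1, e1] at hD
          rw [Real.sinh_neg, Real.sinh_neg]
          linarith)
        (by
          rintro ⟨h1, h2⟩
          apply hne
          rw [Real.sinh_neg, Real.sinh_neg] at h1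
          rw [Real.cosh_neg, Real.cosh_neg] at h2
          apply Complex.ext
          · rw [e1, e1]; linarith
          · rw [e2, e2]; linarith)
      rw [Real.sinh_neg, Real.sinh_neg, Real.cosh_neg, Real.cosh_neg] at this
      refine lt_of_lt_of_le ?_ (le_abs_self _)
      rw [sub_re, sub_im, e1, e1, e2, e2, e3, e4]
      linarith
    · have hA : (cosh g).im = 0 := by rw [e4, heq, Real.sinh_zero, zero_mul]
      have hA1 : (cosh g).re ≠ 0 := by
        intro h0
        exact hg3 (Complex.ext h0 hA)
      have hc : 0 < Real.cos g.im := by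
        rcases cg.lt_or_eq with h1 | h1
        · exact h1
        · exfalso; apply hA1; rw [e3, ← h1, mul_zero]
      have hr : (sinh h - sinh g).re = 0 := by
        apply le_antisymm _ hD
        rw [sub_re, e1, e1, heq, Real.sinh_zero, zero_mul, sub_zero]
        have : Real.sinh h.re ≤ 0 := by
          rw [Real.sinh_nonpos_iff]; linarith
        exact mul_nonpos_of_nonpos_of_nonneg this ch
      have hi : (sinh h - sinh g).im ≠ 0 := by
        intro h0
        apply hne
        exact sub_eq_zero.mp (Complex.ext hr h0)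
      rw [hA, hr]
      simp only [zero_mul, mul_zero, zero_add, sub_zero]
      exact abs_pos.mpr (mul_ne_zero hi hA1)
  rw [Complex.div_re, Complex.div_im]
  rw [← sub_div, abs_div, abs_of_pos hN, ← add_div]
  exact div_lt_div_of_pos_right key hN

end EQH
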