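import Mathlib

/-! Directions of an analytic function at a zero. -/

set_option autoImplicit false

namespace EQH

open Complex Filter Topology Set

private theorem tendsto_ray (x0 w : ℂ) :
    Tendsto (fun ε : ℝ => x0 + ε * w) (𝓝[>] 0) (𝓝 x0) := by
  have h : Continuous (fun ε : ℝ => x0 + ε * w) := by fun_prop
  have h2 := h.tendsto 0
  simp only [ofReal_zero, zero_mul, add_zero] at h2
  exact h2.mono_left nhdsWithin_le_nhds

/-- A zero of an analytic function has a first nonzero coefficient `B`, of order `m ≥ 1`, and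
`g (x0 + ε e^{iθ}) / ε^m -> B e^{i m θ}` as `ε -> 0+`.
(`AnalyticAt.exists_eventuallyEq_pow_smul_nonzero_iff`.) -/
theorem order_dir {g : ℂ → ℂ} {x0 : ℂ} (hg : AnalyticAt ℂ g x0) (h0 : g x0 = 0)
    (hn : ¬ ∀ᶠ x in 𝓝 x0, g x = 0) :
    ∃ (m : ℕ) (B : ℂ), 1 ≤ m ∧ B ≠ 0 ∧ (m = 1 → deriv g x0 = B) ∧ ∀ θ : ℝ,
      Tendsto (fun ε : ℝ => g (x0 + ε * exp (θ * I)) / (ε : ℂ) ^ m) (𝓝[>] 0)
        (𝓝 (B * exp (m * θ * I))) := by
  obtain ⟨m, h, hh, hh0, he⟩ := hg.exists_eventuallyEq_pow_smul_nonzero_iff.mpr hn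
  refine ⟨m, h x0, ?_, hh0, ?_, ?_⟩
  · rcases Nat.eq_zero_or_pos m with rfl | hm
    · exact absurd (by simpa [h0] using he.self_of_nhds) (Ne.symm hh0)
    · exact hm
  · rintro rfl
    have h1 : deriv g x0 = deriv (fun z => (z - x0) * h z) x0 := by
      apply Filter.EventuallyEq.deriv_eq
      filter_upwards [he] with z hz
      simpa using hz
    rw [h1, deriv_fun_mul (by fun_prop) hh.differentiableAt]
    simp
  · intro θ
    have h1 := tendsto_ray x0 (exp (θ * I))
    have h2 : Tendsto (fun ε : ℝ => exp (m * θ * I) * h (x0 + ε * exp (θ * I))) (𝓝[>] 0)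
        (𝓝 (exp (m * θ * I) * h x0)) :=
      tendsto_const_nhds.mul (hh.continuousAt.tendsto.comp h1)
    rw [mul_comm (h x0)]
    refine h2.congr' ?_
    filter_upwards [h1.eventually he, self_mem_nhdsWithin] with ε hε hpos
    have hne : (ε : ℂ) ≠ 0 := by
      exact_mod_cast (ne_of_gt hpos)
    rw [hε]
    simp only [add_sub_cancel_left, smul_eq_mul, mul_pow]
    rw [← Complex.exp_nat_mul, ← mul_assoc (m : ℂ)]
    field_simp

private theorem im_le_of_dir {g : ℂ → ℂ} {x0 w : ℂ} {θ : ℝ} {m : ℕ}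
    (ht : Tendsto (fun ε : ℝ => g (x0 + ε * exp (θ * I)) / (ε : ℂ) ^ m) (𝓝[>] 0) (𝓝 w))
    (hle : ∀ᶠ ε : ℝ in 𝓝[>] 0, (g (x0 + ε * exp (θ * I))).im ≤ 0) : w.im ≤ 0 := by
  have h1 := (Complex.continuous_im.tendsto w).comp ht
  refine le_of_tendsto h1 ?_
  filter_upwards [hle, self_mem_nhdsWithin] with ε h hpos
  have hpos : 0 < ε := hpos
  simp only [Function.comp]
  rw [← ofReal_pow, div_ofReal_im]
  exact div_nonpos_of_nonpos_of_nonneg h (by positivity)

private theorem dir_im (B : ℂ) (m : ℕ) (θ : ℝ) :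
    (B * exp (m * θ * I)).im = B.re * Real.sin (m * θ) + B.im * Real.cos (m * θ) := by
  have h : (m : ℂ) * θ * I = ((m * θ : ℝ) : ℂ) * I := by push_cast; ring
  rw [h, mul_im, exp_ofReal_mul_I_im, exp_ofReal_mul_I_re]

private theorem dir_re (B : ℂ) (m : ℕ) (θ : ℝ) :
    (B * exp (m * θ * I)).re = B.re * Real.cos (m * θ) - B.im * Real.sin (m * θ) := by
  have h : (m : ℂ) * θ * I = ((m * θ : ℝ) : ℂ) * I := by push_cast; ring
  rw [h, mul_re, exp_ofReal_mul_I_im, exp_ofReal_mul_I_re]

private theorem ray_re (x0 : ℂ) (ε θ : ℝ) :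
    (x0 + ε * exp (θ * I)).re = x0.re + ε * Real.cos θ := by
  simp [exp_ofReal_mul_I_re]

private theorem ray_im (x0 : ℂ) (ε θ : ℝ) :
    (x0 + ε * exp (θ * I)).im = x0.im + ε * Real.sin θ := by
  simp [exp_ofReal_mul_I_im]

private theorem exp_neg_half : exp (((-(Real.pi / 2) : ℝ) : ℂ) * I) = -I := by
  apply Complex.ext
  · rw [exp_ofReal_mul_I_re]; simp
  · rw [exp_ofReal_mul_I_im]; simp

/-- Interior zero on the right edge of a region where `Im g ≤ 0`: the values on the vertical
just below `x0` are asymptotically positive. Proof: `order_dir`; `Im (B e^{imθ}) ≤ 0` for all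
`θ` in `[pi/2, 3pi/2]`; for `m ≥ 2` the angles `pi`, `pi ± pi/m`, `pi ± pi/(2m)` force `B = 0`;
for `m = 1` they give `B = iβ`, `β > 0`; at `θ = 3 pi / 2` the limit is `β`. -/
theorem dir_left {g : ℂ → ℂ} {x0 : ℂ} (hg : AnalyticAt ℂ g x0) (h0 : g x0 = 0)
    (hn : ¬ ∀ᶠ x in 𝓝 x0, g x = 0)
    (hle : ∀ᶠ x in 𝓝 x0, x.re ≤ x0.re → (g x).im ≤ 0) :
    ∃ (m : ℕ) (c : ℝ), 0 < c ∧
      Tendsto (fun η : ℝ => g (x0 - η * I) / (η : ℂ) ^ m) (𝓝[>] 0) (𝓝 (c : ℂ)) := by
  obtain ⟨m, B, hm, hB, -, ht⟩ := order_dir hg h0 hn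
  have key : ∀ θ : ℝ, Real.cos θ ≤ 0 →
      B.re * Real.sin (m * θ) + B.im * Real.cos (m * θ) ≤ 0 := by
    intro θ hθ
    rw [← dir_im]
    refine im_le_of_dir (ht θ) ?_
    filter_upwards [(tendsto_ray x0 (exp (θ * I))).eventually hle, self_mem_nhdsWithin]
      with ε h hpos
    have hpos : 0 < ε := hpos
    apply h
    rw [ray_re]
    nlinarith
  have hpi := Real.pi_pos
  have hsin : Real.sin (m * Real.pi) = 0 := Real.sin_nat_mul_pi m
  have hcos : Real.cos (m * Real.pi) * Real.cos (m * Real.pi) = 1 := by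
    have := Real.sin_sq_add_cos_sq (m * Real.pi)
    rw [hsin] at this
    nlinarith
  rcases Nat.lt_or_ge 1 m with h2 | h1
  · exfalso
    have hm0 : (0 : ℝ) < m := by exact_mod_cast hm
    have hm2 : (2 : ℝ) ≤ m := by exact_mod_cast h2
    have hne : (m : ℝ) ≠ 0 := ne_of_gt hm0
    have hq : Real.pi / m ≤ Real.pi / 2 := by
      apply div_le_div_of_nonneg_left hpi.le (by norm_num) hm2
    have hq0 : 0 < Real.pi / m := by positivity
    have hq' : Real.pi / (2 * m) ≤ Real.pi / 2 := by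
      apply div_le_div_of_nonneg_left hpi.le (by norm_num) (by linarith)
    have hq0' : 0 < Real.pi / (2 * m) := by positivity
    have k1 := key Real.pi (by simp)
    have k2 := key (Real.pi + Real.pi / m) (by
      rw [add_comm, Real.cos_add_pi]
      have := Real.cos_nonneg_of_neg_pi_div_two_le_of_le (x := Real.pi / m) (by linarith) hq
      linarith)
    have k3 := key (Real.pi + Real.pi / (2 * m)) (by
      rw [add_comm, Real.cos_add_pi]
      have := Real.cos_nonneg_of_neg_pi_div_two_le_of_le (x := Real.pi / (2 * m)) (by linarith) hq'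
      linarith)
    have k4 := key (Real.pi - Real.pi / (2 * m)) (by
      rw [Real.cos_pi_sub]
      have := Real.cos_nonneg_of_neg_pi_div_two_le_of_le (x := Real.pi / (2 * m)) (by linarith) hq'
      linarith)
    have e2 : (m : ℝ) * (Real.pi + Real.pi / m) = m * Real.pi + Real.pi := by field_simp
    have e3 : (m : ℝ) * (Real.pi + Real.pi / (2 * m)) = m * Real.pi + Real.pi / 2 := by
      field_simp
    have e4 : (m : ℝ) * (Real.pi - Real.pi / (2 * m)) = m * Real.pi - Real.pi / 2 := by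
      field_simp
    rw [e2, Real.sin_add_pi, Real.cos_add_pi] at k2
    rw [e3, Real.sin_add_pi_div_two, Real.cos_add_pi_div_two] at k3
    rw [e4, Real.sin_sub_pi_div_two, Real.cos_sub_pi_div_two] at k4
    rw [hsin] at k1 k2 k3 k4
    have b1 : B.im * Real.cos (m * Real.pi) = 0 := by linarith
    have b2 : B.re * Real.cos (m * Real.pi) = 0 := by linarith
    apply hB
    apply Complex.ext
    · have : B.re = B.re * Real.cos (m * Real.pi) * Real.cos (m * Real.pi) := by
        rw [mul_assoc, hcos, mul_one]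
      rw [this, b2]; simp
    · have : B.im = B.im * Real.cos (m * Real.pi) * Real.cos (m * Real.pi) := by
        rw [mul_assoc, hcos, mul_one]
      rw [this, b1]; simp
  · have hm1 : m = 1 := by omega
    subst hm1
    have k1 := key (Real.pi / 2) (by simp)
    have k2 := key (-(Real.pi / 2)) (by simp)
    have k3 := key Real.pi (by simp)
    simp at k1 k2 k3
    have hre : B.re = 0 := le_antisymm k1 k2
    have him : 0 < B.im := by
      rcases k3.lt_or_eq with h | h
      · exact h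
      · exact absurd (Complex.ext hre h.symm) hB
    refine ⟨1, B.im, him, ?_⟩
    have t := ht (-(Real.pi / 2))
    rw [exp_neg_half] at t
    have e1 : ∀ η : ℝ, x0 + η * -I = x0 - η * I := fun η => by ring
    simp only [e1] at t
    have e2 : B * exp (((1 : ℕ) : ℂ) * ((-(Real.pi / 2) : ℝ) : ℂ) * I) = (B.im : ℂ) := by
      rw [Nat.cast_one, one_mul, exp_neg_half]
      apply Complex.ext <;> simp [hre]
    rwa [e2] at t

/-- Zero at the upper corner of a region (quarter disc `Re x ≤ Re x0`, `Im x ≤ Im x0`) where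
`Im g ≤ 0`, with `g` real and `≤ 0` on the horizontal edge: either a simple zero with positive
derivative, or the values on the vertical just below `x0` are asymptotically positive (double
zero). Proof: `order_dir` with `θ` in `[pi, 3pi/2]`: at `θ = pi`, `B (-1)^m < 0` is real, so
`B e^{imθ} = -|B| e^{im(θ - pi)}`, and `sin (m φ) ≥ 0` for `φ` in `[0, pi/2]` forces `m ≤ 2`
(take `φ = 3 pi / (2m)`). -/
theorem dir_corner {g : ℂ → ℂ} {x0 : ℂ} (hg : AnalyticAt ℂ g x0) (h0 : g x0 = 0)
    (hn : ¬ ∀ᶠ x in 𝓝 x0, g x = 0)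
    (hle : ∀ᶠ x in 𝓝 x0, x.re ≤ x0.re → x.im ≤ x0.im → (g x).im ≤ 0)
    (htop : ∀ᶠ x in 𝓝 x0, x.re ≤ x0.re → x.im = x0.im → (g x).im = 0 ∧ (g x).re ≤ 0) :
    (0 < (deriv g x0).re ∧ (deriv g x0).im = 0) ∨
      ∃ (m : ℕ) (c : ℝ), 0 < c ∧
        Tendsto (fun η : ℝ => g (x0 - η * I) / (η : ℂ) ^ m) (𝓝[>] 0) (𝓝 (c : ℂ)) := by
  obtain ⟨m, B, hm, hB, hd, ht⟩ := order_dir hg h0 hn
  have key : ∀ θ : ℝ, Real.cos θ ≤ 0 → Real.sin θ ≤ 0 →
      B.re * Real.sin (m * θ) + B.im * Real.cos (m * θ) ≤ 0 := by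
    intro θ hθ hθ'
    rw [← dir_im]
    refine im_le_of_dir (ht θ) ?_
    filter_upwards [(tendsto_ray x0 (exp (θ * I))).eventually hle, self_mem_nhdsWithin]
      with ε h hpos
    have hpos : 0 < ε := hpos
    apply h
    · rw [ray_re]
      nlinarith
    · rw [ray_im]
      nlinarith
  have hpi := Real.pi_pos
  have hsin : Real.sin (m * Real.pi) = 0 := Real.sin_nat_mul_pi m
  have hcos : Real.cos (m * Real.pi) * Real.cos (m * Real.pi) = 1 := by
    have := Real.sin_sq_add_cos_sq (m * Real.pi)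
    rw [hsin] at this
    nlinarith
  -- the horizontal edge
  have hedge : ∀ᶠ ε : ℝ in 𝓝[>] 0,
      (g (x0 + ε * exp (Real.pi * I)) / (ε : ℂ) ^ m).im = 0 ∧
      (g (x0 + ε * exp (Real.pi * I)) / (ε : ℂ) ^ m).re ≤ 0 := by
    filter_upwards [(tendsto_ray x0 (exp (Real.pi * I))).eventually htop, self_mem_nhdsWithin]
      with ε h hpos
    have hpos : 0 < ε := hpos
    obtain ⟨h1, h2⟩ := h (by rw [ray_re]; simp [hpos.le]) (by rw [ray_im]; simp)
    rw [← ofReal_pow, div_ofReal_im, div_ofReal_re, h1]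
    exact ⟨by simp, div_nonpos_of_nonpos_of_nonneg h2 (by positivity)⟩
  have him0 : (B * exp (m * (Real.pi : ℝ) * I)).im = 0 := by
    have h1 := (Complex.continuous_im.tendsto _).comp (ht Real.pi)
    refine tendsto_nhds_unique h1 (tendsto_const_nhds.congr' ?_)
    filter_upwards [hedge] with ε h
    exact h.1.symm
  have hre0 : (B * exp (m * (Real.pi : ℝ) * I)).re ≤ 0 := by
    have h1 := (Complex.continuous_re.tendsto _).comp (ht Real.pi)
    refine le_of_tendsto h1 ?_
    filter_upwards [hedge] with ε h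
    exact h.2
  rw [dir_im, hsin] at him0
  rw [dir_re, hsin] at hre0
  have b1 : B.im = 0 := by
    have h1 : B.im * Real.cos (m * Real.pi) = 0 := by linarith
    have : B.im = B.im * Real.cos (m * Real.pi) * Real.cos (m * Real.pi) := by
      rw [mul_assoc, hcos, mul_one]
    rw [this, h1]; simp
  have b2 : B.re * Real.cos (m * Real.pi) ≤ 0 := by linarith
  have bre : B.re ≠ 0 := fun h => hB (Complex.ext h b1)
  rcases Nat.lt_or_ge 2 m with h3 | h2
  · exfalso
    have hm0 : (0 : ℝ) < m := by exact_mod_cast hm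
    have hm3 : (3 : ℝ) ≤ m := by exact_mod_cast h3
    have hne : (m : ℝ) ≠ 0 := ne_of_gt hm0
    have hq : 3 * Real.pi / (2 * m) ≤ Real.pi / 2 := by
      rw [div_le_div_iff₀ (by positivity) (by norm_num)]
      nlinarith
    have hq0 : 0 < 3 * Real.pi / (2 * m) := by positivity
    have k := key (3 * Real.pi / (2 * m) + Real.pi) (by
      rw [Real.cos_add_pi]
      have := Real.cos_nonneg_of_neg_pi_div_two_le_of_le (x := 3 * Real.pi / (2 * m))
        (by linarith) hq
      linarith) (by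
      rw [Real.sin_add_pi]
      have := Real.sin_nonneg_of_nonneg_of_le_pi (x := 3 * Real.pi / (2 * m)) hq0.le
        (by linarith)
      linarith)
    have e : (m : ℝ) * (3 * Real.pi / (2 * m) + Real.pi) =
        m * Real.pi + Real.pi / 2 + Real.pi := by
      field_simp
      ring
    rw [e, Real.sin_add_pi, Real.cos_add_pi, Real.sin_add_pi_div_two, Real.cos_add_pi_div_two,
      hsin, b1] at k
    have b3 : B.re * Real.cos (m * Real.pi) = 0 := by linarith
    apply bre
    have : B.re = B.re * Real.cos (m * Real.pi) * Real.cos (m * Real.pi) := by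
      rw [mul_assoc, hcos, mul_one]
    rw [this, b3]; simp
  · rcases (show m = 1 ∨ m = 2 by omega) with rfl | rfl
    · left
      rw [hd rfl]
      simp at b2
      exact ⟨lt_of_le_of_ne b2 (Ne.symm bre), b1⟩
    · right
      have hb : B.re < 0 := by
        refine lt_of_le_of_ne ?_ bre
        have : Real.cos (((2 : ℕ) : ℝ) * Real.pi) = 1 := by
          push_cast
          exact Real.cos_two_pi
        rw [this] at b2
        linarith
      refine ⟨2, -B.re, by linarith, ?_⟩
      have t := ht (-(Real.pi / 2))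
      rw [exp_neg_half] at t
      have e1 : ∀ η : ℝ, x0 + η * -I = x0 - η * I := fun η => by ring
      simp only [e1] at t
      have e2 : B * exp (((2 : ℕ) : ℂ) * ((-(Real.pi / 2) : ℝ) : ℂ) * I) =
          ((-B.re : ℝ) : ℂ) := by
        rw [mul_assoc, Complex.exp_nat_mul, exp_neg_half]
        apply Complex.ext <;> simp [b1, sq]
      rwa [e2] at t

end EQH
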