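import Pool.Agent.Lib.MP_226de1_co.H.Loc3
import Pool.Agent.Lib.MP_226de1_co.H.Defs

/-! Existence of the chart near `Re x = -infinity`, for every `k > 0`, `μ > 1`. -/

set_option autoImplicit false

namespace EQH

open Complex Set Filter Topology

theorem tendsto_exp_two_re : Tendsto (fun x : ℂ => Real.exp (2 * x.re))
    (comap Complex.re atBot) (𝓝 0) := by
  have h1 : Tendsto (fun s : ℝ => Real.exp (2 * s)) atBot (𝓝 0) :=
    Real.tendsto_exp_atBot.comp (tendsto_id.const_mul_atBot (by norm_num))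
  exact h1.comp tendsto_comap

theorem eventually_re_lt (b : ℝ) : ∀ᶠ x : ℂ in comap Complex.re atBot, x.re < b :=
  tendsto_comap.eventually (eventually_lt_atBot b)

theorem tendsto_of_bound {f : ℂ → ℂ} {a : ℂ} {b B : ℝ}
    (h : ∀ x : ℂ, x.re < b → ‖f x - a‖ ≤ B * Real.exp (2 * x.re)) :
    Tendsto f (comap Complex.re atBot) (𝓝 a) := by
  rw [tendsto_iff_norm_sub_tendsto_zero]
  have h1 : Tendsto (fun x : ℂ => B * Real.exp (2 * x.re)) (comap Complex.re atBot) (𝓝 0) := by
    simpa using tendsto_exp_two_re.const_mul B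
  refine squeeze_zero' (Eventually.of_forall fun x => norm_nonneg _) ?_ h1
  filter_upwards [eventually_re_lt b] with x hx using h x hx

theorem ch_exists {k μ : ℝ} (hk : 0 < k) (hμ : 1 < μ) :
    ∃ (b : ℝ) (q LX LD : ℂ → ℂ), Ch k μ b q LX LD := by
  obtain ⟨b, B, h⟩ := chart0_exists hk hμ
  have hl : 0 < Real.log μ := Real.log_pos hμ
  have hb : ∀ x : ℂ, x.re < b - Real.log μ + Real.log μ → x.re < b := fun x hx => by linarith
  have hb' : ∀ x : ℂ, x.re < b - Real.log μ → x.re < b := fun x hx => by linarith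
  refine ⟨b - Real.log μ, q0 k μ, LX0 k μ, LD0 k μ, hk, hμ, h.qan.mono hb, h.Xan.mono hb',
    h.Dan.mono hb, fun x hx => h.qper x (hb x hx), fun x hx => h.Xper x (hb' x hx),
    fun x hx => h.Dper x (hb x hx), fun x hx => h.qconj x (hb x hx),
    fun x hx => h.Xconj x (hb' x hx), fun x hx => h.Dconj x (hb x hx),
    fun x hx => h.xi x (hb' x hx), ?_, ?_, ?_, ?_, ?_⟩
  · intro x hx
    rw [h.step x (hb x hx)]
    ring
  · intro x hx
    have h1 := h.eq (x + (Real.log μ : ℂ)) (by
      rw [Complex.add_re, Complex.ofReal_re]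
      linarith)
    have h2 : x + (Real.log μ : ℂ) - (Real.log μ : ℂ) = x := by ring
    rw [h2] at h1
    rw [h1]
    rfl
  · refine tendsto_of_bound (b := b) (B := B) fun x hx => ?_
    have := h.qas x hx
    rwa [sub_neg_eq_add]
  · refine tendsto_of_bound (b := b) (B := B) fun x hx => ?_
    have := h.Xas x hx
    rwa [sub_zero]
  · exact tendsto_of_bound (b := b) (B := B) fun x hx => h.Das x hx

end EQH
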