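import Pool.Agent.Lib.MP_226de1_co.H.Steps

/-! The loop. -/

set_option autoImplicit false

namespace EQH

open Complex Filter Topology Set

variable {k μ b : ℝ} {q LX LD : ℂ → ℂ}

private theorem re_pi (x : ℂ) : (x + Real.pi * I).re = x.re := by simp

/-- `≤` on a vertical line from `<` on its left, by continuity -/
private theorem edge_cl {φ ψ : ℂ → ℝ} {β : ℝ} {x0 : ℂ} (hx0 : x0.re = β)
    (hφ : ContinuousAt φ x0) (hψ : ContinuousAt ψ x0)
    (hlt : ∀ x : ℂ, x.re < β → φ x < ψ x) : φ x0 ≤ ψ x0 := by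
  by_contra hcon
  rw [not_le] at hcon
  have h1 : ∀ᶠ x in 𝓝 x0, ψ x < φ x := hψ.eventually_lt hφ hcon
  rw [Metric.eventually_nhds_iff] at h1
  obtain ⟨ε, hε, h2⟩ := h1
  have h3 := h2 (y := x0 - (ε / 2 : ℝ)) (by
    rw [dist_eq_norm]
    have : x0 - ((ε / 2 : ℝ) : ℂ) - x0 = -((ε / 2 : ℝ) : ℂ) := by ring
    rw [this, norm_neg, Complex.norm_real, Real.norm_eq_abs, abs_of_pos (by linarith)]
    linarith)
  have h4 := hlt (x0 - (ε / 2 : ℝ)) (by
    rw [sub_re, ofReal_re]; linarith)
  linarith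

private theorem sq_cases {w : ℂ} (hw : w ^ 2 = -1) : w = I ∨ w = -I := by
  have : (w - I) * (w + I) = 0 := by
    linear_combination hw - I_sq
  rcases mul_eq_zero.mp this with h | h
  · exact Or.inl (sub_eq_zero.mp h)
  · exact Or.inr (eq_neg_of_add_eq_zero_left h)

/-- If (S_U) (for both `w`) and `Re LD' < 0` hold on `Re x < β`, `β ≤ b + log μ / 2`, then
`Re f < 1/2` on `Re x < β - log μ / 2`. Proof: `Ch.step_ru`, `Ch.derivX` give `Re LX' < 0`
on `Re x < β - log μ / 2`; `sweep` for `{Re x < β - log μ/2, Re f < 1/2}` with `Ch.step_q`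
(`≤` on the edge by continuity) and `Ch.start_f`. -/
theorem Ch.fl_of (h : Ch k μ b q LX LD) {β : ℝ} (hβ : β ≤ b + Real.log μ / 2)
    (hS : ∀ w : ℂ, w ^ 2 = -1 → ∀ x : ℂ, x.re < β → ‖q x - w‖ < ‖q (x - Real.log μ) - w‖) :
    ∀ x : ℂ, x.re < β - Real.log μ / 2 → (ff k μ LX LD x).re < 1 / 2 := by
  have hl := el_pos h.hμ
  have hRU : ∀ w : ℂ, w ^ 2 = -1 → ∀ x : ℂ, x.re < β - Real.log μ / 2 →
      (deriv q x / (q x - w)).re < 0 := by
    intro w hw x hx
    exact h.step_ru hw (c := x.re) (by linarith)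
      (fun y hy => hS w hw y (by linarith)) x rfl
  have hR : ∀ x : ℂ, x.re < β - Real.log μ / 2 → (deriv LX x).re < 0 := by
    intro x hx
    have hw : (I : ℂ) ^ 2 = -1 := I_sq
    have hw' : (-I : ℂ) ^ 2 = -1 := by rw [neg_sq, I_sq]
    rw [h.derivX hw (by linarith)]
    have h1 := hRU I hw x hx
    have h2 := hRU (-I) hw' x hx
    have h3 : ((deriv q x / (q x - I) + deriv q x / (q x - -I)) / 2).re =
        ((deriv q x / (q x - I)).re + (deriv q x / (q x - -I)).re) / 2 := by
      rw [show (2 : ℂ) = ((2 : ℝ) : ℂ) by norm_num, Complex.div_ofReal_re, add_re]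
    rw [h3]
    linarith
  obtain ⟨β0, hβ0, hst⟩ := h.start_f
  have hcont : ∀ x : ℂ, x.re < β - Real.log μ / 2 → ContinuousAt (ff k μ LX LD) x :=
    fun x hx => (h.df (by linarith)).continuousAt
  set G : Set ℂ := {x : ℂ | x.re < β - Real.log μ / 2 ∧ (ff k μ LX LD x).re < 1 / 2} with hG
  have hGo : IsOpen G := by
    rw [isOpen_iff_mem_nhds]
    rintro x ⟨h1, h2⟩
    have e1 : ∀ᶠ y : ℂ in 𝓝 x, y.re < β - Real.log μ / 2 :=
      Complex.continuous_re.continuousAt.eventually_lt continuousAt_const h1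
    have e2 : ∀ᶠ y : ℂ in 𝓝 x, (ff k μ LX LD y).re < 1 / 2 :=
      (Complex.continuous_re.continuousAt.comp (hcont x h1)).eventually_lt
        continuousAt_const h2
    filter_upwards [e1, e2] with y h3 h4 using ⟨h3, h4⟩
  have hcrit : ∀ x : ℂ, x.re < β - Real.log μ / 2 → x ∈ G := by
    refine sweep (G := G) (B := β - Real.log μ / 2) (T := Real.pi)
      (β0 := min β0 (β - Real.log μ / 2)) Real.pi_pos hGo ?_ ?_ ?_
    · intro x
      constructor
      · rintro ⟨h1, h2⟩
        refine ⟨by rw [re_pi]; exact h1, ?_⟩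
        rw [h.fpi (by linarith)]
        exact h2
      · rintro ⟨h1, h2⟩
        rw [re_pi] at h1
        refine ⟨h1, ?_⟩
        rw [h.fpi (by linarith)] at h2
        exact h2
    · intro x hx
      exact ⟨lt_of_lt_of_le hx (min_le_right _ _), hst x (lt_of_lt_of_le hx (min_le_left _ _))⟩
    · intro a ha hlt x hx
      refine ⟨by linarith, ?_⟩
      refine h.step_q (a := a) (by linarith) (fun y hy => hR y (by linarith)) ?_ x hx
      intro y hy
      exact edge_cl (φ := fun z => (ff k μ LX LD z).re) (ψ := fun _ => 1 / 2) hy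
        (Complex.continuous_re.continuousAt.comp (hcont y (by linarith))) continuousAt_const
        (fun z hz => (hlt z hz).2)
  intro x hx
  exact (hcrit x hx).2

/-- The loop theorem. `sweep` (T = pi; the set of `w` with `w^2 = -1` is `{I, -I}`, exchanged
by `x ↦ x + pi I`) for the set of `x` with `Re x < b + log μ / 2`, (S_U) for both `w`, and
`Re LD' < 0`; the step: (S_U) `≤` on the edge by continuity, `Re f ≤ 1/2` on
`Re x = β - log μ / 2` by `Ch.fl_of` and continuity, `Ch.step_m`, `Ch.step_su`. -/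
theorem Ch.loop (h : Ch k μ b q LX LD) : Lp k μ b q LX LD := by
  have hl := el_pos h.hμ
  have hI : (I : ℂ) ^ 2 = -1 := I_sq
  have hI' : (-I : ℂ) ^ 2 = -1 := by rw [neg_sq, I_sq]
  have hresub : ∀ x : ℂ, (x - (Real.log μ : ℂ)).re = x.re - Real.log μ := by
    intro x; simp
  have qc : ∀ (w x : ℂ), x.re < b + Real.log μ → ContinuousAt (fun z => ‖q z - w‖) x :=
    fun w x hx => ((h.dq' hx).continuousAt.sub continuousAt_const).norm
  have qc' : ∀ (w x : ℂ), x.re < b + Real.log μ →
      ContinuousAt (fun z => ‖q (z - Real.log μ) - w‖) x := by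
    intro w x hx
    have h1 : ContinuousAt q (x - Real.log μ) :=
      (h.dq' (by rw [hresub]; linarith)).continuousAt
    have h2 : ContinuousAt (fun z : ℂ => q (z - Real.log μ)) x :=
      ContinuousAt.comp (f := fun z : ℂ => z - (Real.log μ : ℂ)) (g := q) h1 (by fun_prop)
    exact (h2.sub continuousAt_const).norm
  have Dc : ∀ x : ℂ, x.re < b + Real.log μ → ContinuousAt (fun z => (deriv LD z).re) x := by
    intro x hx
    have hopen : IsOpen {x : ℂ | x.re < b + Real.log μ} :=
      isOpen_lt Complex.continuous_re continuous_const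
    have h1 : DifferentiableOn ℂ (deriv LD) {x : ℂ | x.re < b + Real.log μ} :=
      h.dD.deriv hopen
    exact Complex.continuous_re.continuousAt.comp
      ((h1.differentiableAt (hopen.mem_nhds hx)).continuousAt)
  set G : Set ℂ := {x : ℂ | x.re < b + Real.log μ / 2 ∧ ‖q x - I‖ < ‖q (x - Real.log μ) - I‖ ∧
    ‖q x - -I‖ < ‖q (x - Real.log μ) - -I‖ ∧ (deriv LD x).re < 0} with hG
  have hGo : IsOpen G := by
    rw [isOpen_iff_mem_nhds]
    rintro x ⟨h1, h2, h3, h4⟩
    have hb : x.re < b + Real.log μ := by linarith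
    have e1 : ∀ᶠ y : ℂ in 𝓝 x, y.re < b + Real.log μ / 2 :=
      Complex.continuous_re.continuousAt.eventually_lt continuousAt_const h1
    have e2 : ∀ᶠ y : ℂ in 𝓝 x, ‖q y - I‖ < ‖q (y - Real.log μ) - I‖ :=
      (qc I x hb).eventually_lt (qc' I x hb) h2
    have e3 : ∀ᶠ y : ℂ in 𝓝 x, ‖q y - -I‖ < ‖q (y - Real.log μ) - -I‖ :=
      (qc (-I) x hb).eventually_lt (qc' (-I) x hb) h3
    have e4 : ∀ᶠ y : ℂ in 𝓝 x, (deriv LD y).re < 0 :=
      (Dc x hb).eventually_lt continuousAt_const h4
    filter_upwards [e1, e2, e3, e4] with y h5 h6 h7 h8 using ⟨h5, h6, h7, h8⟩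
  obtain ⟨β1, hβ1, hs1⟩ := h.start_su
  obtain ⟨β2, hβ2, hs2⟩ := h.start_mp
  have nq : ∀ (x w : ℂ), ‖-q x - w‖ = ‖q x - -w‖ := by
    intro x w
    rw [← norm_neg]
    congr 1
    ring
  have dper : ∀ x : ℂ, x.re < b + Real.log μ →
      deriv LD (x + Real.pi * I) = deriv LD x := by
    intro x hx
    have h1 : (fun z => LD (z + Real.pi * I)) =ᶠ[𝓝 x] fun z => LD z - Real.pi * I := by
      have : ∀ᶠ y : ℂ in 𝓝 x, y.re < b + Real.log μ :=
        Complex.continuous_re.continuousAt.eventually_lt continuousAt_const hx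
      filter_upwards [this] with y hy using h.Dpi y hy
    have h2 := h1.deriv_eq
    rw [deriv_sub_const, deriv_comp_add_const] at h2
    exact h2
  have hall : ∀ x : ℂ, x.re < b + Real.log μ / 2 → x ∈ G := by
    refine sweep (G := G) (B := b + Real.log μ / 2) (T := Real.pi)
      (β0 := min β1 β2) Real.pi_pos hGo ?_ ?_ ?_
    · intro x
      constructor
      · rintro ⟨h1, h2, h3, h4⟩
        have hb : x.re < b + Real.log μ := by linarith
        have hb' : (x - (Real.log μ : ℂ)).re < b + Real.log μ := by rw [hresub]; linarith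
        have e1 : x + (Real.pi : ℂ) * I - (Real.log μ : ℂ) =
            (x - (Real.log μ : ℂ)) + Real.pi * I := by ring
        refine ⟨by rw [re_pi]; exact h1, ?_, ?_, ?_⟩
        · rw [e1, h.qpi _ hb, h.qpi _ hb', nq, nq]; exact h3
        · rw [e1, h.qpi _ hb, h.qpi _ hb', nq, nq, neg_neg]; exact h2
        · rw [dper x hb]; exact h4
      · rintro ⟨h1, h2, h3, h4⟩
        rw [re_pi] at h1
        have hb : x.re < b + Real.log μ := by linarith
        have hb' : (x - (Real.log μ : ℂ)).re < b + Real.log μ := by rw [hresub]; linarith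
        have e1 : x + (Real.pi : ℂ) * I - (Real.log μ : ℂ) =
            (x - (Real.log μ : ℂ)) + Real.pi * I := by ring
        rw [e1, h.qpi _ hb, h.qpi _ hb', nq, nq] at h2
        rw [e1, h.qpi _ hb, h.qpi _ hb', nq, nq, neg_neg] at h3
        rw [dper x hb] at h4
        exact ⟨h1, h3, h2, h4⟩
    · intro x hx
      have h1 : x.re < β1 := lt_of_lt_of_le hx (min_le_left _ _)
      have h2 : x.re < β2 := lt_of_lt_of_le hx (min_le_right _ _)
      exact ⟨by linarith, hs1 I hI x h1, hs1 (-I) hI' x h1, hs2 x h2⟩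
    · intro β hβ hlt x hx
      have hSU : ∀ w : ℂ, w ^ 2 = -1 → ∀ x : ℂ, x.re < β →
          ‖q x - w‖ < ‖q (x - Real.log μ) - w‖ := by
        intro w hw x hx
        rcases sq_cases hw with rfl | rfl
        · exact (hlt x hx).2.1
        · exact (hlt x hx).2.2.1
      have hSUe : ∀ w : ℂ, w ^ 2 = -1 → ∀ x : ℂ, x.re = β →
          ‖q x - w‖ ≤ ‖q (x - Real.log μ) - w‖ := by
        intro w hw x hx
        exact edge_cl hx (qc w x (by linarith)) (qc' w x (by linarith)) (hSU w hw)
      have hfl := h.fl_of hβ.le hSU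
      have hfe : ∀ x : ℂ, x.re = β - Real.log μ / 2 → (ff k μ LX LD x).re ≤ 1 / 2 := by
        intro x hx
        exact edge_cl (φ := fun z => (ff k μ LX LD z).re) (ψ := fun _ => 1 / 2) hx
          (Complex.continuous_re.continuousAt.comp (h.df (by linarith)).continuousAt)
          continuousAt_const hfl
      have hM := h.step_m hβ hfe
      exact ⟨by linarith, h.step_su hI hβ hM (hSUe I hI) x hx,
        h.step_su hI' hβ hM (hSUe (-I) hI') x hx, hM x hx⟩
  have hSUall : ∀ w : ℂ, w ^ 2 = -1 → ∀ x : ℂ, x.re < b + Real.log μ / 2 →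
      ‖q x - w‖ < ‖q (x - Real.log μ) - w‖ := by
    intro w hw x hx
    rcases sq_cases hw with rfl | rfl
    · exact (hall x hx).2.1
    · exact (hall x hx).2.2.1
  have hRU : ∀ w : ℂ, w ^ 2 = -1 → ∀ x : ℂ, x.re < b →
      (deriv q x / (q x - w)).re < 0 := by
    intro w hw x hx
    exact h.step_ru hw (c := x.re) hx (fun y hy => hSUall w hw y (by linarith)) x rfl
  refine ⟨hSUall, fun x hx => (hall x hx).2.2.2, hRU, ?_, ?_⟩
  · intro x hx
    rw [h.derivX hI hx]
    have h1 := hRU I hI x hx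
    have h2 := hRU (-I) hI' x hx
    have h3 : ((deriv q x / (q x - I) + deriv q x / (q x - -I)) / 2).re =
        ((deriv q x / (q x - I)).re + (deriv q x / (q x - -I)).re) / 2 := by
      rw [show (2 : ℂ) = ((2 : ℝ) : ℂ) by norm_num, Complex.div_ofReal_re, add_re]
    rw [h3]
    linarith
  · intro x hx
    exact h.fl_of le_rfl hSUall x (by linarith)

end EQH
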