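import Pool.Agent.Lib.MP_226de1_co.H.TPlane
import Pool.Agent.Lib.MP_226de1_co.H.Loop

/-! Continuation of the chart across `‖t‖ = ρ` when `t^2 + α^2` has no zero there. -/

set_option autoImplicit false

namespace EQH

open Complex Filter Topology Set Metric

variable {k μ ρ : ℝ} {α lX lD : ℂ → ℂ}

/-- `f` in the `t`-plane -/
noncomputable def ft (k μ : ℝ) (lX lD : ℂ → ℂ) (t : ℂ) : ℂ :=
  exp ((k : ℂ) * (lX t - lD t)) / (CK k μ : ℂ)

private theorem CK_eq {k μ : ℝ} (hμ : 1 < μ) :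
    Real.log (CK k μ) = Real.log (1 + μ ^ k) - k * Real.log (μ - 1) := by
  have h1 : 0 < μ ^ k := Real.rpow_pos_of_pos (by linarith) k
  have h2 : 0 < (μ - 1) ^ k := Real.rpow_pos_of_pos (by linarith) k
  unfold CK
  rw [Real.log_div (by positivity) h2.ne', Real.log_rpow (by linarith)]

private theorem ft_zero (h : TCh k μ ρ α lX lD) (lX' : ℂ → ℂ) (h0 : lX' 0 = 0) :
    ft k μ lX' lD 0 = ((1 / (1 + μ ^ k) : ℝ) : ℂ) := by
  have hk := h.hk
  have hμ := h.hμ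
  have h1 : 0 < μ ^ k := Real.rpow_pos_of_pos (by linarith) k
  have h2 : 0 < (μ - 1) ^ k := Real.rpow_pos_of_pos (by linarith) k
  unfold ft
  rw [h0, h.D0]
  have e1 : exp ((k : ℂ) * (0 - (Real.log (μ - 1) : ℂ))) =
      ((Real.exp (-(k * Real.log (μ - 1))) : ℝ) : ℂ) := by
    rw [Complex.ofReal_exp]
    congr 1
    push_cast
    ring
  rw [e1, ← Complex.ofReal_div]
  congr 1
  have e2 : Real.exp (-(k * Real.log (μ - 1))) = ((μ - 1) ^ k)⁻¹ := by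
    rw [Real.exp_neg, Real.rpow_def_of_pos (by linarith), mul_comm k]
  rw [e2]
  unfold CK
  field_simp

/-- `Re f < 1/2` on `‖t‖ < ρ`: for `t ≠ 0` by `TCh.toCh`, `Ch.loop` (`Lp.fl`) at `x = log t`;
`f 0 = 1/(1 + μ^k)`. -/
theorem TCh.ft_lt (h : TCh k μ ρ α lX lD) {t : ℂ} (ht : ‖t‖ < ρ) :
    (ft k μ lX lD t).re < 1 / 2 := by
  have hk := h.hk
  have hμ := h.hμ
  by_cases h0 : t = 0
  · rw [h0, ft_zero h lX h.X0, Complex.ofReal_re]
    have h1 : 1 < μ ^ k := Real.one_lt_rpow hμ hk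
    rw [div_lt_div_iff₀ (by linarith) (by norm_num)]
    linarith
  · have hl := (h.toCh.loop).fl (Complex.log t) (by
      rw [Complex.log_re]
      exact Real.log_lt_log (norm_pos_iff.2 h0) ht)
    have e : ff k μ (LT lX) (LT lD) (Complex.log t) = ft k μ lX lD t := by
      unfold ff LT ft
      rw [Complex.exp_log h0]
      congr 2
      ring
    rwa [e] at hl

private theorem ball_grow {F : Set ℂ} {ρ : ℝ} (hρ : 0 < ρ) (hF : IsOpen F)
    (hs : closedBall (0 : ℂ) ρ ⊆ F) : ∃ ρ1 : ℝ, ρ < ρ1 ∧ ball (0 : ℂ) ρ1 ⊆ F := by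
  obtain ⟨δ, hδ, hh⟩ := (isCompact_closedBall (0 : ℂ) ρ).exists_thickening_subset_open hF hs
  refine ⟨ρ + δ, by linarith, ?_⟩
  rw [thickening_closedBall hδ hρ.le] at hh
  rwa [add_comm] at hh

/-- Step 1: `lX` extends to a larger ball. Proof: `t^2 + α^2` is analytic on `‖t‖ < μ ρ` and not
zero on the closed ball `‖t‖ ≤ ρ` (inside: `expX`), so by compactness not zero on
`‖t‖ < ρ1` for some `ρ1 > ρ`, `ρ1 < μ ρ`; take half of `log_exists`, agreement by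
`log_unique` with `c = 2`. -/
theorem TCh.extX (h : TCh k μ ρ α lX lD)
    (hz : ∀ t : ℂ, ‖t‖ = ρ → t ^ 2 + α t ^ 2 ≠ 0) :
    ∃ ρ1 : ℝ, ρ < ρ1 ∧ ρ1 < μ * ρ ∧ ∃ lX' : ℂ → ℂ, DifferentiableOn ℂ lX' (ball 0 ρ1) ∧
      lX' 0 = 0 ∧ (∀ t ∈ ball (0 : ℂ) ρ1, exp (2 * lX' t) = t ^ 2 + α t ^ 2) ∧
      ∀ t ∈ ball (0 : ℂ) ρ, lX' t = lX t := by
  have hρ := h.hρ
  have hμ := h.hμ
  have hρμ : ρ < μ * ρ := by nlinarith
  have hd : DifferentiableOn ℂ (fun t : ℂ => t ^ 2 + α t ^ 2) (ball 0 (μ * ρ)) :=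
    (differentiableOn_id.pow 2).add (h.dα.pow 2)
  have hU : IsOpen (ball (0 : ℂ) (μ * ρ) ∩ (fun t : ℂ => t ^ 2 + α t ^ 2) ⁻¹' {0}ᶜ) :=
    hd.continuousOn.isOpen_inter_preimage isOpen_ball isOpen_compl_singleton
  have hs : closedBall (0 : ℂ) ρ ⊆
      ball (0 : ℂ) (μ * ρ) ∩ (fun t : ℂ => t ^ 2 + α t ^ 2) ⁻¹' {0}ᶜ := by
    intro t ht
    rw [mem_closedBall_zero_iff] at ht
    refine ⟨by rw [mem_ball_zero_iff]; linarith, ?_⟩
    simp only [mem_preimage, mem_compl_iff, mem_singleton_iff]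
    rcases ht.lt_or_eq with h1 | h1
    · rw [← h.expX t h1]
      exact exp_ne_zero _
    · exact hz t h1
  obtain ⟨r, hr, hrs⟩ := ball_grow hρ hU hs
  refine ⟨min r ((ρ + μ * ρ) / 2), lt_min hr (by linarith),
    lt_of_le_of_lt (min_le_right _ _) (by linarith), ?_⟩
  set ρ1 : ℝ := min r ((ρ + μ * ρ) / 2) with hρ1
  have hρρ1 : ρ < ρ1 := lt_min hr (by linarith)
  have hb : ball (0 : ℂ) ρ1 ⊆ ball 0 r := ball_subset_ball (min_le_left _ _)
  obtain ⟨L, hL, hL0, hLe⟩ := log_exists (a := 0) (F := fun t : ℂ => t ^ 2 + α t ^ 2)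
    (hρ.trans hρρ1) (hd.mono fun t ht => (hrs (hb ht)).1)
    (fun t ht => (hrs (hb ht)).2) (by simp [h.α0])
  have hex : ∀ t ∈ ball (0 : ℂ) ρ1, exp (2 * (L t / 2)) = t ^ 2 + α t ^ 2 := by
    intro t ht
    rw [mul_div_cancel₀ _ (two_ne_zero), hLe t ht]
  refine ⟨fun t => L t / 2, hL.div_const 2, by simp [hL0], hex, ?_⟩
  have hbb : ball (0 : ℂ) ρ ⊆ ball 0 ρ1 := ball_subset_ball hρρ1.le
  refine log_unique (c := 2) two_ne_zero ((hL.div_const 2).continuousOn.mono hbb)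
    h.dX.continuousOn ?_ (by simp [hL0, h.X0])
  intro t ht
  rw [hex t (hbb ht), h.expX t (mem_ball_zero_iff.1 ht)]

private theorem lX_sym {ρ ρ1 : ℝ} {lX' : ℂ → ℂ} (h : TCh k μ ρ α lX lD) (h2 : ρ1 < μ * ρ)
    (hX : DifferentiableOn ℂ lX' (ball 0 ρ1)) (hX0 : lX' 0 = 0)
    (hXe : ∀ t ∈ ball (0 : ℂ) ρ1, exp (2 * lX' t) = t ^ 2 + α t ^ 2) :
    (∀ t ∈ ball (0 : ℂ) ρ1, lX' (-t) = lX' t) ∧
    (∀ t ∈ ball (0 : ℂ) ρ1, lX' ((starRingEnd ℂ) t) = (starRingEnd ℂ) (lX' t)) := by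
  have hn : MapsTo (fun t : ℂ => -t) (ball (0 : ℂ) ρ1) (ball 0 ρ1) := by
    intro t ht
    simpa using ht
  have hcm : MapsTo (fun t : ℂ => (starRingEnd ℂ) t) (ball (0 : ℂ) ρ1) (ball 0 ρ1) := by
    intro t ht
    simpa using ht
  constructor
  · refine log_unique (c := 2) two_ne_zero
      (hX.continuousOn.comp continuous_neg.continuousOn hn) hX.continuousOn ?_ (by simp)
    intro t ht
    rw [hXe _ (hn ht), hXe t ht]
    rw [h.even t (by rw [mem_ball_zero_iff] at ht; linarith)]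
    ring
  · have hc : ContinuousOn (fun t : ℂ => (starRingEnd ℂ) (lX' ((starRingEnd ℂ) t)))
        (ball 0 ρ1) :=
      continuous_conj.comp_continuousOn (hX.continuousOn.comp continuous_conj.continuousOn hcm)
    have := log_unique (c := 2) two_ne_zero hc hX.continuousOn ?_ (by simp [hX0])
    · intro t ht
      rw [← this t ht, Complex.conj_conj]
    · intro t ht
      have e1 : (2 : ℂ) * (starRingEnd ℂ) (lX' ((starRingEnd ℂ) t)) =
          (starRingEnd ℂ) (2 * lX' ((starRingEnd ℂ) t)) := by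
        rw [map_mul, Complex.conj_ofNat]
      rw [e1, Complex.exp_conj, hXe _ (hcm ht), hXe t ht]
      rw [h.cj t (by rw [mem_ball_zero_iff] at ht; linarith)]
      simp

/-- Step 2: with `lX'` on `‖t‖ < ρ1`, `ρ < ρ1 < μ ρ`, and `Re f < 1` there (`f` with `lX'` and
`lD`), put
`lD' s = log μ - (1/k) log C + lX' (s/μ) - (1/k) Log (1 - f (s/μ))` for `‖s‖ < μ ρ1`,
`α' s = μ α (s/μ) - exp (lD' s)`. Agreement with `lD` on `‖s‖ < μ ρ` by `log_unique`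
(`c = -k`, the functional equation `feq` at `s/μ`), hence `α' = α` there (`expD`). All fields
of `TCh k μ ρ1 α' lX' lD'` follow. -/
theorem TCh.extD (h : TCh k μ ρ α lX lD) {ρ1 : ℝ} (h1 : ρ < ρ1) (h2 : ρ1 < μ * ρ)
    {lX' : ℂ → ℂ} (hX : DifferentiableOn ℂ lX' (ball 0 ρ1)) (hX0 : lX' 0 = 0)
    (hXe : ∀ t ∈ ball (0 : ℂ) ρ1, exp (2 * lX' t) = t ^ 2 + α t ^ 2)
    (hXX : ∀ t ∈ ball (0 : ℂ) ρ, lX' t = lX t)
    (hf : ∀ t ∈ ball (0 : ℂ) ρ1, (ft k μ lX' lD t).re < 1) :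
    ∃ α' lD' : ℂ → ℂ, TCh k μ ρ1 α' lX' lD' ∧
      (∀ t ∈ ball (0 : ℂ) (μ * ρ), α' t = α t) ∧ (∀ t ∈ ball (0 : ℂ) (μ * ρ), lD' t = lD t) := by
  have hρ := h.hρ
  have hμ := h.hμ
  have hk := h.hk
  have hμ0 : (0 : ℝ) < μ := by linarith
  have hμc : (μ : ℂ) ≠ 0 := by exact_mod_cast hμ0.ne'
  have hkc : (k : ℂ) ≠ 0 := by exact_mod_cast hk.ne'
  have hC : 0 < CK k μ := CK_pos hμ
  have hCc : (CK k μ : ℂ) ≠ 0 := by exact_mod_cast hC.ne'
  have hμk : 0 < μ ^ k := Real.rpow_pos_of_pos hμ0 k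
  have hμkc : ((μ ^ k : ℝ) : ℂ) ≠ 0 := by exact_mod_cast hμk.ne'
  obtain ⟨hXn, hXc⟩ := lX_sym h h2 hX hX0 hXe
  obtain ⟨-, hDs⟩ := h.sym
  set F : ℂ → ℂ := ft k μ lX' lD with hFdef
  have hb12 : ball (0 : ℂ) ρ1 ⊆ ball 0 (μ * ρ) := ball_subset_ball h2.le
  have hFd : DifferentiableOn ℂ F (ball 0 ρ1) := by
    have : DifferentiableOn ℂ (fun t => exp ((k : ℂ) * (lX' t - lD t)) / (CK k μ : ℂ))
        (ball 0 ρ1) :=
      (((hX.sub (h.dD.mono hb12)).const_mul (k : ℂ)).cexp).div_const _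
    exact this
  have hslit : ∀ t ∈ ball (0 : ℂ) ρ1, 1 - F t ∈ slitPlane := by
    intro t ht
    left
    have := hf t ht
    simp only [sub_re, one_re]
    linarith
  -- the map `s ↦ s / μ`
  have hdiv : ∀ r : ℝ, MapsTo (fun s : ℂ => s / μ) (ball (0 : ℂ) (μ * r)) (ball 0 r) := by
    intro r s hs
    rw [mem_ball_zero_iff] at hs ⊢
    rw [norm_div, Complex.norm_real, Real.norm_of_nonneg hμ0.le, div_lt_iff₀ hμ0]
    linarith
  set LDp : ℂ → ℂ := fun s => (Real.log μ : ℂ) - (1 / k : ℂ) * (Real.log (CK k μ) : ℂ) +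
    lX' (s / μ) - (1 / k : ℂ) * Complex.log (1 - F (s / μ)) with hLDp
  have hLDpd : DifferentiableOn ℂ LDp (ball 0 (μ * ρ1)) := by
    have hd : DifferentiableOn ℂ (fun s : ℂ => s / μ) (ball 0 (μ * ρ1)) :=
      differentiableOn_id.div_const _
    have a1 : DifferentiableOn ℂ (fun s : ℂ => lX' (s / μ)) (ball 0 (μ * ρ1)) :=
      hX.comp hd (hdiv ρ1)
    have a2 : DifferentiableOn ℂ (fun s : ℂ => 1 - F (s / μ)) (ball 0 (μ * ρ1)) :=
      (differentiableOn_const _).sub (hFd.comp hd (hdiv ρ1))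
    have a3 : DifferentiableOn ℂ (fun s : ℂ => Complex.log (1 - F (s / μ)))
        (ball 0 (μ * ρ1)) := a2.clog fun s hs => hslit _ (hdiv ρ1 hs)
    exact ((differentiableOn_const _).add a1).sub (a3.const_mul _)
  -- exponential of `-k LDp`
  have hexp : ∀ s ∈ ball (0 : ℂ) (μ * ρ1), ((μ ^ k : ℝ) : ℂ) * exp (-(k : ℂ) * LDp s) =
      (CK k μ : ℂ) * exp (-(k : ℂ) * lX' (s / μ)) - exp (-(k : ℂ) * lD (s / μ)) := by
    intro s hs
    have e1 : -(k : ℂ) * LDp s = ((-(k * Real.log μ) : ℝ) : ℂ) + ((Real.log (CK k μ) : ℝ) : ℂ) +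
        (-(k : ℂ) * lX' (s / μ)) + Complex.log (1 - F (s / μ)) := by
      rw [hLDp]
      push_cast
      field_simp
      ring
    rw [e1, Complex.exp_add, Complex.exp_add, Complex.exp_add,
      Complex.exp_log (slitPlane_ne_zero (hslit _ (hdiv ρ1 hs))), ← Complex.ofReal_exp,
      ← Complex.ofReal_exp, Real.exp_log hC]
    have e2 : (μ ^ k : ℝ) * Real.exp (-(k * Real.log μ)) = 1 := by
      rw [Real.rpow_def_of_pos hμ0, ← Real.exp_add]
      rw [show Real.log μ * k + -(k * Real.log μ) = 0 by ring, Real.exp_zero]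
    have e2c : ((μ ^ k : ℝ) : ℂ) * ((Real.exp (-(k * Real.log μ)) : ℝ) : ℂ) = 1 := by
      rw [← Complex.ofReal_mul, e2, Complex.ofReal_one]
    have e3 : F (s / μ) = exp ((k : ℂ) * (lX' (s / μ) - lD (s / μ))) / (CK k μ : ℂ) := rfl
    have e4 : exp ((k : ℂ) * (lX' (s / μ) - lD (s / μ))) * exp (-(k : ℂ) * lX' (s / μ)) =
        exp (-(k : ℂ) * lD (s / μ)) := by
      rw [← Complex.exp_add]
      congr 1
      ring
    calc ((μ ^ k : ℝ) : ℂ) * (((Real.exp (-(k * Real.log μ)) : ℝ) : ℂ) * (CK k μ : ℂ) *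
          exp (-(k : ℂ) * lX' (s / μ)) * (1 - F (s / μ)))
        = (((μ ^ k : ℝ) : ℂ) * ((Real.exp (-(k * Real.log μ)) : ℝ) : ℂ)) * ((CK k μ : ℂ) *
          exp (-(k : ℂ) * lX' (s / μ)) * (1 - F (s / μ))) := by ring
      _ = (CK k μ : ℂ) * exp (-(k : ℂ) * lX' (s / μ)) * (1 - F (s / μ)) := by
          rw [e2c, one_mul]
      _ = (CK k μ : ℂ) * exp (-(k : ℂ) * lX' (s / μ)) -
          exp ((k : ℂ) * (lX' (s / μ) - lD (s / μ))) * exp (-(k : ℂ) * lX' (s / μ)) := by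
          rw [e3]
          field_simp
      _ = _ := by rw [e4]
  -- value at `0`
  have hLDp0 : LDp 0 = (Real.log (μ - 1) : ℂ) := by
    have e0 : F 0 = ((1 / (1 + μ ^ k) : ℝ) : ℂ) := ft_zero h lX' hX0
    have e1 : 1 - ((1 / (1 + μ ^ k) : ℝ) : ℂ) = ((μ ^ k / (1 + μ ^ k) : ℝ) : ℂ) := by
      rw [← Complex.ofReal_one, ← Complex.ofReal_sub]
      congr 1
      field_simp
      ring
    have e2 : Real.log (μ ^ k / (1 + μ ^ k)) = k * Real.log μ - Real.log (1 + μ ^ k) := by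
      rw [Real.log_div hμk.ne' (by positivity), Real.log_rpow hμ0]
    simp only [hLDp, zero_div, hX0, e0, e1]
    rw [← Complex.ofReal_log (by positivity), e2, CK_eq hμ]
    push_cast
    field_simp
    ring
  -- agreement with `lD`
  have hagD : ∀ t ∈ ball (0 : ℂ) (μ * ρ), LDp t = lD t := by
    have hbb : ball (0 : ℂ) (μ * ρ) ⊆ ball 0 (μ * ρ1) :=
      ball_subset_ball (by nlinarith)
    refine log_unique (c := -(k : ℂ)) (neg_ne_zero.2 hkc) (hLDpd.continuousOn.mono hbb)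
      h.dD.continuousOn ?_ (by rw [hLDp0, h.D0])
    intro s hs
    have a1 := hexp s (hbb hs)
    have hsm : s / μ ∈ ball (0 : ℂ) ρ := hdiv ρ hs
    have a2 := h.feq (s / μ) (mem_ball_zero_iff.1 hsm)
    rw [mul_div_cancel₀ _ hμc] at a2
    rw [hXX _ hsm] at a1
    have a3 : ((μ ^ k : ℝ) : ℂ) * exp (-(k : ℂ) * LDp s) =
        ((μ ^ k : ℝ) : ℂ) * exp (-(k : ℂ) * lD s) := by
      rw [a1, ← a2]
      ring
    exact mul_left_cancel₀ hμkc a3
  set αp : ℂ → ℂ := fun s => (μ : ℂ) * α (s / μ) - exp (LDp s) with hαp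
  have hagα : ∀ t ∈ ball (0 : ℂ) (μ * ρ), αp t = α t := by
    intro t ht
    simp only [hαp]
    rw [hagD t ht, h.expD t (mem_ball_zero_iff.1 ht)]
    ring
  -- symmetries of `LDp`
  have hFn : ∀ t ∈ ball (0 : ℂ) ρ1, F (-t) = F t := by
    intro t ht
    simp only [hFdef, ft]
    rw [hXn t ht, (hDs t (mem_ball_zero_iff.1 (hb12 ht))).1]
  have hFc : ∀ t ∈ ball (0 : ℂ) ρ1, F ((starRingEnd ℂ) t) = (starRingEnd ℂ) (F t) := by
    intro t ht
    simp only [hFdef, ft]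
    rw [hXc t ht, (hDs t (mem_ball_zero_iff.1 (hb12 ht))).2, map_div₀, ← Complex.exp_conj]
    simp
  have hLn : ∀ s ∈ ball (0 : ℂ) (μ * ρ1), LDp (-s) = LDp s := by
    intro s hs
    simp only [hLDp]
    rw [neg_div, hXn _ (hdiv ρ1 hs), hFn _ (hdiv ρ1 hs)]
  have hdc : ∀ s : ℂ, (starRingEnd ℂ) s / μ = (starRingEnd ℂ) (s / μ) := by
    intro s
    simp
  have hLc : ∀ s ∈ ball (0 : ℂ) (μ * ρ1), LDp ((starRingEnd ℂ) s) = (starRingEnd ℂ) (LDp s) := by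
    intro s hs
    simp only [hLDp]
    rw [hdc, hXc _ (hdiv ρ1 hs), hFc _ (hdiv ρ1 hs)]
    have e1 : Complex.log (1 - (starRingEnd ℂ) (F (s / μ))) =
        (starRingEnd ℂ) (Complex.log (1 - F (s / μ))) := by
      rw [← Complex.log_conj _ (slitPlane_arg_ne_pi (hslit _ (hdiv ρ1 hs)))]
      simp
    rw [e1]
    simp
  refine ⟨αp, LDp, ?_, hagα, hagD⟩
  have hρ1 : 0 < ρ1 := hρ.trans h1
  refine
    { hk := hk
      hμ := hμ
      hρ := hρ1
      dα := ?_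
      dX := hX
      dD := hLDpd
      even := ?_
      cj := ?_
      α0 := ?_
      X0 := hX0
      D0 := hLDp0
      expX := ?_
      expD := ?_
      feq := ?_ }
  · have hd : DifferentiableOn ℂ (fun s : ℂ => s / μ) (ball 0 (μ * ρ1)) :=
      differentiableOn_id.div_const _
    have a1 : DifferentiableOn ℂ (fun s : ℂ => α (s / μ)) (ball 0 (μ * ρ1)) :=
      h.dα.comp hd fun s hs => hb12 (hdiv ρ1 hs)
    exact (a1.const_mul _).sub hLDpd.cexp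
  · intro t ht
    have ht' : t ∈ ball (0 : ℂ) (μ * ρ1) := mem_ball_zero_iff.2 ht
    simp only [hαp]
    rw [hLn t ht', neg_div, h.even _ (mem_ball_zero_iff.1 (hb12 (hdiv ρ1 ht')))]
  · intro t ht
    have ht' : t ∈ ball (0 : ℂ) (μ * ρ1) := mem_ball_zero_iff.2 ht
    have e1 := h.cj _ (mem_ball_zero_iff.1 (hb12 (hdiv ρ1 ht')))
    have e2 := hLc t ht'
    simp only at e1
    show (μ : ℂ) * α ((starRingEnd ℂ) t / μ) - exp (LDp ((starRingEnd ℂ) t)) =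
      (starRingEnd ℂ) ((μ : ℂ) * α (t / μ) - exp (LDp t))
    have key : ∀ a b : ℂ, (starRingEnd ℂ) ((μ : ℂ) * a - exp b) =
        (μ : ℂ) * (starRingEnd ℂ) a - exp ((starRingEnd ℂ) b) := by
      intro a b
      rw [map_sub, map_mul, ← Complex.exp_conj, Complex.conj_ofReal]
    rw [key, e2, hdc, e1]
  · rw [hagα 0 (mem_ball_self (by positivity)), h.α0]
  · intro t ht
    have ht' : t ∈ ball (0 : ℂ) ρ1 := mem_ball_zero_iff.2 ht
    rw [hagα t (hb12 ht'), hXe t ht']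
  · intro t ht
    have ht' : t ∈ ball (0 : ℂ) (μ * ρ1) := mem_ball_zero_iff.2 ht
    rw [hagα _ (hb12 (hdiv ρ1 ht'))]
    simp only [hαp]
    ring
  · intro t ht
    have ht' : t ∈ ball (0 : ℂ) ρ1 := mem_ball_zero_iff.2 ht
    have hm : (μ : ℂ) * t ∈ ball (0 : ℂ) (μ * ρ1) := by
      rw [mem_ball_zero_iff, norm_mul, Complex.norm_real, Real.norm_of_nonneg hμ0.le]
      exact mul_lt_mul_of_pos_left ht hμ0
    have a1 := hexp _ hm
    rw [mul_div_cancel_left₀ _ hμc] at a1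
    rw [a1, hagD t (hb12 ht')]
    ring

/-- Extension. By `extX`, `ft_lt` and continuity `Re f ≤ 1/2` on `‖t‖ ≤ ρ`, so by compactness
`Re f < 1` on `‖t‖ < ρ2` for some `ρ < ρ2 ≤ ρ1`; then `extD`. -/
theorem TCh.extend (h : TCh k μ ρ α lX lD)
    (hz : ∀ t : ℂ, ‖t‖ = ρ → t ^ 2 + α t ^ 2 ≠ 0) :
    ∃ ρ' : ℝ, ρ < ρ' ∧ ∃ α' lX' lD' : ℂ → ℂ, TCh k μ ρ' α' lX' lD' ∧
      (∀ t ∈ ball (0 : ℂ) (μ * ρ), α' t = α t) ∧ (∀ t ∈ ball (0 : ℂ) ρ, lX' t = lX t) ∧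
      (∀ t ∈ ball (0 : ℂ) (μ * ρ), lD' t = lD t) := by
  have hρ := h.hρ
  have hμ := h.hμ
  obtain ⟨ρ1, h1, h2, lX', hX, hX0, hXe, hXX⟩ := h.extX hz
  have hb12 : ball (0 : ℂ) ρ1 ⊆ ball 0 (μ * ρ) := ball_subset_ball h2.le
  have hFd : DifferentiableOn ℂ (ft k μ lX' lD) (ball 0 ρ1) := by
    have : DifferentiableOn ℂ (fun t => exp ((k : ℂ) * (lX' t - lD t)) / (CK k μ : ℂ))
        (ball 0 ρ1) :=
      (((hX.sub (h.dD.mono hb12)).const_mul (k : ℂ)).cexp).div_const _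
    exact this
  have hcl : closedBall (0 : ℂ) ρ ⊆ ball 0 ρ1 := closedBall_subset_ball h1
  have hle : ∀ t ∈ closedBall (0 : ℂ) ρ, (ft k μ lX' lD t).re ≤ 1 / 2 := by
    intro t ht
    have hcw : ContinuousWithinAt (fun s => (ft k μ lX' lD s).re) (ball 0 ρ) t :=
      ((Complex.continuous_re.continuousAt.comp
        ((hFd.continuousOn t (hcl ht)).continuousAt (isOpen_ball.mem_nhds (hcl ht))))
        ).continuousWithinAt
    have hmem : t ∈ closure (ball (0 : ℂ) ρ) := by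
      rw [closure_ball _ hρ.ne']
      exact ht
    refine ContinuousWithinAt.closure_le hmem hcw
      (continuousWithinAt_const (b := (1 / 2 : ℝ))) ?_
    intro s hs
    have : ft k μ lX' lD s = ft k μ lX lD s := by
      unfold ft
      rw [hXX s hs]
    rw [this]
    exact (h.ft_lt (mem_ball_zero_iff.1 hs)).le
  have hU : IsOpen (ball (0 : ℂ) ρ1 ∩ (fun t => (ft k μ lX' lD t).re) ⁻¹' Iio 1) :=
    (Complex.continuous_re.comp_continuousOn hFd.continuousOn).isOpen_inter_preimage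
      isOpen_ball isOpen_Iio
  obtain ⟨r, hr, hrs⟩ := ball_grow hρ hU (fun t ht =>
    ⟨hcl ht, lt_of_le_of_lt (hle t ht) (by norm_num)⟩)
  set ρ2 : ℝ := min r ρ1 with hρ2
  have hρρ2 : ρ < ρ2 := lt_min hr h1
  have hb2 : ball (0 : ℂ) ρ2 ⊆ ball 0 ρ1 := ball_subset_ball (min_le_right _ _)
  have hb2r : ball (0 : ℂ) ρ2 ⊆ ball 0 r := ball_subset_ball (min_le_left _ _)
  obtain ⟨α', lD', hT, hA, hD⟩ := h.extD hρρ2 (lt_of_le_of_lt (min_le_right _ _) h2)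
    (hX.mono hb2) hX0 (fun t ht => hXe t (hb2 ht)) hXX
    (fun t ht => (hrs (hb2r ht)).2)
  exact ⟨ρ2, hρρ2, α', lX', lD', hT, hA, hXX, hD⟩

end EQH
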