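import Pool.Agent.Lib.MP_226de1_co.H.TPlane

/-! The coordinate `g`, `q = sinh g`, `xi = cosh g`: `e^g = t / (e^(lX t) + α t)` is analytic on
the whole disc of a chart; near `Re g = -infinity` the map `x ↦ g` is invertible. -/

set_option autoImplicit false

namespace EQH

open Complex Filter Topology Set Metric

variable {k μ ρ : ℝ} {α lX lD L : ℂ → ℂ}

/-- `L = log (e^(lX) + α)`, `g = x - L (e^x)` -/
structure GLog (ρ : ℝ) (α lX L : ℂ → ℂ) : Prop where
  dL : DifferentiableOn ℂ L (ball 0 ρ)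
  L0 : L 0 = (Real.log 2 : ℂ)
  expL : ∀ t ∈ ball (0 : ℂ) ρ, exp (L t) = exp (lX t) + α t
  even : ∀ t ∈ ball (0 : ℂ) ρ, L (-t) = L t
  cj : ∀ t ∈ ball (0 : ℂ) ρ, L ((starRingEnd ℂ) t) = (starRingEnd ℂ) (L t)

/-- the coordinate `g` -/
noncomputable def Gx (L : ℂ → ℂ) (x : ℂ) : ℂ := x - L (exp x)

theorem TCh.exists_GLog (h : TCh k μ ρ α lX lD) : ∃ L : ℂ → ℂ, GLog ρ α lX L := by
  have hρ := h.hρ
  have hμ := h.hμ
  have hb : ball (0 : ℂ) ρ ⊆ ball 0 (μ * ρ) := ball_subset_ball (by nlinarith)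
  have hE : DifferentiableOn ℂ (fun t => exp (lX t) + α t) (ball 0 ρ) :=
    h.dX.cexp.add (h.dα.mono hb)
  have hne : ∀ t ∈ ball (0 : ℂ) ρ, exp (lX t) + α t ≠ 0 := by
    intro t ht h0
    have h1 := h.expX t (mem_ball_zero_iff.1 ht)
    have h2 : exp (2 * lX t) = exp (lX t) * exp (lX t) := by
      rw [← Complex.exp_add]
      congr 1
      ring
    have h3 : t ^ 2 = (exp (lX t) + α t) * (exp (lX t) - α t) := by
      rw [h2] at h1
      linear_combination -h1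
    rw [h0, zero_mul] at h3
    have h4 : t = 0 := by simpa using h3
    rw [h4, h.X0, h.α0, Complex.exp_zero] at h0
    norm_num at h0
  obtain ⟨L, hL, hL0, hLe⟩ := log_exists (a := (Real.log 2 : ℂ)) hρ hE hne (by
    rw [h.X0, h.α0, Complex.exp_zero, ← Complex.ofReal_exp, Real.exp_log (by norm_num)]
    norm_num)
  obtain ⟨hs, -⟩ := h.sym
  have hn : MapsTo (fun t : ℂ => -t) (ball (0 : ℂ) ρ) (ball 0 ρ) := by
    intro t ht
    simpa using ht
  have hcm : MapsTo (fun t : ℂ => (starRingEnd ℂ) t) (ball (0 : ℂ) ρ) (ball 0 ρ) := by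
    intro t ht
    simpa using ht
  refine ⟨L, hL, hL0, hLe, ?_, ?_⟩
  · refine log_unique (c := 1) one_ne_zero
      (hL.continuousOn.comp continuous_neg.continuousOn hn) hL.continuousOn ?_ (by simp)
    intro t ht
    have ht' := mem_ball_zero_iff.1 ht
    rw [one_mul, one_mul, hLe _ (hn ht), hLe t ht, (hs t ht').1,
      h.even t (mem_ball_zero_iff.1 (hb ht))]
  · have hc : ContinuousOn (fun t : ℂ => (starRingEnd ℂ) (L ((starRingEnd ℂ) t)))
        (ball 0 ρ) :=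
      continuous_conj.comp_continuousOn (hL.continuousOn.comp continuous_conj.continuousOn hcm)
    have := log_unique (c := 1) one_ne_zero hc hL.continuousOn ?_
      (by simp only [map_zero]; rw [hL0, Complex.conj_ofReal])
    · intro t ht
      rw [← this t ht, Complex.conj_conj]
    · intro t ht
      have ht' := mem_ball_zero_iff.1 ht
      rw [one_mul, one_mul, Complex.exp_conj, hLe _ (hcm ht), hLe t ht, (hs t ht').2,
        h.cj t (mem_ball_zero_iff.1 (hb ht)), Complex.exp_conj, ← map_add, Complex.conj_conj]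

theorem exp_mem_ball (hρ : 0 < ρ) {x : ℂ} (hx : x.re < Real.log ρ) : exp x ∈ ball (0 : ℂ) ρ := by
  rw [mem_ball_zero_iff, Complex.norm_exp]
  exact (Real.lt_log_iff_exp_lt hρ).1 hx

section

variable (h : TCh k μ ρ α lX lD) (hL : GLog ρ α lX L)
include h hL

theorem exp_neg_Gx {x : ℂ} (hx : x.re < Real.log ρ) :
    exp (-Gx L x) = exp (LT lX x) - qT α x := by
  have ht := exp_mem_ball h.hρ hx
  unfold Gx LT qT
  rw [neg_sub, Complex.exp_sub, hL.expL _ ht, Complex.exp_sub, Complex.exp_neg]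
  field_simp
  ring

theorem exp_Gx {x : ℂ} (hx : x.re < Real.log ρ) :
    exp (Gx L x) = exp (LT lX x) + qT α x := by
  have h1 := exp_neg_Gx h hL hx
  have h2 := (h.toCh).expX x hx
  have h3 : exp (2 * LT lX x) = exp (LT lX x) * exp (LT lX x) := by
    rw [← Complex.exp_add]
    congr 1
    ring
  rw [h3] at h2
  have h4 : exp (-Gx L x) * (exp (LT lX x) + qT α x) = 1 := by
    rw [h1]
    linear_combination h2
  have h5 : exp (Gx L x) * exp (-Gx L x) = 1 := by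
    rw [← Complex.exp_add, add_neg_cancel, Complex.exp_zero]
  calc exp (Gx L x) = exp (Gx L x) * (exp (-Gx L x) * (exp (LT lX x) + qT α x)) := by
        rw [h4, mul_one]
    _ = (exp (Gx L x) * exp (-Gx L x)) * (exp (LT lX x) + qT α x) := by ring
    _ = _ := by rw [h5, one_mul]

theorem sinh_Gx {x : ℂ} (hx : x.re < Real.log ρ) : sinh (Gx L x) = qT α x := by
  rw [Complex.sinh, exp_Gx h hL hx, exp_neg_Gx h hL hx]
  ring

theorem cosh_Gx {x : ℂ} (hx : x.re < Real.log ρ) : cosh (Gx L x) = exp (LT lX x) := by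
  rw [Complex.cosh, exp_Gx h hL hx, exp_neg_Gx h hL hx]
  ring

theorem Gx_diff : DifferentiableOn ℂ (Gx L) {x : ℂ | x.re < Real.log ρ} := by
  unfold Gx
  exact differentiableOn_id.sub (hL.dL.comp Complex.differentiable_exp.differentiableOn
    fun x hx => exp_mem_ball h.hρ hx)

theorem Gx_pi {x : ℂ} (hx : x.re < Real.log ρ) :
    Gx L (x + Real.pi * I) = Gx L x + Real.pi * I := by
  unfold Gx
  rw [Complex.exp_add, Complex.exp_pi_mul_I, mul_neg_one, hL.even _ (exp_mem_ball h.hρ hx)]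
  ring

theorem Gx_cj {x : ℂ} (hx : x.re < Real.log ρ) :
    Gx L ((starRingEnd ℂ) x) = (starRingEnd ℂ) (Gx L x) := by
  unfold Gx
  rw [Complex.exp_conj, hL.cj _ (exp_mem_ball h.hρ hx), map_sub]

omit h hL in
theorem tendsto_exp_comap : Tendsto (fun x : ℂ => exp x) (comap Complex.re atBot) (𝓝 0) := by
  rw [tendsto_zero_iff_norm_tendsto_zero]
  have h1 : (fun x : ℂ => ‖exp x‖) = fun x : ℂ => Real.exp x.re := by
    funext x
    rw [Complex.norm_exp]
  rw [h1]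
  exact Real.tendsto_exp_atBot.comp tendsto_comap

theorem Gx_lim : Tendsto (fun x : ℂ => Gx L x - x) (comap Complex.re atBot)
    (𝓝 (-(Real.log 2 : ℂ))) := by
  have h1 : ContinuousAt L 0 :=
    (hL.dL.continuousOn 0 (mem_ball_self h.hρ)).continuousAt (ball_mem_nhds _ h.hρ)
  have h2 : Tendsto (fun x : ℂ => -L (exp x)) (comap Complex.re atBot) (𝓝 (-L 0)) :=
    (h1.tendsto.comp (tendsto_exp_comap)).neg
  rw [hL.L0] at h2
  refine h2.congr fun x => ?_
  unfold Gx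
  ring

end

/-- local inverse -/
theorem local_inv {φ : ℂ → ℂ} (hφ : AnalyticAt ℂ φ 0) (h0 : φ 0 = 0) (h1 : deriv φ 0 ≠ 0) :
    ∃ ψ : ℂ → ℂ, ψ 0 = 0 ∧ AnalyticAt ℂ ψ 0 ∧ deriv ψ 0 = (deriv φ 0)⁻¹ ∧
      (∀ᶠ t in 𝓝 (0 : ℂ), ψ (φ t) = t) ∧ (∀ᶠ w in 𝓝 (0 : ℂ), φ (ψ w) = w) := by
  have hs := hφ.hasStrictDerivAt
  have e1 := hs.eventually_left_inverse h1
  have e2 := hs.eventually_right_inverse h1
  have e3 := hφ.analyticAt_localInverse h1
  have e4 := hs.to_localInverse h1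
  rw [h0] at e2 e3 e4
  refine ⟨hs.localInverse _ _ _ h1, ?_, e3, e4.hasDerivAt.deriv, e1, e2⟩
  have := e1.self_of_nhds
  rwa [h0] at this

/-- The inverse `X` of `G = Gx L` near `Re g = -infinity`. -/
structure GInv (ρ m0 b1 : ℝ) (α lX L X : ℂ → ℂ) : Prop where
  hb1 : b1 ≤ Real.log ρ
  dX : DifferentiableOn ℂ X {g : ℂ | g.re < -m0}
  mX : ∀ g : ℂ, g.re < -m0 → (X g).re < Real.log ρ
  GXe : ∀ g : ℂ, g.re < -m0 → Gx L (X g) = g
  mG : ∀ x : ℂ, x.re < b1 → (Gx L x).re < -m0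
  XGe : ∀ x : ℂ, x.re < b1 → X (Gx L x) = x
  Xpi : ∀ g : ℂ, g.re < -m0 → X (g + Real.pi * I) = X g + Real.pi * I
  Xcj : ∀ g : ℂ, g.re < -m0 → X ((starRingEnd ℂ) g) = (starRingEnd ℂ) (X g)
  limX : Tendsto (fun g : ℂ => X g - g) (comap Complex.re atBot) (𝓝 (Real.log 2 : ℂ))

theorem exists_GInv (h : TCh k μ ρ α lX lD) (hL : GLog ρ α lX L) :
    ∃ (m0 b1 : ℝ) (X : ℂ → ℂ), GInv ρ m0 b1 α lX L X := by
  have hρ := h.hρ
  have hb0 : (0 : ℂ) ∈ ball (0 : ℂ) ρ := mem_ball_self hρ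
  set φ : ℂ → ℂ := fun t => t * exp (-L t) with hφ
  have hLan : AnalyticAt ℂ L 0 := (hL.dL.analyticOnNhd isOpen_ball) 0 hb0
  have hφan : AnalyticAt ℂ φ 0 := analyticAt_id.mul hLan.neg.cexp
  have hLd : HasDerivAt L (deriv L 0) 0 := hLan.differentiableAt.hasDerivAt
  have hφ0 : φ 0 = 0 := by simp [hφ]
  have hφd : deriv φ 0 = 1 / 2 := by
    have h1 : HasDerivAt φ (1 * exp (-L 0) + 0 * (exp (-L 0) * -deriv L 0)) 0 :=
      (hasDerivAt_id (0 : ℂ)).mul hLd.neg.cexp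
    rw [h1.deriv, zero_mul, add_zero, one_mul, hL.L0, ← Complex.ofReal_neg, ← Complex.ofReal_exp,
      Real.exp_neg, Real.exp_log (by norm_num)]
    norm_num
  obtain ⟨ψ, hψ0, hψan, hψd, hl, hr⟩ := local_inv hφan hφ0 (by rw [hφd]; norm_num)
  have hψd2 : deriv ψ 0 = 2 := by
    rw [hψd, hφd]
    norm_num
  have hψc : Tendsto ψ (𝓝 0) (𝓝 0) := by
    have := hψan.continuousAt.tendsto
    rwa [hψ0] at this
  have hφc : Tendsto φ (𝓝 0) (𝓝 0) := by
    have := hφan.continuousAt.tendsto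
    rwa [hφ0] at this
  have hnegc : Tendsto (fun t : ℂ => -t) (𝓝 0) (𝓝 0) := by
    have : Continuous fun t : ℂ => -t := continuous_neg
    simpa using this.tendsto 0
  have hconjc : Tendsto (fun t : ℂ => (starRingEnd ℂ) t) (𝓝 0) (𝓝 0) := by
    simpa using Complex.continuous_conj.tendsto 0
  have hball : ∀ᶠ t in 𝓝 (0 : ℂ), t ∈ ball (0 : ℂ) ρ := ball_mem_nhds _ hρ
  -- the quotient `ψ w / w`
  have hq : Tendsto (fun w : ℂ => ψ w / w) (𝓝[≠] 0) (𝓝 2) := by
    have h1 : HasDerivAt ψ 2 0 := hψd2 ▸ hψan.differentiableAt.hasDerivAt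
    have h2 := h1.tendsto_slope
    refine h2.congr fun w => ?_
    rw [slope_def_field, hψ0, sub_zero, sub_zero]
  have hslit2 : (2 : ℂ) ∈ slitPlane := by left; norm_num
  have hq1 : ∀ᶠ w in 𝓝[≠] (0 : ℂ), ψ w / w ∈ slitPlane :=
    hq (isOpen_slitPlane.mem_nhds hslit2)
  have hlog2 : Complex.log 2 = (Real.log 2 : ℂ) := by
    rw [show (2 : ℂ) = ((2 : ℝ) : ℂ) by norm_num, ← Complex.ofReal_log (by norm_num)]
  have hqlog : Tendsto (fun w : ℂ => Complex.log (ψ w / w)) (𝓝[≠] 0) (𝓝 (Real.log 2 : ℂ)) := by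
    have h1 : ContinuousAt Complex.log 2 := continuousAt_clog hslit2
    have h2 := h1.tendsto.comp hq
    rw [hlog2] at h2
    exact h2
  have hLψ : Tendsto (fun w : ℂ => L (ψ w)) (𝓝[≠] 0) (𝓝 (Real.log 2 : ℂ)) := by
    have h1 := hLan.continuousAt.tendsto
    rw [hL.L0] at h1
    exact (h1.comp hψc).mono_left nhdsWithin_le_nhds
  have hdiff : ∀ᶠ w in 𝓝[≠] (0 : ℂ), ‖Complex.log (ψ w / w) - L (ψ w)‖ < 1 := by
    have h1 := hqlog.sub hLψ
    rw [sub_self] at h1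
    have h2 := h1.norm
    rw [norm_zero] at h2
    exact h2 (Iio_mem_nhds one_pos)
  -- `|Im L t| < π`
  have hLim : ∀ᶠ t in 𝓝 (0 : ℂ), -Real.pi < (L t).im ∧ (L t).im < Real.pi := by
    have h1 : Tendsto (fun t => (L t).im) (𝓝 0) (𝓝 0) := by
      have h2 := hLan.continuousAt.tendsto
      rw [hL.L0] at h2
      have h3 := (Complex.continuous_im.tendsto _).comp h2
      rw [Complex.ofReal_im] at h3
      exact h3
    filter_upwards [h1 (Ioo_mem_nhds (neg_lt_zero.2 Real.pi_pos) Real.pi_pos)] with t ht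
    exact ht
  -- symmetries of `ψ`
  have hφodd : ∀ t ∈ ball (0 : ℂ) ρ, φ (-t) = -φ t := by
    intro t ht
    simp only [hφ]
    rw [hL.even t ht]
    ring
  have hφcj : ∀ t ∈ ball (0 : ℂ) ρ, φ ((starRingEnd ℂ) t) = (starRingEnd ℂ) (φ t) := by
    intro t ht
    simp only [hφ]
    rw [hL.cj t ht, map_mul, ← Complex.exp_conj, map_neg]
  have hψball : ∀ᶠ w in 𝓝 (0 : ℂ), ψ w ∈ ball (0 : ℂ) ρ := hψc.eventually hball
  have hψodd : ∀ᶠ w in 𝓝 (0 : ℂ), ψ (-w) = -ψ w := by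
    filter_upwards [hr, hψball, (hnegc.comp hψc).eventually hl] with w h1 h2 h3
    have h4 : φ (-ψ w) = -w := by rw [hφodd _ h2, h1]
    simp only [Function.comp_apply] at h3
    rw [h4] at h3
    exact h3
  have hψcj : ∀ᶠ w in 𝓝 (0 : ℂ), ψ ((starRingEnd ℂ) w) = (starRingEnd ℂ) (ψ w) := by
    filter_upwards [hr, hψball, (hconjc.comp hψc).eventually hl] with w h1 h2 h3
    have h4 : φ ((starRingEnd ℂ) (ψ w)) = (starRingEnd ℂ) w := by rw [hφcj _ h2, h1]
    simp only [Function.comp_apply] at h3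
    rw [h4] at h3
    exact h3
  -- collect, on a punctured ball
  have hall : ∀ᶠ w in 𝓝[≠] (0 : ℂ), AnalyticAt ℂ ψ w ∧ φ (ψ w) = w ∧ ψ w ∈ ball (0 : ℂ) ρ ∧
      ψ (-w) = -ψ w ∧ ψ ((starRingEnd ℂ) w) = (starRingEnd ℂ) (ψ w) ∧
      ψ w / w ∈ slitPlane ∧ ‖Complex.log (ψ w / w) - L (ψ w)‖ < 1 := by
    have h1 : ∀ᶠ w in 𝓝 (0 : ℂ), AnalyticAt ℂ ψ w := hψan.eventually_analyticAt
    filter_upwards [h1.filter_mono nhdsWithin_le_nhds, hr.filter_mono nhdsWithin_le_nhds,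
      hψball.filter_mono nhdsWithin_le_nhds, hψodd.filter_mono nhdsWithin_le_nhds,
      hψcj.filter_mono nhdsWithin_le_nhds, hq1, hdiff] with w a1 a2 a3 a4 a5 a6 a7
    exact ⟨a1, a2, a3, a4, a5, a6, a7⟩
  obtain ⟨s, hs, hsall⟩ : ∃ s : ℝ, 0 < s ∧ ∀ w : ℂ, w ≠ 0 → ‖w‖ < s → AnalyticAt ℂ ψ w ∧
      φ (ψ w) = w ∧ ψ w ∈ ball (0 : ℂ) ρ ∧
      ψ (-w) = -ψ w ∧ ψ ((starRingEnd ℂ) w) = (starRingEnd ℂ) (ψ w) ∧
      ψ w / w ∈ slitPlane ∧ ‖Complex.log (ψ w / w) - L (ψ w)‖ < 1 := by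
    rw [eventually_nhdsWithin_iff, Metric.eventually_nhds_iff] at hall
    obtain ⟨s, hs, h1⟩ := hall
    exact ⟨s, hs, fun w hw hws => h1 (by rwa [dist_zero_right]) hw⟩
  obtain ⟨s', hs', hsall'⟩ : ∃ s' : ℝ, 0 < s' ∧ ∀ t : ℂ, ‖t‖ < s' → ψ (φ t) = t ∧
      ‖φ t‖ < s ∧ t ∈ ball (0 : ℂ) ρ ∧ (-Real.pi < (L t).im ∧ (L t).im < Real.pi) := by
    have h1 : ∀ᶠ t in 𝓝 (0 : ℂ), φ t ∈ ball (0 : ℂ) s := hφc.eventually (ball_mem_nhds _ hs)
    have h2 : ∀ᶠ t in 𝓝 (0 : ℂ), ψ (φ t) = t ∧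
      ‖φ t‖ < s ∧ t ∈ ball (0 : ℂ) ρ ∧ (-Real.pi < (L t).im ∧ (L t).im < Real.pi) := by
      filter_upwards [hl, h1, hball, hLim] with t a1 a2 a3 a4
      exact ⟨a1, mem_ball_zero_iff.1 a2, a3, a4⟩
    rw [Metric.eventually_nhds_iff] at h2
    obtain ⟨s', hs', h3⟩ := h2
    exact ⟨s', hs', fun t ht => h3 (by rwa [dist_zero_right])⟩
  set X : ℂ → ℂ := fun g => g + Complex.log (ψ (exp g) / exp g) with hX
  have hex : ∀ g : ℂ, g.re < Real.log s → ‖exp g‖ < s := by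
    intro g hg
    rw [Complex.norm_exp]
    exact (Real.lt_log_iff_exp_lt hs).1 hg
  have hexpX : ∀ g : ℂ, g.re < Real.log s → exp (X g) = ψ (exp g) := by
    intro g hg
    obtain ⟨-, -, -, -, -, a6, -⟩ := hsall _ (exp_ne_zero g) (hex g hg)
    simp only [hX]
    rw [Complex.exp_add, Complex.exp_log (slitPlane_ne_zero a6)]
    field_simp
  refine ⟨-Real.log s, Real.log s', X, ?_⟩
  refine
    { hb1 := ?_
      dX := ?_
      mX := ?_
      GXe := ?_
      mG := ?_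
      XGe := ?_
      Xpi := ?_
      Xcj := ?_
      limX := ?_ }
  · -- `s' ≤ ρ`
    refine Real.log_le_log hs' ?_
    by_contra hcon
    rw [not_le] at hcon
    have h1 := (hsall' (ρ : ℂ) (by rw [Complex.norm_real, Real.norm_of_nonneg hρ.le]; exact hcon)
      ).2.2.1
    rw [mem_ball_zero_iff, Complex.norm_real, Real.norm_of_nonneg hρ.le] at h1
    exact lt_irrefl _ h1
  · intro g hg
    rw [neg_neg] at hg
    obtain ⟨a1, -, -, -, -, a6, -⟩ := hsall _ (exp_ne_zero g) (hex g hg)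
    have h1 : DifferentiableAt ℂ (fun g => ψ (exp g)) g :=
      (a1.differentiableAt).comp g Complex.differentiableAt_exp
    have h2 : DifferentiableAt ℂ (fun g => ψ (exp g) / exp g) g :=
      h1.div Complex.differentiableAt_exp (exp_ne_zero g)
    exact (differentiableAt_id.add (h2.clog a6)).differentiableWithinAt
  · intro g hg
    rw [neg_neg] at hg
    obtain ⟨-, -, a3, -, -, -, -⟩ := hsall _ (exp_ne_zero g) (hex g hg)
    have h1 := hexpX g hg
    rw [mem_ball_zero_iff, ← h1, Complex.norm_exp] at a3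
    exact (Real.lt_log_iff_exp_lt hρ).2 a3
  · intro g hg
    rw [neg_neg] at hg
    obtain ⟨-, a2, a3, -, -, a6, a7⟩ := hsall _ (exp_ne_zero g) (hex g hg)
    have h1 := hexpX g hg
    unfold Gx
    rw [h1]
    have h2 : exp (Complex.log (ψ (exp g) / exp g) - L (ψ (exp g))) = 1 := by
      rw [Complex.exp_sub, Complex.exp_log (slitPlane_ne_zero a6)]
      have h3 : φ (ψ (exp g)) = ψ (exp g) * exp (-L (ψ (exp g))) := rfl
      rw [Complex.exp_neg, a2] at h3
      rw [div_div, div_eq_one_iff_eq (mul_ne_zero (exp_ne_zero _) (exp_ne_zero _))]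
      nth_rewrite 2 [h3]
      field_simp
    obtain ⟨n, hn⟩ := Complex.exp_eq_one_iff.1 h2
    have h3 : n = 0 := by
      by_contra hne
      rw [hn, norm_mul] at a7
      have h4 : (1 : ℝ) ≤ ‖(n : ℂ)‖ := by
        rw [Complex.norm_intCast]
        exact_mod_cast Int.one_le_abs hne
      have h5 : ‖(2 * Real.pi * I : ℂ)‖ = 2 * Real.pi := by
        simp [Real.pi_pos.le]
      rw [h5] at a7
      have := Real.pi_gt_three
      nlinarith
    rw [h3, Int.cast_zero, zero_mul] at hn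
    simp only [hX]
    linear_combination hn
  · intro x hx
    rw [neg_neg]
    have ht : ‖exp x‖ < s' := by
      rw [Complex.norm_exp]
      exact (Real.lt_log_iff_exp_lt hs').1 hx
    obtain ⟨-, b2, -, -⟩ := hsall' _ ht
    have h1 : exp (Gx L x) = φ (exp x) := by
      unfold Gx
      simp only [hφ]
      rw [Complex.exp_sub, Complex.exp_neg]
      rfl
    rw [Real.lt_log_iff_exp_lt hs, ← Complex.norm_exp, h1]
    exact b2
  · intro x hx
    have ht : ‖exp x‖ < s' := by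
      rw [Complex.norm_exp]
      exact (Real.lt_log_iff_exp_lt hs').1 hx
    obtain ⟨b1, b2, b3, b4, b5⟩ := hsall' _ ht
    have h1 : exp (Gx L x) = φ (exp x) := by
      unfold Gx
      simp only [hφ]
      rw [Complex.exp_sub, Complex.exp_neg]
      rfl
    simp only [hX]
    rw [h1, b1]
    have h2 : exp x / φ (exp x) = exp (L (exp x)) := by
      simp only [hφ]
      rw [Complex.exp_neg]
      field_simp
    rw [h2, Complex.log_exp b4 b5.le]
    unfold Gx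
    ring
  · intro g hg
    rw [neg_neg] at hg
    obtain ⟨-, -, -, a4, -, -, -⟩ := hsall _ (exp_ne_zero g) (hex g hg)
    simp only [hX]
    rw [Complex.exp_add, Complex.exp_pi_mul_I, mul_neg_one, a4, neg_div_neg_eq]
    ring
  · intro g hg
    rw [neg_neg] at hg
    obtain ⟨-, -, -, -, a5, a6, -⟩ := hsall _ (exp_ne_zero g) (hex g hg)
    simp only [hX]
    rw [Complex.exp_conj, a5, ← map_div₀, Complex.log_conj _ (slitPlane_arg_ne_pi a6), map_add]
  · have h1 : Tendsto (fun x : ℂ => exp x) (comap Complex.re atBot) (𝓝[≠] 0) := by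
      rw [tendsto_nhdsWithin_iff]
      exact ⟨tendsto_exp_comap, Eventually.of_forall fun x => exp_ne_zero x⟩
    refine (hqlog.comp h1).congr fun g => ?_
    simp only [hX, Function.comp_apply]
    ring

end EQH
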