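import Pool.Agent.Lib.MP_226de1_co.H.TPlane
import Pool.Agent.Lib.MP_226de1_co.H.Loop

/-! The chart does not extend to the whole plane. -/

set_option autoImplicit false

namespace EQH

open Complex Filter Topology Set Metric

variable {k μ : ℝ} {α lX lD : ℂ → ℂ}

/-- Otherwise (S_U) holds everywhere (`TCh.toCh`, `Ch.loop`): `‖q x - I‖ < ‖q (x - log μ) - I‖`
for all `x`, so `q` is bounded on `Re x ≥ 0` (compactness and `2 pi`-periodicity on
`-log μ ≤ Re x ≤ 0`, induction), i.e. `‖α t‖ ≤ C ‖t‖` for `‖t‖ ≥ 1`. `α` is entire, so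
`(α t - 1) / t` (removable: `dslope α 0`) is bounded and entire, hence constant (Liouville),
`α t = 1 + c t`, `c = 0` as `α` is even; then `t^2 + 1` is an exponential for all `t`,
contradiction at `t = I`. -/
theorem no_entire (h : ∀ ρ : ℝ, 0 < ρ → TCh k μ ρ α lX lD) : False := by
  have hμ := (h 1 one_pos).hμ
  have hμ0 : 0 < μ := by linarith
  have hμc : (μ : ℂ) ≠ 0 := by exact_mod_cast hμ0.ne'
  have hα : Differentiable ℂ α := by
    intro t
    have h1 := (h (‖t‖ + 1) (by positivity)).dα
    have hmem : t ∈ ball (0 : ℂ) (μ * (‖t‖ + 1)) := by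
      rw [mem_ball_zero_iff]
      nlinarith [norm_nonneg t]
    exact h1.differentiableAt (isOpen_ball.mem_nhds hmem)
  have hsu : ∀ t : ℂ, t ≠ 0 → ‖-α t / t - I‖ < ‖-α (t / μ) / (t / μ) - I‖ := by
    intro t ht
    have hρ : 0 < ‖t‖ := norm_pos_iff.mpr ht
    have hl := ((h ‖t‖ hρ).toCh).loop
    have hre : (Complex.log t).re < Real.log ‖t‖ + Real.log μ / 2 := by
      rw [Complex.log_re]
      have := Real.log_pos hμ
      linarith
    have h1 := hl.su I I_sq (Complex.log t) hre
    have e1 : qT α (Complex.log t) = -α t / t := by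
      unfold qT
      rw [Complex.exp_neg, Complex.exp_log ht]
      field_simp
    have e3 : exp (Complex.log t - (Real.log μ : ℂ)) = t / μ := by
      rw [Complex.exp_sub, Complex.exp_log ht, ← Complex.ofReal_exp, Real.exp_log hμ0]
    have e2 : qT α (Complex.log t - (Real.log μ : ℂ)) = -α (t / μ) / (t / μ) := by
      unfold qT
      rw [Complex.exp_neg, e3]
      field_simp
    rw [e1, e2] at h1
    exact h1
  -- bound on the annulus
  have hK : IsCompact {s : ℂ | 1 / μ ≤ ‖s‖ ∧ ‖s‖ ≤ 1} := by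
    have : {s : ℂ | 1 / μ ≤ ‖s‖ ∧ ‖s‖ ≤ 1} = closedBall (0 : ℂ) 1 ∩ {s : ℂ | 1 / μ ≤ ‖s‖} := by
      ext s
      simp [and_comm]
    rw [this]
    exact (isCompact_closedBall (0 : ℂ) 1).inter_right (isClosed_le continuous_const continuous_norm)
  have hc1 : ContinuousOn (fun s : ℂ => -α s / s - I) {s : ℂ | 1 / μ ≤ ‖s‖ ∧ ‖s‖ ≤ 1} := by
    refine ContinuousOn.sub (ContinuousOn.div hα.continuous.neg.continuousOn continuousOn_id ?_)
      continuousOn_const
    intro s hs
    have h1 : 0 < ‖s‖ := lt_of_lt_of_le (by positivity) hs.1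
    exact norm_pos_iff.mp h1
  obtain ⟨M, hM⟩ := hK.exists_bound_of_continuousOn hc1
  have hind : ∀ n : ℕ, ∀ t : ℂ, 1 / μ ≤ ‖t‖ → ‖t‖ ≤ μ ^ n → ‖-α t / t - I‖ ≤ M := by
    intro n
    induction n with
    | zero =>
      intro t h1 h2
      exact hM t ⟨h1, by simpa using h2⟩
    | succ n ih =>
      intro t h1 h2
      by_cases h3 : ‖t‖ ≤ 1
      · exact hM t ⟨h1, h3⟩
      · have h3' : 1 < ‖t‖ := lt_of_not_ge h3
        have ht : t ≠ 0 := by
          rintro rfl
          simp at h3'
          linarith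
        have hn : ‖t / (μ : ℂ)‖ = ‖t‖ / μ := by
          rw [norm_div, Complex.norm_real, Real.norm_of_nonneg hμ0.le]
        refine (hsu t ht).le.trans (ih (t / μ) ?_ ?_)
        · rw [hn]
          exact div_le_div_of_nonneg_right h3'.le hμ0.le
        · rw [hn, div_le_iff₀ hμ0]
          rw [pow_succ] at h2
          exact h2
  have hbd : ∀ t : ℂ, 1 ≤ ‖t‖ → ‖α t / t‖ ≤ M + 1 := by
    intro t ht
    obtain ⟨n, hn⟩ := pow_unbounded_of_one_lt ‖t‖ hμ
    have h1 : 1 / μ ≤ ‖t‖ := by
      have : 1 / μ ≤ 1 := by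
        rw [div_le_one hμ0]
        exact hμ.le
      linarith
    have h2 := hind n t h1 hn.le
    have h3 : α t / t = -((-α t / t - I) + I) := by ring
    rw [h3, norm_neg]
    refine (norm_add_le _ _).trans ?_
    rw [Complex.norm_I]
    linarith
  -- Liouville
  have hg : Differentiable ℂ (dslope α 0) := by
    rw [← differentiableOn_univ]
    rw [Complex.differentiableOn_dslope Filter.univ_mem]
    exact hα.differentiableOn
  have hα0 : α 0 = 1 := (h 1 one_pos).α0
  have hgval : ∀ t : ℂ, t ≠ 0 → dslope α 0 t = (α t - 1) / t := by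
    intro t ht
    rw [dslope_of_ne _ ht, slope_def_field, hα0, sub_zero]
  obtain ⟨C1, hC1⟩ := (isCompact_closedBall (0 : ℂ) 1).exists_bound_of_continuousOn
    hg.continuous.continuousOn
  have hbdd : Bornology.IsBounded (range (dslope α 0)) := by
    rw [isBounded_iff_forall_norm_le]
    refine ⟨max C1 (M + 1 + 1), ?_⟩
    rintro _ ⟨t, rfl⟩
    by_cases ht : ‖t‖ ≤ 1
    · exact (hC1 t (by simpa using ht)).trans (le_max_left _ _)
    · have ht' : 1 < ‖t‖ := lt_of_not_ge ht
      have ht0 : t ≠ 0 := by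
        rintro rfl
        simp at ht'
        linarith
      refine le_trans ?_ (le_max_right _ _)
      rw [hgval t ht0, sub_div]
      refine (norm_sub_le _ _).trans (add_le_add (hbd t ht'.le) ?_)
      rw [norm_div, norm_one, div_le_one (by linarith)]
      exact ht'.le
  have hconst := hg.apply_eq_apply_of_bounded hbdd
  have hI : α I - 1 = dslope α 0 1 * I := by
    have h1 := hconst I 1
    rw [hgval I I_ne_zero, div_eq_iff I_ne_zero] at h1
    exact h1
  have hmI : α (-I) - 1 = dslope α 0 1 * (-I) := by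
    have h1 := hconst (-I) 1
    rw [hgval (-I) (neg_ne_zero.mpr I_ne_zero), div_eq_iff (neg_ne_zero.mpr I_ne_zero)] at h1
    exact h1
  have hev : α (-I) = α I := by
    refine (h 1 one_pos).even I ?_
    rw [Complex.norm_I]
    linarith
  have hαI : α I = 1 := by
    rw [hev] at hmI
    have : α I - 1 + (α I - 1) = 0 := by
      nth_rewrite 1 [hI]
      rw [hmI]
      ring
    have h2 : (2 : ℂ) * (α I - 1) = 0 := by
      rw [two_mul]
      exact this
    have h3 : α I - 1 = 0 := by
      rcases mul_eq_zero.mp h2 with h4 | h4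
      · norm_num at h4
      · exact h4
    exact sub_eq_zero.mp h3
  have hex := (h 2 two_pos).expX I (by rw [Complex.norm_I]; norm_num)
  rw [hαI, I_sq] at hex
  norm_num at hex

end EQH
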