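import Pool.Agent.Lib.MP_226de1_co.H.Extend
import Pool.Agent.Lib.MP_226de1_co.H.NoEnt

/-! The maximal chart. -/

set_option autoImplicit false

namespace EQH

open Complex Filter Topology Set Metric

variable {k μ : ℝ}

/-- agreement with the initial germ -/
def Agr (α lX lD α' lX' lD' : ℂ → ℂ) : Prop :=
  α' =ᶠ[𝓝 0] α ∧ lX' =ᶠ[𝓝 0] lX ∧ lD' =ᶠ[𝓝 0] lD

/-- the sum of the Taylor series at `0` -/
noncomputable def TS (F : ℂ → ℂ) (t : ℂ) : ℂ :=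
  ∑' n : ℕ, (n.factorial : ℂ)⁻¹ * t ^ n * iteratedDeriv n F 0

/-- `Complex.hasSum_taylorSeries_on_ball` -/
theorem TS_eq {F G : ℂ → ℂ} {r : ℝ} (hG : DifferentiableOn ℂ G (ball 0 r)) (hr : 0 < r)
    (he : G =ᶠ[𝓝 0] F) : ∀ t ∈ ball (0 : ℂ) r, TS F t = G t := by
  intro t ht
  have h := (Complex.hasSum_taylorSeries_on_ball hG ht).tsum_eq
  rw [← h]
  unfold TS
  refine tsum_congr fun n => ?_
  rw [he.iteratedDeriv_eq n, sub_zero, smul_eq_mul, smul_eq_mul, mul_assoc]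

private theorem glue_aux {α lX lD : ℂ → ℂ} {ρ' : ℝ} (h0 : 0 < ρ') {α' lX' lD' : ℂ → ℂ}
    (h : TCh k μ ρ' α' lX' lD') (ha : Agr α lX lD α' lX' lD') :
    (∀ t : ℂ, ‖t‖ < μ * ρ' → TS α t = α' t) ∧ (∀ t : ℂ, ‖t‖ < ρ' → TS lX t = lX' t) ∧
      (∀ t : ℂ, ‖t‖ < μ * ρ' → TS lD t = lD' t) := by
  have hμ : 0 < μ * ρ' := mul_pos (by linarith [h.hμ]) h0
  refine ⟨fun t ht => TS_eq h.dα hμ ha.1 t (by simpa using ht),
    fun t ht => TS_eq h.dX h0 ha.2.1 t (by simpa using ht),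
    fun t ht => TS_eq h.dD hμ ha.2.2 t (by simpa using ht)⟩

private theorem glue_diff {R : ℝ} {F : ℂ → ℂ}
    (h : ∀ t : ℂ, ‖t‖ < R → ∃ r : ℝ, ‖t‖ < r ∧ ∃ G : ℂ → ℂ, DifferentiableOn ℂ G (ball 0 r) ∧
      ∀ s : ℂ, ‖s‖ < r → F s = G s) : DifferentiableOn ℂ F (ball 0 R) := by
  intro t ht
  obtain ⟨r, hr, G, hG, hs⟩ := h t (by simpa using ht)
  have hb : ball (0 : ℂ) r ∈ 𝓝 t := isOpen_ball.mem_nhds (by simpa using hr)
  have h1 : DifferentiableAt ℂ G t := (hG t (by simpa using hr)).differentiableAt hb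
  have h2 : F =ᶠ[𝓝 t] G := by
    filter_upwards [hb] with s hs'
    exact hs s (by simpa using hs')
  exact (h1.congr_of_eventuallyEq h2).differentiableWithinAt

/-- If for every `ρ' < ρ` there is a chart of radius `ρ'` agreeing with the germ, then the
Taylor sums form a chart of radius `ρ`. -/
theorem glue {ρ : ℝ} {α lX lD : ℂ → ℂ} (hρ : 0 < ρ)
    (h : ∀ ρ' : ℝ, 0 < ρ' → ρ' < ρ → ∃ α' lX' lD' : ℂ → ℂ, TCh k μ ρ' α' lX' lD' ∧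
      Agr α lX lD α' lX' lD') :
    TCh k μ ρ (TS α) (TS lX) (TS lD) ∧ Agr α lX lD (TS α) (TS lX) (TS lD) := by
  obtain ⟨α1, lX1, lD1, h1, ha1⟩ := h (ρ / 2) (by linarith) (by linarith)
  obtain ⟨e1, e2, e3⟩ := glue_aux (by linarith) h1 ha1
  have hk := h1.hk
  have hμ := h1.hμ
  have hμ0 : 0 < μ := by linarith
  -- local charts
  have key : ∀ r : ℝ, 0 ≤ r → r < ρ → ∃ ρ' : ℝ, r < ρ' ∧ ρ' < ρ ∧ 0 < ρ' ∧
      ∃ α' lX' lD' : ℂ → ℂ, TCh k μ ρ' α' lX' lD' ∧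
      (∀ t : ℂ, ‖t‖ < μ * ρ' → TS α t = α' t) ∧ (∀ t : ℂ, ‖t‖ < ρ' → TS lX t = lX' t) ∧
      (∀ t : ℂ, ‖t‖ < μ * ρ' → TS lD t = lD' t) := by
    intro r hr hr'
    obtain ⟨ρ', h2, h3⟩ := exists_between hr'
    have h4 : 0 < ρ' := by linarith
    obtain ⟨α2, lX2, lD2, h5, ha2⟩ := h ρ' h4 h3
    exact ⟨ρ', h2, h3, h4, α2, lX2, lD2, h5, glue_aux h4 h5 ha2⟩
  have keyμ : ∀ t : ℂ, ‖t‖ < μ * ρ → ∃ ρ' : ℝ, ‖t‖ < μ * ρ' ∧ ρ' < ρ ∧ 0 < ρ' ∧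
      ∃ α' lX' lD' : ℂ → ℂ, TCh k μ ρ' α' lX' lD' ∧
      (∀ t : ℂ, ‖t‖ < μ * ρ' → TS α t = α' t) ∧ (∀ t : ℂ, ‖t‖ < ρ' → TS lX t = lX' t) ∧
      (∀ t : ℂ, ‖t‖ < μ * ρ' → TS lD t = lD' t) := by
    intro t ht
    obtain ⟨ρ', h2, h3⟩ := key (‖t‖ / μ) (by positivity) (by rw [div_lt_iff₀ hμ0]; linarith)
    refine ⟨ρ', ?_, h3⟩
    rw [div_lt_iff₀ hμ0] at h2
    linarith
  have lt_mul : ∀ (r : ℝ) (t : ℂ), 0 < r → ‖t‖ < r → ‖t‖ < μ * r := by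
    intro r t hr ht
    nlinarith
  have agr : Agr α lX lD (TS α) (TS lX) (TS lD) := by
    refine ⟨?_, ?_, ?_⟩
    · have : TS α =ᶠ[𝓝 0] α1 := by
        filter_upwards [ball_mem_nhds (0 : ℂ) (show 0 < μ * (ρ / 2) by positivity)] with t ht
        exact e1 t (by simpa using ht)
      exact this.trans ha1.1
    · have : TS lX =ᶠ[𝓝 0] lX1 := by
        filter_upwards [ball_mem_nhds (0 : ℂ) (show 0 < ρ / 2 by positivity)] with t ht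
        exact e2 t (by simpa using ht)
      exact this.trans ha1.2.1
    · have : TS lD =ᶠ[𝓝 0] lD1 := by
        filter_upwards [ball_mem_nhds (0 : ℂ) (show 0 < μ * (ρ / 2) by positivity)] with t ht
        exact e3 t (by simpa using ht)
      exact this.trans ha1.2.2
  refine ⟨⟨hk, hμ, hρ, ?_, ?_, ?_, ?_, ?_, ?_, ?_, ?_, ?_, ?_, ?_⟩, agr⟩
  · refine glue_diff fun t ht => ?_
    obtain ⟨ρ', h2, h3, h4, α2, lX2, lD2, h5, h6, h7, h8⟩ := keyμ t ht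
    exact ⟨μ * ρ', h2, α2, h5.dα, h6⟩
  · refine glue_diff fun t ht => ?_
    obtain ⟨ρ', h2, h3, h4, α2, lX2, lD2, h5, h6, h7, h8⟩ := key ‖t‖ (norm_nonneg _) ht
    exact ⟨ρ', h2, lX2, h5.dX, h7⟩
  · refine glue_diff fun t ht => ?_
    obtain ⟨ρ', h2, h3, h4, α2, lX2, lD2, h5, h6, h7, h8⟩ := keyμ t ht
    exact ⟨μ * ρ', h2, lD2, h5.dD, h8⟩
  · intro t ht
    obtain ⟨ρ', h2, h3, h4, α2, lX2, lD2, h5, h6, h7, h8⟩ := keyμ t ht
    rw [h6 t h2, h6 (-t) (by rwa [norm_neg]), h5.even t h2]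
  · intro t ht
    obtain ⟨ρ', h2, h3, h4, α2, lX2, lD2, h5, h6, h7, h8⟩ := keyμ t ht
    rw [h6 t h2, h6 _ (by rwa [RCLike.norm_conj]), h5.cj t h2]
  · rw [e1 0 (by simp; positivity), h1.α0]
  · rw [e2 0 (by simp; positivity), h1.X0]
  · rw [e3 0 (by simp; positivity), h1.D0]
  · intro t ht
    obtain ⟨ρ', h2, h3, h4, α2, lX2, lD2, h5, h6, h7, h8⟩ := key ‖t‖ (norm_nonneg _) ht
    rw [h7 t h2, h6 t (lt_mul _ _ h4 h2), h5.expX t h2]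
  · intro t ht
    obtain ⟨ρ', h2, h3, h4, α2, lX2, lD2, h5, h6, h7, h8⟩ := keyμ t ht
    have h9 : ‖t / μ‖ < μ * ρ' := by
      rw [norm_div, Complex.norm_real, Real.norm_eq_abs, abs_of_pos hμ0, div_lt_iff₀ hμ0]
      have : 0 < μ * ρ' := by positivity
      nlinarith
    rw [h8 t h2, h6 t h2, h6 _ h9, h5.expD t h2]
  · intro t ht
    obtain ⟨ρ', h2, h3, h4, α2, lX2, lD2, h5, h6, h7, h8⟩ := key ‖t‖ (norm_nonneg _) ht
    have h9 : ‖(μ : ℂ) * t‖ < μ * ρ' := by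
      rw [norm_mul, Complex.norm_real, Real.norm_eq_abs, abs_of_pos hμ0]
      exact mul_lt_mul_of_pos_left h2 hμ0
    rw [h8 t (lt_mul _ _ h4 h2), h8 _ h9, h7 t h2, h5.feq t h2]

/-- The maximal chart: the supremum of all radii of charts agreeing with the germ is finite
(`no_entire`, `glue` for every `ρ`), at the supremum there is a chart (`glue`) and by
`TCh.extend` a zero of `t^2 + α^2` on `‖t‖ = ρ`. -/
theorem exists_max {ρ0 : ℝ} {α lX lD : ℂ → ℂ} (h0 : TCh k μ ρ0 α lX lD) :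
    ∃ ρ : ℝ, ∃ α' lX' lD' : ℂ → ℂ, TCh k μ ρ α' lX' lD' ∧ Agr α lX lD α' lX' lD' ∧
      ρ0 ≤ ρ ∧ ∃ t : ℂ, ‖t‖ = ρ ∧ t ^ 2 + α' t ^ 2 = 0 := by
  have hρ0 := h0.hρ
  set S : Set ℝ := {ρ | ∃ α' lX' lD' : ℂ → ℂ, TCh k μ ρ α' lX' lD' ∧ Agr α lX lD α' lX' lD'}
    with hS
  have h0S : ρ0 ∈ S := ⟨α, lX, lD, h0, Filter.EventuallyEq.refl _ _,
    Filter.EventuallyEq.refl _ _, Filter.EventuallyEq.refl _ _⟩
  have hbdd : BddAbove S := by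
    by_contra hb
    rw [not_bddAbove_iff] at hb
    refine no_entire (k := k) (μ := μ) (α := TS α) (lX := TS lX) (lD := TS lD) fun ρ hρ => ?_
    refine (glue hρ fun ρ' h1 h2 => ?_).1
    obtain ⟨ρ'', ⟨α', lX', lD', h3, h4⟩, h5⟩ := hb ρ'
    exact ⟨α', lX', lD', h3.mono h1 h5.le, h4⟩
  set R := sSup S with hR
  have hRρ : ρ0 ≤ R := le_csSup hbdd h0S
  have hR0 : 0 < R := lt_of_lt_of_le hρ0 hRρ
  obtain ⟨hT, hA⟩ := glue (k := k) (μ := μ) (α := α) (lX := lX) (lD := lD) hR0 (by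
    intro ρ' h1 h2
    obtain ⟨ρ'', ⟨α', lX', lD', h3, h4⟩, h5⟩ := exists_lt_of_lt_csSup ⟨ρ0, h0S⟩ h2
    exact ⟨α', lX', lD', h3.mono h1 h5.le, h4⟩)
  refine ⟨R, TS α, TS lX, TS lD, hT, hA, hRρ, ?_⟩
  by_contra hne
  push Not at hne
  obtain ⟨ρ', h1, α', lX', lD', h2, h3, h4, h5⟩ := hT.extend hne
  have hμ : 0 < μ := by linarith [hT.hμ]
  have hmem : ρ' ∈ S := by
    refine ⟨α', lX', lD', h2, ?_, ?_, ?_⟩
    · have : α' =ᶠ[𝓝 0] TS α := by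
        filter_upwards [ball_mem_nhds (0 : ℂ) (show 0 < μ * R by positivity)] with t ht
        exact h3 t ht
      exact this.trans hA.1
    · have : lX' =ᶠ[𝓝 0] TS lX := by
        filter_upwards [ball_mem_nhds (0 : ℂ) hR0] with t ht
        exact h4 t ht
      exact this.trans hA.2.1
    · have : lD' =ᶠ[𝓝 0] TS lD := by
        filter_upwards [ball_mem_nhds (0 : ℂ) (show 0 < μ * R by positivity)] with t ht
        exact h5 t ht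
      exact this.trans hA.2.2
  have := le_csSup hbdd hmem
  linarith

end EQH
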