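import Pool.Agent.Lib.MP_226de1_co.K.VC3

/-! Local facts on the unstable curve `VC k μ` for every real `k > 0`: symmetries and bounds. -/

set_option autoImplicit false

namespace EQH

open Complex Set Filter Topology
open EQK

/-- conjugation of a pair -/
noncomputable def cj (V : ℂ × ℂ) : ℂ × ℂ := ((starRingEnd ℂ) V.1, (starRingEnd ℂ) V.2)

/-- reflection `Y ↦ -Y` -/
noncomputable def ng (V : ℂ × ℂ) : ℂ × ℂ := (V.1, -V.2)

theorem cj_cont : Continuous cj := by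
  unfold cj
  exact (Complex.continuous_conj.comp continuous_fst).prodMk
    (Complex.continuous_conj.comp continuous_snd)

theorem ng_cont : Continuous ng := by
  unfold ng
  fun_prop

theorem RRc_cj (V : ℂ × ℂ) : RRc (cj V) = (starRingEnd ℂ) (RRc V) := by
  unfold RRc cj
  simp

theorem RRc_ng (V : ℂ × ℂ) : RRc (ng V) = RRc V := by
  unfold RRc ng
  simp

variable {k μ : ℝ}

theorem bas_eq (hμ : 0 < μ) (R : ℂ) :
    bas k μ R = ((1 + μ ^ k : ℝ) : ℂ) * exp (-((k : ℂ) / 2) * log R) - 1 := by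
  unfold bas
  rw [← Complex.ofReal_log hμ.le, Real.rpow_def_of_pos hμ]
  push_cast
  rw [mul_comm (k : ℂ) ((Real.log μ : ℝ) : ℂ)]

theorem bas_conj (hμ : 0 < μ) {R : ℂ} (hR : R ∈ slitPlane) :
    bas k μ ((starRingEnd ℂ) R) = (starRingEnd ℂ) (bas k μ R) := by
  rw [bas_eq hμ, bas_eq hμ]
  have h1 : log ((starRingEnd ℂ) R) = (starRingEnd ℂ) (log R) :=
    Complex.log_conj R (Complex.mem_slitPlane_iff_arg.1 hR).1
  rw [h1]
  simp only [map_sub, map_mul, map_one, ← Complex.exp_conj, map_neg, map_div₀,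
    Complex.conj_ofReal, Complex.conj_ofNat]

theorem lamC_conj (hμ : 0 < μ) {R : ℂ} (hR : OK k μ R) :
    lamC k μ ((starRingEnd ℂ) R) = (starRingEnd ℂ) (lamC k μ R) := by
  unfold lamC
  rw [bas_conj hμ hR.2.2.1,
    Complex.log_conj _ (Complex.mem_slitPlane_iff_arg.1 hR.2.2.2).1, ← Complex.exp_conj,
    map_div₀, Complex.conj_ofReal]

theorem TC_cj (hμ : 0 < μ) {V : ℂ × ℂ} (hV : OK k μ (RRc V)) :
    TC k μ (cj V) = cj (TC k μ V) := by
  unfold TC
  rw [RRc_cj, lamC_conj hμ hV]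
  unfold cj
  simp

theorem TC_ng (V : ℂ × ℂ) : TC k μ (ng V) = ng (TC k μ V) := by
  unfold TC
  rw [RRc_ng]
  unfold ng
  simp

theorem UC_ng (n : ℕ) (t : ℂ) : UC n k μ (-t) = ng (UC n k μ t) := by
  induction n generalizing t with
  | zero =>
    show (cos (-t), sin (-t)) = ng (cos t, sin t)
    unfold ng
    simp
  | succ n ih =>
    show TC k μ (UC n k μ (-t / μ)) = ng (TC k μ (UC n k μ (t / μ)))
    rw [neg_div, ih, TC_ng]

/-- basic local package -/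
structure VL (k μ A r : ℝ) : Prop where
  hk : 0 < k
  hμ : 1 < μ
  hr : 0 < r
  hr1 : r ≤ 1 / 10
  hA : 0 < A
  hAr : A * r ^ 2 ≤ 1 / 10
  dX : DifferentiableOn ℂ (fun t => (VC k μ t).1) (Metric.ball 0 r)
  dY : DifferentiableOn ℂ (fun t => (VC k μ t).2) (Metric.ball 0 r)
  ok : ∀ t : ℂ, ‖t‖ < r → OK k μ (RRc (VC k μ t))
  feq : ∀ t : ℂ, ‖t‖ < r → TC k μ (VC k μ (t / μ)) = VC k μ t
  bX : ∀ t : ℂ, ‖t‖ < r → ‖(VC k μ t).1 - 1‖ ≤ A * ‖t‖ ^ 2
  bY : ∀ t : ℂ, ‖t‖ < r → ‖(VC k μ t).2 - t‖ ≤ A * ‖t‖ ^ 3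
  cj : ∀ t : ℂ, ‖t‖ < r → VC k μ ((starRingEnd ℂ) t) = cj (VC k μ t)
  ng : ∀ t : ℂ, ‖t‖ < r → VC k μ (-t) = ng (VC k μ t)

theorem VL_exists (hk : 0 < k) (hμ : 1 < μ) : ∃ A r : ℝ, VL k μ A r := by
  obtain ⟨ε, r, A, hε, hr, hr1, hA, hAr, hC, hV⟩ := VC_loc hk hμ
  have hμ0 : 0 < μ := by linarith
  set s : ℝ := min (r / 4) (1 / 10) with hs
  have hs0 : 0 < s := lt_min (by positivity) (by norm_num)
  have hsr4 : s ≤ r / 4 := min_le_left _ _
  have hsr : s ≤ r := by linarith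
  have hk0 : ‖(k : ℂ) - k‖ < ε := by simpa using hε
  have hμ0' : ‖(μ : ℂ) - μ‖ < ε := by simpa using hε
  have hVt := fun (t : ℂ) (ht : ‖t‖ < r) => hV k μ t hk0 hμ0' ht
  have hmaps : MapsTo (fun t : ℂ => ((k : ℂ), (μ : ℂ), t)) (Metric.ball 0 r) (Bp k μ ε r) := by
    intro t ht
    exact ⟨hk0, hμ0', by simpa using ht⟩
  have hd : DifferentiableOn ℂ (fun t : ℂ => VC k μ t) (Metric.ball 0 r) := by
    have h1 : DifferentiableOn ℂ (fun p : ℂ × ℂ × ℂ => VC p.1 p.2.1 p.2.2) (Bp k μ ε r) :=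
      hC.differentiableOn one_ne_zero
    have h2 : DifferentiableOn ℂ (fun t : ℂ => ((k : ℂ), (μ : ℂ), t)) (Metric.ball 0 r) :=
      ((differentiable_const _).prodMk ((differentiable_const _).prodMk
        differentiable_id)).differentiableOn
    exact h1.comp h2 hmaps
  have hsub : Metric.ball (0 : ℂ) s ⊆ Metric.ball 0 r := Metric.ball_subset_ball hsr
  have hconj : ∀ n : ℕ, ∀ t : ℂ, ‖t‖ < r → UC n k μ ((starRingEnd ℂ) t) = EQH.cj (UC n k μ t) := by
    intro n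
    induction n with
    | zero =>
      intro t _
      show (cos ((starRingEnd ℂ) t), sin ((starRingEnd ℂ) t)) = EQH.cj (cos t, sin t)
      unfold EQH.cj
      simp [Complex.cos_conj, Complex.sin_conj]
    | succ n ih =>
      intro t ht
      have h1 : ‖t / (μ : ℂ)‖ < r := by
        rw [norm_div, Complex.norm_real, Real.norm_of_nonneg hμ0.le]
        exact (div_le_self (norm_nonneg _) hμ.le).trans_lt ht
      have h2 : (starRingEnd ℂ) t / (μ : ℂ) = (starRingEnd ℂ) (t / μ) := by simp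
      show TC k μ (UC n k μ ((starRingEnd ℂ) t / μ)) = EQH.cj (TC k μ (UC n k μ (t / μ)))
      rw [h2, ih _ h1, TC_cj hμ0 ((hVt _ h1).2.1 n)]
  refine ⟨A, s, hk, hμ, hs0, min_le_right _ _, hA, ?_, ?_, ?_, ?_, ?_, ?_, ?_, ?_, ?_⟩
  · have h1 : s ^ 2 ≤ (r / 4) ^ 2 := pow_le_pow_left₀ hs0.le hsr4 2
    have h2 : A * s ^ 2 ≤ A * (r / 4) ^ 2 := mul_le_mul_of_nonneg_left h1 hA.le
    nlinarith
  · exact (hd.mono hsub).fst
  · exact (hd.mono hsub).snd
  · exact fun t ht => (hVt t (ht.trans_le hsr)).2.2.1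
  · exact fun t ht => (hVt t (ht.trans_le hsr)).2.2.2.1
  · exact fun t ht => (hVt t (ht.trans_le hsr)).2.2.2.2.1
  · exact fun t ht => (hVt t (ht.trans_le hsr)).2.2.2.2.2.1
  · intro t ht
    have ht' := ht.trans_le hsr
    have h1 := (hVt t ht').2.2.2.2.2.2.2.1
    have h2 := (hVt ((starRingEnd ℂ) t) (by simpa using ht')).2.2.2.2.2.2.2.1
    have h3 : Tendsto (fun n => EQH.cj (UC n k μ t)) atTop (𝓝 (EQH.cj (VC k μ t))) :=
      (cj_cont.tendsto _).comp h1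
    have h4 : (fun n => UC n k μ ((starRingEnd ℂ) t)) = fun n => EQH.cj (UC n k μ t) :=
      funext fun n => hconj n t ht'
    rw [h4] at h2
    exact tendsto_nhds_unique h2 h3
  · intro t ht
    have ht' := ht.trans_le hsr
    have h1 := (hVt t ht').2.2.2.2.2.2.2.1
    have h2 := (hVt (-t) (by simpa using ht')).2.2.2.2.2.2.2.1
    have h3 : Tendsto (fun n => EQH.ng (UC n k μ t)) atTop (𝓝 (EQH.ng (VC k μ t))) :=
      (ng_cont.tendsto _).comp h1
    have h4 : (fun n => UC n k μ (-t)) = fun n => EQH.ng (UC n k μ t) :=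
      funext fun n => UC_ng n t
    rw [h4] at h2
    exact tendsto_nhds_unique h2 h3

end EQH
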