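import Pool.Agent.Lib.MP_226de1_co.H.Loc0

/-! The local chart in the logarithmic variable `x`, `t = exp x`: `q = -X/Y`,
`LX = log xi = log R / 2 - log Y`, `LD = log D = log (μ-1) - log Y`, `xi² = 1 + q² = R/Y²`. -/

set_option autoImplicit false

namespace EQH

open Complex Set Filter Topology
open EQK

noncomputable section

variable {k μ A r : ℝ}

/-- `log (Y/t)` at `t = exp x` -/
def lyx (k μ : ℝ) (x : ℂ) : ℂ := log ((VC k μ (exp x)).2 / exp x)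

/-- `log Y` -/
def LYx (k μ : ℝ) (x : ℂ) : ℂ := x + lyx k μ x

/-- `log R` -/
def LRx (k μ : ℝ) (x : ℂ) : ℂ := log (RRc (VC k μ (exp x)))

/-- `q` -/
def q0 (k μ : ℝ) (x : ℂ) : ℂ := -((VC k μ (exp x)).1 / (VC k μ (exp x)).2)

/-- `log xi` -/
def LX0 (k μ : ℝ) (x : ℂ) : ℂ := LRx k μ x / 2 - LYx k μ x

/-- `log D` -/
def LD0 (k μ : ℝ) (x : ℂ) : ℂ := (Real.log (μ - 1) : ℂ) - LYx k μ x

namespace VL

variable (h : VL k μ A r)
include h

theorem norm_exp_lt {x : ℂ} (hx : x.re < Real.log r) : ‖exp x‖ < r := by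
  rw [Complex.norm_exp]
  have h1 := Real.exp_lt_exp.2 hx
  rwa [Real.exp_log h.hr] at h1

theorem bY' {t : ℂ} (ht : ‖t‖ < r) (h0 : t ≠ 0) :
    ‖(VC k μ t).2 / t - 1‖ ≤ A * ‖t‖ ^ 2 := by
  have h1 := h.bY t ht
  have h2 : (VC k μ t).2 / t - 1 = ((VC k μ t).2 - t) / t := by field_simp
  have h3 : 0 < ‖t‖ := norm_pos_iff.2 h0
  rw [h2, norm_div, div_le_iff₀ h3]
  calc ‖(VC k μ t).2 - t‖ ≤ A * ‖t‖ ^ 3 := h1
    _ = A * ‖t‖ ^ 2 * ‖t‖ := by ring

theorem A_le {t : ℂ} (ht : ‖t‖ < r) : A * ‖t‖ ^ 2 ≤ 1 / 10 := by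
  have h1 : ‖t‖ ^ 2 ≤ r ^ 2 := pow_le_pow_left₀ (norm_nonneg _) ht.le 2
  exact (mul_le_mul_of_nonneg_left h1 h.hA.le).trans h.hAr

theorem Y_ne {t : ℂ} (ht : ‖t‖ < r) (h0 : t ≠ 0) : (VC k μ t).2 ≠ 0 := by
  intro h1
  have h2 := h.bY' ht h0
  rw [h1, zero_div, zero_sub, norm_neg, norm_one] at h2
  linarith [h.A_le ht]

/-- `‖R - 1‖ ≤ (5/2) A ‖t‖² + 2 ‖t‖²` -/
theorem bR {t : ℂ} (ht : ‖t‖ < r) :
    ‖RRc (VC k μ t) - 1‖ ≤ (5 / 2 * A + 2) * ‖t‖ ^ 2 := by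
  have h1 := h.bX t ht
  have h2 := h.bY t ht
  have h3 := h.A_le ht
  have ht1 : ‖t‖ ≤ 1 / 10 := ht.le.trans h.hr1
  have ht0 : 0 ≤ ‖t‖ := norm_nonneg t
  set X := (VC k μ t).1
  set Y := (VC k μ t).2
  have h4 : RRc (VC k μ t) - 1 = (X - 1) * (X - 1 + 2) + Y ^ 2 := by
    unfold RRc
    ring
  have h5 : ‖X - 1 + 2‖ ≤ 5 / 2 := by
    calc ‖X - 1 + 2‖ ≤ ‖X - 1‖ + ‖(2 : ℂ)‖ := norm_add_le _ _
      _ ≤ 1 / 10 + 2 := by
        have : ‖(2 : ℂ)‖ = 2 := by simp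
        rw [this]
        linarith
      _ ≤ 5 / 2 := by norm_num
  have h6 : ‖Y‖ ≤ 11 / 10 * ‖t‖ := by
    have h7 : Y = (Y - t) + t := by ring
    calc ‖Y‖ = ‖(Y - t) + t‖ := by rw [← h7]
      _ ≤ ‖Y - t‖ + ‖t‖ := norm_add_le _ _
      _ ≤ A * ‖t‖ ^ 3 + ‖t‖ := by linarith
      _ = (A * ‖t‖ ^ 2) * ‖t‖ + ‖t‖ := by ring
      _ ≤ 1 / 10 * ‖t‖ + ‖t‖ := by
        have := mul_le_mul_of_nonneg_right h3 ht0
        linarith
      _ = 11 / 10 * ‖t‖ := by ring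
  rw [h4]
  calc ‖(X - 1) * (X - 1 + 2) + Y ^ 2‖ ≤ ‖X - 1‖ * ‖X - 1 + 2‖ + ‖Y‖ ^ 2 := by
        refine (norm_add_le _ _).trans ?_
        rw [norm_mul, norm_pow]
    _ ≤ (A * ‖t‖ ^ 2) * (5 / 2) + (11 / 10 * ‖t‖) ^ 2 := by
        have h8 := mul_le_mul h1 h5 (norm_nonneg _) (mul_nonneg h.hA.le (sq_nonneg _))
        have h9 := pow_le_pow_left₀ (norm_nonneg Y) h6 2
        linarith
    _ ≤ (5 / 2 * A + 2) * ‖t‖ ^ 2 := by nlinarith [sq_nonneg ‖t‖]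

theorem R_slit {t : ℂ} (ht : ‖t‖ < r) : RRc (VC k μ t) ∈ slitPlane := (h.ok t ht).2.2.1

theorem Yt_slit {t : ℂ} (ht : ‖t‖ < r) (h0 : t ≠ 0) : (VC k μ t).2 / t ∈ slitPlane := by
  left
  have h1 := (Complex.abs_re_le_norm ((VC k μ t).2 / t - 1)).trans (h.bY' ht h0)
  rw [Complex.sub_re, Complex.one_re] at h1
  have h2 := (abs_le.1 h1).1
  linarith [h.A_le ht]

theorem div_lt {t : ℂ} (ht : ‖t‖ < r) : ‖t / (μ : ℂ)‖ < r := by
  have hμ0 : 0 < μ := by linarith [h.hμ]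
  rw [norm_div, Complex.norm_real, Real.norm_of_nonneg hμ0.le]
  exact (div_le_self (norm_nonneg _) h.hμ.le).trans_lt ht

theorem Y_an : DifferentiableOn ℂ (fun x => (VC k μ (exp x)).2) {x : ℂ | x.re < Real.log r} := by
  have h1 : MapsTo exp {x : ℂ | x.re < Real.log r} (Metric.ball 0 r) := by
    intro x hx
    simpa using h.norm_exp_lt hx
  exact h.dY.comp Complex.differentiable_exp.differentiableOn h1

theorem X_an : DifferentiableOn ℂ (fun x => (VC k μ (exp x)).1) {x : ℂ | x.re < Real.log r} := by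
  have h1 : MapsTo exp {x : ℂ | x.re < Real.log r} (Metric.ball 0 r) := by
    intro x hx
    simpa using h.norm_exp_lt hx
  exact h.dX.comp Complex.differentiable_exp.differentiableOn h1

theorem q_an : DifferentiableOn ℂ (q0 k μ) {x : ℂ | x.re < Real.log r} := by
  unfold q0
  exact (h.X_an.div h.Y_an fun x hx => h.Y_ne (h.norm_exp_lt hx) (exp_ne_zero _)).neg

theorem LY_an : DifferentiableOn ℂ (LYx k μ) {x : ℂ | x.re < Real.log r} := by
  unfold LYx lyx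
  refine differentiableOn_id.add ?_
  refine DifferentiableOn.clog ?_ fun x hx => h.Yt_slit (h.norm_exp_lt hx) (exp_ne_zero _)
  exact h.Y_an.div Complex.differentiable_exp.differentiableOn fun x _ => exp_ne_zero _

theorem LR_an : DifferentiableOn ℂ (LRx k μ) {x : ℂ | x.re < Real.log r} := by
  unfold LRx
  refine DifferentiableOn.clog ?_ fun x hx => h.R_slit (h.norm_exp_lt hx)
  unfold RRc
  exact (h.X_an.pow 2).add (h.Y_an.pow 2)

theorem LX_an : DifferentiableOn ℂ (LX0 k μ) {x : ℂ | x.re < Real.log r} := by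
  unfold LX0
  exact (h.LR_an.div_const 2).sub h.LY_an

theorem LD_an : DifferentiableOn ℂ (LD0 k μ) {x : ℂ | x.re < Real.log r} := by
  unfold LD0
  exact (differentiableOn_const _).sub h.LY_an

/-- `exp (log Y) = Y` -/
theorem exp_LY {x : ℂ} (hx : x.re < Real.log r) : exp (LYx k μ x) = (VC k μ (exp x)).2 := by
  unfold LYx lyx
  have h1 := h.Y_ne (h.norm_exp_lt hx) (exp_ne_zero x)
  rw [Complex.exp_add, Complex.exp_log (div_ne_zero h1 (exp_ne_zero _))]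
  field_simp [exp_ne_zero x]

theorem exp_LX {x : ℂ} (hx : x.re < Real.log r) : exp (2 * LX0 k μ x) = 1 + q0 k μ x ^ 2 := by
  have h1 := h.Y_ne (h.norm_exp_lt hx) (exp_ne_zero x)
  have h2 := h.exp_LY hx
  have h3 : exp (LRx k μ x) = RRc (VC k μ (exp x)) :=
    Complex.exp_log (slitPlane_ne_zero (h.R_slit (h.norm_exp_lt hx)))
  have h4 : 2 * LX0 k μ x = LRx k μ x - (LYx k μ x + LYx k μ x) := by
    unfold LX0
    ring
  rw [h4, Complex.exp_sub, Complex.exp_add, h2, h3]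
  unfold q0 RRc
  field_simp
  ring

theorem exp_LD {x : ℂ} (hx : x.re < Real.log r) :
    exp (LD0 k μ x) = ((μ : ℂ) - 1) / (VC k μ (exp x)).2 := by
  unfold LD0
  rw [Complex.exp_sub, h.exp_LY hx, ← Complex.ofReal_exp, Real.exp_log (by linarith [h.hμ])]
  push_cast
  rfl

theorem sub_l {x : ℂ} : exp (x - (Real.log μ : ℂ)) = exp x / μ := by
  rw [Complex.exp_sub, ← Complex.ofReal_exp, Real.exp_log (by linarith [h.hμ])]

/-- `q (x) = q (x - l) + D (x)` -/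
theorem q_step {x : ℂ} (hx : x.re < Real.log r) :
    q0 k μ x = q0 k μ (x - (Real.log μ : ℂ)) + exp (LD0 k μ x) := by
  have h1 := h.Y_ne (h.norm_exp_lt hx) (exp_ne_zero x)
  have hd := h.div_lt (h.norm_exp_lt hx)
  have hμ0 : (μ : ℂ) ≠ 0 := by
    have : μ ≠ 0 := by linarith [h.hμ]
    exact_mod_cast this
  have h2 := h.Y_ne hd (div_ne_zero (exp_ne_zero x) hμ0)
  have h3 := h.feq (exp x) (h.norm_exp_lt hx)
  rw [h.exp_LD hx]
  unfold q0
  rw [h.sub_l]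
  have h4 : (VC k μ (exp x)).1 =
      lamC k μ (RRc (VC k μ (exp x / μ))) * (VC k μ (exp x / μ)).1 - (μ - 1) := by
    rw [← h3]
    rfl
  have h5 : (VC k μ (exp x)).2 =
      lamC k μ (RRc (VC k μ (exp x / μ))) * (VC k μ (exp x / μ)).2 := by
    rw [← h3]
    rfl
  have h6 : lamC k μ (RRc (VC k μ (exp x / μ))) ≠ 0 := Complex.exp_ne_zero _
  rw [h4, h5]
  field_simp
  ring

/-- symmetry: conjugation -/
theorem exp_conj_lt {x : ℂ} (hx : x.re < Real.log r) :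
    ‖exp ((starRingEnd ℂ) x)‖ < r := h.norm_exp_lt (by simpa using hx)

theorem q_conj {x : ℂ} (hx : x.re < Real.log r) :
    q0 k μ ((starRingEnd ℂ) x) = (starRingEnd ℂ) (q0 k μ x) := by
  unfold q0
  rw [Complex.exp_conj, h.cj _ (h.norm_exp_lt hx)]
  unfold EQH.cj
  simp

theorem LY_conj {x : ℂ} (hx : x.re < Real.log r) :
    LYx k μ ((starRingEnd ℂ) x) = (starRingEnd ℂ) (LYx k μ x) := by
  unfold LYx lyx
  rw [Complex.exp_conj, h.cj _ (h.norm_exp_lt hx)]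
  unfold EQH.cj
  have h1 := h.Yt_slit (h.norm_exp_lt hx) (exp_ne_zero x)
  rw [map_add, ← Complex.log_conj _ (Complex.mem_slitPlane_iff_arg.1 h1).1]
  simp

theorem LR_conj {x : ℂ} (hx : x.re < Real.log r) :
    LRx k μ ((starRingEnd ℂ) x) = (starRingEnd ℂ) (LRx k μ x) := by
  unfold LRx
  rw [Complex.exp_conj, h.cj _ (h.norm_exp_lt hx), RRc_cj,
    Complex.log_conj _ (Complex.mem_slitPlane_iff_arg.1 (h.R_slit (h.norm_exp_lt hx))).1]

theorem LX_conj {x : ℂ} (hx : x.re < Real.log r) :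
    LX0 k μ ((starRingEnd ℂ) x) = (starRingEnd ℂ) (LX0 k μ x) := by
  unfold LX0
  rw [h.LR_conj hx, h.LY_conj hx, map_sub, map_div₀, Complex.conj_ofNat]

theorem LD_conj {x : ℂ} (hx : x.re < Real.log r) :
    LD0 k μ ((starRingEnd ℂ) x) = (starRingEnd ℂ) (LD0 k μ x) := by
  unfold LD0
  rw [h.LY_conj hx, map_sub, Complex.conj_ofReal]

omit h in
theorem exp_add_pi (x : ℂ) : exp (x + Real.pi * I) = - exp x := by
  rw [Complex.exp_add, Complex.exp_pi_mul_I]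
  ring

theorem q_per {x : ℂ} (hx : x.re < Real.log r) : q0 k μ (x + Real.pi * I) = - q0 k μ x := by
  unfold q0
  rw [exp_add_pi, h.ng _ (h.norm_exp_lt hx)]
  unfold EQH.ng
  simp [div_neg]

theorem LY_per {x : ℂ} (hx : x.re < Real.log r) :
    LYx k μ (x + Real.pi * I) = LYx k μ x + Real.pi * I := by
  unfold LYx lyx
  rw [exp_add_pi, h.ng _ (h.norm_exp_lt hx)]
  unfold EQH.ng
  simp only [neg_div_neg_eq]
  ring

theorem LR_per {x : ℂ} (hx : x.re < Real.log r) : LRx k μ (x + Real.pi * I) = LRx k μ x := by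
  unfold LRx
  rw [exp_add_pi, h.ng _ (h.norm_exp_lt hx), RRc_ng]

theorem LX_per {x : ℂ} (hx : x.re < Real.log r) :
    LX0 k μ (x + Real.pi * I) = LX0 k μ x - Real.pi * I := by
  unfold LX0
  rw [h.LR_per hx, h.LY_per hx]
  ring

theorem LD_per {x : ℂ} (hx : x.re < Real.log r) :
    LD0 k μ (x + Real.pi * I) = LD0 k μ x - Real.pi * I := by
  unfold LD0
  rw [h.LY_per hx]
  ring

end VL

end

end EQH
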