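import Pool.Agent.Lib.MP_226de1_co.H.Loc2

/-! Asymptotics of the local chart and the summary. -/

set_option autoImplicit false

namespace EQH

open Complex Set Filter Topology
open EQK

noncomputable section

variable {k μ A r : ℝ}

theorem VL.bR_half (h : VL k μ A r) {t : ℂ} (ht : ‖t‖ < r) : ‖RRc (VC k μ t) - 1‖ ≤ 1 / 2 := by
  have h1 := h.bR ht
  have h2 := h.A_le ht
  have h3 : ‖t‖ ≤ 1 / 10 := ht.le.trans h.hr1
  have h4 := norm_nonneg t
  nlinarith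

theorem VL.LR_le (h : VL k μ A r) {x : ℂ} (hx : x.re < Real.log r) :
    ‖LRx k μ x‖ ≤ 3 / 2 * ((5 / 2 * A + 2) * ‖exp x‖ ^ 2) := by
  have ht := h.norm_exp_lt hx
  unfold LRx
  have h3 : RRc (VC k μ (exp x)) = 1 + (RRc (VC k μ (exp x)) - 1) := by ring
  rw [h3]
  refine (Complex.norm_log_one_add_half_le_self (h.bR_half ht)).trans ?_
  exact mul_le_mul_of_nonneg_left (h.bR ht) (by norm_num)

theorem norm_exp_sq (x : ℂ) : ‖exp x‖ ^ 2 = Real.exp (2 * x.re) := by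
  rw [Complex.norm_exp, ← Real.exp_nat_mul]
  norm_num

/-- all facts on the local chart -/
structure Chart0 (k μ b B : ℝ) (q LX LD : ℂ → ℂ) : Prop where
  hB : 0 < B
  qan : DifferentiableOn ℂ q {x : ℂ | x.re < b}
  Xan : DifferentiableOn ℂ LX {x : ℂ | x.re < b}
  Dan : DifferentiableOn ℂ LD {x : ℂ | x.re < b}
  xi : ∀ x : ℂ, x.re < b → exp (2 * LX x) = 1 + q x ^ 2
  step : ∀ x : ℂ, x.re < b → q x = q (x - (Real.log μ : ℂ)) + exp (LD x)
  eq : ∀ x : ℂ, x.re < b →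
    exp (-(k : ℂ) * LD (x - (Real.log μ : ℂ))) + exp (-(k : ℂ) * LD x) =
      (Ck k μ : ℂ) * exp (-(k : ℂ) * LX (x - (Real.log μ : ℂ)))
  qconj : ∀ x : ℂ, x.re < b → q ((starRingEnd ℂ) x) = (starRingEnd ℂ) (q x)
  Xconj : ∀ x : ℂ, x.re < b → LX ((starRingEnd ℂ) x) = (starRingEnd ℂ) (LX x)
  Dconj : ∀ x : ℂ, x.re < b → LD ((starRingEnd ℂ) x) = (starRingEnd ℂ) (LD x)
  qper : ∀ x : ℂ, x.re < b → q (x + Real.pi * I) = - q x
  Xper : ∀ x : ℂ, x.re < b → LX (x + Real.pi * I) = LX x - Real.pi * I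
  Dper : ∀ x : ℂ, x.re < b → LD (x + Real.pi * I) = LD x - Real.pi * I
  qas : ∀ x : ℂ, x.re < b → ‖q x * exp x + 1‖ ≤ B * Real.exp (2 * x.re)
  Xas : ∀ x : ℂ, x.re < b → ‖LX x + x‖ ≤ B * Real.exp (2 * x.re)
  Das : ∀ x : ℂ, x.re < b → ‖LD x + x - (Real.log (μ - 1) : ℂ)‖ ≤ B * Real.exp (2 * x.re)

theorem chart0_exists (hk : 0 < k) (hμ : 1 < μ) :
    ∃ b B : ℝ, Chart0 k μ b B (q0 k μ) (LX0 k μ) (LD0 k μ) := by
  obtain ⟨A, r, h⟩ := VL2_exists hk hμ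
  have hA := h.hA
  refine ⟨Real.log r, 10 * A + 3, by linarith, h.q_an, h.LX_an, h.LD_an,
    fun x hx => h.exp_LX hx, fun x hx => h.q_step hx, fun x hx => h.P_eq hx,
    fun x hx => h.q_conj hx, fun x hx => h.LX_conj hx, fun x hx => h.LD_conj hx,
    fun x hx => h.q_per hx, fun x hx => h.LX_per hx, fun x hx => h.LD_per hx, ?_, ?_, ?_⟩
  · intro x hx
    have ht := h.norm_exp_lt hx
    have h1 := h.bY' ht (exp_ne_zero x)
    have h2 := h.A_le ht
    have h3 := h.bX _ ht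
    have hY := h.Y_ne ht (exp_ne_zero x)
    set X := (VC k μ (exp x)).1 with hX
    set Z := (VC k μ (exp x)).2 / exp x with hZ
    have h4 : 9 / 10 ≤ ‖Z‖ := by
      have h5 : ‖(1 : ℂ)‖ ≤ ‖Z‖ + ‖Z - 1‖ := by
        have : (1 : ℂ) = Z - (Z - 1) := by ring
        calc ‖(1 : ℂ)‖ = ‖Z - (Z - 1)‖ := by rw [← this]
          _ ≤ ‖Z‖ + ‖Z - 1‖ := norm_sub_le _ _
      rw [norm_one] at h5
      linarith
    have hZ0 : Z ≠ 0 := by
      intro h0
      rw [h0, norm_zero] at h4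
      linarith
    have h6 : q0 k μ x * exp x + 1 = ((Z - 1) - (X - 1)) / Z := by
      unfold q0
      rw [← hX, hZ]
      field_simp [exp_ne_zero x]
      ring
    rw [h6, norm_div, div_le_iff₀ (by linarith), ← norm_exp_sq]
    have h7 := norm_sub_le (Z - 1) (X - 1)
    have h8 : 0 ≤ A * ‖exp x‖ ^ 2 := by positivity
    have h9 : 0 ≤ ‖exp x‖ ^ 2 := by positivity
    nlinarith
  · intro x hx
    have h1 := h.lyx_le hx
    have h2 := h.LR_le hx
    have h3 : LX0 k μ x + x = LRx k μ x / 2 - lyx k μ x := by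
      unfold LX0 LYx
      ring
    rw [h3, ← norm_exp_sq]
    have h4 := norm_sub_le (LRx k μ x / 2) (lyx k μ x)
    have h5 : ‖LRx k μ x / 2‖ = ‖LRx k μ x‖ / 2 := by simp
    have h8 : 0 ≤ A * ‖exp x‖ ^ 2 := by positivity
    have h9 : 0 ≤ ‖exp x‖ ^ 2 := by positivity
    nlinarith
  · intro x hx
    have h1 := h.lyx_le hx
    have h3 : LD0 k μ x + x - (Real.log (μ - 1) : ℂ) = -lyx k μ x := by
      unfold LD0 LYx
      ring
    rw [h3, norm_neg, ← norm_exp_sq]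
    have h8 : 0 ≤ A * ‖exp x‖ ^ 2 := by positivity
    have h9 : 0 ≤ ‖exp x‖ ^ 2 := by positivity
    nlinarith

end

end EQH
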