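import Pool.Agent.Lib.MP_226de1_co.H.Loc3
import Pool.Agent.Lib.MP_226de1_co.H.Defs

/-! The local chart in the variable `t = exp x`, for every `k > 0`, `μ > 1`. -/

set_option autoImplicit false

namespace EQH

open Complex Set Filter Topology
open EQK

noncomputable section

/-- `Y / t` with the singularity removed -/
def yT (k μ : ℝ) (t : ℂ) : ℂ := if t = 0 then 1 else (VC k μ t).2 / t

/-- `α = X t / Y = - t q` -/
def aT (k μ : ℝ) (t : ℂ) : ℂ := (VC k μ t).1 / yT k μ t

/-- `log (t xi)` -/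
def lXT (k μ : ℝ) (t : ℂ) : ℂ := log (RRc (VC k μ t)) / 2 - log (yT k μ t)

/-- `log (t D)` -/
def lDT (k μ : ℝ) (t : ℂ) : ℂ := (Real.log (μ - 1) : ℂ) - log (yT k μ t)

variable {k μ A r : ℝ}

theorem yT_zero : yT k μ 0 = 1 := by simp [yT]

theorem yT_of_ne {t : ℂ} (h0 : t ≠ 0) : yT k μ t = (VC k μ t).2 / t := by simp [yT, h0]

namespace VL

variable (h : VL k μ A r)
include h

theorem VC_zero : VC k μ 0 = (1, 0) := by
  have h1 := h.bX 0 (by simpa using h.hr)
  have h2 := h.bY 0 (by simpa using h.hr)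
  simp only [norm_zero, ne_eq, OfNat.ofNat_ne_zero, not_false_eq_true, zero_pow, mul_zero,
    norm_le_zero_iff, sub_zero] at h1 h2
  exact Prod.ext (sub_eq_zero.1 h1) h2

theorem yT_bd {t : ℂ} (ht : ‖t‖ < r) : ‖yT k μ t - 1‖ ≤ A * ‖t‖ ^ 2 := by
  by_cases h0 : t = 0
  · simp [h0, yT_zero]
  · rw [yT_of_ne h0]
    exact h.bY' ht h0

theorem yT_slit {t : ℂ} (ht : ‖t‖ < r) : yT k μ t ∈ slitPlane := by
  left
  have h1 := (Complex.abs_re_le_norm (yT k μ t - 1)).trans (h.yT_bd ht)
  rw [Complex.sub_re, Complex.one_re] at h1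
  have h2 := (abs_le.1 h1).1
  linarith [h.A_le ht]

theorem yT_an : DifferentiableOn ℂ (yT k μ) (Metric.ball 0 r) := by
  have hnhds : Metric.ball (0 : ℂ) r ∈ 𝓝 (0 : ℂ) := Metric.ball_mem_nhds _ h.hr
  refine (Complex.differentiableOn_compl_singleton_and_continuousAt_iff hnhds).1 ⟨?_, ?_⟩
  · have h1 : DifferentiableOn ℂ (fun t => (VC k μ t).2 / t) (Metric.ball 0 r \ {0}) :=
      (h.dY.mono Set.sdiff_subset).div differentiableOn_id fun t ht => ht.2
    exact h1.congr fun t ht => yT_of_ne ht.2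
  · rw [ContinuousAt, yT_zero, tendsto_iff_norm_sub_tendsto_zero]
    have h2 : Tendsto (fun t : ℂ => A * ‖t‖ ^ 2) (𝓝 0) (𝓝 0) := by
      have : ContinuousAt (fun t : ℂ => A * ‖t‖ ^ 2) 0 := by fun_prop
      simpa [ContinuousAt] using this
    refine squeeze_zero' (Eventually.of_forall fun x => norm_nonneg _) ?_ h2
    filter_upwards [hnhds] with t ht
    exact h.yT_bd (by simpa using ht)

theorem yT_ne {t : ℂ} (ht : ‖t‖ < r) : yT k μ t ≠ 0 := slitPlane_ne_zero (h.yT_slit ht)

theorem aT_an : DifferentiableOn ℂ (aT k μ) (Metric.ball 0 r) := by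
  unfold aT
  exact h.dX.div h.yT_an fun t ht => h.yT_ne (by simpa using ht)

theorem lXT_an : DifferentiableOn ℂ (lXT k μ) (Metric.ball 0 r) := by
  unfold lXT
  refine DifferentiableOn.sub ?_ (h.yT_an.clog fun t ht => h.yT_slit (by simpa using ht))
  refine DifferentiableOn.div_const ?_ 2
  refine DifferentiableOn.clog ?_ fun t ht => h.R_slit (by simpa using ht)
  unfold RRc
  exact (h.dX.pow 2).add (h.dY.pow 2)

theorem lDT_an : DifferentiableOn ℂ (lDT k μ) (Metric.ball 0 r) := by
  unfold lDT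
  exact (differentiableOn_const _).sub (h.yT_an.clog fun t ht => h.yT_slit (by simpa using ht))

omit h in
theorem exp_log_re {t : ℂ} (h0 : t ≠ 0) (ht : ‖t‖ < r) : (log t).re < Real.log r := by
  rw [Complex.log_re]
  exact Real.log_lt_log (norm_pos_iff.2 h0) ht

omit h in
/-- the relation with the chart in `x` -/
theorem aT_exp (x : ℂ) : aT k μ (exp x) = -(q0 k μ x * exp x) := by
  unfold aT q0
  rw [yT_of_ne (exp_ne_zero x)]
  by_cases hY : (VC k μ (exp x)).2 = 0
  · simp [hY]
  · field_simp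

omit h in
theorem lXT_exp (x : ℂ) : lXT k μ (exp x) = LX0 k μ x + x := by
  unfold lXT LX0 LYx lyx LRx
  rw [yT_of_ne (exp_ne_zero x)]
  ring

omit h in
theorem lDT_exp (x : ℂ) : lDT k μ (exp x) = LD0 k μ x + x := by
  unfold lDT LD0 LYx lyx
  rw [yT_of_ne (exp_ne_zero x)]
  ring

end VL

/-- the local chart in the `t`-plane -/
theorem VL2.TCh (h : VL2 k μ A r) : TCh k μ (r / μ) (aT k μ) (lXT k μ) (lDT k μ) := by
  have hk := h.hk
  have hμ := h.hμ
  have hr := h.hr
  have hμ0 : 0 < μ := by linarith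
  have hμc : (μ : ℂ) ≠ 0 := by exact_mod_cast hμ0.ne'
  have hμr : μ * (r / μ) = r := by field_simp
  have hrμ : r / μ ≤ r := div_le_self hr.le hμ.le
  have hV0 := h.VC_zero
  have ha0 : aT k μ 0 = 1 := by
    unfold aT
    rw [hV0, yT_zero]
    simp
  have hX0 : lXT k μ 0 = 0 := by
    unfold lXT RRc
    rw [hV0, yT_zero]
    simp
  have hD0 : lDT k μ 0 = (Real.log (μ - 1) : ℂ) := by
    unfold lDT
    rw [yT_zero]
    simp
  have hμ1 : 0 < μ - 1 := by linarith
  refine
    { hk := hk
      hμ := hμ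
      hρ := by positivity
      dα := by rw [hμr]; exact h.aT_an
      dX := h.lXT_an.mono (Metric.ball_subset_ball hrμ)
      dD := by rw [hμr]; exact h.lDT_an
      even := ?_
      cj := ?_
      α0 := ha0
      X0 := hX0
      D0 := hD0
      expX := ?_
      expD := ?_
      feq := ?_ }
  · intro t ht
    rw [hμr] at ht
    by_cases h0 : t = 0
    · simp [h0]
    · unfold aT
      rw [yT_of_ne h0, yT_of_ne (neg_ne_zero.2 h0), h.ng t ht]
      unfold EQH.ng
      simp
  · intro t ht
    rw [hμr] at ht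
    by_cases h0 : t = 0
    · simp [h0, ha0]
    · have h0' : (starRingEnd ℂ) t ≠ 0 := by simpa using h0
      unfold aT
      rw [yT_of_ne h0, yT_of_ne h0', h.cj t ht]
      unfold EQH.cj
      simp
  · intro t ht
    have ht' := ht.trans_le hrμ
    by_cases h0 : t = 0
    · simp [h0, ha0, hX0]
    · have hx := VL.exp_log_re h0 ht'
      have e1 : t = exp (log t) := (Complex.exp_log h0).symm
      have h2 := h.exp_LX hx
      have e2 : lXT k μ t = LX0 k μ (log t) + log t := by
        rw [← VL.lXT_exp, ← e1]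
      have e3 : aT k μ t = -(q0 k μ (log t) * t) := by
        have := VL.aT_exp (k := k) (μ := μ) (log t)
        rw [← e1] at this
        exact this
      rw [e2, e3]
      have e4 : 2 * (LX0 k μ (log t) + log t) = 2 * LX0 k μ (log t) + (log t + log t) := by ring
      rw [e4, Complex.exp_add, Complex.exp_add, h2, ← e1]
      ring
  · intro t ht
    rw [hμr] at ht
    by_cases h0 : t = 0
    · rw [h0, hD0]
      simp only [zero_div, ha0]
      rw [← Complex.ofReal_exp, Real.exp_log hμ1]
      push_cast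
      ring
    · have hx := VL.exp_log_re h0 ht
      have e1 : t = exp (log t) := (Complex.exp_log h0).symm
      have h2 := h.q_step hx
      have e2 : lDT k μ t = LD0 k μ (log t) + log t := by
        rw [← VL.lDT_exp, ← e1]
      have e3 : aT k μ t = -(q0 k μ (log t) * t) := by
        have := VL.aT_exp (k := k) (μ := μ) (log t)
        rw [← e1] at this
        exact this
      have e5 : exp (log t - (Real.log μ : ℂ)) = t / μ := by
        rw [h.sub_l, ← e1]
      have e4 : aT k μ (t / μ) = -(q0 k μ (log t - (Real.log μ : ℂ)) * (t / μ)) := by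
        have := VL.aT_exp (k := k) (μ := μ) (log t - (Real.log μ : ℂ))
        rw [e5] at this
        exact this
      have h3 : exp (LD0 k μ (log t)) =
          q0 k μ (log t) - q0 k μ (log t - (Real.log μ : ℂ)) := by
        rw [h2]
        ring
      rw [e2, e3, e4, Complex.exp_add, h3, ← e1]
      field_simp
      ring
  · intro t ht
    have htr : ‖(μ : ℂ) * t‖ < r := by
      rw [norm_mul, Complex.norm_real, Real.norm_of_nonneg hμ0.le]
      rw [lt_div_iff₀ hμ0] at ht
      linarith
    by_cases h0 : t = 0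
    · rw [h0, mul_zero, hD0, hX0]
      have e1 : exp (-(k : ℂ) * (Real.log (μ - 1) : ℂ)) = ((((μ - 1) ^ k)⁻¹ : ℝ) : ℂ) := by
        rw [← Real.rpow_neg hμ1.le, Real.rpow_def_of_pos hμ1, Complex.ofReal_exp]
        congr 1
        push_cast
        ring
      have h2 : 0 < (μ - 1) ^ k := Real.rpow_pos_of_pos hμ1 k
      rw [e1]
      unfold CK
      rw [mul_zero, Complex.exp_zero, mul_one, ← Complex.ofReal_mul, ← Complex.ofReal_add]
      congr 1
      field_simp
    · have h0' : (μ : ℂ) * t ≠ 0 := mul_ne_zero hμc h0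
      set y : ℂ := log t with hy
      set x : ℂ := y + (Real.log μ : ℂ) with hx
      have e1 : exp y = t := Complex.exp_log h0
      have e2 : exp x = (μ : ℂ) * t := by
        rw [hx, Complex.exp_add, e1, ← Complex.ofReal_exp, Real.exp_log hμ0]
        ring
      have hxr : x.re < Real.log r := by
        have h3 : ‖exp x‖ < r := by rw [e2]; exact htr
        rw [Complex.norm_exp] at h3
        exact (Real.lt_log_iff_exp_lt hr).2 h3
      have h4 := h.P_eq hxr
      have e3 : x - (Real.log μ : ℂ) = y := by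
        rw [hx]
        ring
      rw [e3] at h4
      have e4 : lDT k μ t = LD0 k μ y + y := by rw [← VL.lDT_exp, e1]
      have e5 : lXT k μ t = LX0 k μ y + y := by rw [← VL.lXT_exp, e1]
      have e6 : lDT k μ (μ * t) = LD0 k μ x + x := by rw [← VL.lDT_exp, e2]
      rw [e4, e5, e6]
      have e7 : ((μ ^ k : ℝ) : ℂ) = exp ((k : ℂ) * (Real.log μ : ℂ)) := by
        rw [Real.rpow_def_of_pos hμ0, Complex.ofReal_exp]
        congr 1
        push_cast
        ring
      have e8 : exp (-(k : ℂ) * (LD0 k μ y + y)) =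
          exp (-(k : ℂ) * y) * exp (-(k : ℂ) * LD0 k μ y) := by
        rw [← Complex.exp_add]
        congr 1
        ring
      have e9 : exp (-(k : ℂ) * (LX0 k μ y + y)) =
          exp (-(k : ℂ) * y) * exp (-(k : ℂ) * LX0 k μ y) := by
        rw [← Complex.exp_add]
        congr 1
        ring
      have e10 : ((μ ^ k : ℝ) : ℂ) * exp (-(k : ℂ) * (LD0 k μ x + x)) =
          exp (-(k : ℂ) * y) * exp (-(k : ℂ) * LD0 k μ x) := by
        rw [e7, ← Complex.exp_add, ← Complex.exp_add]
        congr 1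
        rw [hx]
        ring
      rw [e8, e9, e10, ← mul_add, h4]
      show exp (-(k : ℂ) * y) * ((Ck k μ : ℂ) * exp (-(k : ℂ) * LX0 k μ y)) =
        (Ck k μ : ℂ) * (exp (-(k : ℂ) * y) * exp (-(k : ℂ) * LX0 k μ y))
      ring

/-- existence of the local chart in the `t`-plane, with its explicit description -/
theorem exists_TCh (hk : 0 < k) (hμ : 1 < μ) :
    ∃ ρ : ℝ, TCh k μ ρ (aT k μ) (lXT k μ) (lDT k μ) := by
  obtain ⟨A, r, h⟩ := VL2_exists hk hμ
  exact ⟨r / μ, h.TCh⟩

/-- `q`, `log xi`, `log D` in the `x`-plane -/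
theorem qT_aT (x : ℂ) : qT (aT k μ) x = q0 k μ x := by
  unfold qT
  rw [VL.aT_exp, Complex.exp_neg]
  field_simp [exp_ne_zero x]

theorem LT_lXT (x : ℂ) : LT (lXT k μ) x = LX0 k μ x := by
  unfold LT
  rw [VL.lXT_exp]
  ring

theorem LT_lDT (x : ℂ) : LT (lDT k μ) x = LD0 k μ x := by
  unfold LT
  rw [VL.lDT_exp]
  ring

end

end EQH
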