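import Mathlib

/-! Analytic branches of the logarithm on convex open sets: existence, uniqueness, extension. -/

set_option autoImplicit false

namespace EQH

open Complex Set Filter Topology

/-- a continuous logarithm of an analytic function is analytic -/
theorem clog_analytic {U : Set ℂ} (hUo : IsOpen U) {f g : ℂ → ℂ} (hf : ContinuousOn f U)
    (hg : DifferentiableOn ℂ g U) (h : ∀ x ∈ U, exp (f x) = g x) : DifferentiableOn ℂ f U := by
  intro x hx
  have hfx : ContinuousAt f x := hf.continuousAt (hUo.mem_nhds hx)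
  have hgx : DifferentiableAt ℂ g x := (hg x hx).differentiableAt (hUo.mem_nhds hx)
  have hgx0 : g x ≠ 0 := by
    rw [← h x hx]
    exact exp_ne_zero _
  -- near x, f y = f x + log (g y / g x)
  have h1 : ∀ᶠ y in 𝓝 x, ‖f y - f x‖ < 1 := by
    have h2 : Tendsto (fun y => f y - f x) (𝓝 x) (𝓝 0) := by
      have := hfx.tendsto.sub_const (f x)
      simpa using this
    have h3 := h2.norm
    rw [norm_zero] at h3
    exact h3.eventually_lt_const one_pos
  have h4 : ∀ᶠ y in 𝓝 x, f y = f x + log (g y / g x) := by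
    filter_upwards [h1, hUo.mem_nhds hx] with y hy hyU
    have h5 : g y / g x = exp (f y - f x) := by
      rw [Complex.exp_sub, h y hyU, h x hx]
    have h6 := (Complex.abs_im_le_norm (f y - f x)).trans_lt hy
    have hpi := Real.pi_gt_three
    rw [h5, Complex.log_exp]
    · ring
    · linarith [(abs_lt.1 h6).1]
    · linarith [(abs_lt.1 h6).2]
  have h7 : DifferentiableAt ℂ (fun y => f x + log (g y / g x)) x := by
    refine (differentiableAt_const _).add ?_
    refine DifferentiableAt.clog (hgx.div_const _) ?_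
    rw [div_self hgx0]
    exact Complex.one_mem_slitPlane
  exact (h7.congr_of_eventuallyEq h4).differentiableWithinAt

theorem exists_clog {U : Set ℂ} (hUc : Convex ℝ U) (hne : U.Nonempty) (hUo : IsOpen U)
    {g : ℂ → ℂ} (hg : DifferentiableOn ℂ g U) (h0 : ∀ x ∈ U, g x ≠ 0) :
    ∃ f : ℂ → ℂ, DifferentiableOn ℂ f U ∧ ∀ x ∈ U, exp (f x) = g x := by
  have : ContractibleSpace U := hUc.contractibleSpace hne
  have hsc : IsSimplyConnected U := by
    show SimplyConnectedSpace U
    infer_instance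
  obtain ⟨f, hfc, hf⟩ := Complex.exists_continuousOn_eqOn_exp_comp hsc hUo hg.continuousOn
    (by
      rintro ⟨x, hx, hx0⟩
      exact h0 x hx hx0)
  have hf' : ∀ x ∈ U, exp (f x) = g x := fun x hx => hf hx
  exact ⟨f, clog_analytic hUo hfc hg hf', hf'⟩

/-- two continuous logarithms that agree at one point agree everywhere -/
theorem clog_unique {U : Set ℂ} (hU : IsPreconnected U) {f g : ℂ → ℂ} (hf : ContinuousOn f U)
    (hg : ContinuousOn g U) (h : ∀ x ∈ U, exp (f x) = exp (g x)) {x₀ : ℂ} (hx₀ : x₀ ∈ U)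
    (h0 : f x₀ = g x₀) : EqOn f g U := by
  have h1 : ∀ x ∈ U, ∃ n : ℤ, f x - g x = n * (2 * Real.pi * I) := by
    intro x hx
    obtain ⟨n, hn⟩ := Complex.exp_eq_exp_iff_exists_int.1 (h x hx)
    exact ⟨n, by rw [hn]; ring⟩
  set d : ℂ → ℝ := fun x => (f x - g x).im / (2 * Real.pi) with hd
  have hdc : ContinuousOn d U :=
    (Complex.continuous_im.comp_continuousOn (hf.sub hg)).div_const _
  have hpi : (2 * Real.pi) ≠ 0 := by positivity
  have hdz : ∀ x ∈ U, ∃ n : ℤ, d x = n := by
    intro x hx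
    obtain ⟨n, hn⟩ := h1 x hx
    refine ⟨n, ?_⟩
    rw [hd]
    simp only
    rw [hn]
    have : ((n : ℂ) * (2 * Real.pi * I)).im = n * (2 * Real.pi) := by
      simp [Complex.mul_im, Complex.mul_re]
    rw [this]
    field_simp
  have hd0 : d x₀ = 0 := by
    rw [hd]
    simp [h0]
  have hdall : ∀ x ∈ U, d x = 0 := by
    intro x hx
    by_contra hne
    obtain ⟨n, hn⟩ := hdz x hx
    have hn0 : n ≠ 0 := by
      rintro rfl
      exact hne (by simpa using hn)
    have himg : IsPreconnected (d '' U) := hU.image d hdc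
    have hoc := himg.ordConnected
    have m1 : (0 : ℝ) ∈ d '' U := ⟨x₀, hx₀, hd0⟩
    have m2 : (n : ℝ) ∈ d '' U := ⟨x, hx, hn⟩
    rcases lt_or_gt_of_ne hn0 with hneg | hpos
    · have h3 : (n : ℝ) ≤ -1 := by exact_mod_cast Int.le_sub_one_of_lt hneg
      have h4 : (-1 / 2 : ℝ) ∈ d '' U := hoc.out m2 m1 ⟨by linarith, by norm_num⟩
      obtain ⟨y, hy, hy'⟩ := h4
      obtain ⟨m, hm⟩ := hdz y hy
      rw [hm] at hy'
      have h5 : (2 * m : ℤ) = -1 := by
        have : (2 * (m : ℝ)) = -1 := by linarith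
        exact_mod_cast this
      omega
    · have h3 : (1 : ℝ) ≤ (n : ℝ) := by exact_mod_cast hpos
      have h4 : (1 / 2 : ℝ) ∈ d '' U := hoc.out m1 m2 ⟨by norm_num, by linarith⟩
      obtain ⟨y, hy, hy'⟩ := h4
      obtain ⟨m, hm⟩ := hdz y hy
      rw [hm] at hy'
      have h5 : (2 * m : ℤ) = 1 := by
        have : (2 * (m : ℝ)) = 1 := by linarith
        exact_mod_cast this
      omega
  intro x hx
  obtain ⟨n, hn⟩ := h1 x hx
  have h2 := hdall x hx
  rw [hd] at h2
  simp only at h2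
  rw [hn] at h2
  have h3 : ((n : ℂ) * (2 * Real.pi * I)).im = n * (2 * Real.pi) := by
    simp [Complex.mul_im, Complex.mul_re]
  rw [h3, mul_div_assoc, div_self hpi, mul_one] at h2
  have h4 : n = 0 := by exact_mod_cast h2
  rw [h4] at hn
  simpa [sub_eq_zero] using hn

/-- extension of an analytic logarithm: `exp (c L) = P` -/
theorem clog_extend {U U' : Set ℂ} (hsub : U ⊆ U') (hU : Convex ℝ U) (hne : U.Nonempty)
    (hU' : Convex ℝ U') (hUo' : IsOpen U') {c : ℂ} (hc : c ≠ 0) {L P : ℂ → ℂ}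
    (hL : ContinuousOn L U) (hP : DifferentiableOn ℂ P U') (h0 : ∀ x ∈ U', P x ≠ 0)
    (h : ∀ x ∈ U, exp (c * L x) = P x) :
    ∃ L' : ℂ → ℂ, DifferentiableOn ℂ L' U' ∧ (∀ x ∈ U', exp (c * L' x) = P x) ∧ EqOn L' L U := by
  obtain ⟨f, hf, hfe⟩ := exists_clog hU' (hne.mono hsub) hUo' hP h0
  obtain ⟨x₀, hx₀⟩ := hne
  have e0 : exp (f x₀) = exp (c * L x₀) := by rw [hfe x₀ (hsub hx₀), h x₀ hx₀]
  obtain ⟨n, hn⟩ := Complex.exp_eq_exp_iff_exists_int.1 e0
  set κ : ℂ := (n : ℂ) * (2 * Real.pi * I) with hκ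
  have hexpκ : exp κ = 1 := Complex.exp_int_mul_two_pi_mul_I n
  refine ⟨fun x => (f x - κ) / c, (hf.sub_const κ).div_const c, ?_, ?_⟩
  · intro x hx
    rw [mul_div_cancel₀ _ hc, Complex.exp_sub, hexpκ, div_one, hfe x hx]
  · have h1 : EqOn (fun x => f x - κ) (fun x => c * L x) U := by
      refine clog_unique hU.isPreconnected ((hf.continuousOn.mono hsub).sub continuousOn_const)
        (hL.const_smul c) ?_ hx₀ ?_
      · intro x hx
        rw [Complex.exp_sub, hexpκ, div_one, hfe x (hsub hx), h x hx]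
      · show f x₀ - κ = c * L x₀
        rw [hn]
        ring
    intro x hx
    have h2 : f x - κ = c * L x := h1 hx
    show (f x - κ) / c = L x
    rw [h2, mul_div_cancel_left₀ _ hc]

end EQH
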