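import Pool.Agent.Lib.MP_226de1_co.H.ReD
import Pool.Agent.Lib.MP_226de1_co.H.Glue

/-! Theorem H: the maximal chart of a germ. -/

set_option autoImplicit false

namespace EQH

open Complex Filter Topology Set

/-- From `exists_max`, `TCh.toCh` and `HL.mk'` at `x0 = log t` (`t ≠ 0` as `‖t‖ = ρ > 0`):
`1 + q^2 = (t^2 + α^2)/t^2 = 0`. -/
theorem theoremH {k μ ρ0 : ℝ} {α lX lD : ℂ → ℂ} (h0 : TCh k μ ρ0 α lX lD) :
    ∃ ρ : ℝ, ∃ α' lX' lD' : ℂ → ℂ, TCh k μ ρ α' lX' lD' ∧ Agr α lX lD α' lX' lD' ∧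
      ρ0 ≤ ρ ∧ HL k μ (Real.log ρ) (qT α') (LT lX') (LT lD') := by
  obtain ⟨ρ, α', lX', lD', hT, hA, hρ, t, ht, hz⟩ := exists_max h0
  have ht0 : t ≠ 0 := by
    intro h
    rw [h, norm_zero] at ht
    exact absurd ht hT.hρ.ne
  refine ⟨ρ, α', lX', lD', hT, hA, hρ, HL.mk' hT.toCh (x0 := Complex.log t) ?_ ?_⟩
  · rw [Complex.log_re, ht]
  · unfold qT
    rw [Complex.exp_neg, Complex.exp_log ht0]
    have h2 : 1 + (-t⁻¹ * α' t) ^ 2 = (t ^ 2 + α' t ^ 2) / t ^ 2 := by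
      field_simp
      try ring
    rw [h2, hz, zero_div]

end EQH
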