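import Pool.Agent.Lib.MP_226de1_co.H.Strip

/-! Reflection `x ↦ 2c - conj x` and the ratio functions. -/

set_option autoImplicit false

namespace EQH

open Complex Filter Topology Set

/-- the reflected function `x ↦ conj (F (2c - conj x))` -/
noncomputable def rfF (c : ℝ) (F : ℂ → ℂ) (x : ℂ) : ℂ :=
  (starRingEnd ℂ) (F (2 * c - (starRingEnd ℂ) x))

/-- Proof: `DifferentiableAt.conj_conj` / `HasDerivAt.conj_conj` composed with `x ↦ 2c - x`. -/
theorem rfF_hasDerivAt {F : ℂ → ℂ} {c : ℝ} {x : ℂ}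
    (h : DifferentiableAt ℂ F (2 * c - (starRingEnd ℂ) x)) :
    HasDerivAt (rfF c F) (-(starRingEnd ℂ) (deriv F (2 * c - (starRingEnd ℂ) x))) x := by
  have h1 : HasDerivAt (fun y : ℂ => F (2 * c - y))
      (-(deriv F (2 * c - (starRingEnd ℂ) x))) ((starRingEnd ℂ) x) := by
    have h2 : HasDerivAt (fun y : ℂ => 2 * (c : ℂ) - y) (-1) ((starRingEnd ℂ) x) :=
      (hasDerivAt_id _).const_sub _
    have h3 := h.hasDerivAt.comp ((starRingEnd ℂ) x) h2
    rw [mul_neg_one] at h3
    exact h3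
  have h4 := h1.conj_conj
  rw [Complex.conj_conj, map_neg] at h4
  exact h4

private theorem ratio_hasDerivAt {U : ℂ → ℂ} {c : ℝ} {x : ℂ} (h1 : DifferentiableAt ℂ U x)
    (h2 : DifferentiableAt ℂ U (2 * c - (starRingEnd ℂ) x))
    (n2 : U (2 * c - (starRingEnd ℂ) x) ≠ 0) :
    HasDerivAt (fun y => U y / rfF c U y)
      ((deriv U x * rfF c U x - U x * (-(starRingEnd ℂ) (deriv U (2 * c - (starRingEnd ℂ) x)))) /
        (rfF c U x) ^ 2) x := by
  have n2' : rfF c U x ≠ 0 := by
    unfold rfF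
    rwa [Ne, map_eq_zero]
  exact h1.hasDerivAt.div (rfF_hasDerivAt h2) n2'

/-- `F = U / rfF c U`: logarithmic derivative. -/
theorem ratio_log_deriv {U : ℂ → ℂ} {c : ℝ} {x : ℂ} (h1 : DifferentiableAt ℂ U x)
    (h2 : DifferentiableAt ℂ U (2 * c - (starRingEnd ℂ) x)) (n1 : U x ≠ 0)
    (n2 : U (2 * c - (starRingEnd ℂ) x) ≠ 0) :
    deriv (fun y => U y / rfF c U y) x / (U x / rfF c U x) =
      deriv U x / U x + (starRingEnd ℂ) (deriv U (2 * c - (starRingEnd ℂ) x) /
        U (2 * c - (starRingEnd ℂ) x)) := by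
  have n2' : rfF c U x ≠ 0 := by
    unfold rfF
    rwa [Ne, map_eq_zero]
  rw [(ratio_hasDerivAt h1 h2 n2).deriv, map_div₀]
  have e : (starRingEnd ℂ) (U (2 * c - (starRingEnd ℂ) x)) = rfF c U x := rfl
  rw [e]
  field_simp
  ring

private theorem refl_pt {c : ℝ} {x : ℂ} (hx : x.re = c) : 2 * (c : ℂ) - (starRingEnd ℂ) x = x := by
  apply Complex.ext
  · simp [hx]; ring
  · simp

private theorem refl_pt' {c h : ℝ} {x : ℂ} (hx : x.re = c + h / 2) :
    2 * (c : ℂ) - (starRingEnd ℂ) x = x - h := by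
  apply Complex.ext
  · simp [hx]; ring
  · simp

private theorem refl_re {c : ℝ} {x : ℂ} : (2 * (c : ℂ) - (starRingEnd ℂ) x).re = 2 * c - x.re := by
  simp

private theorem refl_add {c T : ℝ} {x : ℂ} : 2 * (c : ℂ) - (starRingEnd ℂ) (x + T * I) =
    (2 * (c : ℂ) - (starRingEnd ℂ) x) + T * I := by
  apply Complex.ext
  · simp
  · simp [add_comm]

private theorem norm_rf {U : ℂ → ℂ} {c : ℝ} {x : ℂ} :
    ‖rfF c U x‖ = ‖U (2 * c - (starRingEnd ℂ) x)‖ := by
  unfold rfF
  exact Complex.norm_conj _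

/-- Reflection, strict at the left edge: if `‖U x‖ ≤ ‖U (x - h)‖` for `Re x = c + h / 2`, with
strict inequality somewhere, `U ≠ 0` on `c - h/2 ≤ Re x ≤ c`, then `Re (U' / U) < 0` on
`Re x = c`. Proof: `edge_left_strict` for `F = U / rfF c U` on `[c, c + h/2]`. -/
theorem refl_strict {U : ℂ → ℂ} {c h T : ℝ} (hh : 0 < h) (hT : 0 < T)
    (hd : ∀ x : ℂ, c - h / 2 ≤ x.re → x.re ≤ c + h / 2 → DifferentiableAt ℂ U x)
    (hper : ∀ x : ℂ, c - h / 2 ≤ x.re → x.re ≤ c + h / 2 → ‖U (x + T * I)‖ = ‖U x‖)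
    (hne : ∀ x : ℂ, c - h / 2 ≤ x.re → x.re ≤ c → U x ≠ 0)
    (hle : ∀ x : ℂ, x.re = c + h / 2 → ‖U x‖ ≤ ‖U (x - h)‖)
    (hs : ∃ x : ℂ, x.re = c + h / 2 ∧ ‖U x‖ < ‖U (x - h)‖) :
    ∀ x : ℂ, x.re = c → (deriv U x / U x).re < 0 := by
  intro x hx
  have key := edge_left_strict (F := fun y => U y / rfF c U y) (a := c) (c := c + h / 2) (T := T)
    (by linarith) hT ?_ ?_ ?_ ?_ ?_ x hx
  · have hxU : U x ≠ 0 := hne x (by linarith) (by linarith)
    rw [ratio_log_deriv (hd x (by linarith) (by linarith))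
      (by rw [refl_pt hx]; exact hd x (by linarith) (by linarith)) hxU
      (by rw [refl_pt hx]; exact hxU), refl_pt hx, Complex.add_re, Complex.conj_re] at key
    linarith
  · intro y hy1 hy2
    exact (ratio_hasDerivAt (hd y (by linarith) hy2)
      (hd _ (by rw [refl_re]; linarith) (by rw [refl_re]; linarith))
      (hne _ (by rw [refl_re]; linarith) (by rw [refl_re]; linarith))).differentiableAt
  · intro y hy1 hy2
    simp only [norm_div, norm_rf]
    rw [refl_add, hper y (by linarith) hy2,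
      hper _ (by rw [refl_re]; linarith) (by rw [refl_re]; linarith)]
  · intro y hy
    simp only [norm_div, norm_rf]
    rw [refl_pt hy, div_self]
    rw [norm_ne_zero_iff]
    exact hne y (by linarith) (by linarith)
  · intro y hy
    simp only [norm_div, norm_rf]
    rw [refl_pt' hy]
    exact div_le_one_of_le₀ (hle y hy) (norm_nonneg _)
  · obtain ⟨y, hy, hlt⟩ := hs
    refine ⟨y, hy, ?_⟩
    simp only [norm_div, norm_rf]
    rw [refl_pt' hy, div_lt_one (lt_of_le_of_lt (norm_nonneg _) hlt)]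
    exact hlt

/-- Reflection, at a contact point of the right edge: `Re (U'/U)(x0) + Re (U'/U)(x0 - h) ≥ 0`
and `Im (U'/U)(x0) = Im (U'/U)(x0 - h)`. Proof: `F = U / rfF c U`, `strip_le`, `edge_right`;
the second one: `edge_tan` for `x ↦ U x / U (x - h)`. -/
theorem refl_contact {U : ℂ → ℂ} {c h T : ℝ} (hh : 0 < h) (hT : 0 < T)
    (hd : ∀ x : ℂ, c - h / 2 ≤ x.re → x.re ≤ c + h / 2 → DifferentiableAt ℂ U x)
    (hper : ∀ x : ℂ, c - h / 2 ≤ x.re → x.re ≤ c + h / 2 → ‖U (x + T * I)‖ = ‖U x‖)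
    (hne : ∀ x : ℂ, c - h / 2 ≤ x.re → x.re ≤ c → U x ≠ 0)
    (hle : ∀ x : ℂ, x.re = c + h / 2 → ‖U x‖ ≤ ‖U (x - h)‖)
    {x0 : ℂ} (hx0 : x0.re = c + h / 2) (he : ‖U x0‖ = ‖U (x0 - h)‖) :
    0 ≤ (deriv U x0 / U x0).re + (deriv U (x0 - h) / U (x0 - h)).re ∧
      (deriv U x0 / U x0).im = (deriv U (x0 - h) / U (x0 - h)).im := by
  have hre : (x0 - (h : ℂ)).re = c - h / 2 := by
    rw [Complex.sub_re, Complex.ofReal_re, hx0]; ring
  have n0 : U (x0 - h) ≠ 0 := hne _ (by rw [hre]) (by rw [hre]; linarith)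
  have n1 : U x0 ≠ 0 := by
    rw [← norm_ne_zero_iff, he, norm_ne_zero_iff]; exact n0
  have d0 : DifferentiableAt ℂ U (x0 - h) := hd _ (by rw [hre]) (by rw [hre]; linarith)
  have d1 : DifferentiableAt ℂ U x0 := hd _ (by rw [hx0]; linarith) (by rw [hx0])
  constructor
  · have hF1 : ∀ x : ℂ, c ≤ x.re → x.re ≤ c + h / 2 → ‖U x / rfF c U x‖ ≤ 1 := by
      apply strip_le (F := fun y => U y / rfF c U y) (T := T) (by linarith) hT
      · intro y hy1 hy2
        exact (ratio_hasDerivAt (hd y (by linarith) hy2)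
          (hd _ (by rw [refl_re]; linarith) (by rw [refl_re]; linarith))
          (hne _ (by rw [refl_re]; linarith) (by rw [refl_re]; linarith))).differentiableAt
      · intro y hy1 hy2
        simp only [norm_div, norm_rf]
        rw [refl_add, hper y (by linarith) hy2,
          hper _ (by rw [refl_re]; linarith) (by rw [refl_re]; linarith)]
      · intro y hy
        simp only [norm_div, norm_rf]
        rw [refl_pt hy, div_self]
        rw [norm_ne_zero_iff]
        exact hne y (by linarith) (by linarith)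
      · intro y hy
        simp only [norm_div, norm_rf]
        rw [refl_pt' hy]
        exact div_le_one_of_le₀ (hle y hy) (norm_nonneg _)
    have n2 : U (2 * (c : ℂ) - (starRingEnd ℂ) x0) ≠ 0 := by rw [refl_pt' hx0]; exact n0
    have d2 : DifferentiableAt ℂ U (2 * (c : ℂ) - (starRingEnd ℂ) x0) := by
      rw [refl_pt' hx0]; exact d0
    have key := edge_right (F := fun y => U y / rfF c U y) (a := c) (c := c + h / 2)
      (by linarith) hx0 (ratio_hasDerivAt d1 d2 n2).differentiableAt hF1 (by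
        simp only [norm_div, norm_rf]
        rw [refl_pt' hx0, he, div_self]
        rwa [norm_ne_zero_iff])
    rw [ratio_log_deriv d1 d2 n1 n2, refl_pt' hx0, Complex.add_re, Complex.conj_re] at key
    exact key
  · have hG : HasDerivAt (fun y : ℂ => U y / U (y - h))
        ((deriv U x0 * U (x0 - h) - U x0 * deriv U (x0 - h)) / (U (x0 - h)) ^ 2) x0 := by
      have h2 : HasDerivAt (fun y : ℂ => U (y - h)) (deriv U (x0 - h)) x0 := by
        have := d0.hasDerivAt.comp_sub_const x0 (h : ℂ)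
        exact this
      exact d1.hasDerivAt.div h2 n0
    have key := edge_tan (F := fun y : ℂ => U y / U (y - h)) (x0 := x0) hG.differentiableAt (by
        simp only [norm_div]
        rw [he, div_self]
        rwa [norm_ne_zero_iff]) (by
        intro y hy
        simp only [norm_div]
        exact div_le_one_of_le₀ (hle y (by rw [hy, hx0])) (norm_nonneg _))
    rw [hG.deriv] at key
    have e : (deriv U x0 * U (x0 - h) - U x0 * deriv U (x0 - h)) / (U (x0 - h)) ^ 2 /
        (U x0 / U (x0 - h)) = deriv U x0 / U x0 - deriv U (x0 - h) / U (x0 - h) := by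
      field_simp
    rw [e, Complex.sub_im] at key
    linarith

end EQH
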