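import Pool.Agent.Lib.MP_226de1_co.H.Quad
import Pool.Agent.Lib.MP_226de1_co.H.Refl

/-! No vertical line `Re x = a`, `a < b + log μ / 2`, on which `q^2` is real on a segment. -/

set_option autoImplicit false

namespace EQH

open Complex Filter Topology Set

variable {k μ b : ℝ} {q LX LD : ℂ → ℂ}

theorem nosym_strip_open (a B : ℝ) : IsOpen {x : ℂ | x.re < B ∧ 2 * a - x.re < B} := by
  apply IsOpen.inter
  · exact isOpen_lt continuous_re continuous_const
  · exact isOpen_lt (continuous_const.sub continuous_re) continuous_const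

theorem nosym_strip_preconn (a B : ℝ) :
    IsPreconnected {x : ℂ | x.re < B ∧ 2 * a - x.re < B} := by
  apply Convex.isPreconnected
  have h1 : Convex ℝ {x : ℂ | x.re < B} := convex_halfSpace_re_lt B
  have h2 : Convex ℝ {x : ℂ | 2 * a - B < x.re} := convex_halfSpace_re_gt (2 * a - B)
  have h3 : {x : ℂ | x.re < B ∧ 2 * a - x.re < B} =
      {x : ℂ | x.re < B} ∩ {x : ℂ | 2 * a - B < x.re} := by
    ext x
    simp only [mem_ofPred_eq, mem_inter_iff]
    constructor
    · rintro ⟨p, q⟩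
      exact ⟨p, by linarith⟩
    · rintro ⟨p, q⟩
      exact ⟨p, by linarith⟩
  rw [h3]
  exact h1.inter h2

theorem nosym_seg_freq {a y1 y2 : ℝ} (hy : y1 < y2) {P : ℂ → Prop}
    (he : ∀ y : ℝ, y1 < y → y < y2 → P ⟨a, y⟩) :
    ∃ᶠ z in 𝓝[≠] (⟨a, (y1 + y2) / 2⟩ : ℂ), P z := by
  have ht : Tendsto (fun y : ℝ => (⟨a, y⟩ : ℂ)) (𝓝[≠] ((y1 + y2) / 2))
      (𝓝[≠] (⟨a, (y1 + y2) / 2⟩ : ℂ)) := by
    apply tendsto_nhdsWithin_of_tendsto_nhds_of_eventually_within
    · apply Tendsto.mono_left _ nhdsWithin_le_nhds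
      have hc : Continuous (fun y : ℝ => (⟨a, y⟩ : ℂ)) := by
        have h0 : (fun y : ℝ => (⟨a, y⟩ : ℂ)) = fun y : ℝ => (a : ℂ) + y * I := by
          funext y
          apply Complex.ext <;> simp
        rw [h0]
        fun_prop
      exact hc.continuousAt
    · filter_upwards [self_mem_nhdsWithin] with y hy0 h
      apply hy0
      have h1 := congrArg Complex.im h
      simpa using h1
  have hev : ∀ᶠ y in 𝓝[≠] ((y1 + y2) / 2), P ⟨a, y⟩ := by
    have h0 : ∀ᶠ y in 𝓝 ((y1 + y2) / 2), y ∈ Ioo y1 y2 :=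
      Ioo_mem_nhds (by linarith) (by linarith)
    filter_upwards [h0.filter_mono nhdsWithin_le_nhds] with y hy
    exact he y hy.1 hy.2
  exact ht.frequently hev.frequently

/-- identity theorem on the strip `{x | x.re < B ∧ 2 a - x.re < B}` (`a < B`): if `F`, `G` are
differentiable there and agree on a segment of the line `Re x = a`, they agree on the strip.
(`DifferentiableOn.analyticOnNhd`, `AnalyticOnNhd.eqOn_of_preconnected_of_frequently_eq`,
the strip is convex.) -/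
theorem strip_ident {a B y1 y2 : ℝ} (ha : a < B) (hy : y1 < y2) {F G : ℂ → ℂ}
    (hF : DifferentiableOn ℂ F {x : ℂ | x.re < B ∧ 2 * a - x.re < B})
    (hG : DifferentiableOn ℂ G {x : ℂ | x.re < B ∧ 2 * a - x.re < B})
    (he : ∀ y : ℝ, y1 < y → y < y2 → F ⟨a, y⟩ = G ⟨a, y⟩) :
    ∀ x : ℂ, x.re < B → 2 * a - x.re < B → F x = G x := by
  have hS := nosym_strip_open a B
  have hFa := hF.analyticOnNhd hS
  have hGa := hG.analyticOnNhd hS
  intro x hx1 hx2
  have hz : (⟨a, (y1 + y2) / 2⟩ : ℂ) ∈ {x : ℂ | x.re < B ∧ 2 * a - x.re < B} := by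
    constructor
    · exact ha
    · show 2 * a - a < B
      linarith
  exact hFa.eqOn_of_preconnected_of_frequently_eq hGa (nosym_strip_preconn a B) hz
    (nosym_seg_freq (P := fun z => F z = G z) hy he) ⟨hx1, hx2⟩

/-- product version: if `F * G = 0` on a segment, one of them vanishes on the whole strip -/
theorem strip_ident_mul {a B y1 y2 : ℝ} (ha : a < B) (hy : y1 < y2) {F G : ℂ → ℂ}
    (hF : DifferentiableOn ℂ F {x : ℂ | x.re < B ∧ 2 * a - x.re < B})
    (hG : DifferentiableOn ℂ G {x : ℂ | x.re < B ∧ 2 * a - x.re < B})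
    (he : ∀ y : ℝ, y1 < y → y < y2 → F ⟨a, y⟩ * G ⟨a, y⟩ = 0) :
    (∀ x : ℂ, x.re < B → 2 * a - x.re < B → F x = 0) ∨
      (∀ x : ℂ, x.re < B → 2 * a - x.re < B → G x = 0) := by
  have hS := nosym_strip_open a B
  have hFa := hF.analyticOnNhd hS
  have hGa := hG.analyticOnNhd hS
  have h0a : AnalyticOnNhd ℂ (fun _ : ℂ => (0 : ℂ)) {x : ℂ | x.re < B ∧ 2 * a - x.re < B} :=
    analyticOnNhd_const
  have hz : (⟨a, (y1 + y2) / 2⟩ : ℂ) ∈ {x : ℂ | x.re < B ∧ 2 * a - x.re < B} := by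
    constructor
    · exact ha
    · show 2 * a - a < B
      linarith
  by_cases hfr : ∃ᶠ z in 𝓝[≠] (⟨a, (y1 + y2) / 2⟩ : ℂ), F z = 0
  · left
    intro x hx1 hx2
    exact hFa.eqOn_of_preconnected_of_frequently_eq h0a (nosym_strip_preconn a B) hz hfr
      ⟨hx1, hx2⟩
  · right
    rw [not_frequently] at hfr
    have h1 := nosym_seg_freq (P := fun z => F z * G z = 0) hy he
    have h2 : ∃ᶠ z in 𝓝[≠] (⟨a, (y1 + y2) / 2⟩ : ℂ), G z = 0 := by
      apply (h1.and_eventually hfr).mono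
      rintro z ⟨p, r⟩
      exact (mul_eq_zero.mp p).resolve_left r
    intro x hx1 hx2
    exact hGa.eqOn_of_preconnected_of_frequently_eq h0a (nosym_strip_preconn a B) hz h2
      ⟨hx1, hx2⟩

theorem nosym_rf_line (a y : ℝ) (F : ℂ → ℂ) : rfF a F ⟨a, y⟩ = (starRingEnd ℂ) (F ⟨a, y⟩) := by
  unfold rfF
  congr 2
  apply Complex.ext
  · simp
    ring
  · simp

theorem nosym_rf_re (a : ℝ) (x : ℂ) : (2 * (a : ℂ) - (starRingEnd ℂ) x).re = 2 * a - x.re := by
  simp

/-- `q^2` real on a segment: `(q - rfF a q) (q + rfF a q) = q^2 - conj (q^2) = 0` there, so by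
`strip_ident_mul` (`B = b + log μ`) `q = ± rfF a q` on the strip. In the case `+` evaluate at
`x = a + log μ / 2`, in the case `-` at `x = a + log μ / 2 + i pi/2`: both give
`q x = q (x - log μ)`, contradiction with `expD`. -/
theorem Ch.nosym (h : Ch k μ b q LX LD) {a y1 y2 : ℝ} (ha : a < b + Real.log μ / 2)
    (hy : y1 < y2) (hr : ∀ y : ℝ, y1 < y → y < y2 → ((q ⟨a, y⟩) ^ 2).im = 0) : False := by
  have hl : 0 < Real.log μ := el_pos h.hμ
  have haB : a < b + Real.log μ := by linarith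
  have hdq : ∀ x ∈ {x : ℂ | x.re < b + Real.log μ ∧ 2 * a - x.re < b + Real.log μ},
      DifferentiableAt ℂ q x := fun x hx => h.dq' hx.1
  have hdr : ∀ x ∈ {x : ℂ | x.re < b + Real.log μ ∧ 2 * a - x.re < b + Real.log μ},
      DifferentiableAt ℂ (rfF a q) x := by
    intro x hx
    have h1 : DifferentiableAt ℂ q (2 * a - (starRingEnd ℂ) x) := by
      apply h.dq'
      rw [nosym_rf_re]
      exact hx.2
    exact (rfF_hasDerivAt h1).differentiableAt
  have hF : DifferentiableOn ℂ (fun x => q x - rfF a q x)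
      {x : ℂ | x.re < b + Real.log μ ∧ 2 * a - x.re < b + Real.log μ} :=
    fun x hx => ((hdq x hx).sub (hdr x hx)).differentiableWithinAt
  have hG : DifferentiableOn ℂ (fun x => q x + rfF a q x)
      {x : ℂ | x.re < b + Real.log μ ∧ 2 * a - x.re < b + Real.log μ} :=
    fun x hx => ((hdq x hx).add (hdr x hx)).differentiableWithinAt
  have he : ∀ y : ℝ, y1 < y → y < y2 → (fun x => q x - rfF a q x) ⟨a, y⟩ *
      (fun x => q x + rfF a q x) ⟨a, y⟩ = 0 := by
    intro y hy1 hy2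
    show (q ⟨a, y⟩ - rfF a q ⟨a, y⟩) * (q ⟨a, y⟩ + rfF a q ⟨a, y⟩) = 0
    rw [nosym_rf_line]
    have h1 := hr y hy1 hy2
    have h2 : (starRingEnd ℂ) ((q ⟨a, y⟩) ^ 2) = (q ⟨a, y⟩) ^ 2 := Complex.conj_eq_iff_im.mpr h1
    rw [map_pow] at h2
    linear_combination -h2
  have hre1 : ((a : ℂ) + (Real.log μ : ℂ) / 2).re = a + Real.log μ / 2 := by
    have : ((a : ℂ) + (Real.log μ : ℂ) / 2) = ((a + Real.log μ / 2 : ℝ) : ℂ) := by push_cast; ring
    rw [this, ofReal_re]
  have him1 : ((a : ℂ) + (Real.log μ : ℂ) / 2).im = 0 := by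
    have : ((a : ℂ) + (Real.log μ : ℂ) / 2) = ((a + Real.log μ / 2 : ℝ) : ℂ) := by push_cast; ring
    rw [this, ofReal_im]
  rcases strip_ident_mul haB hy hF hG he with h0 | h0
  · have h1 := h0 ((a : ℂ) + (Real.log μ : ℂ) / 2) (by rw [hre1]; linarith)
      (by rw [hre1]; linarith)
    have h2 : q ((a : ℂ) + (Real.log μ : ℂ) / 2) -
        rfF a q ((a : ℂ) + (Real.log μ : ℂ) / 2) = 0 := h1
    have h3 : (2 * (a : ℂ) - (starRingEnd ℂ) ((a : ℂ) + (Real.log μ : ℂ) / 2)) =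
        ((a : ℂ) + (Real.log μ : ℂ) / 2) - Real.log μ := by
      have h4 : (starRingEnd ℂ) ((a : ℂ) + (Real.log μ : ℂ) / 2) =
        (a : ℂ) + (Real.log μ : ℂ) / 2 := Complex.conj_eq_iff_im.mpr him1
      rw [h4]
      ring
    have h5 : (q (((a : ℂ) + (Real.log μ : ℂ) / 2) - Real.log μ)).im = 0 := by
      apply h.lines.2.2.2.2.1
      · rw [sub_re, hre1, ofReal_re]
        linarith
      · rw [sub_im, him1, ofReal_im]
        ring
    unfold rfF at h2
    rw [h3, Complex.conj_eq_iff_im.mpr h5] at h2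
    exact h.D_ne (by rw [hre1]; linarith) h2
  · have hx : (⟨a + Real.log μ / 2, Real.pi / 2⟩ : ℂ).re = a + Real.log μ / 2 := rfl
    have hxi : (⟨a + Real.log μ / 2, Real.pi / 2⟩ : ℂ).im = Real.pi / 2 := rfl
    have h1 := h0 ⟨a + Real.log μ / 2, Real.pi / 2⟩ (by rw [hx]; linarith)
      (by rw [hx]; linarith)
    have h2 : q ⟨a + Real.log μ / 2, Real.pi / 2⟩ +
        rfF a q ⟨a + Real.log μ / 2, Real.pi / 2⟩ = 0 := h1
    have h3 : (2 * (a : ℂ) - (starRingEnd ℂ) ⟨a + Real.log μ / 2, Real.pi / 2⟩) =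
        (⟨a + Real.log μ / 2, Real.pi / 2⟩ : ℂ) - Real.log μ := by
      apply Complex.ext
      · simp only [sub_re, conj_re, ofReal_re, mul_re, re_ofNat, im_ofNat, ofReal_im]
        ring
      · simp only [sub_im, conj_im, ofReal_re, mul_im, re_ofNat, im_ofNat, ofReal_im]
        ring
    have h5 : (q ((⟨a + Real.log μ / 2, Real.pi / 2⟩ : ℂ) - Real.log μ)).re = 0 := by
      apply h.lines.2.2.2.2.2
      · rw [sub_re, hx, ofReal_re]
        linarith
      · rw [sub_im, hxi, ofReal_im]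
        ring
    unfold rfF at h2
    rw [h3] at h2
    have h6 : (starRingEnd ℂ) (q ((⟨a + Real.log μ / 2, Real.pi / 2⟩ : ℂ) - Real.log μ)) =
        -q ((⟨a + Real.log μ / 2, Real.pi / 2⟩ : ℂ) - Real.log μ) := by
      apply Complex.ext
      · rw [conj_re, neg_re, h5, neg_zero]
      · rw [conj_im, neg_im]
    rw [h6] at h2
    have h7 : q ⟨a + Real.log μ / 2, Real.pi / 2⟩ -
        q ((⟨a + Real.log μ / 2, Real.pi / 2⟩ : ℂ) - Real.log μ) = 0 := by
      rw [sub_eq_add_neg]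
      exact h2
    exact h.D_ne (by rw [hx]; linarith) h7

/-- `Re (1 + q^2) = 0` on a segment of the line is impossible too:
`1 + q^2 + rfF a (1 + q^2) = 0` on the strip by `strip_ident`; at the real point `x = a`
this says `2 (1 + q a ^2) = 0`, but `q a` is real. -/
theorem Ch.nosym2 (h : Ch k μ b q LX LD) {a y1 y2 : ℝ} (ha : a < b + Real.log μ / 2)
    (hy : y1 < y2) (hr : ∀ y : ℝ, y1 < y → y < y2 → (1 + (q ⟨a, y⟩) ^ 2).re = 0) : False := by
  have hl : 0 < Real.log μ := el_pos h.hμ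
  have haB : a < b + Real.log μ := by linarith
  have hdq : ∀ x ∈ {x : ℂ | x.re < b + Real.log μ ∧ 2 * a - x.re < b + Real.log μ},
      DifferentiableAt ℂ q x := fun x hx => h.dq' hx.1
  have hdr : ∀ x ∈ {x : ℂ | x.re < b + Real.log μ ∧ 2 * a - x.re < b + Real.log μ},
      DifferentiableAt ℂ (rfF a q) x := by
    intro x hx
    have h1 : DifferentiableAt ℂ q (2 * a - (starRingEnd ℂ) x) := by
      apply h.dq'
      rw [nosym_rf_re]
      exact hx.2
    exact (rfF_hasDerivAt h1).differentiableAt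
  have hF : DifferentiableOn ℂ (fun x => (1 + q x ^ 2) + (1 + rfF a q x ^ 2))
      {x : ℂ | x.re < b + Real.log μ ∧ 2 * a - x.re < b + Real.log μ} :=
    fun x hx => (((differentiableAt_const 1).add ((hdq x hx).pow 2)).add
      ((differentiableAt_const 1).add ((hdr x hx).pow 2))).differentiableWithinAt
  have he : ∀ y : ℝ, y1 < y → y < y2 →
      (fun x => (1 + q x ^ 2) + (1 + rfF a q x ^ 2)) ⟨a, y⟩ = (fun _ : ℂ => (0 : ℂ)) ⟨a, y⟩ := by
    intro y hy1 hy2
    show (1 + q ⟨a, y⟩ ^ 2) + (1 + rfF a q ⟨a, y⟩ ^ 2) = 0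
    rw [nosym_rf_line]
    have h1 := hr y hy1 hy2
    have h2 : (1 : ℂ) + ((starRingEnd ℂ) (q ⟨a, y⟩)) ^ 2 =
        (starRingEnd ℂ) (1 + (q ⟨a, y⟩) ^ 2) := by
      rw [map_add, map_one, map_pow]
    rw [h2, Complex.add_conj, h1]
    simp
  have h0 := strip_ident haB hy hF (differentiableOn_const 0) he (a : ℂ)
    (by rw [ofReal_re]; exact haB) (by rw [ofReal_re]; linarith)
  have h1 : (1 + q (a : ℂ) ^ 2) + (1 + rfF a q (a : ℂ) ^ 2) = 0 := h0
  have h2 : rfF a q (a : ℂ) = (starRingEnd ℂ) (q (a : ℂ)) := by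
    unfold rfF
    congr 2
    rw [Complex.conj_ofReal]
    ring
  have h3 : (q (a : ℂ)).im = 0 := by
    apply h.lines.2.2.2.2.1
    · rw [ofReal_re]
      exact haB
    · rw [ofReal_im]
  rw [h2, Complex.conj_eq_iff_im.mpr h3] at h1
  have h4 : q (a : ℂ) = (((q (a : ℂ)).re : ℝ) : ℂ) := by
    apply Complex.ext
    · simp
    · rw [h3]
      simp
  rw [h4] at h1
  have h5 : ((1 + (q (a : ℂ)).re ^ 2) + (1 + (q (a : ℂ)).re ^ 2) : ℝ) = 0 := by
    exact_mod_cast h1
  nlinarith [sq_nonneg (q (a : ℂ)).re]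

end EQH
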