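import Pool.Agent.Lib.MP_226de1_co.H.ReD
import Pool.Agent.Lib.MP_226de1_co.H.GStart

/-! The chart near `q = infinity`, in the variable `z = q`: `XI` is the inverse of `q` on
`{Re z < 0, R < ‖z‖}`. -/

set_option autoImplicit false

namespace EQH

open Complex Filter Topology Set Metric

variable {k μ ρ : ℝ} {α lX lD : ℂ → ℂ}

/-- the inverse chart near infinity -/
structure QB (k μ R u : ℝ) (q LX LD XI : ℂ → ℂ) : Prop where
  hR : 1 ≤ R
  dXI : DifferentiableOn ℂ XI {z : ℂ | z.re < 0 ∧ R < ‖z‖}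
  reX : ∀ z : ℂ, z.re < 0 → R < ‖z‖ → (XI z).re < u
  qX : ∀ z : ℂ, z.re < 0 → R < ‖z‖ → q (XI z) = z
  imX : ∀ z : ℂ, z.re < 0 → R < ‖z‖ → 0 < z.im → 0 < (XI z).im ∧ (XI z).im < Real.pi / 2
  imX' : ∀ z : ℂ, z.re < 0 → R < ‖z‖ → z.im < 0 → -(Real.pi / 2) < (XI z).im ∧ (XI z).im < 0
  im0 : ∀ z : ℂ, z.re < 0 → R < ‖z‖ → z.im = 0 → (XI z).im = 0
  cj : ∀ z : ℂ, z.re < 0 → R < ‖z‖ → XI ((starRingEnd ℂ) z) = (starRingEnd ℂ) (XI z)
  lim : ∀ ε : ℝ, 0 < ε → ∃ R' : ℝ, ∀ z : ℂ, z.re < 0 → R' < ‖z‖ → ‖XI z + log (-z)‖ < ε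
  inv : ∃ b1 : ℝ, ∀ x : ℂ, x.re < b1 → |x.im| < Real.pi / 2 →
    (q x).re < 0 ∧ R < ‖q x‖ ∧ XI (q x) = x
  reD : ∀ z : ℂ, z.re < 0 → R < ‖z‖ → 0 < (exp (LD (XI z))).re
  grow : ∀ z : ℂ, z.re < 0 → R < ‖z‖ → ‖z‖ < ‖z - exp (LD (XI z))‖
  stepX : ∀ z : ℂ, z.re < 0 → R < ‖z‖ → XI (z - exp (LD (XI z))) = XI z - Real.log μ
  logX : ∀ z : ℂ, z.re < 0 → R < ‖z‖ → log (1 + z ^ 2) = 2 * LX (XI z)
  flt : ∀ z : ℂ, z.re < 0 → R < ‖z‖ → (ff k μ LX LD (XI z)).re < 1 / 2
  fT : ∀ z : ℂ, z.re < 0 → R < ‖z‖ →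
    exp (LD (XI z)) = exp (LX (XI (z - exp (LD (XI z)))) -
      (1 / k : ℝ) * ((Real.log (CK k μ) : ℂ) +
        log (1 - ff k μ LX LD (XI (z - exp (LD (XI z)))))))
  limD : ∀ ε : ℝ, 0 < ε → ∃ R' : ℝ, ∀ z : ℂ, z.re < 0 → R' < ‖z‖ →
    ‖exp (LD (XI z)) + ((μ - 1 : ℝ) : ℂ) * z‖ < ε * ‖z‖

theorem exists_QB (h : TCh k μ ρ α lX lD) :
    ∃ (R : ℝ) (XI : ℂ → ℂ), QB k μ R (Real.log ρ) (qT α) (LT lX) (LT lD) XI := by
  have hρ := h.hρ
  have hμ := h.hμ
  have hk := h.hk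
  have hμ0 : 0 < μ := by linarith
  have hμc : (μ : ℂ) ≠ 0 := by exact_mod_cast hμ0.ne'
  have hl : 0 < Real.log μ := Real.log_pos hμ
  have hρμ : ρ < μ * ρ := by nlinarith
  have hCh := h.toCh
  have hLp := hCh.loop
  have hQd := hCh.qd hLp
  have hm0 : (0 : ℂ) ∈ ball (0 : ℂ) (μ * ρ) := mem_ball_self (by positivity)
  have hαan : AnalyticAt ℂ α 0 := (h.dα.analyticOnNhd isOpen_ball) 0 hm0
  have hαd : HasDerivAt α (deriv α 0) 0 := hαan.differentiableAt.hasDerivAt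
  set κ : ℂ → ℂ := fun t => -t / α t with hκ
  have hα0 : α 0 ≠ 0 := by rw [h.α0]; exact one_ne_zero
  have hκan : AnalyticAt ℂ κ 0 := analyticAt_id.neg.div hαan hα0
  have hκ0 : κ 0 = 0 := by simp [hκ]
  have hκd : deriv κ 0 = -1 := by
    have h1 : HasDerivAt κ ((-1 * α 0 - -0 * deriv α 0) / α 0 ^ 2) 0 :=
      (hasDerivAt_id (0 : ℂ)).neg.div hαd hα0
    rw [h1.deriv, h.α0]
    norm_num
  obtain ⟨χ, hχ0, hχan, hχd, hl', hr'⟩ := local_inv hκan hκ0 (by rw [hκd]; norm_num)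
  have hχd' : deriv χ 0 = -1 := by
    rw [hχd, hκd]
    norm_num
  have hχc : Tendsto χ (𝓝 0) (𝓝 0) := by
    have := hχan.continuousAt.tendsto
    rwa [hχ0] at this
  have hκc : Tendsto κ (𝓝 0) (𝓝 0) := by
    have := hκan.continuousAt.tendsto
    rwa [hκ0] at this
  have hconjc : Tendsto (fun t : ℂ => (starRingEnd ℂ) t) (𝓝 0) (𝓝 0) := by
    simpa using Complex.continuous_conj.tendsto 0
  have hαt : Tendsto α (𝓝 0) (𝓝 1) := by
    have := hαan.continuousAt.tendsto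
    rwa [h.α0] at this
  have hslit1 : (1 : ℂ) ∈ slitPlane := one_mem_slitPlane
  have hlog1 : Tendsto Complex.log (𝓝 1) (𝓝 0) := by
    have := (continuousAt_clog hslit1).tendsto
    rwa [Complex.log_one] at this
  have hdivμ : Tendsto (fun t : ℂ => t / μ) (𝓝 0) (𝓝 0) := by
    have : Tendsto (fun t : ℂ => t / μ) (𝓝 0) (𝓝 (0 / μ)) := tendsto_id.div_const _
    simpa using this
  -- properties of `t` near `0`
  have hT : ∀ᶠ t in 𝓝 (0 : ℂ), χ (κ t) = t ∧ ‖t‖ < ρ ∧ α t ∈ slitPlane ∧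
      |(Complex.log (α t)).im| < Real.pi / 2 ∧ ‖α t‖ < μ * ‖α (t / μ)‖ := by
    have a1 : ∀ᶠ t in 𝓝 (0 : ℂ), ‖t‖ < ρ := by
      have := ball_mem_nhds (0 : ℂ) hρ
      filter_upwards [this] with t ht
      exact mem_ball_zero_iff.1 ht
    have a2 : ∀ᶠ t in 𝓝 (0 : ℂ), α t ∈ slitPlane := hαt (isOpen_slitPlane.mem_nhds hslit1)
    have a3 : ∀ᶠ t in 𝓝 (0 : ℂ), |(Complex.log (α t)).im| < Real.pi / 2 := by
      have h1 : Tendsto (fun t => |(Complex.log (α t)).im|) (𝓝 0) (𝓝 |(0 : ℂ).im|) :=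
        ((Complex.continuous_im.tendsto _).comp (hlog1.comp hαt)).abs
      rw [Complex.zero_im, abs_zero] at h1
      exact h1 (Iio_mem_nhds (by positivity))
    have a4 : ∀ᶠ t in 𝓝 (0 : ℂ), ‖α t‖ < μ * ‖α (t / μ)‖ := by
      have h1 : Tendsto (fun t => μ * ‖α (t / μ)‖ - ‖α t‖) (𝓝 0) (𝓝 (μ * ‖(1 : ℂ)‖ - ‖(1 : ℂ)‖)) :=
        ((hαt.comp hdivμ).norm.const_mul μ).sub hαt.norm
      rw [norm_one, mul_one] at h1
      filter_upwards [h1 (Ioi_mem_nhds (show (0 : ℝ) < μ - 1 by linarith))] with t ht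
      have ht' : 0 < μ * ‖α (t / μ)‖ - ‖α t‖ := ht
      linarith
    filter_upwards [hl', a1, a2, a3, a4] with t b1 b2 b3 b4 b5
    exact ⟨b1, b2, b3, b4, b5⟩
  obtain ⟨δ, hδ, hδall⟩ : ∃ δ : ℝ, 0 < δ ∧ ∀ t : ℂ, ‖t‖ < δ → χ (κ t) = t ∧ ‖t‖ < ρ ∧
      α t ∈ slitPlane ∧ |(Complex.log (α t)).im| < Real.pi / 2 ∧ ‖α t‖ < μ * ‖α (t / μ)‖ := by
    rw [Metric.eventually_nhds_iff] at hT
    obtain ⟨δ, hδ, h1⟩ := hT
    exact ⟨δ, hδ, fun t ht => h1 (by rwa [dist_zero_right])⟩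
  -- the quotient
  have hquo : Tendsto (fun y : ℂ => χ y / -y) (𝓝[≠] 0) (𝓝 1) := by
    have h1 : HasDerivAt χ (-1) 0 := hχd' ▸ hχan.differentiableAt.hasDerivAt
    have h2 := h1.tendsto_slope.neg
    rw [neg_neg] at h2
    refine h2.congr fun y => ?_
    rw [slope_def_field, hχ0, sub_zero, sub_zero, div_neg]
  have hlogq : Tendsto (fun y : ℂ => Complex.log (χ y / -y)) (𝓝[≠] 0) (𝓝 0) := hlog1.comp hquo
  have hκcj : ∀ t : ℂ, ‖t‖ < ρ → κ ((starRingEnd ℂ) t) = (starRingEnd ℂ) (κ t) := by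
    intro t ht
    simp only [hκ]
    rw [h.cj t (by linarith), map_div₀, map_neg]
  have hχcj : ∀ᶠ y in 𝓝 (0 : ℂ), χ ((starRingEnd ℂ) y) = (starRingEnd ℂ) (χ y) := by
    have h1 : ∀ᶠ y in 𝓝 (0 : ℂ), ‖χ y‖ < ρ := by
      filter_upwards [hχc.eventually (ball_mem_nhds (0 : ℂ) hρ)] with y hy
      exact mem_ball_zero_iff.1 hy
    filter_upwards [hr', h1, (hconjc.comp hχc).eventually hl'] with y b1 b2 b3
    have b4 : κ ((starRingEnd ℂ) (χ y)) = (starRingEnd ℂ) y := by rw [hκcj _ b2, b1]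
    simp only [Function.comp_apply] at b3
    rw [b4] at b3
    exact b3
  have hY : ∀ᶠ y in 𝓝[≠] (0 : ℂ), AnalyticAt ℂ χ y ∧ κ (χ y) = y ∧ ‖χ y‖ < δ ∧
      χ y / -y ∈ slitPlane ∧ |(Complex.log (χ y / -y)).im| < Real.pi / 4 ∧
      χ ((starRingEnd ℂ) y) = (starRingEnd ℂ) (χ y) := by
    have a1 : ∀ᶠ y in 𝓝 (0 : ℂ), ‖χ y‖ < δ := by
      filter_upwards [hχc.eventually (ball_mem_nhds (0 : ℂ) hδ)] with y hy
      exact mem_ball_zero_iff.1 hy
    have a2 : ∀ᶠ y in 𝓝[≠] (0 : ℂ), |(Complex.log (χ y / -y)).im| < Real.pi / 4 := by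
      have h1 : Tendsto (fun y => |(Complex.log (χ y / -y)).im|) (𝓝[≠] 0) (𝓝 |(0 : ℂ).im|) :=
        ((Complex.continuous_im.tendsto _).comp hlogq).abs
      rw [Complex.zero_im, abs_zero] at h1
      exact h1 (Iio_mem_nhds (by positivity))
    filter_upwards [hχan.eventually_analyticAt.filter_mono nhdsWithin_le_nhds,
      hr'.filter_mono nhdsWithin_le_nhds, a1.filter_mono nhdsWithin_le_nhds,
      hquo (isOpen_slitPlane.mem_nhds hslit1), a2, hχcj.filter_mono nhdsWithin_le_nhds]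
      with y b1 b2 b3 b4 b5 b6
    exact ⟨b1, b2, b3, b4, b5, b6⟩
  obtain ⟨η, hη, hηall⟩ : ∃ η : ℝ, 0 < η ∧ ∀ y : ℂ, y ≠ 0 → ‖y‖ < η → AnalyticAt ℂ χ y ∧
      κ (χ y) = y ∧ ‖χ y‖ < δ ∧
      χ y / -y ∈ slitPlane ∧ |(Complex.log (χ y / -y)).im| < Real.pi / 4 ∧
      χ ((starRingEnd ℂ) y) = (starRingEnd ℂ) (χ y) := by
    rw [eventually_nhdsWithin_iff, Metric.eventually_nhds_iff] at hY
    obtain ⟨η, hη, h1⟩ := hY
    exact ⟨η, hη, fun y hy hyη => h1 (by rwa [dist_zero_right]) hy⟩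
  set R : ℝ := max 1 (1 / η) with hR
  have hR1 : 1 ≤ R := le_max_left _ _
  have hRη : 1 / η ≤ R := le_max_right _ _
  -- `z ↦ y = 1/z`
  have hz0 : ∀ z : ℂ, R < ‖z‖ → z ≠ 0 := by
    intro z hz h0
    rw [h0, norm_zero] at hz
    linarith
  have hyall : ∀ z : ℂ, R < ‖z‖ → ‖z⁻¹‖ < η := by
    intro z hz
    have h1 : 0 < ‖z‖ := norm_pos_iff.2 (hz0 z hz)
    rw [norm_inv, inv_lt_comm₀ h1 hη, ← one_div]
    exact lt_of_le_of_lt hRη hz
  set XI : ℂ → ℂ := fun z => -Complex.log (-z) + Complex.log (χ z⁻¹ * -z) with hXI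
  have hquo' : ∀ z : ℂ, R < ‖z‖ → χ z⁻¹ * -z = χ z⁻¹ / -z⁻¹ := by
    intro z hz
    have h1 := hz0 z hz
    field_simp
  have hexpXI : ∀ z : ℂ, R < ‖z‖ → exp (XI z) = χ z⁻¹ := by
    intro z hz
    have h1 := hz0 z hz
    obtain ⟨-, -, -, b4, -, -⟩ := hηall z⁻¹ (inv_ne_zero h1) (hyall z hz)
    have h2 : χ z⁻¹ * -z ≠ 0 := by
      rw [hquo' z hz]
      exact slitPlane_ne_zero b4
    simp only [hXI]
    rw [Complex.exp_add, Complex.exp_neg, Complex.exp_log (neg_ne_zero.2 h1), Complex.exp_log h2]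
    field_simp
  have hχne : ∀ z : ℂ, R < ‖z‖ → χ z⁻¹ ≠ 0 := by
    intro z hz
    rw [← hexpXI z hz]
    exact exp_ne_zero _
  have hχδ : ∀ z : ℂ, R < ‖z‖ → ‖χ z⁻¹‖ < δ := fun z hz =>
    (hηall z⁻¹ (inv_ne_zero (hz0 z hz)) (hyall z hz)).2.2.1
  have hreX : ∀ z : ℂ, R < ‖z‖ → (XI z).re < Real.log ρ := by
    intro z hz
    have h1 : ‖χ z⁻¹‖ < ρ := (hδall _ (hχδ z hz)).2.1
    rw [← hexpXI z hz, Complex.norm_exp] at h1
    exact (Real.lt_log_iff_exp_lt hρ).2 h1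
  have hqX : ∀ z : ℂ, R < ‖z‖ → qT α (XI z) = z := by
    intro z hz
    have h1 := hz0 z hz
    obtain ⟨-, b2, -, -, -, -⟩ := hηall z⁻¹ (inv_ne_zero h1) (hyall z hz)
    have h2 := hχne z hz
    have h3 : κ (χ z⁻¹) = -χ z⁻¹ / α (χ z⁻¹) := rfl
    rw [b2] at h3
    have h4 : α (χ z⁻¹) ≠ 0 := slitPlane_ne_zero (hδall _ (hχδ z hz)).2.2.1
    unfold qT
    rw [Complex.exp_neg, hexpXI z hz]
    rw [eq_div_iff h4] at h3
    have h5 : α (χ z⁻¹) = -(z * χ z⁻¹) := by
      calc α (χ z⁻¹) = z * (z⁻¹ * α (χ z⁻¹)) := by rw [mul_inv_cancel_left₀ h1]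
        _ = -(z * χ z⁻¹) := by rw [h3]; ring
    rw [h5]
    calc -(χ z⁻¹)⁻¹ * -(z * χ z⁻¹) = z * (χ z⁻¹ * (χ z⁻¹)⁻¹) := by ring
      _ = z := by rw [mul_inv_cancel₀ h2, mul_one]
  have hbd : ∀ z : ℂ, R < ‖z‖ → |(Complex.log (χ z⁻¹ * -z)).im| < Real.pi / 4 := by
    intro z hz
    rw [hquo' z hz]
    exact (hηall z⁻¹ (inv_ne_zero (hz0 z hz)) (hyall z hz)).2.2.2.2.1
  have hlines := hCh.lines
  have hqre : ∀ x : ℂ, x.re < Real.log ρ → x.im = 0 → (qT α x).im = 0 := fun x hx hi =>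
    hlines.2.2.2.2.1 x (by linarith) hi
  have hqtop : ∀ x : ℂ, x.re < Real.log ρ → x.im = Real.pi / 2 → (qT α x).re = 0 :=
    fun x hx hi => hlines.2.2.2.2.2 x (by linarith) hi
  have hqcj : ∀ x : ℂ, x.re < Real.log ρ →
      qT α ((starRingEnd ℂ) x) = (starRingEnd ℂ) (qT α x) := fun x hx =>
    hCh.qcj x (by linarith)
  have hquad : ∀ x : ℂ, x.re < Real.log ρ → 0 < x.im → x.im < Real.pi / 2 →
      (qT α x).re < 0 ∧ 0 < (qT α x).im := fun x hx h0 h1 => hQd.quad x hx h0 h1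
  have hquad' : ∀ x : ℂ, x.re < Real.log ρ → x.im < 0 → -(Real.pi / 2) < x.im →
      (qT α x).re < 0 ∧ (qT α x).im < 0 := by
    intro x hx h0 h1
    have h2 := hquad ((starRingEnd ℂ) x) (by simpa using hx) (by simpa using h0)
      (by rw [Complex.conj_im]; linarith)
    rw [hqcj x hx, Complex.conj_re, Complex.conj_im] at h2
    exact ⟨h2.1, by linarith [h2.2]⟩
  have hqneg : ∀ x : ℂ, x.re < Real.log ρ →
      qT α (x + Real.pi * I) = -qT α x := fun x hx => hCh.qpi x (by linarith)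
  have himX : ∀ z : ℂ, z.re < 0 → R < ‖z‖ → 0 < z.im →
      0 < (XI z).im ∧ (XI z).im < Real.pi / 2 := by
    intro z hz hzR hzi
    have h1 := hbd z hzR
    have hx := hreX z hzR
    have hq := hqX z hzR
    have harg : -(Real.pi / 2) < (Complex.log (-z)).im ∧ (Complex.log (-z)).im < 0 := by
      rw [Complex.log_im]
      constructor
      · have := Complex.abs_arg_lt_pi_div_two_iff.2
          (Or.inl (show 0 < (-z).re by rw [neg_re]; linarith))
        exact (abs_lt.1 this).1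
      · exact Complex.arg_neg_iff.2 (by rw [neg_im]; linarith)
    have h2 : (XI z).im = -(Complex.log (-z)).im + (Complex.log (χ z⁻¹ * -z)).im := by
      simp only [hXI, add_im, neg_im]
    obtain ⟨h3, h4⟩ := abs_lt.1 h1
    constructor
    · by_contra hcon
      rw [not_lt] at hcon
      rcases hcon.lt_or_eq with h5 | h5
      · have := (hquad' (XI z) hx h5 (by rw [h2]; linarith [Real.pi_pos])).2
        rw [hq] at this
        linarith
      · have := hqre (XI z) hx h5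
        rw [hq] at this
        linarith
    · by_contra hcon
      rw [not_lt] at hcon
      rcases hcon.lt_or_eq with h5 | h5
      · set x' : ℂ := XI z - Real.pi * I with hx'
        have hx're : x'.re = (XI z).re := by simp [hx']
        have hx'im : x'.im = (XI z).im - Real.pi := by simp [hx']
        have h6 : qT α (XI z) = -qT α x' := by
          rw [← hqneg x' (by rw [hx're]; exact hx)]
          congr 1
          rw [hx']
          ring
        have h7 := (hquad' x' (by rw [hx're]; exact hx)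
          (by rw [hx'im, h2]; linarith [Real.pi_pos]) (by rw [hx'im]; linarith)).1
        rw [hq] at h6
        rw [h6, neg_re] at hz
        linarith
      · have := hqtop (XI z) hx h5.symm
        rw [hq] at this
        linarith
  have hcj : ∀ z : ℂ, z.re < 0 → R < ‖z‖ →
      XI ((starRingEnd ℂ) z) = (starRingEnd ℂ) (XI z) := by
    intro z hz hzR
    have h1 := hz0 z hzR
    obtain ⟨-, -, -, b4, -, b6⟩ := hηall z⁻¹ (inv_ne_zero h1) (hyall z hzR)
    have h2 : -z ∈ slitPlane := by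
      left
      rw [neg_re]
      linarith
    have h3 : χ z⁻¹ * -z ∈ slitPlane := by
      rw [hquo' z hzR]
      exact b4
    simp only [hXI]
    have e1 : -(starRingEnd ℂ) z = (starRingEnd ℂ) (-z) := by simp
    have e2 : χ ((starRingEnd ℂ) z)⁻¹ * -(starRingEnd ℂ) z =
        (starRingEnd ℂ) (χ z⁻¹ * -z) := by
      rw [← map_inv₀, b6]
      simp
    rw [e2, e1, Complex.log_conj _ (slitPlane_arg_ne_pi h2),
      Complex.log_conj _ (slitPlane_arg_ne_pi h3)]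
    simp
  have himX' : ∀ z : ℂ, z.re < 0 → R < ‖z‖ → z.im < 0 →
      -(Real.pi / 2) < (XI z).im ∧ (XI z).im < 0 := by
    intro z hz hzR hzi
    have h1 := himX ((starRingEnd ℂ) z) (by simpa using hz) (by simpa using hzR)
      (by rw [Complex.conj_im]; linarith)
    rw [hcj z hz hzR, Complex.conj_im] at h1
    exact ⟨by linarith [h1.2], by linarith [h1.1]⟩
  have him0 : ∀ z : ℂ, z.re < 0 → R < ‖z‖ → z.im = 0 → (XI z).im = 0 := by
    intro z hz hzR hzi
    have h1 : (starRingEnd ℂ) z = z := Complex.conj_eq_iff_im.2 hzi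
    have h2 := hcj z hz hzR
    rw [h1] at h2
    exact Complex.conj_eq_iff_im.1 h2.symm
  have habs : ∀ z : ℂ, z.re < 0 → R < ‖z‖ → |(XI z).im| < Real.pi / 2 := by
    intro z hz hzR
    have := Real.pi_pos
    rcases lt_trichotomy z.im 0 with h1 | h1 | h1
    · obtain ⟨h2, h3⟩ := himX' z hz hzR h1
      rw [abs_lt]
      constructor <;> linarith
    · rw [him0 z hz hzR h1, abs_zero]
      positivity
    · obtain ⟨h2, h3⟩ := himX z hz hzR h1
      rw [abs_lt]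
      constructor <;> linarith
  -- left inverse
  have hleft : ∀ x : ℂ, ‖exp x‖ < δ → |x.im| < Real.pi / 2 → XI (qT α x) = x := by
    intro x hx hxi
    obtain ⟨c1, c2, c3, c4, -⟩ := hδall _ hx
    have hα : α (exp x) ≠ 0 := slitPlane_ne_zero c3
    have h1 : (qT α x)⁻¹ = κ (exp x) := by
      unfold qT
      simp only [hκ]
      rw [Complex.exp_neg]
      field_simp
    have h2 : -qT α x = exp (-x + Complex.log (α (exp x))) := by
      rw [Complex.exp_add, Complex.exp_log hα]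
      unfold qT
      ring
    simp only [hXI]
    rw [h1, c1, h2, Complex.log_exp]
    · have h3 : exp x * exp (-x + Complex.log (α (exp x))) = α (exp x) := by
        rw [← Complex.exp_add, add_neg_cancel_left, Complex.exp_log hα]
      rw [h3]
      ring
    · rw [add_im, neg_im]
      have := (abs_lt.1 hxi).2
      have := (abs_lt.1 c4).1
      linarith
    · rw [add_im, neg_im]
      have := (abs_lt.1 hxi).1
      have := (abs_lt.1 c4).2
      linarith
  have hreD : ∀ z : ℂ, z.re < 0 → R < ‖z‖ → 0 < (exp (LT lD (XI z))).re := by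
    intro z hz hzR
    have hx := hreX z hzR
    have key : ∀ w : ℂ, |w.im| < Real.pi / 2 → 0 < (exp w).re := by
      intro w hw
      rw [Complex.exp_re]
      obtain ⟨a, b⟩ := abs_lt.1 hw
      exact mul_pos (Real.exp_pos _) (Real.cos_pos_of_mem_Ioo ⟨by linarith, by linarith⟩)
    apply key
    have := Real.pi_pos
    rcases lt_trichotomy z.im 0 with h1 | h1 | h1
    · obtain ⟨h2, h3⟩ := himX' z hz hzR h1
      have h4 := hQd.imD ((starRingEnd ℂ) (XI z)) (by rw [Complex.conj_re]; linarith)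
        (by rw [Complex.conj_im]; linarith) (by rw [Complex.conj_im]; linarith)
      rw [hCh.Dcj _ (by linarith), Complex.conj_im] at h4
      rw [abs_lt]
      constructor <;> linarith [h4.1, h4.2]
    · rw [hlines.2.2.1 (XI z) (by linarith) (him0 z hz hzR h1), abs_zero]
      positivity
    · obtain ⟨h2, h3⟩ := himX z hz hzR h1
      have h4 := hQd.imD (XI z) (by linarith) h2 h3
      rw [abs_lt]
      constructor <;> linarith [h4.1, h4.2]
  have hstepq : ∀ z : ℂ, R < ‖z‖ →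
      z - exp (LT lD (XI z)) = qT α (XI z - Real.log μ) := by
    intro z hzR
    have hx := hreX z hzR
    rw [hCh.expD (XI z) (by linarith), hqX z hzR]
    ring
  have hexl : ∀ x : ℂ, exp (x - (Real.log μ : ℂ)) = exp x / μ := by
    intro x
    rw [Complex.exp_sub, ← Complex.ofReal_exp, Real.exp_log hμ0]
  have hgrow : ∀ z : ℂ, z.re < 0 → R < ‖z‖ → ‖z‖ < ‖z - exp (LT lD (XI z))‖ := by
    intro z _ hzR
    have h1 := hχne z hzR
    have h2 := (hδall _ (hχδ z hzR)).2.2.2.2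
    rw [hstepq z hzR]
    nth_rewrite 1 [← hqX z hzR]
    unfold qT
    rw [hexl, hexpXI z hzR, norm_mul, norm_mul, norm_neg, norm_neg]
    have h3 : ‖exp (-(XI z - (Real.log μ : ℂ)))‖ = μ * ‖exp (-XI z)‖ := by
      rw [neg_sub, Complex.exp_sub, ← Complex.ofReal_exp, Real.exp_log hμ0, norm_div,
        Complex.norm_real, Real.norm_of_nonneg hμ0.le, Complex.exp_neg, norm_inv]
      field_simp
    rw [h3]
    have h4 : 0 < ‖exp (-XI z)‖ := norm_pos_iff.2 (exp_ne_zero _)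
    nlinarith
  have hstepX : ∀ z : ℂ, z.re < 0 → R < ‖z‖ →
      XI (z - exp (LT lD (XI z))) = XI z - Real.log μ := by
    intro z hz hzR
    rw [hstepq z hzR]
    apply hleft
    · rw [hexl, hexpXI z hzR, norm_div, Complex.norm_real, Real.norm_of_nonneg hμ0.le]
      exact (div_le_self (norm_nonneg _) hμ.le).trans_lt (hχδ z hzR)
    · have : (XI z - (Real.log μ : ℂ)).im = (XI z).im := by simp
      rw [this]
      exact habs z hz hzR
  have hlogX : ∀ z : ℂ, z.re < 0 → R < ‖z‖ → Complex.log (1 + z ^ 2) = 2 * LT lX (XI z) := by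
    intro z hz hzR
    have hx := hreX z hzR
    have h1 := hCh.expX (XI z) hx
    rw [hqX z hzR] at h1
    rw [← h1]
    have h2 : (2 * LT lX (XI z)).im = 2 * (LT lX (XI z)).im := by
      simp [Complex.mul_im]
    have hpi := Real.pi_pos
    have h3 : -(Real.pi / 2) < (LT lX (XI z)).im ∧ (LT lX (XI z)).im < Real.pi / 2 := by
      rcases lt_trichotomy z.im 0 with h4 | h4 | h4
      · obtain ⟨h5, h6⟩ := himX' z hz hzR h4
        have h7 := hQd.imX ((starRingEnd ℂ) (XI z)) (by rw [Complex.conj_re]; exact hx)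
          (by rw [Complex.conj_im]; linarith) (by rw [Complex.conj_im]; linarith)
        rw [hCh.Xcj _ hx, Complex.conj_im] at h7
        constructor <;> linarith [h7.1, h7.2]
      · rw [hlines.1 (XI z) hx (him0 z hz hzR h4)]
        constructor <;> linarith
      · obtain ⟨h5, h6⟩ := himX z hz hzR h4
        have h7 := hQd.imX (XI z) hx h5 h6
        constructor <;> linarith [h7.1, h7.2]
    refine Complex.log_exp ?_ ?_
    · rw [h2]; linarith [h3.1]
    · rw [h2]; linarith [h3.2]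
  -- large `z`
  have hlarge : ∀ P : ℂ → Prop, (∀ᶠ y in 𝓝[≠] (0 : ℂ), P y) →
      ∃ R' : ℝ, R ≤ R' ∧ ∀ z : ℂ, R' < ‖z‖ → P z⁻¹ := by
    intro P hP
    rw [eventually_nhdsWithin_iff, Metric.eventually_nhds_iff] at hP
    obtain ⟨θ, hθ, h1⟩ := hP
    refine ⟨max R (1 / θ), le_max_left _ _, fun z hz => ?_⟩
    have h2 : R < ‖z‖ := lt_of_le_of_lt (le_max_left _ _) hz
    have h3 : 1 / θ < ‖z‖ := lt_of_le_of_lt (le_max_right _ _) hz
    have h4 : 0 < ‖z‖ := norm_pos_iff.2 (hz0 z h2)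
    refine h1 ?_ (inv_ne_zero (hz0 z h2))
    rw [dist_zero_right, norm_inv, inv_lt_comm₀ h4 hθ, ← one_div]
    exact h3
  refine ⟨R, XI, ?_⟩
  refine
    { hR := hR1
      dXI := ?_
      reX := fun z _ hzR => hreX z hzR
      qX := fun z _ hzR => hqX z hzR
      imX := himX
      imX' := himX'
      im0 := him0
      cj := hcj
      lim := ?_
      inv := ?_
      reD := hreD
      grow := hgrow
      stepX := hstepX
      logX := hlogX
      flt := fun z _ hzR => hLp.fl _ (hreX z hzR)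
      fT := ?_
      limD := ?_ }
  · rintro z ⟨hz, hzR⟩
    have h1 := hz0 z hzR
    obtain ⟨b1, -, -, b4, -, -⟩ := hηall z⁻¹ (inv_ne_zero h1) (hyall z hzR)
    have h2 : -z ∈ slitPlane := by
      left
      rw [neg_re]
      linarith
    have h3 : χ z⁻¹ * -z ∈ slitPlane := by
      rw [hquo' z hzR]
      exact b4
    have d1 : DifferentiableAt ℂ (fun z => Complex.log (-z)) z :=
      differentiableAt_id.neg.clog h2
    have d2 : DifferentiableAt ℂ (fun z => χ z⁻¹) z :=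
      b1.differentiableAt.comp z (differentiableAt_inv h1)
    have d3 : DifferentiableAt ℂ (fun z => Complex.log (χ z⁻¹ * -z)) z :=
      (d2.mul differentiableAt_id.neg).clog h3
    exact (d1.neg.add d3).differentiableWithinAt
  · intro ε hε
    have h1 : ∀ᶠ y in 𝓝[≠] (0 : ℂ), ‖Complex.log (χ y / -y)‖ < ε := by
      have h2 := hlogq.norm
      rw [norm_zero] at h2
      exact h2 (Iio_mem_nhds hε)
    obtain ⟨R', hRR', h2⟩ := hlarge _ h1
    refine ⟨R', fun z _ hz => ?_⟩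
    have h3 := h2 z hz
    have h4 : XI z + Complex.log (-z) = Complex.log (χ z⁻¹ / -z⁻¹) := by
      simp only [hXI]
      rw [← hquo' z (lt_of_le_of_lt hRR' hz)]
      ring
    rw [h4]
    exact h3
  · -- surjectivity
    have hc1 : ∀ᶠ t in 𝓝[≠] (0 : ℂ), ‖κ t‖ < 1 / R ∧ 0 < (α t).re ∧ ‖t‖ < δ := by
      have a1 : ∀ᶠ t in 𝓝 (0 : ℂ), ‖κ t‖ < 1 / R := by
        filter_upwards [hκc.eventually (ball_mem_nhds (0 : ℂ)
          (show (0 : ℝ) < 1 / R by positivity))] with t ht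
        exact mem_ball_zero_iff.1 ht
      have a2 : ∀ᶠ t in 𝓝 (0 : ℂ), 0 < (α t).re := by
        have := (Complex.continuous_re.tendsto _).comp hαt
        rw [Complex.one_re] at this
        exact this (Ioi_mem_nhds one_pos)
      have a3 : ∀ᶠ t in 𝓝 (0 : ℂ), ‖t‖ < δ := by
        filter_upwards [ball_mem_nhds (0 : ℂ) hδ] with t ht
        exact mem_ball_zero_iff.1 ht
      filter_upwards [a1.filter_mono nhdsWithin_le_nhds, a2.filter_mono nhdsWithin_le_nhds,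
        a3.filter_mono nhdsWithin_le_nhds] with t b1 b2 b3
      exact ⟨b1, b2, b3⟩
    rw [eventually_nhdsWithin_iff, Metric.eventually_nhds_iff] at hc1
    obtain ⟨θ, hθ, hθall⟩ := hc1
    refine ⟨Real.log θ, fun x hx hxi => ?_⟩
    have ht : ‖exp x‖ < θ := by
      rw [Complex.norm_exp]
      exact (Real.lt_log_iff_exp_lt hθ).1 hx
    obtain ⟨b1, b2, b3⟩ := hθall (by rwa [dist_zero_right]) (exp_ne_zero x)
    have hxρ : x.re < Real.log ρ := by
      have h1 := (hδall _ b3).2.1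
      rw [Complex.norm_exp] at h1
      exact (Real.lt_log_iff_exp_lt hρ).2 h1
    have hα : α (exp x) ≠ 0 := slitPlane_ne_zero (hδall _ b3).2.2.1
    have h1 : (qT α x)⁻¹ = κ (exp x) := by
      unfold qT
      simp only [hκ]
      rw [Complex.exp_neg]
      field_simp
    have hq0 : qT α x ≠ 0 := by
      unfold qT
      exact mul_ne_zero (neg_ne_zero.2 (exp_ne_zero _)) hα
    refine ⟨?_, ?_, hleft x b3 hxi⟩
    · rcases lt_trichotomy x.im 0 with h4 | h4 | h4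
      · exact (hquad' x hxρ h4 (abs_lt.1 hxi).1).1
      · -- real `x`
        have h5 : x = ((x.re : ℝ) : ℂ) := Complex.ext (by simp) (by simp [h4])
        have h6 : exp (-x) = ((Real.exp (-x.re) : ℝ) : ℂ) := by
          rw [h5]
          push_cast
          rw [Complex.ofReal_re]
        unfold qT
        rw [h6]
        have h7 : (-((Real.exp (-x.re) : ℝ) : ℂ) * α (exp x)).re =
            -(Real.exp (-x.re) * (α (exp x)).re) := by
          rw [neg_mul, neg_re, Complex.re_ofReal_mul]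
        rw [h7]
        have := mul_pos (Real.exp_pos (-x.re)) b2
        linarith
      · exact (hquad x hxρ h4 (abs_lt.1 hxi).2).1
    · rw [← h1, norm_inv, one_div, inv_lt_inv₀ (norm_pos_iff.2 hq0) (by linarith)] at b1
      exact b1
  · intro z hz hzR
    have hx := hreX z hzR
    have h1 := hCh.LD1_eq hLp (x := XI z - Real.log μ) (by
      rw [Complex.sub_re, Complex.ofReal_re]
      linarith)
    rw [sub_add_cancel] at h1
    rw [hstepX z hz hzR, ← h1]
  · intro ε hε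
    -- `D + (μ-1) z = z (μ - q(x-l)/q(x))`
    have h1 : Tendsto (fun y => (μ : ℂ) - μ * α (χ y / μ) / α (χ y)) (𝓝[≠] 0) (𝓝 0) := by
      have a1 : Tendsto (fun y => α (χ y)) (𝓝 0) (𝓝 1) := hαt.comp hχc
      have a2 : Tendsto (fun y => α (χ y / μ)) (𝓝 0) (𝓝 1) := hαt.comp (hdivμ.comp hχc)
      have a3 := (tendsto_const_nhds (x := (μ : ℂ))).sub ((a2.const_mul (μ : ℂ)).div a1
        one_ne_zero)
      have a4 : (μ : ℂ) - μ * 1 / 1 = 0 := by ring
      rw [a4] at a3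
      exact a3.mono_left nhdsWithin_le_nhds
    have h2 : ∀ᶠ y in 𝓝[≠] (0 : ℂ), ‖(μ : ℂ) - μ * α (χ y / μ) / α (χ y)‖ < ε := by
      have h3 := h1.norm
      rw [norm_zero] at h3
      exact h3 (Iio_mem_nhds hε)
    obtain ⟨R', hRR', h3⟩ := hlarge _ h2
    refine ⟨R', fun z hz hzR' => ?_⟩
    have hzR : R < ‖z‖ := lt_of_le_of_lt hRR' hzR'
    have hα : α (χ z⁻¹) ≠ 0 := slitPlane_ne_zero (hδall _ (hχδ z hzR)).2.2.1
    have hχ' := hχne z hzR
    have h4 := hstepq z hzR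
    have h5 := hqX z hzR
    have h5' : z = -(χ z⁻¹)⁻¹ * α (χ z⁻¹) := by
      have h8 := h5
      unfold qT at h8
      rw [Complex.exp_neg, hexpXI z hzR] at h8
      exact h8.symm
    have h6' : qT α (XI z - Real.log μ) = -(μ * (χ z⁻¹)⁻¹) * α (χ z⁻¹ / μ) := by
      unfold qT
      rw [hexl, hexpXI z hzR, neg_sub, Complex.exp_sub, ← Complex.ofReal_exp,
        Real.exp_log hμ0, hexpXI z hzR]
      ring
    have h6 : qT α (XI z - Real.log μ) = z * (μ * α (χ z⁻¹ / μ) / α (χ z⁻¹)) := by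
      have h9 : ∀ a b c : ℂ, a ≠ 0 →
          -c⁻¹ * a * (μ * b / a) = -(μ * c⁻¹) * b := by
        intro a b c ha
        field_simp
      rw [h6', ← h9 (α (χ z⁻¹)) (α (χ z⁻¹ / μ)) (χ z⁻¹) hα, ← h5']
    have h7 : exp (LT lD (XI z)) + ((μ - 1 : ℝ) : ℂ) * z =
        z * ((μ : ℂ) - μ * α (χ z⁻¹ / μ) / α (χ z⁻¹)) := by
      rw [h6] at h4
      push_cast
      linear_combination -h4
    rw [h7, norm_mul, mul_comm]
    exact mul_lt_mul_of_pos_right (h3 z hzR') (norm_pos_iff.2 (hz0 z hzR))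

end EQH
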