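import Pool.Agent.Lib.MP_226de1_co.H.Loop

/-! Quadrants. -/

set_option autoImplicit false

namespace EQH

open Complex Filter Topology Set

variable {k μ b : ℝ} {q LX LD : ℂ → ℂ}

private theorem line_anti {f : ℂ → ℂ} {c : ℝ} (hd : ∀ z : ℂ, z.re = c → DifferentiableAt ℂ f z)
    (hn : ∀ z : ℂ, z.re = c → (deriv f z).re < 0) {x y : ℂ} (hx : x.re = c) (hy : y.re = c)
    (hi : x.im < y.im) : (f y).im < (f x).im := by
  have hre : ∀ t : ℝ, ((c : ℂ) + (t : ℂ) * I).re = c := by intro t; simp
  have hder : ∀ t : ℝ, HasDerivAt (fun t : ℝ => (f ((c : ℂ) + (t : ℂ) * I)).im)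
      (deriv f ((c : ℂ) + (t : ℂ) * I)).re t := by
    intro t
    have h1 : HasDerivAt (fun t : ℝ => (c : ℂ) + (t : ℂ) * I) I t := by
      have h2 : HasDerivAt (fun t : ℝ => (t : ℂ)) 1 t := Complex.ofRealCLM.hasDerivAt
      have h3 := (h2.mul_const I).const_add (c : ℂ)
      simpa using h3
    have h4 := (hd _ (hre t)).hasDerivAt.comp t h1
    have h5 := Complex.imCLM.hasFDerivAt.comp_hasDerivAt t h4
    have e : (deriv f ((c : ℂ) + (t : ℂ) * I)).re =
        Complex.imCLM (deriv f ((c : ℂ) + (t : ℂ) * I) * I) := by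
      simp
    rw [e]
    exact h5
  have hs : StrictAnti (fun t : ℝ => (f ((c : ℂ) + (t : ℂ) * I)).im) := by
    apply strictAnti_of_deriv_neg
    intro t
    rw [(hder t).deriv]
    exact hn _ (hre t)
  have h6 := hs hi
  have ex : (c : ℂ) + (x.im : ℂ) * I = x := by
    apply Complex.ext <;> simp [hx]
  have ey : (c : ℂ) + (y.im : ℂ) * I = y := by
    apply Complex.ext <;> simp [hy]
  simp only [ex, ey] at h6
  exact h6

/-- `Im LX` is strictly decreasing along upward verticals: its `y`-derivative is `Re LX' < 0`. -/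
theorem Ch.antiX (h : Ch k μ b q LX LD) (hl : Lp k μ b q LX LD) {x y : ℂ} (hx : x.re < b)
    (hxy : y.re = x.re) (hi : x.im < y.im) : (LX y).im < (LX x).im := by
  apply line_anti (c := x.re) _ _ rfl hxy hi
  · intro z hz
    exact h.dX' (by rw [hz]; exact hx)
  · intro z hz
    exact hl.rx z (by rw [hz]; exact hx)

theorem Ch.antiD (h : Ch k μ b q LX LD) (hl : Lp k μ b q LX LD) {x y : ℂ}
    (hx : x.re < b + Real.log μ / 2) (hxy : y.re = x.re) (hi : x.im < y.im) :
    (LD y).im < (LD x).im := by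
  have hlm := el_pos h.hμ
  apply line_anti (c := x.re) _ _ rfl hxy hi
  · intro z hz
    exact h.dD' (by rw [hz]; linarith)
  · intro z hz
    exact hl.mp z (by rw [hz]; exact hx)

private theorem conj_im0 {x : ℂ} (hx : x.im = 0) : (starRingEnd ℂ) x = x := by
  apply Complex.ext <;> simp [hx]

private theorem conj_top {x : ℂ} (hx : x.im = Real.pi / 2) :
    (starRingEnd ℂ) x + Real.pi * I = x := by
  apply Complex.ext
  · simp
  · simp [hx]
    ring

/-- real axis and top line: `Im LX = 0`, `Im LX = - pi/2` by conjugation and antiperiodicity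
(`x = a + i pi/2 = conj x + pi I`). Likewise `LD`; `Im q = 0`, `Re q = 0`. -/
theorem Ch.lines (h : Ch k μ b q LX LD) :
    (∀ x : ℂ, x.re < b → x.im = 0 → (LX x).im = 0) ∧
    (∀ x : ℂ, x.re < b → x.im = Real.pi / 2 → (LX x).im = -(Real.pi / 2)) ∧
    (∀ x : ℂ, x.re < b + Real.log μ → x.im = 0 → (LD x).im = 0) ∧
    (∀ x : ℂ, x.re < b + Real.log μ → x.im = Real.pi / 2 → (LD x).im = -(Real.pi / 2)) ∧
    (∀ x : ℂ, x.re < b + Real.log μ → x.im = 0 → (q x).im = 0) ∧
    (∀ x : ℂ, x.re < b + Real.log μ → x.im = Real.pi / 2 → (q x).re = 0) := by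
  have hcr : ∀ x : ℂ, ((starRingEnd ℂ) x).re = x.re := by intro x; simp
  refine ⟨?_, ?_, ?_, ?_, ?_, ?_⟩
  · intro x hx hi
    have h1 := h.Xcj x hx
    rw [conj_im0 hi] at h1
    have h2 := congrArg Complex.im h1
    simp at h2
    linarith
  · intro x hx hi
    have h1 := h.Xcj x hx
    have h2 := h.Xpi ((starRingEnd ℂ) x) (by rw [hcr]; exact hx)
    rw [conj_top hi, h1] at h2
    have h3 := congrArg Complex.im h2
    simp at h3
    linarith
  · intro x hx hi
    have h1 := h.Dcj x hx
    rw [conj_im0 hi] at h1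
    have h2 := congrArg Complex.im h1
    simp at h2
    linarith
  · intro x hx hi
    have h1 := h.Dcj x hx
    have h2 := h.Dpi ((starRingEnd ℂ) x) (by rw [hcr]; exact hx)
    rw [conj_top hi, h1] at h2
    have h3 := congrArg Complex.im h2
    simp at h3
    linarith
  · intro x hx hi
    have h1 := h.qcj x hx
    rw [conj_im0 hi] at h1
    have h2 := congrArg Complex.im h1
    simp at h2
    linarith
  · intro x hx hi
    have h1 := h.qcj x hx
    have h2 := h.qpi ((starRingEnd ℂ) x) (by rw [hcr]; exact hx)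
    rw [conj_top hi, h1] at h2
    have h3 := congrArg Complex.re h2
    simp at h3
    linarith

/-- the asymptotics at `-infinity`, with constants -/
private theorem asy (h : Ch k μ b q LX LD) {ε : ℝ} (hε : 0 < ε) :
    ∃ A : ℝ, A < b ∧ ∀ x : ℂ, x.re < A → ‖q x * exp x + 1‖ < ε := by
  have h1 := h.lq
  rw [Metric.tendsto_nhds] at h1
  have h2 := h1 ε hε
  rw [Filter.eventually_comap, Filter.eventually_atBot] at h2
  obtain ⟨A, hA⟩ := h2
  refine ⟨min A (b - 1), lt_of_le_of_lt (min_le_right _ _) (by linarith), ?_⟩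
  intro x hx
  have h3 := hA x.re (le_of_lt (lt_of_lt_of_le hx (min_le_left _ _))) x rfl
  rw [dist_eq_norm, sub_neg_eq_add] at h3
  exact h3

private theorem cont_line (h : Ch k μ b q LX LD) (y : ℝ) :
    ContinuousOn (fun a : ℝ => q ((a : ℂ) + (y : ℂ) * I)) (Iio b) := by
  have hlm := el_pos h.hμ
  intro a ha
  have hre : ((a : ℂ) + (y : ℂ) * I).re = a := by simp
  have h1 : ContinuousAt q ((a : ℂ) + (y : ℂ) * I) := by
    apply (h.dq' _).continuousAt
    rw [hre]
    have : a < b := ha
    linarith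
  have h2 : ContinuousAt (fun a : ℝ => (a : ℂ) + (y : ℂ) * I) a := by fun_prop
  exact (ContinuousAt.comp (f := fun a : ℝ => (a : ℂ) + (y : ℂ) * I) h1 h2).continuousWithinAt

/-- sign by the intermediate value theorem on `(-infinity, b)` -/
private theorem ivt_pos {g : ℝ → ℝ} {b A a : ℝ} (hg : ContinuousOn g (Iio b))
    (hn : ∀ t, t < b → g t ≠ 0) (_hA : A < b) (hp : ∀ t, t < A → 0 < g t) (ha : a < b) :
    0 < g a := by
  by_contra hc
  push Not at hc
  have haA : ¬ a < A := fun h1 => absurd (hp a h1) (not_lt.mpr hc)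
  push Not at haA
  have h1 : A - 1 ≤ a := by linarith
  have h2 : ContinuousOn g (Icc (A - 1) a) := by
    apply hg.mono
    intro t ht
    exact lt_of_le_of_lt ht.2 ha
  have h3 := intermediate_value_Icc' h1 h2
  have h4 : (0 : ℝ) ∈ Icc (g a) (g (A - 1)) := ⟨hc, (hp _ (by linarith)).le⟩
  obtain ⟨t, ht, ht0⟩ := h3 h4
  exact hn t (lt_of_le_of_lt ht.2 ha) ht0

/-- On the top line `q = i v`, `1 - v^2 = exp (2 LX)` is never `0`, `v -> +infinity` at
`-infinity` (`lq`), so `v > 1` (connectedness, intermediate value). -/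
theorem Ch.top_gt (h : Ch k μ b q LX LD) {x : ℂ} (hx : x.re < b) (hi : x.im = Real.pi / 2) :
    1 < (q x).im := by
  have hlm := el_pos h.hμ
  obtain ⟨A, hAb, hA⟩ := asy h (ε := 1 / 2) (by norm_num)
  have hre : ∀ a : ℝ, ((a : ℂ) + ((Real.pi / 2 : ℝ) : ℂ) * I).re = a := by intro a; simp
  have him : ∀ a : ℝ, ((a : ℂ) + ((Real.pi / 2 : ℝ) : ℂ) * I).im = Real.pi / 2 := by
    intro a; simp
  have key : 0 < (fun a : ℝ => (q ((a : ℂ) + ((Real.pi / 2 : ℝ) : ℂ) * I)).im - 1) x.re := by
    apply ivt_pos (g := fun a : ℝ => (q ((a : ℂ) + ((Real.pi / 2 : ℝ) : ℂ) * I)).im - 1)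
      (b := b) (A := min A (-2)) (a := x.re)
    · exact (Complex.continuous_im.comp_continuousOn (cont_line h (Real.pi / 2))).sub
        continuousOn_const
    · intro t ht h0
      have h1 := h.lines.2.2.2.2.2 ((t : ℂ) + ((Real.pi / 2 : ℝ) : ℂ) * I)
        (by rw [hre]; linarith) (him t)
      have h2 := h.expX ((t : ℂ) + ((Real.pi / 2 : ℝ) : ℂ) * I) (by rw [hre]; exact ht)
      have h3 : q ((t : ℂ) + ((Real.pi / 2 : ℝ) : ℂ) * I) = I := by
        apply Complex.ext
        · rw [h1]; simp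
        · simp at h0 ⊢
          linarith
      rw [h3] at h2
      have h4 : (1 : ℂ) + I ^ 2 = 0 := by rw [Complex.I_sq]; ring
      rw [h4] at h2
      exact Complex.exp_ne_zero _ h2
    · exact lt_of_le_of_lt (min_le_left _ _) hAb
    · intro t ht
      have htA : t < A := lt_of_lt_of_le ht (min_le_left _ _)
      have ht2 : t < -2 := lt_of_lt_of_le ht (min_le_right _ _)
      have htb : t < b := lt_trans htA hAb
      have h1 := hA ((t : ℂ) + ((Real.pi / 2 : ℝ) : ℂ) * I) (by rw [hre]; exact htA)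
      have h5 := h.lines.2.2.2.2.2 ((t : ℂ) + ((Real.pi / 2 : ℝ) : ℂ) * I)
        (by rw [hre]; linarith) (him t)
      set w : ℂ := q ((t : ℂ) + ((Real.pi / 2 : ℝ) : ℂ) * I) with hw
      have h2 : exp ((t : ℂ) + ((Real.pi / 2 : ℝ) : ℂ) * I) = (Real.exp t : ℂ) * I := by
        rw [Complex.exp_add, Complex.ofReal_exp]
        congr 1
        rw [Complex.ofReal_div]
        push_cast
        exact Complex.exp_pi_div_two_mul_I
      rw [h2] at h1
      have h3 := lt_of_le_of_lt (Complex.abs_re_le_norm _) h1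
      have h4 : (w * ((Real.exp t : ℂ) * I) + 1).re = -(w.im * Real.exp t) + 1 := by
        simp only [Complex.add_re, Complex.mul_re, Complex.mul_im, Complex.ofReal_re,
          Complex.ofReal_im, Complex.I_re, Complex.I_im, Complex.one_re]
        ring
      rw [h4, abs_lt] at h3
      have h6 : 1 / 2 < w.im * Real.exp t := by linarith [h3.2]
      have h7 : Real.exp t < 1 / 2 := by
        have h8 : Real.exp t < Real.exp (-2) := Real.exp_lt_exp.mpr ht2
        have h9 : Real.exp (-2) ≤ 1 / 2 := by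
          rw [Real.exp_neg]
          have h10 : (2 : ℝ) + 1 ≤ Real.exp 2 := Real.add_one_le_exp 2
          rw [inv_eq_one_div]
          apply one_div_le_one_div_of_le (by norm_num) (by linarith)
        linarith
      have h11 : 0 < Real.exp t := Real.exp_pos t
      change 0 < w.im - 1
      by_contra hc
      push Not at hc
      have : w.im * Real.exp t ≤ 1 * Real.exp t :=
        mul_le_mul_of_nonneg_right (by linarith) h11.le
      linarith
    · exact hx
  have ex : (x.re : ℂ) + ((Real.pi / 2 : ℝ) : ℂ) * I = x := by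
    apply Complex.ext <;> simp [hi]
  simp only [ex] at key
  linarith

private theorem imX_aux (h : Ch k μ b q LX LD) (hl : Lp k μ b q LX LD) {x : ℂ} (hx : x.re < b)
    (h0 : 0 < x.im) (h1 : x.im < Real.pi / 2) :
    -(Real.pi / 2) < (LX x).im ∧ (LX x).im < 0 := by
  constructor
  · have h2 := h.antiX hl (x := x) (y := (x.re : ℂ) + ((Real.pi / 2 : ℝ) : ℂ) * I) hx
      (by simp) (by simpa using h1)
    have h3 := h.lines.2.1 ((x.re : ℂ) + ((Real.pi / 2 : ℝ) : ℂ) * I) (by simpa using hx)
      (by simp)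
    linarith
  · have h2 := h.antiX hl (x := (x.re : ℂ)) (y := x) (by simpa using hx)
      (by simp) (by simpa using h0)
    have h3 := h.lines.1 (x.re : ℂ) (by simpa using hx) (by simp)
    linarith

private theorem imD_aux (h : Ch k μ b q LX LD) (hl : Lp k μ b q LX LD) {x : ℂ}
    (hx : x.re < b + Real.log μ / 2) (h0 : 0 < x.im) (h1 : x.im < Real.pi / 2) :
    -(Real.pi / 2) < (LD x).im ∧ (LD x).im < 0 := by
  have hlm := el_pos h.hμ
  constructor
  · have h2 := h.antiD hl (x := x) (y := (x.re : ℂ) + ((Real.pi / 2 : ℝ) : ℂ) * I) hx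
      (by simp) (by simpa using h1)
    have h3 := h.lines.2.2.2.1 ((x.re : ℂ) + ((Real.pi / 2 : ℝ) : ℂ) * I)
      (by simp; linarith) (by simp)
    linarith
  · have h2 := h.antiD hl (x := (x.re : ℂ)) (y := x) (by simpa using hx)
      (by simp) (by simpa using h0)
    have h3 := h.lines.2.2.1 (x.re : ℂ) (by simp; linarith) (by simp)
    linarith

/-- Second quadrant: `Im (1 + q^2) = 2 Re q Im q < 0` (since `2 Im LX` is in `(-pi, 0)`), so
neither `Re q` nor `Im q` vanishes on the connected set `{Re x < b, 0 < Im x < pi/2}`; near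
`-infinity` (`q ~ - exp (-x)`) `Re q < 0`, `Im q > 0`. -/
theorem Ch.quadr (h : Ch k μ b q LX LD) (hl : Lp k μ b q LX LD) {x : ℂ} (hx : x.re < b)
    (h0 : 0 < x.im) (h1 : x.im < Real.pi / 2) : (q x).re < 0 ∧ 0 < (q x).im := by
  have hlm := el_pos h.hμ
  set y : ℝ := x.im with hy
  have hre : ∀ a : ℝ, ((a : ℂ) + (y : ℂ) * I).re = a := by intro a; simp
  have him : ∀ a : ℝ, ((a : ℂ) + (y : ℂ) * I).im = y := by intro a; simp
  have hprod : ∀ t : ℝ, t < b → (q ((t : ℂ) + (y : ℂ) * I)).re * (q ((t : ℂ) + (y : ℂ) * I)).im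
      < 0 := by
    intro t ht
    have h2 := h.expX ((t : ℂ) + (y : ℂ) * I) (by rw [hre]; exact ht)
    have h3 := imX_aux h hl (x := (t : ℂ) + (y : ℂ) * I) (by rw [hre]; exact ht)
      (by rw [him]; exact h0) (by rw [him]; exact h1)
    set w : ℂ := q ((t : ℂ) + (y : ℂ) * I)
    set l : ℂ := LX ((t : ℂ) + (y : ℂ) * I)
    have h4 := congrArg Complex.im h2
    rw [Complex.exp_im] at h4
    have h5 : (2 * l).im = 2 * l.im := by simp
    have h6 : (1 + w ^ 2).im = 2 * (w.re * w.im) := by
      simp [pow_two, Complex.add_im, Complex.mul_im]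
      ring
    rw [h5, h6] at h4
    have h7 : Real.sin (2 * l.im) < 0 := by
      apply Real.sin_neg_of_neg_of_neg_pi_lt
      · linarith [h3.2]
      · linarith [h3.1]
    have h8 : 0 < Real.exp (2 * l).re := Real.exp_pos _
    have h9 := mul_neg_of_pos_of_neg h8 h7
    rw [h4] at h9
    linarith
  have hcos : 0 < Real.cos y := Real.cos_pos_of_mem_Ioo ⟨by linarith, h1⟩
  have hsin : 0 < Real.sin y := Real.sin_pos_of_pos_of_lt_pi h0 (by linarith [Real.pi_pos])
  set ε : ℝ := min (Real.cos y) (Real.sin y) with hεd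
  have hε : 0 < ε := lt_min hcos hsin
  obtain ⟨A, hAb, hA⟩ := asy h hε
  -- near `-infinity`
  have hnear : ∀ t : ℝ, t < A → (q ((t : ℂ) + (y : ℂ) * I)).re < 0 ∧
      0 < (q ((t : ℂ) + (y : ℂ) * I)).im := by
    intro t ht
    have h2 := hA ((t : ℂ) + (y : ℂ) * I) (by rw [hre]; exact ht)
    set z : ℂ := (t : ℂ) + (y : ℂ) * I with hz
    set u : ℂ := q z * exp z + 1 with hu
    have hq : q z = (Real.exp (-t) : ℂ) * ((u - 1) * exp (-((y : ℂ) * I))) := by
      have e1 : (Real.exp (-t) : ℂ) * exp (-((y : ℂ) * I)) = exp (-z) := by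
        rw [Complex.ofReal_exp, ← Complex.exp_add, hz]
        congr 1
        push_cast
        ring
      have e2 : exp z * exp (-z) = 1 := by rw [← Complex.exp_add]; simp
      calc q z = q z * (exp z * exp (-z)) := by rw [e2, mul_one]
        _ = (u - 1) * exp (-z) := by rw [hu]; ring
        _ = (Real.exp (-t) : ℂ) * ((u - 1) * exp (-((y : ℂ) * I))) := by
            rw [← e1]; ring
    have hex : exp (-((y : ℂ) * I)) = (Real.cos y : ℂ) - (Real.sin y : ℂ) * I := by
      rw [← neg_mul, ← Complex.ofReal_neg, Complex.exp_mul_I, ← Complex.ofReal_cos,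
        ← Complex.ofReal_sin, Real.cos_neg, Real.sin_neg]
      push_cast
      ring
    set v : ℂ := u * exp (-((y : ℂ) * I)) with hv
    have hvn : ‖v‖ < ε := by
      rw [hv, norm_mul]
      have : ‖exp (-((y : ℂ) * I))‖ = 1 := by
        rw [Complex.norm_exp]; simp
      rw [this, mul_one]
      exact h2
    have hq2 : q z = (Real.exp (-t) : ℂ) *
        (v - ((Real.cos y : ℂ) - (Real.sin y : ℂ) * I)) := by
      rw [hq, sub_mul, one_mul, ← hv, hex]
    have hqr : (q z).re = Real.exp (-t) * (v.re - Real.cos y) := by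
      rw [hq2, Complex.re_ofReal_mul]
      congr 1
      simp only [Complex.sub_re, Complex.mul_re, Complex.ofReal_re, Complex.ofReal_im,
        Complex.I_re, Complex.I_im]
      ring
    have hqi : (q z).im = Real.exp (-t) * (v.im + Real.sin y) := by
      rw [hq2, Complex.im_ofReal_mul]
      congr 1
      simp only [Complex.sub_im, Complex.mul_im, Complex.ofReal_re, Complex.ofReal_im,
        Complex.I_re, Complex.I_im]
      ring
    have hvr := abs_lt.mp (lt_of_le_of_lt (Complex.abs_re_le_norm v) hvn)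
    have hvi := abs_lt.mp (lt_of_le_of_lt (Complex.abs_im_le_norm v) hvn)
    have hε1 : ε ≤ Real.cos y := min_le_left _ _
    have hε2 : ε ≤ Real.sin y := min_le_right _ _
    have het : 0 < Real.exp (-t) := Real.exp_pos _
    constructor
    · rw [hqr]
      exact mul_neg_of_pos_of_neg het (by linarith [hvr.2])
    · rw [hqi]
      exact mul_pos het (by linarith [hvi.1])
  have kr : 0 < (fun a : ℝ => -(q ((a : ℂ) + (y : ℂ) * I)).re) x.re := by
    apply ivt_pos (g := fun a : ℝ => -(q ((a : ℂ) + (y : ℂ) * I)).re) (b := b) (A := A)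
      (a := x.re)
    · exact (Complex.continuous_re.comp_continuousOn (cont_line h y)).neg
    · intro t ht h2
      have h3 := hprod t ht
      have h4 : (q ((t : ℂ) + (y : ℂ) * I)).re = 0 := by simpa using h2
      rw [h4, zero_mul] at h3
      exact lt_irrefl _ h3
    · exact hAb
    · intro t ht
      have := (hnear t ht).1
      change 0 < -(q ((t : ℂ) + (y : ℂ) * I)).re
      linarith
    · exact hx
  have ki : 0 < (fun a : ℝ => (q ((a : ℂ) + (y : ℂ) * I)).im) x.re := by
    apply ivt_pos (g := fun a : ℝ => (q ((a : ℂ) + (y : ℂ) * I)).im) (b := b) (A := A)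
      (a := x.re)
    · exact Complex.continuous_im.comp_continuousOn (cont_line h y)
    · intro t ht h2
      have h3 := hprod t ht
      have h4 : (q ((t : ℂ) + (y : ℂ) * I)).im = 0 := h2
      rw [h4, mul_zero] at h3
      exact lt_irrefl _ h3
    · exact hAb
    · intro t ht
      exact (hnear t ht).2
    · exact hx
  have ex : (x.re : ℂ) + (y : ℂ) * I = x := by
    apply Complex.ext <;> simp [hy]
  simp only [ex] at kr ki
  exact ⟨by linarith, ki⟩

theorem Ch.qd (h : Ch k μ b q LX LD) (hl : Lp k μ b q LX LD) : Qd μ b q LX LD := by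
  have hlm := el_pos h.hμ
  refine ⟨?_, ?_, ?_, ?_, ?_, ?_, ?_⟩
  · intro x hx h0 h1
    exact imD_aux h hl hx h0 h1
  · intro x hx h0 h1
    exact imX_aux h hl hx h0 h1
  · intro x y hx hxy hi
    exact h.antiX hl hx hxy hi
  · intro x y hx hxy hi
    exact h.antiD hl hx hxy hi
  · intro x hx h0 h1
    exact h.quadr hl hx h0 h1
  · intro x hx hi
    exact ⟨h.lines.2.2.2.2.2 x (by linarith) hi, h.top_gt hx hi⟩
  · intro x hx hi
    exact h.lines.2.2.2.2.1 x (by linarith) hi

end EQH
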