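import Pool.Agent.Lib.MP_226de1_co.H.TopZ
import Pool.Agent.Lib.MP_226de1_co.H.LogLem

/-! `Re D > 0` on `Re x < u + log μ`, `0 < Im x < pi/2`, for `k ≥ 2`. -/

set_option autoImplicit false

namespace EQH

open Complex Filter Topology Set

variable {k μ u : ℝ} {q LX LD : ℂ → ℂ}

private theorem nb_re : (comap Complex.re atBot).NeBot := by
  rw [comap_neBot_iff]
  intro t ht
  obtain ⟨a, ha⟩ := mem_atBot_sets.1 ht
  exact ⟨(a : ℂ), by simpa using ha a le_rfl⟩

private theorem ev_re (b : ℝ) : ∀ᶠ x : ℂ in comap Complex.re atBot, x.re < b :=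
  (eventually_lt_atBot b).comap Complex.re

/-- `D_1 = xi_0 (C (1 - f_0))^(-1/k)` as logarithms, principal branch: `1 - f` has real part
`> 1/2`. Proof: `Ch.one_sub_f`; the difference of the two sides times `k` is a continuous
`2 pi i Z`-valued function on the connected set `Re x < b` which tends to `0` at
`Re x = -infinity` (limits `lX`, `lD`, `Ch.flim`). -/
theorem Ch.LD1_eq {b : ℝ} (h : Ch k μ b q LX LD) (hl : Lp k μ b q LX LD) {x : ℂ}
    (hx : x.re < b) :
    LD (x + Real.log μ) =
      LX x - (1 / k : ℝ) * ((Real.log (CK k μ) : ℂ) + log (1 - ff k μ LX LD x)) := by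
  have hk := h.hk
  have hC : 0 < CK k μ := CK_pos h.hμ
  have hCc : (CK k μ : ℂ) ≠ 0 := by exact_mod_cast hC.ne'
  set U : Set ℂ := {x : ℂ | x.re < b} with hU
  have hUo : IsOpen U := isOpen_lt Complex.continuous_re continuous_const
  have hUc : IsPreconnected U := (convex_halfSpace_re_lt b).isPreconnected
  set F : ℂ → ℂ := fun x => (k : ℂ) * (LX x - LD (x + Real.log μ)) with hF
  set G : ℂ → ℂ := fun x => (Real.log (CK k μ) : ℂ) + log (1 - ff k μ LX LD x) with hG
  have hshift : ∀ x ∈ U, (x + (Real.log μ : ℂ)).re < b + Real.log μ := by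
    intro x hx
    have : x.re < b := hx
    simp only [add_re, ofReal_re]
    linarith
  have hFc : ContinuousOn F U := by
    intro x hx
    have h1 : ContinuousAt LX x := (h.dX' hx).continuousAt
    have h2 : ContinuousAt LD (x + Real.log μ) := (h.dD' (hshift x hx)).continuousAt
    have h3 : ContinuousAt (fun y : ℂ => LD (y + Real.log μ)) x :=
      ContinuousAt.comp (f := fun y : ℂ => y + (Real.log μ : ℂ)) (g := LD) h2
        (continuousAt_id.add continuousAt_const)
    exact (continuousAt_const.mul (h1.sub h3)).continuousWithinAt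
  have hslit : ∀ x ∈ U, 1 - ff k μ LX LD x ∈ slitPlane := by
    intro x hx
    left
    have := hl.fl x hx
    simp only [sub_re, one_re]
    linarith
  have hGc : ContinuousOn G U := by
    intro x hx
    have h1 : ContinuousAt (ff k μ LX LD) x := (h.df hx).continuousAt
    exact (continuousAt_const.add ((continuousAt_const.sub h1).clog
      (hslit x hx))).continuousWithinAt
  have hFG : ∀ x ∈ U, exp (F x) = exp (G x) := by
    intro x hx
    have h1 := h.one_sub_f (x := x) hx
    have hne : 1 - ff k μ LX LD x ≠ 0 := slitPlane_ne_zero (hslit x hx)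
    have e1 : exp (F x) = (CK k μ : ℂ) * (1 - ff k μ LX LD x) := by
      rw [h1, mul_div_cancel₀ _ hCc]
    have e2 : exp (G x) = (CK k μ : ℂ) * (1 - ff k μ LX LD x) := by
      rw [hG]
      simp only
      rw [Complex.exp_add, Complex.exp_log hne, ← Complex.ofReal_exp, Real.exp_log hC]
    rw [e1, e2]
  -- limits
  have hmu1 : 0 < μ - 1 := by linarith [h.hμ]
  have hmu0 : 0 < μ := by linarith [h.hμ]
  have hmk : 0 < μ ^ k := Real.rpow_pos_of_pos hmu0 k
  have hlF : Tendsto F (comap Complex.re atBot)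
      (𝓝 ((k : ℂ) * (0 - (Real.log (μ - 1) : ℂ) + Real.log μ))) := by
    have h2 : Tendsto (fun x : ℂ => x + (Real.log μ : ℂ)) (comap Complex.re atBot)
        (comap Complex.re atBot) := by
      rw [tendsto_comap_iff]
      have : (Complex.re ∘ fun x : ℂ => x + (Real.log μ : ℂ)) =
          fun x : ℂ => x.re + Real.log μ := by
        funext x
        simp
      rw [this]
      exact tendsto_atBot_add_const_right _ _ tendsto_comap
    have h3 := h.lD.comp h2
    have h4 := ((h.lX.sub h3).add_const (Real.log μ : ℂ)).const_mul (k : ℂ)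
    refine h4.congr (fun x => ?_)
    simp only [Function.comp, hF]
    ring
  have hlG : Tendsto G (comap Complex.re atBot)
      (𝓝 ((Real.log (CK k μ) : ℂ) + log (1 - ((1 / (1 + μ ^ k) : ℝ) : ℂ)))) := by
    have h1 := h.flim
    have h2 : (1 - ((1 / (1 + μ ^ k) : ℝ) : ℂ)) ∈ slitPlane := by
      left
      simp only [sub_re, one_re, ofReal_re]
      have : 1 / (1 + μ ^ k) < 1 := by
        rw [div_lt_one (by linarith)]
        linarith
      linarith
    exact tendsto_const_nhds.add ((tendsto_const_nhds.sub h1).clog h2)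
  have hlim : (k : ℂ) * (0 - (Real.log (μ - 1) : ℂ) + Real.log μ) =
      (Real.log (CK k μ) : ℂ) + log (1 - ((1 / (1 + μ ^ k) : ℝ) : ℂ)) := by
    have e1 : (1 - ((1 / (1 + μ ^ k) : ℝ) : ℂ)) = ((μ ^ k / (1 + μ ^ k) : ℝ) : ℂ) := by
      have : (μ ^ k / (1 + μ ^ k) : ℝ) = 1 - 1 / (1 + μ ^ k) := by
        field_simp
        ring
      rw [this]
      push_cast
      ring
    rw [e1, ← Complex.ofReal_log (by positivity)]
    have e2 : Real.log (CK k μ) + Real.log (μ ^ k / (1 + μ ^ k)) =
        k * (0 - Real.log (μ - 1) + Real.log μ) := by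
      unfold CK
      have hp : 0 < (μ - 1) ^ k := Real.rpow_pos_of_pos hmu1 k
      rw [Real.log_div (by positivity) hp.ne', Real.log_div hmk.ne' (by positivity),
        Real.log_rpow hmu1, Real.log_rpow hmu0]
      ring
    rw [← Complex.ofReal_add, e2]
    push_cast
    ring
  -- agreement at one point
  obtain ⟨x₀, hx₀, h0⟩ : ∃ x₀ ∈ U, F x₀ = G x₀ := by
    have h1 : Tendsto (fun x => F x - G x) (comap Complex.re atBot) (𝓝 0) := by
      have := hlF.sub hlG
      rw [hlim, sub_self] at this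
      exact this
    have h2 := h1.norm
    rw [norm_zero] at h2
    have h3 := (h2.eventually_lt_const one_pos).and (ev_re b)
    have := nb_re
    obtain ⟨x₀, hx1, hx2⟩ := h3.exists
    refine ⟨x₀, hx2, ?_⟩
    obtain ⟨n, hn⟩ := Complex.exp_eq_exp_iff_exists_int.1 (hFG x₀ hx2)
    have h4 : F x₀ - G x₀ = n * (2 * Real.pi * I) := by rw [hn]; ring
    have h5 : ‖F x₀ - G x₀‖ = |(n : ℝ)| * (2 * Real.pi) := by
      rw [h4, norm_mul, norm_mul, norm_mul, Complex.norm_I]
      simp [abs_of_pos Real.pi_pos]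
    rw [h5] at hx1
    have hpi := Real.pi_gt_three
    have h6 : |(n : ℝ)| < 1 := by
      by_contra hcon
      push Not at hcon
      nlinarith
    have h7 : n = 0 := by
      have : |n| < 1 := by exact_mod_cast h6
      exact Int.abs_lt_one_iff.1 this
    rw [hn, h7]
    simp
  have key := clog_unique hUc hFc hGc hFG hx₀ h0 (show x ∈ U from hx)
  have hkc : (k : ℂ) ≠ 0 := by exact_mod_cast hk.ne'
  have key2 : (k : ℂ) * (LX x - LD (x + Real.log μ)) =
      (Real.log (CK k μ) : ℂ) + log (1 - ff k μ LX LD x) := key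
  rw [← key2]
  push_cast
  field_simp
  ring

/-- continuous version of `xi` up to the edge: `xi = e^{-i pi/4} (i (1 + q^2))^{1/2}` -/
noncomputable def Xh (q : ℂ → ℂ) (x : ℂ) : ℂ :=
  exp (-(Real.pi / 4 : ℝ) * I) * (I * (1 + q x ^ 2)) ^ ((1 / 2 : ℝ) : ℂ)

/-- `f` up to the edge -/
noncomputable def fh (k μ : ℝ) (q LD : ℂ → ℂ) (x : ℂ) : ℂ :=
  exp (-(k : ℂ) * LD x) * (exp (-(Real.pi / 4 * k : ℝ) * I) *
    (I * (1 + q x ^ 2)) ^ ((k / 2 : ℝ) : ℂ)) / (CK k μ : ℂ)

/-- `D_1` up to the edge -/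
noncomputable def Dh (k μ : ℝ) (q LD : ℂ → ℂ) (x : ℂ) : ℂ :=
  Xh q x * exp (-(1 / k : ℝ) * ((Real.log (CK k μ) : ℂ) + log (1 - fh k μ q LD x)))

private theorem logI (h : HL k μ u q LX LD) {x : ℂ} (hx : x.re < u) (h0 : 0 ≤ x.im)
    (h1 : x.im ≤ Real.pi / 2) (a : ℝ) :
    (I * (1 + q x ^ 2)) ^ (a : ℂ) = exp (a * (2 * LX x + Real.pi / 2 * I)) := by
  have e1 : I * (1 + q x ^ 2) = exp (2 * LX x + Real.pi / 2 * I) := by
    rw [Complex.exp_add, h.ch.expX x hx, Complex.exp_pi_div_two_mul_I]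
    ring
  have hl := h.ch.lines
  have himX : -(Real.pi / 2) ≤ (LX x).im ∧ (LX x).im ≤ 0 := by
    rcases eq_or_lt_of_le h0 with h2 | h2
    · rw [hl.1 x hx h2.symm]
      exact ⟨by linarith [Real.pi_pos], le_rfl⟩
    · rcases eq_or_lt_of_le h1 with h3 | h3
      · rw [hl.2.1 x hx h3]
        exact ⟨le_rfl, by linarith [Real.pi_pos]⟩
      · have := h.qd.imX x hx h2 h3
        exact ⟨this.1.le, this.2.le⟩
  have him : (2 * LX x + Real.pi / 2 * I).im = 2 * (LX x).im + Real.pi / 2 := by
    simp [Complex.mul_im]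
  have hpi := Real.pi_pos
  rw [Complex.cpow_def_of_ne_zero (by rw [e1]; exact exp_ne_zero _), e1, Complex.log_exp
    (by rw [him]; linarith [himX.1]) (by rw [him]; linarith [himX.2])]
  ring_nf

private theorem Dh_eq' (h : HL k μ u q LX LD) {x : ℂ} (hx : x.re < u) (h0 : 0 ≤ x.im)
    (h1 : x.im ≤ Real.pi / 2) :
    Xh q x = exp (LX x) ∧ fh k μ q LD x = ff k μ LX LD x ∧
      Dh k μ q LD x = exp (LD (x + Real.log μ)) := by
  have hk := h.ch.hk
  have eX : Xh q x = exp (LX x) := by
    unfold Xh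
    rw [logI h hx h0 h1 (1 / 2), ← Complex.exp_add]
    congr 1
    push_cast
    ring
  have ef : fh k μ q LD x = ff k μ LX LD x := by
    unfold fh ff
    rw [logI h hx h0 h1 (k / 2), ← Complex.exp_add, ← Complex.exp_add]
    congr 2
    push_cast
    ring
  refine ⟨eX, ef, ?_⟩
  unfold Dh
  rw [eX, ef, h.ch.LD1_eq h.lp hx, ← Complex.exp_add]
  congr 1
  push_cast
  ring

/-- Continuity of `Xh`, `fh`, `Dh` on `Re x ≤ u`, `0 ≤ Im x ≤ pi/2`: `i (1+q^2)` has real part
`≥ 0` there (`Ch.lineu`), cpow with positive real exponent is continuous on the closed right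
half plane (also at `0`: `Complex.continuousAt_cpow_zero_of_re_pos`); `Re (1 - fh) ≥ 1/2`. -/
theorem HL.Dh_cont (h : HL k μ u q LX LD) :
    ContinuousOn (Dh k μ q LD) {x : ℂ | x.re ≤ u ∧ 0 ≤ x.im ∧ x.im ≤ Real.pi / 2} ∧
    (∀ x : ℂ, x.re ≤ u → 0 ≤ x.im → x.im ≤ Real.pi / 2 → 1 / 2 ≤ (1 - fh k μ q LD x).re) := by
  set S : Set ℂ := {x : ℂ | x.re ≤ u ∧ 0 ≤ x.im ∧ x.im ≤ Real.pi / 2} with hS
  have hk := h.ch.hk
  have hel := el_pos h.ch.hμ
  have hin : ∀ x ∈ S, x.re < u + Real.log μ := by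
    intro x hx
    have := hx.1
    linarith
  have cq : ContinuousOn q S := fun x hx => (h.ch.dq' (hin x hx)).continuousAt.continuousWithinAt
  have cD : ContinuousOn LD S := fun x hx => (h.ch.dD' (hin x hx)).continuousAt.continuousWithinAt
  have cpw : ∀ a : ℝ, 0 < a → ContinuousOn (fun x => (I * (1 + q x ^ 2)) ^ (a : ℂ)) S := by
    intro a ha x hx
    have h1 := (h.ch.lineu h.qd).1 x hx.1 hx.2.1 hx.2.2
    have hz : 0 ≤ (I * (1 + q x ^ 2)).re := by
      have : (I * (1 + q x ^ 2)).re = -(1 + q x ^ 2).im := by simp [Complex.mul_re]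
      rw [this]
      linarith [h1.1]
    have h2 : ContinuousAt (fun z : ℂ => z ^ (a : ℂ)) (I * (1 + q x ^ 2)) :=
      Complex.continuousAt_cpow_const_of_re_pos (Or.inl hz) (by simpa using ha)
    have h3 : ContinuousWithinAt (fun x => I * (1 + q x ^ 2)) S x :=
      (continuousOn_const.mul (continuousOn_const.add (cq.pow 2))) x hx
    exact ContinuousAt.comp_continuousWithinAt (f := fun x => I * (1 + q x ^ 2))
      (g := fun z : ℂ => z ^ (a : ℂ)) h2 h3
  have cf : ContinuousOn (fh k μ q LD) S := by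
    unfold fh
    exact ((((continuousOn_const.mul cD).cexp).mul
      (continuousOn_const.mul (cpw (k / 2) (by linarith))))).div_const _
  have hre : ∀ x ∈ S, 1 / 2 ≤ (1 - fh k μ q LD x).re := by
    intro x hx
    have hpath : Tendsto (fun η : ℝ => x - (η : ℂ)) (𝓝[>] 0) (𝓝[S] x) := by
      rw [tendsto_nhdsWithin_iff]
      constructor
      · have h1 : Continuous (fun η : ℝ => x - (η : ℂ)) := by fun_prop
        have h2 := h1.tendsto 0
        simp only [ofReal_zero, sub_zero] at h2
        exact h2.mono_left nhdsWithin_le_nhds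
      · filter_upwards [self_mem_nhdsWithin] with η hη
        have hη' : 0 < η := hη
        refine ⟨?_, ?_, ?_⟩
        · simp only [sub_re, ofReal_re]
          linarith [hx.1]
        · simpa using hx.2.1
        · simpa using hx.2.2
    have h1 : Tendsto (fun η : ℝ => (1 - fh k μ q LD (x - (η : ℂ))).re) (𝓝[>] 0)
        (𝓝 (1 - fh k μ q LD x).re) := by
      have h2 : Tendsto (fh k μ q LD) (𝓝[S] x) (𝓝 (fh k μ q LD x)) := cf x hx
      have h3 := h2.comp hpath
      exact (Complex.continuous_re.tendsto _).comp (tendsto_const_nhds.sub h3)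
    refine ge_of_tendsto h1 ?_
    filter_upwards [self_mem_nhdsWithin] with η hη
    have hη' : 0 < η := hη
    have hx' : (x - (η : ℂ)).re < u := by
      simp only [sub_re, ofReal_re]
      linarith [hx.1]
    have him : (x - (η : ℂ)).im = x.im := by simp
    rw [(Dh_eq' h hx' (by rw [him]; exact hx.2.1) (by rw [him]; exact hx.2.2)).2.1]
    have := h.lp.fl _ hx'
    simp only [sub_re, one_re] at this ⊢
    linarith
  refine ⟨?_, fun x h1 h2 h3 => hre x ⟨h1, h2, h3⟩⟩
  unfold Dh Xh
  refine (continuousOn_const.mul (cpw (1 / 2) (by norm_num))).mul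
    (ContinuousOn.cexp (continuousOn_const.mul (continuousOn_const.add
      (ContinuousOn.clog (continuousOn_const.sub cf) ?_))))
  intro x hx
  left
  have := hre x hx
  linarith

/-- On the open part `Xh = exp LX`, `fh = f`, `Dh = exp (LD (x + log μ))`. -/
theorem HL.Dh_eq (h : HL k μ u q LX LD) {x : ℂ} (hx : x.re < u) (h0 : 0 ≤ x.im)
    (h1 : x.im ≤ Real.pi / 2) :
    Xh q x = exp (LX x) ∧ fh k μ q LD x = ff k μ LX LD x ∧
      Dh k μ q LD x = exp (LD (x + Real.log μ)) :=
  Dh_eq' h hx h0 h1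

/-- On the edge `Re x = u`: `arg Xh ∈ [-pi/4, 0]`, `|arg (1 - fh)| < pi/2`, so for `k ≥ 2`
`Re Dh ≥ 0`; at the corner `Dh = 0`. -/
theorem HL.Dh_edge (h : HL k μ u q LX LD) (hk : 2 ≤ k) {y : ℝ} (h0 : 0 ≤ y)
    (h1 : y ≤ Real.pi / 2) : 0 ≤ (Dh k μ q LD ⟨u, y⟩).re := by
  have hel := el_pos h.ch.hμ
  rcases eq_or_lt_of_le h1 with h2 | h2
  · -- the corner
    have : Xh q ⟨u, y⟩ = 0 := by
      unfold Xh
      rw [h2, h.corner]
      simp [Complex.I_sq]
    unfold Dh
    rw [this]
    simp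
  · have hxi : (1 + q ⟨u, y⟩ ^ 2).im ≤ 0 ∧ 0 < (1 + q ⟨u, y⟩ ^ 2).re := by
      rcases eq_or_lt_of_le h0 with h3 | h3
      · have hq : (q ⟨u, y⟩).im = 0 := by
          refine h.ch.lines.2.2.2.2.1 _ ?_ h3.symm
          show u < u + Real.log μ
          linarith
        have e : (q ⟨u, y⟩) ^ 2 = (((q ⟨u, y⟩).re ^ 2 : ℝ) : ℂ) := by
          apply Complex.ext
          · simp [pow_two, Complex.mul_re, hq]
          · simp [pow_two, Complex.mul_im, hq]
        rw [e]
        constructor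
        · rw [add_im, one_im, ofReal_im, add_zero]
        · have : (1 + (((q ⟨u, y⟩).re ^ 2 : ℝ) : ℂ)).re = 1 + (q ⟨u, y⟩).re ^ 2 := by
            simp only [add_re, one_re, ofReal_re]
          rw [this]
          positivity
      · have := h.xi y h3 h2
        exact ⟨this.1.le, this.2⟩
    set z : ℂ := I * (1 + q ⟨u, y⟩ ^ 2) with hz
    have hzre : z.re = -(1 + q ⟨u, y⟩ ^ 2).im := by simp [hz, Complex.mul_re]
    have hzim : z.im = (1 + q ⟨u, y⟩ ^ 2).re := by simp [hz, Complex.mul_im]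
    have hz0 : z ≠ 0 := by
      intro hcon
      have : z.im = 0 := by rw [hcon]; rfl
      rw [hzim] at this
      linarith [hxi.2]
    have harg1 : 0 ≤ arg z := Complex.arg_nonneg_iff.2 (by rw [hzim]; exact hxi.2.le)
    have harg2 : arg z ≤ Real.pi / 2 :=
      (Complex.abs_arg_le_pi_div_two_iff.2 (by rw [hzre]; linarith [hxi.1]) |> abs_le.1).2
    have hf := h.Dh_cont.2 ⟨u, y⟩ le_rfl h0 h1
    set w : ℂ := 1 - fh k μ q LD ⟨u, y⟩ with hw
    have harg3 : |arg w| ≤ Real.pi / 2 := Complex.abs_arg_le_pi_div_two_iff.2 (by linarith)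
    have eD : Dh k μ q LD ⟨u, y⟩ = exp (-(Real.pi / 4 : ℝ) * I + ((1 / 2 : ℝ) : ℂ) * log z +
        -(1 / k : ℝ) * ((Real.log (CK k μ) : ℂ) + log w)) := by
      unfold Dh Xh
      rw [Complex.exp_add, Complex.exp_add, Complex.cpow_def_of_ne_zero hz0,
        mul_comm (log z)]
    have him : (-(Real.pi / 4 : ℝ) * I + ((1 / 2 : ℝ) : ℂ) * log z +
        -(1 / k : ℝ) * ((Real.log (CK k μ) : ℂ) + log w)).im =
        -(Real.pi / 4) + 1 / 2 * arg z - 1 / k * arg w := by
      rw [← Complex.ofReal_neg, ← Complex.ofReal_neg]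
      simp only [add_im, Complex.im_ofReal_mul, Complex.I_im,
        Complex.ofReal_im, Complex.log_im]
      ring
    rw [eD, Complex.exp_re, him]
    refine mul_nonneg (Real.exp_pos _).le (Real.cos_nonneg_of_mem_Icc ⟨?_, ?_⟩)
    · have hpi := Real.pi_pos
      have hk1 : 0 < 1 / k := by positivity
      have hk2 : 1 / k ≤ 1 / 2 := one_div_le_one_div_of_le (by norm_num) hk
      have h4 : |1 / k * arg w| ≤ 1 / 2 * (Real.pi / 2) := by
        rw [abs_mul, abs_of_pos hk1]
        exact mul_le_mul hk2 harg3 (abs_nonneg _) (by norm_num)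
      have h5 := abs_le.1 h4
      linarith [h5.2]
    · have hpi := Real.pi_pos
      have hk1 : 0 < 1 / k := by positivity
      have hk2 : 1 / k ≤ 1 / 2 := one_div_le_one_div_of_le (by norm_num) hk
      have h4 : |1 / k * arg w| ≤ 1 / 2 * (Real.pi / 2) := by
        rw [abs_mul, abs_of_pos hk1]
        exact mul_le_mul hk2 harg3 (abs_nonneg _) (by norm_num)
      have h5 := abs_le.1 h4
      linarith [h5.1]

/-- `Re D > 0`. For `Re x < u + log μ / 2` by `Qd.imD`. For `u ≤ Re x < u + log μ`: maximum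
modulus (`Complex.norm_le_of_forall_mem_frontier_norm_le`) for `exp (-Dh)` on the rectangle
`[u - log μ, u] x [0, pi/2]` gives `Re Dh ≥ 0`; strictness: an interior point with `Re Dh = 0`
would make `‖exp (-Dh)‖` constant, contradiction with `Dh > 0` on the bottom. -/
theorem HL.reD (h : HL k μ u q LX LD) (hk : 2 ≤ k) {x : ℂ} (hx : x.re < u + Real.log μ)
    (h0 : 0 < x.im) (h1 : x.im < Real.pi / 2) : 0 < (exp (LD x)).re := by
  have hel := el_pos h.ch.hμ
  have hpi := Real.pi_pos
  -- closed version of `imD`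
  have hcl : ∀ z : ℂ, z.re < u + Real.log μ / 2 → 0 ≤ z.im → z.im ≤ Real.pi / 2 →
      0 ≤ (exp (LD z)).re := by
    intro z hz hz0 hz1
    rw [Complex.exp_re]
    refine mul_nonneg (Real.exp_pos _).le (Real.cos_nonneg_of_mem_Icc ?_)
    rcases eq_or_lt_of_le hz0 with h2 | h2
    · rw [h.ch.lines.2.2.1 z (by linarith) h2.symm]
      exact ⟨by linarith, by linarith⟩
    · rcases eq_or_lt_of_le hz1 with h3 | h3
      · rw [h.ch.lines.2.2.2.1 z (by linarith) h3]
        exact ⟨le_rfl, by linarith⟩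
      · have := h.qd.imD z hz h2 h3
        exact ⟨this.1.le, by linarith [this.2]⟩
  rcases lt_or_ge x.re (u + Real.log μ / 2) with hxl | hxl
  · rw [Complex.exp_re]
    have := h.qd.imD x hxl h0 h1
    exact mul_pos (Real.exp_pos _) (Real.cos_pos_of_mem_Ioo ⟨this.1, by linarith [this.2]⟩)
  -- the rectangle
  set U : Set ℂ := (Ioo (u - Real.log μ) u) ×ℂ (Ioo 0 (Real.pi / 2)) with hU
  have hUcl : closure U = (Icc (u - Real.log μ) u) ×ℂ (Icc 0 (Real.pi / 2)) := by
    rw [hU, Complex.closure_reProdIm, closure_Ioo (by linarith), closure_Ioo (by linarith)]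
  have hUo : IsOpen U := isOpen_Ioo.reProdIm isOpen_Ioo
  have hUc : IsPreconnected U := by
    have : Convex ℝ U := by
      have e : U = Complex.re ⁻¹' (Ioo (u - Real.log μ) u) ∩
          Complex.im ⁻¹' (Ioo 0 (Real.pi / 2)) := rfl
      rw [e]
      exact ((convex_Ioo _ _).linear_preimage Complex.reLm).inter
        ((convex_Ioo _ _).linear_preimage Complex.imLm)
    exact this.isPreconnected
  have hUb : Bornology.IsBounded U :=
    (Metric.isBounded_Ioo _ _).reProdIm (Metric.isBounded_Ioo _ _)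
  set F : ℂ → ℂ := fun z => exp (-Dh k μ q LD z) with hF
  have hFd : DiffContOnCl ℂ F U := by
    constructor
    · intro z hz
      have hz1 : z.re < u := hz.1.2
      have e : ∀ᶠ w in 𝓝 z, F w = exp (-exp (LD (w + Real.log μ))) := by
        filter_upwards [hUo.mem_nhds hz] with w hw
        rw [hF]
        simp only
        rw [(h.Dh_eq hw.1.2 hw.2.1.le hw.2.2.le).2.2]
      have hd : DifferentiableAt ℂ (fun w : ℂ => LD (w + Real.log μ)) z := by
        have h2 : DifferentiableAt ℂ LD (z + Real.log μ) := h.ch.dD' (by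
          simp only [add_re, ofReal_re]
          linarith)
        exact DifferentiableAt.comp (f := fun w : ℂ => w + (Real.log μ : ℂ)) (g := LD) z h2
          (by fun_prop)
      exact ((hd.cexp.neg.cexp).congr_of_eventuallyEq e).differentiableWithinAt
    · refine ContinuousOn.cexp (ContinuousOn.neg (h.Dh_cont.1.mono ?_))
      rw [hUcl]
      intro z hz
      exact ⟨hz.1.2, hz.2.1, hz.2.2⟩
  have hnorm : ∀ z : ℂ, ‖F z‖ = Real.exp (-(Dh k μ q LD z).re) := by
    intro z
    rw [hF]
    simp only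
    rw [Complex.norm_exp, neg_re]
  -- the boundary
  have hbd : ∀ z ∈ frontier U, ‖F z‖ ≤ 1 := by
    intro z hz
    rw [hnorm, Real.exp_le_one_iff, neg_nonpos]
    have hzc : z ∈ closure U := frontier_subset_closure hz
    rw [hUcl] at hzc
    have z1 : u - Real.log μ ≤ z.re := hzc.1.1
    have z2 : z.re ≤ u := hzc.1.2
    have z3 : 0 ≤ z.im := hzc.2.1
    have z4 : z.im ≤ Real.pi / 2 := hzc.2.2
    rcases eq_or_lt_of_le z2 with h2 | h2
    · have : z = ⟨u, z.im⟩ := by
        apply Complex.ext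
        · exact h2
        · rfl
      rw [this]
      exact h.Dh_edge hk z3 z4
    · rw [(h.Dh_eq h2 z3 z4).2.2]
      have hzn : z ∉ U := by
        rw [hUo.frontier_eq] at hz
        exact hz.2
      have him : (z + (Real.log μ : ℂ)).im = z.im := by simp
      have hre : (z + (Real.log μ : ℂ)).re = z.re + Real.log μ := by simp
      rcases eq_or_lt_of_le z3 with h3 | h3
      · rw [Complex.exp_re, h.ch.lines.2.2.1 _ (by rw [hre]; linarith) (by rw [him]; exact h3.symm)]
        rw [Real.cos_zero, mul_one]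
        exact (Real.exp_pos _).le
      · rcases eq_or_lt_of_le z4 with h4 | h4
        · rw [Complex.exp_re, h.ch.lines.2.2.2.1 _ (by rw [hre]; linarith) (by rw [him]; exact h4)]
          rw [Real.cos_neg, Real.cos_pi_div_two, mul_zero]
        · have h5 : z.re = u - Real.log μ := by
            by_contra hcon
            exact hzn ⟨⟨lt_of_le_of_ne z1 (Ne.symm hcon), h2⟩, ⟨h3, h4⟩⟩
          exact hcl _ (by rw [hre]; linarith) (by rw [him]; exact z3) (by rw [him]; exact z4)
  have hall : ∀ z ∈ closure U, ‖F z‖ ≤ 1 := fun z hz =>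
    Complex.norm_le_of_forall_mem_frontier_norm_le hUb hFd hbd hz
  -- the point
  set z₀ : ℂ := x - Real.log μ with hz₀
  have r0 : z₀.re = x.re - Real.log μ := by simp [hz₀]
  have i0 : z₀.im = x.im := by simp [hz₀]
  have hzU : z₀ ∈ U := by
    refine ⟨⟨?_, ?_⟩, ⟨?_, ?_⟩⟩
    · show u - Real.log μ < z₀.re
      rw [r0]
      linarith
    · show z₀.re < u
      rw [r0]
      linarith
    · show 0 < z₀.im
      rw [i0]
      exact h0
    · show z₀.im < Real.pi / 2
      rw [i0]
      exact h1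
  have eDx : Dh k μ q LD z₀ = exp (LD x) := by
    rw [(h.Dh_eq hzU.1.2 hzU.2.1.le hzU.2.2.le).2.2]
    congr 2
    simp [hz₀]
  by_contra hcon
  push Not at hcon
  have hge : 1 ≤ ‖F z₀‖ := by
    rw [hnorm, eDx]
    exact Real.one_le_exp (by linarith)
  have heq : ‖F z₀‖ = 1 := le_antisymm (hall _ (subset_closure hzU)) hge
  have hmax : IsMaxOn (norm ∘ F) U z₀ := by
    intro z hz
    show ‖F z‖ ≤ ‖F z₀‖
    rw [heq]
    exact hall z (subset_closure hz)
  have hconst := Complex.norm_eqOn_closure_of_isPreconnected_of_isMaxOn hUc hUo hFd hzU hmax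
  set p : ℂ := ((u - Real.log μ / 2 : ℝ) : ℂ) with hp
  have hpr : p.re = u - Real.log μ / 2 := by simp [hp]
  have hpi' : p.im = 0 := by simp [hp]
  have hpU : p ∈ closure U := by
    rw [hUcl]
    refine ⟨⟨?_, ?_⟩, ⟨?_, ?_⟩⟩
    · show u - Real.log μ ≤ p.re
      rw [hpr]; linarith
    · show p.re ≤ u
      rw [hpr]; linarith
    · show 0 ≤ p.im
      rw [hpi']
    · show p.im ≤ Real.pi / 2
      rw [hpi']; linarith
  have h5 : ‖F p‖ = ‖F z₀‖ := hconst hpU
  rw [heq, hnorm, Real.exp_eq_one_iff, neg_eq_zero] at h5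
  rw [(h.Dh_eq (by rw [hpr]; linarith) (by rw [hpi']) (by rw [hpi']; linarith)).2.2,
    Complex.exp_re, h.ch.lines.2.2.1 _ (by
      simp only [add_re, ofReal_re, hpr]; linarith) (by simp [hpi']), Real.cos_zero, mul_one] at h5
  exact (Real.exp_pos _).ne' h5

end EQH
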