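import Pool.Agent.Lib.MP_226de1_co.H.BodyEnd

/-! Pointwise Lipschitz bound for the differences of a line system (from the cone condition on the
unstable curve: the derivative of `X/Y` does not vanish up to `tc`). -/

set_option autoImplicit false

namespace EQH

open Set Filter Topology
open EQK

variable {k μ : ℝ} {dn dp : Bool → ℝ → ℝ}

/-- for `q0 ≥ 0` there are `K`, `δ > 0` with `|dp s q - dp s q0| ≤ K |q - q0|` for `q ≥ 0`,
`|q - q0| < δ`. -/
theorem dp_lip (hL : LineSys k μ dn dp) (s : Bool) {q0 : ℝ} (hq0 : 0 ≤ q0) :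
    ∃ K δ : ℝ, 0 < K ∧ 0 < δ ∧ ∀ q, 0 ≤ q → |q - q0| < δ →
      |dp s q - dp s q0| ≤ K * |q - q0| := by
  have hk1 := hL.hk
  have hμ := hL.hμ
  have hw : 0 < μ - 1 := sub_pos.2 hμ
  obtain ⟨r, P, hR, hT⟩ := tcr_isTc hk1.le hμ
  set tc := tcr k μ with htc
  have hanti := ratio_strictAnti hT
  set ρ : ℝ → ℝ := fun t => (Vr k μ t).1 / (Vr k μ t).2 with hρ
  have hcur : ∀ q, 0 ≤ q → ∃ t, 0 < t ∧ t ≤ tc ∧ Vr k μ t = Vx μ dp s q := fun q hq =>
    hL.onCurve hR hT s hq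
  have hρq : ∀ q t, Vr k μ t = Vx μ dp s q → ρ t = q := by
    intro q t h
    have hp := hL.dp_pos s q
    simp only [hρ]
    rw [h]
    unfold Vx
    simp only
    field_simp
  have hYq : ∀ q t, Vr k μ t = Vx μ dp s q → dp s q = (μ - 1) / (Vr k μ t).2 := by
    intro q t h
    have hp := hL.dp_pos s q
    rw [h]
    unfold Vx
    simp only
    field_simp
  have hd : ∀ t, 0 < t → t ≤ tc → HasDerivAt ρ
      (-(omg (Vr k μ t) (P t)) / (Vr k μ t).2 ^ 2) t := by
    intro t h0 h1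
    have h2 := (hT.der1 t h0 h1).div (hT.der2 t h0 h1) (hT.Ypos t h0 h1).ne'
    refine h2.congr_deriv ?_
    unfold omg
    ring
  obtain ⟨t0, ht0, ht0c, hV0⟩ := hcur q0 hq0
  have hY0 := hT.Ypos t0 ht0 ht0c
  -- derivative of `ρ` at `t0` is negative
  have hd0 := hd t0 ht0 ht0c
  have hd0neg : -(omg (Vr k μ t0) (P t0)) / (Vr k μ t0).2 ^ 2 < 0 := by
    have h1 := (hT.cone t0 ht0 ht0c).2.1
    exact div_neg_of_neg_of_pos (by linarith) (by positivity)
  set c : ℝ := -(-(omg (Vr k μ t0) (P t0)) / (Vr k μ t0).2 ^ 2) with hc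
  have hc0 : 0 < c := by linarith
  -- lower bound for `ρ` near `t0`
  have hlow : ∀ᶠ t in 𝓝 t0, c / 2 * |t - t0| ≤ |ρ t - ρ t0| := by
    have h1 := hd0.isLittleO.def (show (0 : ℝ) < c / 2 by positivity)
    filter_upwards [h1] with t ht
    have e1 : -(omg (Vr k μ t0) (P t0)) / (Vr k μ t0).2 ^ 2 = -c := by rw [hc]; ring
    rw [e1] at ht
    rw [Real.norm_eq_abs, Real.norm_eq_abs, smul_eq_mul] at ht
    have h2 : |(t - t0) * -c| = c * |t - t0| := by
      rw [abs_mul, abs_neg, abs_of_pos hc0, mul_comm]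
    have h3 : |(t - t0) * -c| ≤ |ρ t - ρ t0| + |ρ t - ρ t0 - (t - t0) * -c| := by
      have := abs_sub_abs_le_abs_sub ((t - t0) * -c) (ρ t - ρ t0)
      rw [abs_sub_comm ((t - t0) * -c)] at this
      linarith
    rw [h2] at h3
    linarith
  -- upper bound for `(μ-1)/Y`
  have hup : ∃ B : ℝ, 0 < B ∧ ∀ᶠ t in 𝓝 t0,
      |(μ - 1) / (Vr k μ t).2 - (μ - 1) / (Vr k μ t0).2| ≤ B * |t - t0| := by
    have h1 : HasDerivAt (fun t => (μ - 1) / (Vr k μ t).2)
        ((0 * (Vr k μ t0).2 - (μ - 1) * (P t0).2) / (Vr k μ t0).2 ^ 2) t0 :=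
      (hasDerivAt_const t0 (μ - 1)).div (hT.der2 t0 ht0 ht0c) hY0.ne'
    obtain ⟨B, hB, h2⟩ := h1.isBigO_sub.exists_pos
    refine ⟨B, hB, ?_⟩
    filter_upwards [h2.bound] with t ht
    rwa [Real.norm_eq_abs, Real.norm_eq_abs] at ht
  obtain ⟨B, hB, hupB⟩ := hup
  obtain ⟨η, hη, hηall⟩ := Metric.eventually_nhds_iff.1 (hlow.and hupB)
  -- continuity of the inverse: `|q - q0|` small implies `|t - t0| < η`
  obtain ⟨δ, hδ, hδall⟩ : ∃ δ : ℝ, 0 < δ ∧ ∀ q t, 0 ≤ q → 0 < t → t ≤ tc →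
      Vr k μ t = Vx μ dp s q → |q - q0| < δ → |t - t0| < η := by
    have hρ0 : ρ t0 = q0 := hρq q0 t0 hV0
    -- points left and right
    set tl : ℝ := max (t0 / 2) (t0 - η / 2) with htl
    have hl0 : 0 < tl := lt_max_of_lt_left (by linarith)
    have hl1 : tl < t0 := max_lt (by linarith) (by linarith)
    have hl2 : t0 - η < tl := lt_max_of_lt_right (by linarith)
    have hlρ : ρ t0 < ρ tl := hanti ⟨hl0, by linarith⟩ ⟨ht0, ht0c⟩ hl1
    rcases ht0c.lt_or_eq with hlt | heq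
    · set tr : ℝ := min ((t0 + tc) / 2) (t0 + η / 2) with htr
      have hr1 : t0 < tr := lt_min (by linarith) (by linarith)
      have hr2 : tr < tc := (min_le_left _ _).trans_lt (by linarith)
      have hr3 : tr < t0 + η := (min_le_right _ _).trans_lt (by linarith)
      have hrρ : ρ tr < ρ t0 := hanti ⟨ht0, ht0c⟩ ⟨by linarith, hr2.le⟩ hr1
      refine ⟨min (ρ tl - ρ t0) (ρ t0 - ρ tr), lt_min (by linarith) (by linarith), ?_⟩
      intro q t hq h1 h2 h3 h4
      have h5 : ρ t = q := hρq q t h3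
      have h6 := h4.trans_le (min_le_left _ _)
      have h7 := h4.trans_le (min_le_right _ _)
      rw [← h5, ← hρ0] at h6 h7
      obtain ⟨-, h8⟩ := abs_lt.1 h6
      obtain ⟨h9, -⟩ := abs_lt.1 h7
      have h10 : tl < t := by
        by_contra hcon
        rw [not_lt] at hcon
        have := hanti.antitoneOn ⟨h1, h2⟩ ⟨hl0, by linarith⟩ hcon
        linarith
      have h11 : t < tr := by
        by_contra hcon
        rw [not_lt] at hcon
        have := hanti.antitoneOn ⟨by linarith, hr2.le⟩ ⟨h1, h2⟩ hcon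
        linarith
      rw [abs_lt]
      constructor <;> linarith
    · refine ⟨ρ tl - ρ t0, by linarith, ?_⟩
      intro q t hq h1 h2 h3 h4
      have h5 : ρ t = q := hρq q t h3
      rw [← h5, ← hρ0] at h4
      obtain ⟨-, h8⟩ := abs_lt.1 h4
      have h10 : tl < t := by
        by_contra hcon
        rw [not_lt] at hcon
        have := hanti.antitoneOn ⟨h1, h2⟩ ⟨hl0, by linarith⟩ hcon
        linarith
      rw [abs_lt]
      constructor <;> linarith
  refine ⟨B * (2 / c), δ, by positivity, hδ, ?_⟩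
  intro q hq hqd
  obtain ⟨t, ht, htc', hV⟩ := hcur q hq
  have h1 := hδall q t hq ht htc' hV hqd
  obtain ⟨h2, h3⟩ := hηall (by rwa [Real.dist_eq])
  rw [hYq q t hV, hYq q0 t0 hV0]
  rw [hρq q t hV, hρq q0 t0 hV0] at h2
  have h4 : |t - t0| ≤ 2 / c * |q - q0| := by
    have h5 : c / 2 * |t - t0| ≤ |q - q0| := h2
    calc |t - t0| = 2 / c * (c / 2 * |t - t0|) := by field_simp
      _ ≤ 2 / c * |q - q0| := mul_le_mul_of_nonneg_left h5 (by positivity)
  calc |(μ - 1) / (Vr k μ t).2 - (μ - 1) / (Vr k μ t0).2| ≤ B * |t - t0| := h3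
    _ ≤ B * (2 / c * |q - q0|) := mul_le_mul_of_nonneg_left h4 hB.le
    _ = B * (2 / c) * |q - q0| := by ring

/-- the same for `dn` on the other side: for `q0 ≤ 0`, `|dn s q - dn s q0| ≤ K |q - q0|`. -/
theorem dn_lip (hL : LineSys k μ dn dp) (s : Bool) {q0 : ℝ} (hq0 : q0 ≤ 0) :
    ∃ K δ : ℝ, 0 < K ∧ 0 < δ ∧ ∀ q, q ≤ 0 → |q - q0| < δ →
      |dn s q - dn s q0| ≤ K * |q - q0| := by
  obtain ⟨K, δ, hK, hδ, h⟩ := dp_lip hL.mirror s (q0 := -q0) (by linarith)
  refine ⟨K, δ, hK, hδ, fun q hq hqd => ?_⟩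
  have h1 : |(-q) - (-q0)| = |q - q0| := by
    rw [show -q - -q0 = -(q - q0) by ring, abs_neg]
  have := h (-q) (by linarith) (by rwa [h1])
  simp only [neg_neg] at this
  rwa [h1] at this

end EQH
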