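import Mathlib

/-! Maximum modulus on vertical strips for functions with `‖F (x + T I)‖ = ‖F x‖`. -/

set_option autoImplicit false

namespace EQH

open Complex Filter Topology Set

private theorem Strip_per {F : ℂ → ℂ} {S : ℝ → Prop} {T : ℝ}
    (hper : ∀ x : ℂ, S x.re → ‖F (x + T * I)‖ = ‖F x‖) (n : ℕ) :
    ∀ x : ℂ, S x.re → ‖F (x + n * T * I)‖ = ‖F x‖ := by
  induction n with
  | zero => intro x _; simp
  | succ n ih =>
    intro x hx
    have h1 : x + ((n + 1 : ℕ) : ℂ) * T * I = (x + n * T * I) + T * I := by push_cast; ring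
    rw [h1, hper _ (by simpa using hx), ih x hx]

/-- move into the period cell -/
private theorem Strip_cell {F : ℂ → ℂ} {S : ℝ → Prop} {T : ℝ} (hT : 0 < T)
    (hper : ∀ x : ℂ, S x.re → ‖F (x + T * I)‖ = ‖F x‖) (x : ℂ) (hx : S x.re) :
    ∃ y : ℂ, y.re = x.re ∧ 0 ≤ y.im ∧ y.im ≤ T ∧ ‖F y‖ = ‖F x‖ := by
  have h1 : (⌊x.im / T⌋ : ℝ) * T ≤ x.im := by
    have := Int.floor_le (x.im / T)
    rwa [le_div_iff₀ hT] at this
  have h2 : x.im < ((⌊x.im / T⌋ : ℝ) + 1) * T := by
    have := Int.lt_floor_add_one (x.im / T)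
    rwa [div_lt_iff₀ hT] at this
  refine ⟨x - (⌊x.im / T⌋ : ℤ) * T * I, by simp, by simpa using h1, ?_, ?_⟩
  · have : (x - (⌊x.im / T⌋ : ℤ) * T * I).im = x.im - ⌊x.im / T⌋ * T := by simp
    rw [this]
    nlinarith
  · rcases le_total 0 ⌊x.im / T⌋ with h | h
    · obtain ⟨n, hn⟩ := Int.eq_ofNat_of_zero_le h
      have := Strip_per hper n (x - (⌊x.im / T⌋ : ℤ) * T * I) (by simpa using hx)
      rw [← this, hn]
      congr 2
      push_cast
      ring
    · obtain ⟨n, hn⟩ := Int.eq_ofNat_of_zero_le (neg_nonneg.2 h)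
      have := Strip_per hper n x hx
      rw [← this]
      have h3 : (⌊x.im / T⌋ : ℤ) = -(n : ℤ) := by omega
      rw [h3]
      congr 2
      push_cast
      ring

/-- boundedness of a periodic function on a strip -/
private theorem Strip_bdd {F : ℂ → ℂ} {a c T : ℝ} (hT : 0 < T)
    (hF : ∀ x : ℂ, a ≤ x.re → x.re ≤ c → ContinuousAt F x)
    (hper : ∀ x : ℂ, a ≤ x.re → x.re ≤ c → ‖F (x + T * I)‖ = ‖F x‖) :
    ∃ M : ℝ, ∀ x : ℂ, a ≤ x.re → x.re ≤ c → ‖F x‖ ≤ M := by
  have hK : IsCompact (Icc a c ×ℂ Icc 0 T) := isCompact_Icc.reProdIm isCompact_Icc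
  have hc : ContinuousOn (fun x => ‖F x‖) (Icc a c ×ℂ Icc 0 T) := fun x hx =>
    ((hF x hx.1.1 hx.1.2).norm).continuousWithinAt
  obtain ⟨M, hM⟩ := hK.bddAbove_image hc
  refine ⟨M, fun x h1 h2 => ?_⟩
  obtain ⟨y, hy1, hy2, hy3, hy4⟩ := Strip_cell (S := fun r => a ≤ r ∧ r ≤ c) hT
    (fun x hx => hper x hx.1 hx.2) x ⟨h1, h2⟩
  rw [← hy4]
  refine hM ⟨y, ⟨⟨?_, ?_⟩, ⟨hy2, hy3⟩⟩, rfl⟩
  · rw [hy1]; exact h1
  · rw [hy1]; exact h2

private theorem Strip_closure (a c : ℝ) (hac : a < c) :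
    closure (re ⁻¹' Ioo a c) = re ⁻¹' Icc a c := by
  rw [← closure_Ioo hac.ne, Complex.closure_preimage_re]

private theorem Strip_dcl {F : ℂ → ℂ} {a c : ℝ} (hac : a < c)
    (hF : ∀ x : ℂ, a ≤ x.re → x.re ≤ c → DifferentiableAt ℂ F x) :
    DiffContOnCl ℂ F (re ⁻¹' Ioo a c) := by
  refine ⟨fun x hx => (hF x hx.1.le hx.2.le).differentiableWithinAt, ?_⟩
  rw [Strip_closure a c hac]
  exact fun x hx => (hF x hx.1 hx.2).continuousAt.continuousWithinAt

/-- Maximum modulus on a closed vertical strip. Proof: `‖F‖` is bounded on the strip (compact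
period cell `[a,c] x [0,T]` plus periodicity), then `PhragmenLindelof.vertical_strip`. -/
theorem strip_le {F : ℂ → ℂ} {a c T M : ℝ} (hac : a < c) (hT : 0 < T)
    (hF : ∀ x : ℂ, a ≤ x.re → x.re ≤ c → DifferentiableAt ℂ F x)
    (hper : ∀ x : ℂ, a ≤ x.re → x.re ≤ c → ‖F (x + T * I)‖ = ‖F x‖)
    (hl : ∀ x : ℂ, x.re = a → ‖F x‖ ≤ M) (hr : ∀ x : ℂ, x.re = c → ‖F x‖ ≤ M) :
    ∀ x : ℂ, a ≤ x.re → x.re ≤ c → ‖F x‖ ≤ M := by
  intro x hx1 hx2
  obtain ⟨M0, hM0⟩ := Strip_bdd hT (fun x h1 h2 => (hF x h1 h2).continuousAt) hper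
  refine PhragmenLindelof.vertical_strip (Strip_dcl hac hF) ?_ hl hr hx1 hx2
  refine ⟨0, div_pos Real.pi_pos (sub_pos.2 hac), 0, ?_⟩
  refine Asymptotics.IsBigO.of_bound M0 ?_
  refine Filter.mem_inf_of_right ?_
  intro y hy
  simp only [zero_mul, Real.exp_zero, norm_one, mul_one, Set.mem_ofPred_eq]
  exact hM0 y hy.1.le hy.2.le

private theorem Strip_hasDeriv {F : ℂ → ℂ} {x0 w : ℂ} (hd : DifferentiableAt ℂ F x0) :
    HasDerivAt (fun s : ℝ => ‖F (x0 + s * w)‖ ^ 2)
      (2 * (deriv F x0 * w * (starRingEnd ℂ) (F x0)).re) 0 := by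
  have h0 : HasDerivAt (fun s : ℝ => x0 + s * w) w 0 := by
    have h1 : HasDerivAt (fun s : ℝ => (s : ℂ)) 1 0 := Complex.ofRealCLM.hasDerivAt
    have := (h1.mul_const w).const_add x0
    simpa using this
  have h1 : HasDerivAt (fun s : ℝ => F (x0 + s * w)) (deriv F x0 * w) 0 := by
    have hd' : HasDerivAt F (deriv F x0) (x0 + (0 : ℝ) * w) := by simpa using hd.hasDerivAt
    exact HasDerivAt.comp_of_eq (0 : ℝ) hd' h0 rfl
  have hre : HasDerivAt (fun s : ℝ => (F (x0 + s * w)).re) (deriv F x0 * w).re 0 :=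
    (Complex.reCLM.hasFDerivAt.comp_hasDerivAt (0 : ℝ) h1)
  have him : HasDerivAt (fun s : ℝ => (F (x0 + s * w)).im) (deriv F x0 * w).im 0 :=
    (Complex.imCLM.hasFDerivAt.comp_hasDerivAt (0 : ℝ) h1)
  have h2 := (hre.pow 2).add (him.pow 2)
  have h3 : (fun s : ℝ => ‖F (x0 + s * w)‖ ^ 2) =
      (fun s : ℝ => (F (x0 + s * w)).re ^ 2) + fun s : ℝ => (F (x0 + s * w)).im ^ 2 := by
    funext s
    simp only [Pi.add_apply]
    rw [← Complex.normSq_eq_norm_sq, Complex.normSq_apply]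
    ring
  rw [h3]
  refine h2.congr_deriv ?_
  simp only [ofReal_zero, zero_mul, add_zero, Nat.cast_ofNat, mul_re, conj_re, conj_im]
  ring

private theorem Strip_quot {z w : ℂ} (hw : ‖w‖ = 1) : z / w = z * (starRingEnd ℂ) w := by
  have : (starRingEnd ℂ) w * w = 1 := by
    rw [mul_comm, Complex.mul_conj, Complex.normSq_eq_norm_sq, hw]
    norm_num
  have hw0 : w ≠ 0 := by
    intro h
    rw [h, norm_zero] at hw
    exact zero_ne_one hw
  rw [div_eq_iff hw0, mul_assoc, this, mul_one]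

/-- At a point of the right edge where `‖F‖ = 1` is maximal: `d/ds ‖F (x0 + s)‖^2 ≥ 0` at
`s = 0`, i.e. `Re (F' / F) ≥ 0`. -/
theorem edge_right {F : ℂ → ℂ} {a c : ℝ} (hac : a < c) {x0 : ℂ} (hx0 : x0.re = c)
    (hd : DifferentiableAt ℂ F x0) (hle : ∀ x : ℂ, a ≤ x.re → x.re ≤ c → ‖F x‖ ≤ 1)
    (h1 : ‖F x0‖ = 1) : 0 ≤ (deriv F x0 / F x0).re := by
  have h := Strip_hasDeriv (w := 1) hd
  rw [hasDerivAt_iff_tendsto_slope] at h
  have h2 := h.mono_left (nhdsWithin_mono (0 : ℝ) (show Iio (0 : ℝ) ⊆ {0}ᶜ from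
    fun s hs => ne_of_lt hs))
  have h3 : 0 ≤ 2 * (deriv F x0 * 1 * (starRingEnd ℂ) (F x0)).re := by
    refine ge_of_tendsto h2 ?_
    have h4 : Ioo (a - c) 0 ∈ 𝓝[<] (0 : ℝ) := Ioo_mem_nhdsLT (by linarith)
    filter_upwards [h4] with s hs
    rw [slope_def_field]
    have h5 : ‖F (x0 + s * 1)‖ ^ 2 ≤ 1 := by
      have := hle (x0 + s * 1) (by simp [hx0]; linarith [hs.1]) (by simp [hx0]; linarith [hs.2])
      exact pow_le_one₀ (norm_nonneg _) this
    have h6 : ‖F (x0 + (0 : ℝ) * 1)‖ ^ 2 = 1 := by simp [h1]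
    rw [h6]
    apply div_nonneg_of_nonpos
    · linarith
    · linarith [hs.2]
  rw [Strip_quot h1]
  rw [mul_one] at h3
  linarith

/-- Same at the left edge. -/
theorem edge_left {F : ℂ → ℂ} {a c : ℝ} (hac : a < c) {x0 : ℂ} (hx0 : x0.re = a)
    (hd : DifferentiableAt ℂ F x0) (hle : ∀ x : ℂ, a ≤ x.re → x.re ≤ c → ‖F x‖ ≤ 1)
    (h1 : ‖F x0‖ = 1) : (deriv F x0 / F x0).re ≤ 0 := by
  have h := Strip_hasDeriv (w := 1) hd
  rw [hasDerivAt_iff_tendsto_slope] at h
  have h2 := h.mono_left (nhdsWithin_mono (0 : ℝ) (show Ioi (0 : ℝ) ⊆ {0}ᶜ from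
    fun s hs => ne_of_gt hs))
  have h3 : 2 * (deriv F x0 * 1 * (starRingEnd ℂ) (F x0)).re ≤ 0 := by
    refine le_of_tendsto h2 ?_
    have h4 : Ioo 0 (c - a) ∈ 𝓝[>] (0 : ℝ) := Ioo_mem_nhdsGT (by linarith)
    filter_upwards [h4] with s hs
    rw [slope_def_field]
    have h5 : ‖F (x0 + s * 1)‖ ^ 2 ≤ 1 := by
      have := hle (x0 + s * 1) (by simp [hx0]; linarith [hs.1]) (by simp [hx0]; linarith [hs.2])
      exact pow_le_one₀ (norm_nonneg _) this
    have h6 : ‖F (x0 + (0 : ℝ) * 1)‖ ^ 2 = 1 := by simp [h1]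
    rw [h6]
    apply div_nonpos_of_nonpos_of_nonneg
    · linarith
    · linarith [hs.1]
  rw [Strip_quot h1]
  rw [mul_one] at h3
  linarith

/-- Tangential: `‖F‖ ≤ 1` on the vertical line through `x0` and `‖F x0‖ = 1`. -/
theorem edge_tan {F : ℂ → ℂ} {x0 : ℂ} (hd : DifferentiableAt ℂ F x0) (h1 : ‖F x0‖ = 1)
    (hle : ∀ x : ℂ, x.re = x0.re → ‖F x‖ ≤ 1) : (deriv F x0 / F x0).im = 0 := by
  have h := Strip_hasDeriv (w := I) hd
  have hm : IsLocalMax (fun s : ℝ => ‖F (x0 + s * I)‖ ^ 2) 0 := by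
    refine Eventually.of_forall fun s => ?_
    show ‖F (x0 + s * I)‖ ^ 2 ≤ ‖F (x0 + (0 : ℝ) * I)‖ ^ 2
    have h6 : ‖F (x0 + (0 : ℝ) * I)‖ ^ 2 = 1 := by simp [h1]
    rw [h6]
    exact pow_le_one₀ (norm_nonneg _) (hle _ (by simp))
  have h3 := hm.hasDerivAt_eq_zero h
  rw [Strip_quot h1]
  have h4 : (deriv F x0 * I * (starRingEnd ℂ) (F x0)).re =
      -(deriv F x0 * (starRingEnd ℂ) (F x0)).im := by
    simp only [mul_re, mul_im, I_re, I_im, conj_re, conj_im]
    ring
  rw [h4] at h3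
  linarith

/-- Strict version at the left edge (replaces the Hopf lemma). Proof: by the strong maximum
principle (`Complex.norm_eqOn_of_isPreconnected_of_isMaxOn` or similar on the open strip, and
continuity at the strict point of the right edge) `‖F‖ < 1` on the middle line
`Re x = c' = (a + c) / 2`; by compactness and periodicity `‖F‖ ≤ exp (-η)` there, `η > 0`. Put
`G x = F x * exp (δ (x - a))`, `δ = η / (c' - a)`: `‖G‖ ≤ 1` on both edges of `[a, c']`, so by
`strip_le` on the strip, and `edge_left` for `G` gives `Re (F' / F) + δ ≤ 0`. -/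
theorem edge_left_strict {F : ℂ → ℂ} {a c T : ℝ} (hac : a < c) (hT : 0 < T)
    (hF : ∀ x : ℂ, a ≤ x.re → x.re ≤ c → DifferentiableAt ℂ F x)
    (hper : ∀ x : ℂ, a ≤ x.re → x.re ≤ c → ‖F (x + T * I)‖ = ‖F x‖)
    (hl : ∀ x : ℂ, x.re = a → ‖F x‖ = 1) (hr : ∀ x : ℂ, x.re = c → ‖F x‖ ≤ 1)
    (hs : ∃ x : ℂ, x.re = c ∧ ‖F x‖ < 1) :
    ∀ x : ℂ, x.re = a → (deriv F x / F x).re < 0 := by
  intro x hx
  have hle := strip_le hac hT hF hper (fun x hx => (hl x hx).le) hr
  set b : ℝ := (a + c) / 2 with hb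
  have hab : a < b := by rw [hb]; linarith
  have hbc : b < c := by rw [hb]; linarith
  -- strict on the middle line
  have hmid : ∀ y : ℂ, y.re = b → ‖F y‖ < 1 := by
    intro y hy
    refine lt_of_le_of_ne (hle y (by rw [hy]; exact hab.le) (by rw [hy]; exact hbc.le)) fun h1 => ?_
    obtain ⟨z, hz, hz1⟩ := hs
    have hU : IsOpen (re ⁻¹' Ioo a c) := isOpen_Ioo.preimage continuous_re
    have hconv : Convex ℝ (re ⁻¹' Ioo a c) :=
      (convex_Ioo a c).linear_preimage Complex.reLm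
    have hmax : IsMaxOn (norm ∘ F) (re ⁻¹' Ioo a c) y := by
      intro w hw
      show ‖F w‖ ≤ ‖F y‖
      rw [h1]
      exact hle w hw.1.le hw.2.le
    have := Complex.norm_eqOn_closure_of_isPreconnected_of_isMaxOn hconv.isPreconnected hU
      (Strip_dcl hac hF) (show y ∈ re ⁻¹' Ioo a c from ⟨by rw [hy]; exact hab, by rw [hy]; exact hbc⟩)
      hmax
    have h2 := this (x := z) (by
      rw [Strip_closure a c hac]
      exact ⟨by rw [hz]; exact hac.le, by rw [hz]⟩)
    simp only [Function.comp_apply, Function.const_apply] at h2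
    rw [h2, h1] at hz1
    exact lt_irrefl _ hz1
  -- uniform bound on the middle line
  have hK : IsCompact ({b} ×ℂ Icc 0 T) := isCompact_singleton.reProdIm isCompact_Icc
  have hcK : ContinuousOn (fun x => ‖F x‖) ({b} ×ℂ Icc 0 T) := fun y hy => by
    have h1 : y.re = b := hy.1
    exact ((hF y (by rw [h1]; exact hab.le) (by rw [h1]; exact hbc.le)).continuousAt.norm).continuousWithinAt
  obtain ⟨y0, hy0, hy0m⟩ := hK.exists_isMaxOn ⟨(b : ℂ), by simp [mem_reProdIm, hT.le]⟩ hcK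
  have hq := hmid y0 hy0.1
  set q : ℝ := max ‖F y0‖ (1 / 2) with hqdef
  have hq1 : q < 1 := max_lt hq (by norm_num)
  have hq0 : 0 < q := lt_of_lt_of_le (by norm_num) (le_max_right _ _)
  have hηpos : 0 < -Real.log q := neg_pos.2 (Real.log_neg hq0 hq1)
  have hline : ∀ y : ℂ, y.re = b → ‖F y‖ ≤ q := by
    intro y hy
    obtain ⟨y', hy1, hy2, hy3, hy4⟩ := Strip_cell (S := fun r => a ≤ r ∧ r ≤ c) hT
      (fun x hx => hper x hx.1 hx.2) y ⟨by rw [hy]; exact hab.le, by rw [hy]; exact hbc.le⟩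
    rw [← hy4]
    exact (hy0m (show y' ∈ {b} ×ℂ Icc 0 T from ⟨by
      show y'.re = b
      rw [hy1, hy], hy2, hy3⟩)).trans (le_max_left _ _)
  set δ : ℝ := -Real.log q / (b - a) with hδ
  have hδpos : 0 < δ := div_pos hηpos (sub_pos.2 hab)
  have hexp : ∀ y : ℂ, ‖exp ((δ : ℂ) * (y - a))‖ = Real.exp (δ * (y.re - a)) := by
    intro y
    rw [Complex.norm_exp]
    congr 1
    simp
  have hGl : ∀ y : ℂ, y.re = a → ‖F y * exp ((δ : ℂ) * (y - a))‖ = 1 := by
    intro y hy
    rw [norm_mul, hexp, hl y hy, hy]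
    simp
  have hG := strip_le (F := fun y => F y * exp ((δ : ℂ) * (y - a))) (a := a) (c := b) (T := T)
    (M := 1) hab hT
    (fun y h1 h2 => (hF y h1 (h2.trans hbc.le)).mul (by fun_prop))
    (fun y h1 h2 => by
      rw [norm_mul, norm_mul, hexp, hexp, hper y h1 (h2.trans hbc.le)]
      simp)
    (fun y hy => (hGl y hy).le)
    (fun y hy => by
      rw [norm_mul, hexp, hy]
      have h1 : δ * (b - a) = -Real.log q := by
        rw [hδ]
        field_simp [(sub_pos.2 hab).ne']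
      rw [h1, Real.exp_neg, Real.exp_log hq0]
      have := hline y hy
      rw [← div_eq_mul_inv, div_le_one hq0]
      exact this)
  have hdF : DifferentiableAt ℂ F x := hF x (by rw [hx]) (by rw [hx]; exact hac.le)
  have hdE : HasDerivAt (fun y : ℂ => exp ((δ : ℂ) * (y - a)))
      (exp ((δ : ℂ) * (x - a)) * δ) x := by
    have h1 : HasDerivAt (fun y : ℂ => (δ : ℂ) * (y - a)) δ x := by
      have := ((hasDerivAt_id x).sub_const (a : ℂ)).const_mul (δ : ℂ)
      simpa using this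
    exact h1.cexp
  have h5 := edge_left (F := fun y => F y * exp ((δ : ℂ) * (y - a))) hab hx
    (hdF.mul hdE.differentiableAt) hG (hGl x hx)
  have h6 : deriv (fun y => F y * exp ((δ : ℂ) * (y - a))) x =
      deriv F x * exp ((δ : ℂ) * (x - a)) + F x * (exp ((δ : ℂ) * (x - a)) * δ) :=
    (hdF.hasDerivAt.mul hdE).deriv
  have hF0 : F x ≠ 0 := by
    intro h
    have := hl x hx
    rw [h, norm_zero] at this
    exact zero_ne_one this
  have h7 : deriv (fun y => F y * exp ((δ : ℂ) * (y - a))) x / (F x * exp ((δ : ℂ) * (x - a))) =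
      deriv F x / F x + δ := by
    rw [h6]
    have := exp_ne_zero ((δ : ℂ) * (x - a))
    field_simp
  rw [h7, add_re, ofReal_re] at h5
  linarith

/-- Maximum modulus on the left half plane for a function which is `T`-periodic in modulus and
has a limit at `Re x = -infinity`. Proof: `F` is bounded on `Re x ≤ a` (limit, compactness,
periodicity) and `PhragmenLindelof.right_half_plane_of_bounded_on_real` for
`z ↦ F (a - z)` (which is `O(exp(‖z‖))`, being bounded). -/
theorem half_le {F : ℂ → ℂ} {a T M : ℝ} {L : ℂ} (hT : 0 < T)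
    (hF : ∀ x : ℂ, x.re ≤ a → DifferentiableAt ℂ F x)
    (hper : ∀ x : ℂ, x.re ≤ a → ‖F (x + T * I)‖ = ‖F x‖)
    (hlim : Tendsto F (comap Complex.re atBot) (𝓝 L))
    (hr : ∀ x : ℂ, x.re = a → ‖F x‖ ≤ M) :
    ∀ x : ℂ, x.re ≤ a → ‖F x‖ ≤ M := by
  intro x hx
  -- boundedness
  have h1 : ∀ᶠ y in comap Complex.re atBot, ‖F y‖ < ‖L‖ + 1 :=
    hlim.norm.eventually (gt_mem_nhds (lt_add_one _))
  rw [eventually_comap, eventually_atBot] at h1
  obtain ⟨R, hR⟩ := h1
  obtain ⟨M1, hM1⟩ := Strip_bdd (a := R) (c := a) hT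
    (fun y _ h2 => (hF y h2).continuousAt) (fun y _ h2 => hper y h2)
  have hbd : ∀ y : ℂ, y.re ≤ a → ‖F y‖ ≤ max (‖L‖ + 1) M1 := by
    intro y hy
    rcases le_total y.re R with h | h
    · exact (hR y.re h y rfl).le.trans (le_max_left _ _)
    · exact (hM1 y h hy).trans (le_max_right _ _)
  have hd : DiffContOnCl ℂ (fun z : ℂ => F (a - z)) {z | 0 < z.re} := by
    have hcl : closure {z : ℂ | 0 < z.re} = {z | 0 ≤ z.re} := by
      have := Complex.closure_preimage_re (Ioi (0 : ℝ))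
      rw [closure_Ioi] at this
      exact this
    refine ⟨fun z hz => ?_, ?_⟩
    · have h2 : (a - z : ℂ).re ≤ a := by
        have : 0 < z.re := hz
        simp
        linarith
      exact ((hF _ h2).comp z (by fun_prop)).differentiableWithinAt
    · rw [hcl]
      intro z hz
      have h2 : (a - z : ℂ).re ≤ a := by
        have : 0 ≤ z.re := hz
        simp
        linarith
      exact ((hF _ h2).comp z (by fun_prop)).continuousAt.continuousWithinAt
  have key := PhragmenLindelof.right_half_plane_of_bounded_on_real (C := M)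
    (z := (a : ℂ) - x) hd ?_ ?_ ?_ (by simpa using hx)
  · have h2 : (a : ℂ) - (a - x) = x := by ring
    simpa only [h2] using key
  · refine ⟨1, by norm_num, 0, Asymptotics.IsBigO.of_bound (max (‖L‖ + 1) M1) ?_⟩
    refine Filter.mem_inf_of_right ?_
    intro z hz
    have h2 : (a - z : ℂ).re ≤ a := by
      have : 0 < z.re := hz
      simp
      linarith
    simp only [zero_mul, Real.exp_zero, norm_one, mul_one, Set.mem_ofPred_eq]
    exact hbd _ h2
  · refine ⟨max (‖L‖ + 1) M1, ?_⟩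
    rw [eventually_map]
    filter_upwards [eventually_ge_atTop (0 : ℝ)] with t ht
    exact hbd _ (by simpa using ht)
  · intro t
    exact hr _ (by simp)

/-- The sweep: an open set which contains a left half plane, is invariant under `x ↦ x + T I`
and `x ↦ x - T I` and contains with every open half plane `Re x < β`, `β < B`, also its edge,
contains `Re x < B`. Proof: supremum of the good `β`; compactness of `[0, T]`. -/
theorem sweep {G : Set ℂ} {B T β0 : ℝ} (hT : 0 < T) (hG : IsOpen G)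
    (hp : ∀ x : ℂ, x ∈ G ↔ x + T * I ∈ G)
    (h0 : ∀ x : ℂ, x.re < β0 → x ∈ G)
    (hstep : ∀ β : ℝ, β < B → (∀ x : ℂ, x.re < β → x ∈ G) → ∀ x : ℂ, x.re = β → x ∈ G) :
    ∀ x : ℂ, x.re < B → x ∈ G := by
  intro x1 hx1
  by_contra hcon
  set S : Set ℝ := {β | ∀ x : ℂ, x.re < β → x ∈ G} with hS
  have hne : S.Nonempty := ⟨β0, h0⟩
  have hbd : ∀ β ∈ S, β ≤ x1.re := by
    intro β hβ
    by_contra h
    exact hcon (hβ x1 (not_le.1 h))
  have hBA : BddAbove S := ⟨x1.re, hbd⟩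
  set b := sSup S with hb
  have hbS : ∀ x : ℂ, x.re < b → x ∈ G := by
    intro x hx
    obtain ⟨β, hβ, hlt⟩ := exists_lt_of_lt_csSup hne hx
    exact hβ x hlt
  have hbB : b < B := lt_of_le_of_lt (csSup_le hne hbd) hx1
  have hedge := hstep b hbB hbS
  have hK : IsCompact ({b} ×ℂ Icc 0 T) := isCompact_singleton.reProdIm isCompact_Icc
  have hKG : {b} ×ℂ Icc 0 T ⊆ G := fun y hy => hedge y hy.1
  obtain ⟨ε, hε, hsub⟩ := hK.exists_thickening_subset_open hG hKG
  have hper : ∀ (n : ℕ) (x : ℂ), x ∈ G ↔ x + n * T * I ∈ G := by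
    intro n
    induction n with
    | zero => intro x; simp
    | succ n ih =>
      intro x
      rw [ih x, hp]
      have : x + ((n + 1 : ℕ) : ℂ) * T * I = (x + n * T * I) + T * I := by push_cast; ring
      rw [this]
  have hgood : b + ε ∈ S := by
    intro x hx
    rcases lt_or_ge x.re b with h | h
    · exact hbS x h
    · have h1 : (⌊x.im / T⌋ : ℝ) * T ≤ x.im := by
        have := Int.floor_le (x.im / T)
        rwa [le_div_iff₀ hT] at this
      have h2 : x.im < ((⌊x.im / T⌋ : ℝ) + 1) * T := by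
        have := Int.lt_floor_add_one (x.im / T)
        rwa [div_lt_iff₀ hT] at this
      have hy : x - (⌊x.im / T⌋ : ℤ) * T * I ∈ G := by
        apply hsub
        rw [Metric.mem_thickening_iff]
        refine ⟨⟨b, x.im - ⌊x.im / T⌋ * T⟩, ⟨rfl, ?_, ?_⟩, ?_⟩
        · show 0 ≤ x.im - ⌊x.im / T⌋ * T
          linarith
        · show x.im - ⌊x.im / T⌋ * T ≤ T
          linarith
        · rw [Complex.dist_of_im_eq (by simp)]
          simp only [sub_re, mul_re, intCast_re, ofReal_re, intCast_im, ofReal_im, mul_zero,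
            sub_zero, I_re, mul_im, zero_mul, add_zero, I_im, mul_one, sub_self]
          rw [Real.dist_eq, abs_of_nonneg (by linarith)]
          linarith
      rcases le_total 0 ⌊x.im / T⌋ with h3 | h3
      · obtain ⟨n, hn⟩ := Int.eq_ofNat_of_zero_le h3
        have := (hper n _).1 hy
        rw [hn] at this
        have h4 : x - ((n : ℤ) : ℂ) * T * I + n * T * I = x := by push_cast; ring
        have h5 : (Int.ofNat n : ℤ) = (n : ℤ) := rfl
        simp only [h4] at this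
        exact this
      · obtain ⟨n, hn⟩ := Int.eq_ofNat_of_zero_le (neg_nonneg.2 h3)
        have h4 : (⌊x.im / T⌋ : ℤ) = -(n : ℤ) := by omega
        rw [h4] at hy
        rw [hper n x]
        have h5 : x - ((-(n : ℤ) : ℤ) : ℂ) * T * I = x + n * T * I := by push_cast; ring
        rw [h5] at hy
        exact hy
  have := le_csSup hBA hgood
  linarith

end EQH
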