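import Pool.Agent.Lib.MP_226de1_co.H.Basic
import Pool.Agent.Lib.MP_226de1_co.H.Strip

/-! The start of the sweep at `Re x = -infinity`. -/

set_option autoImplicit false

namespace EQH

open Complex Filter Topology Set

variable {k μ b : ℝ} {q LX LD : ℂ → ℂ}

/-- an eventual property at `Re x = -infinity` holds on a left half plane -/
private theorem ev_bot {P : ℂ → Prop} (b : ℝ) (h : ∀ᶠ x in comap Complex.re atBot, P x) :
    ∃ β0 : ℝ, β0 ≤ b ∧ ∀ x : ℂ, x.re < β0 → P x := by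
  rw [eventually_comap, eventually_atBot] at h
  obtain ⟨a, ha⟩ := h
  refine ⟨min a b, min_le_right _ _, fun x hx => ?_⟩
  exact ha x.re (le_trans hx.le (min_le_left _ _)) x rfl

/-- translation preserves the filter at `Re x = -infinity` -/
private theorem tendsto_shift (c : ℝ) :
    Tendsto (fun x : ℂ => x - (c : ℂ)) (comap Complex.re atBot) (comap Complex.re atBot) := by
  rw [tendsto_comap_iff]
  have h1 : (Complex.re ∘ fun x : ℂ => x - (c : ℂ)) = fun x : ℂ => x.re - c := by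
    funext x
    simp
  rw [h1]
  have h2 : Tendsto (fun y : ℝ => y - c) atBot atBot := tendsto_atBot_add_const_right _ (-c)
    tendsto_id
  exact h2.comp tendsto_comap

/-- `q e^x -> -1`, so `‖q x - w‖ ~ e^{-a} < μ e^{-a} ~ ‖q (x - log μ) - w‖`. -/
theorem Ch.start_su (h : Ch k μ b q LX LD) : ∃ β0 : ℝ, β0 ≤ b ∧ ∀ w : ℂ, w ^ 2 = -1 →
    ∀ x : ℂ, x.re < β0 → ‖q x - w‖ < ‖q (x - Real.log μ) - w‖ := by
  have hμ := h.hμ
  have hμ0 : (0 : ℝ) < μ := by linarith
  have hμ1 : 0 < μ - 1 := by linarith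
  set ε : ℝ := (μ - 1) / (2 * (μ + 1)) with hε
  have hε0 : 0 < ε := by positivity
  have hε1 : (1 - ε) * μ - (1 + ε) = (μ - 1) / 2 := by
    rw [hε]
    field_simp
    ring
  have e1 : ∀ᶠ x in comap Complex.re atBot, ‖q x * exp x + 1‖ < ε := by
    have := h.lq (Metric.ball_mem_nhds (-1 : ℂ) hε0)
    filter_upwards [this] with x hx
    have : dist (q x * exp x) (-1) < ε := hx
    rw [dist_eq_norm] at this
    simpa using this
  have e2 : ∀ᶠ x in comap Complex.re atBot,
      ‖q (x - Real.log μ) * exp (x - Real.log μ) + 1‖ < ε :=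
    (tendsto_shift (Real.log μ)).eventually e1
  have e3 : ∀ᶠ x in comap Complex.re atBot, 4 / (μ - 1) < Real.exp (-x.re) := by
    have h1 : Tendsto (fun y : ℝ => Real.exp (-y)) atBot atTop :=
      Real.tendsto_exp_atTop.comp tendsto_neg_atBot_atTop
    exact (h1.comp tendsto_comap).eventually (eventually_gt_atTop _)
  obtain ⟨β0, hb, hβ⟩ := ev_bot b (e1.and (e2.and e3))
  refine ⟨β0, hb, fun w hw x hx => ?_⟩
  obtain ⟨h1, h2, h3⟩ := hβ x hx
  have hw1 : ‖w‖ = 1 := by
    have h4 : ‖w‖ ^ 2 = 1 := by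
      rw [← norm_pow, hw, norm_neg, norm_one]
    have h5 : 0 ≤ ‖w‖ := norm_nonneg w
    nlinarith
  set E : ℝ := Real.exp (-x.re) with hE
  have hE0 : 0 < E := Real.exp_pos _
  have hx1 : ‖exp x‖ = E⁻¹ := by
    rw [Complex.norm_exp, hE, Real.exp_neg, inv_inv]
  have hx2 : ‖exp (x - Real.log μ)‖ = (μ * E)⁻¹ := by
    rw [Complex.norm_exp, hE, Real.exp_neg]
    have : (x - (Real.log μ : ℂ)).re = x.re - Real.log μ := by simp
    rw [this, Real.exp_sub, Real.exp_log hμ0]
    field_simp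
  -- upper bound for `q x`
  have u1 : ‖q x‖ < (1 + ε) * E := by
    have h4 : ‖q x * exp x‖ < 1 + ε := by
      calc ‖q x * exp x‖ = ‖(q x * exp x + 1) - 1‖ := by ring_nf
        _ ≤ ‖q x * exp x + 1‖ + ‖(1 : ℂ)‖ := norm_sub_le _ _
        _ < ε + 1 := by rw [norm_one]; linarith
        _ = 1 + ε := by ring
    rw [norm_mul, hx1] at h4
    have := (mul_inv_lt_iff₀ hE0).1 h4
    exact this
  -- lower bound for `q (x - log μ)`
  have u2 : (1 - ε) * (μ * E) < ‖q (x - Real.log μ)‖ := by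
    have h4 : 1 - ε < ‖q (x - Real.log μ) * exp (x - Real.log μ)‖ := by
      have h5 : ‖(1 : ℂ)‖ ≤ ‖q (x - Real.log μ) * exp (x - Real.log μ) + 1‖ +
          ‖q (x - Real.log μ) * exp (x - Real.log μ)‖ := by
        calc ‖(1 : ℂ)‖ = ‖(q (x - Real.log μ) * exp (x - Real.log μ) + 1) -
            q (x - Real.log μ) * exp (x - Real.log μ)‖ := by ring_nf
          _ ≤ _ := norm_sub_le _ _
      rw [norm_one] at h5
      linarith
    rw [norm_mul, hx2] at h4
    have := (lt_mul_inv_iff₀ (by positivity : (0 : ℝ) < μ * E)).1 h4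
    exact this
  have hfin : (1 + ε) * E + 1 < (1 - ε) * (μ * E) - 1 := by
    have h6 : 4 < E * (μ - 1) := by
      have := (div_lt_iff₀ hμ1).1 h3
      linarith
    have h7 : (1 - ε) * (μ * E) - (1 + ε) * E = E * ((1 - ε) * μ - (1 + ε)) := by ring
    rw [hε1] at h7
    linarith
  calc ‖q x - w‖ ≤ ‖q x‖ + ‖w‖ := norm_sub_le _ _
    _ < (1 + ε) * E + 1 := by rw [hw1]; linarith
    _ < (1 - ε) * (μ * E) - 1 := hfin
    _ < ‖q (x - Real.log μ)‖ - ‖w‖ := by rw [hw1]; linarith
    _ ≤ ‖q (x - Real.log μ) - w‖ := norm_sub_norm_le _ _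

/-- `LD + x -> const`, hence `LD' -> -1` by the Cauchy estimate on discs of radius 1. -/
theorem Ch.start_mp (h : Ch k μ b q LX LD) : ∃ β0 : ℝ, β0 ≤ b ∧
    ∀ x : ℂ, x.re < β0 → (deriv LD x).re < 0 := by
  have hl := el_pos h.hμ
  have e1 : ∀ᶠ x in comap Complex.re atBot, ‖LD x + x - (Real.log (μ - 1) : ℂ)‖ < 1 / 2 := by
    have := h.lD (Metric.ball_mem_nhds (Real.log (μ - 1) : ℂ) (by norm_num : (0 : ℝ) < 1 / 2))
    filter_upwards [this] with x hx
    have : dist (LD x + x) (Real.log (μ - 1) : ℂ) < 1 / 2 := hx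
    rwa [dist_eq_norm] at this
  obtain ⟨β0, hb, hβ⟩ := ev_bot b e1
  refine ⟨β0 - 2, by linarith, fun x hx => ?_⟩
  set G : ℂ → ℂ := fun y => LD y + y - (Real.log (μ - 1) : ℂ) with hG
  have hre : ∀ y ∈ Metric.closedBall x 1, y.re < β0 := by
    intro y hy
    rw [Metric.mem_closedBall, dist_eq_norm] at hy
    have h1 := (Complex.abs_re_le_norm (y - x)).trans hy
    rw [Complex.sub_re, abs_le] at h1
    linarith [h1.2]
  have hd : ∀ y ∈ Metric.closedBall x 1, DifferentiableAt ℂ G y := by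
    intro y hy
    have h1 : y.re < b + Real.log μ := by
      have := hre y hy
      linarith
    exact ((h.dD' h1).add differentiableAt_id).sub_const _
  have hdc : DiffContOnCl ℂ G (Metric.ball x 1) := by
    refine DifferentiableOn.diffContOnCl ?_
    rw [closure_ball x (by norm_num : (1 : ℝ) ≠ 0)]
    exact fun y hy => (hd y hy).differentiableWithinAt
  have hC : ∀ z ∈ Metric.sphere x 1, ‖G z‖ ≤ 1 / 2 := fun z hz =>
    (hβ z (hre z (Metric.sphere_subset_closedBall hz))).le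
  have h2 := Complex.norm_deriv_le_of_forall_mem_sphere_norm_le (by norm_num : (0 : ℝ) < 1) hdc hC
  have h3 : deriv G x = deriv LD x + 1 := by
    have h4 : x.re < b + Real.log μ := by linarith
    have h5 : HasDerivAt G (deriv LD x + 1) x :=
      (((h.dD' h4).hasDerivAt).add (hasDerivAt_id x)).sub_const _
    exact h5.deriv
  rw [h3] at h2
  have h6 := (Complex.abs_re_le_norm (deriv LD x + 1)).trans h2
  rw [Complex.add_re, Complex.one_re, abs_le] at h6
  linarith [h6.2]

/-- `f -> 1 / (1 + μ ^ k) < 1 / 2`. -/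
theorem Ch.start_f (h : Ch k μ b q LX LD) : ∃ β0 : ℝ, β0 ≤ b ∧
    ∀ x : ℂ, x.re < β0 → (ff k μ LX LD x).re < 1 / 2 := by
  apply ev_bot b
  have h1 : Tendsto (fun x => (ff k μ LX LD x).re) (comap Complex.re atBot)
      (𝓝 (1 / (1 + μ ^ k))) := by
    have := (Complex.continuous_re.tendsto _).comp h.flim
    rw [Complex.ofReal_re] at this
    exact this
  have h2 : 1 < μ ^ k := Real.one_lt_rpow h.hμ h.hk
  have h3 : 1 / (1 + μ ^ k) < 1 / 2 := by
    apply one_div_lt_one_div_of_lt (by norm_num)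
    linarith
  exact h1.eventually (eventually_lt_nhds h3)

/-- `Re f` is not constantly `1/2` on a vertical line. Proof: otherwise `half_le` for
`exp (-f)` (which is `pi`-periodic with a limit at `-infinity`) gives `Re f ≥ 1/2` on
`Re x ≤ a`, which contradicts `f -> 1 / (1 + μ^k) < 1/2`. -/
theorem Ch.f_lt_some (h : Ch k μ b q LX LD) {a : ℝ} (ha : a < b)
    (hf : ∀ x : ℂ, x.re = a → (ff k μ LX LD x).re ≤ 1 / 2) :
    ∃ x : ℂ, x.re = a ∧ (ff k μ LX LD x).re < 1 / 2 := by
  by_contra hcon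
  push Not at hcon
  have hle : ∀ x : ℂ, x.re ≤ a → ‖exp (-ff k μ LX LD x)‖ ≤ Real.exp (-(1 / 2)) := by
    refine half_le (F := fun x => exp (-ff k μ LX LD x)) (T := Real.pi)
      (L := exp (-((1 / (1 + μ ^ k) : ℝ) : ℂ))) Real.pi_pos ?_ ?_ ?_ ?_
    · intro x hx
      exact ((h.df (lt_of_le_of_lt hx ha)).neg).cexp
    · intro x hx
      rw [h.fpi (lt_of_le_of_lt hx ha)]
    · exact (Complex.continuous_exp.tendsto _).comp (h.flim.neg)
    · intro x hx
      rw [Complex.norm_exp, Complex.neg_re, Real.exp_le_exp]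
      linarith [hcon x hx]
  obtain ⟨β0, hb, hβ⟩ := h.start_f
  set c : ℝ := min a (β0 - 1) with hc
  have hca : c ≤ a := min_le_left _ _
  have hcb : c < β0 := lt_of_le_of_lt (min_le_right _ _) (by linarith)
  have h1 := hle (c : ℂ) (by rw [Complex.ofReal_re]; exact hca)
  have h2 := hβ (c : ℂ) (by rw [Complex.ofReal_re]; exact hcb)
  rw [Complex.norm_exp, Complex.neg_re, Real.exp_le_exp] at h1
  linarith

end EQH
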