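import Pool.Agent.Lib.MP_226de1_co.H.Start
import Pool.Agent.Lib.MP_226de1_co.H.Refl

/-! The four steps of the loop. -/

set_option autoImplicit false

namespace EQH

open Complex Filter Topology Set

variable {k μ b : ℝ} {q LX LD : ℂ → ℂ}

private theorem re_pi (x : ℂ) : (x + Real.pi * I).re = x.re := by simp

private theorem per2 (h : Ch k μ b q LX LD) {x : ℂ} (hx : x.re < b + Real.log μ) :
    q (x + (2 * Real.pi : ℝ) * I) = q x := by
  have e : x + ((2 * Real.pi : ℝ) : ℂ) * I = (x + Real.pi * I) + Real.pi * I := by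
    push_cast; ring
  rw [e, h.qpi _ (by rw [re_pi]; exact hx), h.qpi _ hx, neg_neg]

private theorem dsub {w : ℂ} {x : ℂ} : deriv (fun y => q y - w) x = deriv q x := by
  rw [deriv_sub_const]

/-- (1) `refl_strict` for `U = q - w`, `h = log μ`, period `T = 2 pi` (`q (x + pi I) = - q x`
twice). -/
theorem Ch.step_ru (h : Ch k μ b q LX LD) {w : ℂ} (hw : w ^ 2 = -1) {c : ℝ} (hc : c < b)
    (hS : ∀ x : ℂ, x.re = c + Real.log μ / 2 → ‖q x - w‖ < ‖q (x - Real.log μ) - w‖) :
    ∀ x : ℂ, x.re = c → (deriv q x / (q x - w)).re < 0 := by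
  intro x hx
  have hl := el_pos h.hμ
  have := refl_strict (U := fun y => q y - w) (c := c) (h := Real.log μ) (T := 2 * Real.pi) hl
    (by positivity) (fun y _ h2 => (h.dq' (by linarith)).sub_const w)
    (fun y _ h2 => by
      show ‖q (y + ((2 * Real.pi : ℝ) : ℂ) * I) - w‖ = ‖q y - w‖
      rw [per2 h (by linarith)])
    (fun y _ h2 => h.q_ne hw (by linarith)) (fun y hy => (hS y hy).le)
    ⟨⟨c + Real.log μ / 2, 0⟩, rfl, hS _ rfl⟩ x hx
  rw [dsub] at this
  exact this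

private theorem dU (h : Ch k μ b q LX LD) {x : ℂ} (hx : x.re < b + Real.log μ) :
    DifferentiableAt ℂ (fun y => exp ((k : ℂ) * LD y)) x :=
  ((h.dD' hx).const_mul _).cexp

private theorem derU (h : Ch k μ b q LX LD) {x : ℂ} (hx : x.re < b + Real.log μ) :
    deriv (fun y => exp ((k : ℂ) * LD y)) x / exp ((k : ℂ) * LD x) = k * deriv LD x := by
  have h1 : HasDerivAt (fun y => exp ((k : ℂ) * LD y))
      (exp ((k : ℂ) * LD x) * (k * deriv LD x)) x :=
    ((h.dD' hx).hasDerivAt.const_mul (k : ℂ)).cexp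
  rw [h1.deriv, mul_div_cancel_left₀ _ (exp_ne_zero _)]

private theorem perU (h : Ch k μ b q LX LD) {x : ℂ} (hx : x.re < b + Real.log μ) :
    ‖exp ((k : ℂ) * LD (x + Real.pi * I))‖ = ‖exp ((k : ℂ) * LD x)‖ := by
  rw [h.Dpi x hx, Complex.norm_exp, Complex.norm_exp]
  simp [mul_re]

private theorem nU (x : ℂ) : ‖exp ((k : ℂ) * LD x)‖ = ‖exp (-(k : ℂ) * LD x)‖⁻¹ := by
  rw [← norm_inv, ← Complex.exp_neg]
  congr 2
  ring

/-- comparison of `U = exp (k LD)` at `x` and `x - log μ` -/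
private theorem Ule (h : Ch k μ b q LX LD) {x : ℂ} (hx : (x - Real.log μ).re < b) :
    ‖exp ((k : ℂ) * LD x)‖ ≤ ‖exp ((k : ℂ) * LD (x - Real.log μ))‖ ↔
      (ff k μ LX LD (x - Real.log μ)).re ≤ 1 / 2 := by
  rw [← h.f_le_iff hx, nU, nU, sub_add_cancel]
  have h1 : 0 < ‖exp (-(k : ℂ) * LD x)‖ := by simp
  have h2 : 0 < ‖exp (-(k : ℂ) * LD (x - Real.log μ))‖ := by simp
  exact inv_le_inv₀ h1 h2

private theorem Ult (h : Ch k μ b q LX LD) {x : ℂ} (hx : (x - Real.log μ).re < b) :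
    ‖exp ((k : ℂ) * LD x)‖ < ‖exp ((k : ℂ) * LD (x - Real.log μ))‖ ↔
      (ff k μ LX LD (x - Real.log μ)).re < 1 / 2 := by
  rw [← h.f_lt_iff hx, nU, nU, sub_add_cancel]
  have h1 : 0 < ‖exp (-(k : ℂ) * LD x)‖ := by simp
  have h2 : 0 < ‖exp (-(k : ℂ) * LD (x - Real.log μ))‖ := by simp
  exact inv_lt_inv₀ h1 h2

/-- (2) `Re f` cannot reach `1/2`. Suppose `Re f x0 = 1/2`, `Re x0 = a`. `refl_contact` for
`U = exp (k LD)` (so `‖U‖ = 1/‖P‖`), `c = a + log μ / 2`, at `x0 + log μ` (`‖U x‖ ≤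
‖U (x - log μ)‖` there by `Ch.f_le_iff`) gives `Re LD'(x0 + log μ) + Re LD'(x0) ≥ 0` and
`Im LD'(x0 + log μ) = Im LD'(x0)`. By `Ch.derivF`, `Re f = 1/2`:
`Re LX' = (Re LD'_0 + Re LD'_1) / 2 ≥ 0`, contradiction. -/
theorem Ch.step_q (h : Ch k μ b q LX LD) {a : ℝ} (ha : a < b)
    (hR : ∀ x : ℂ, x.re = a → (deriv LX x).re < 0)
    (hf : ∀ x : ℂ, x.re = a → (ff k μ LX LD x).re ≤ 1 / 2) :
    ∀ x : ℂ, x.re = a → (ff k μ LX LD x).re < 1 / 2 := by
  intro x0 hx0
  have hl := el_pos h.hμ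
  have hk := h.hk
  by_contra hcon
  have he : (ff k μ LX LD x0).re = 1 / 2 := le_antisymm (hf x0 hx0) (not_lt.mp hcon)
  have hb0 : x0.re < b := by linarith
  have hb1 : x0.re < b + Real.log μ := by linarith
  have hre : (x0 + (Real.log μ : ℂ)).re = x0.re + Real.log μ := by simp
  have hb2 : (x0 + (Real.log μ : ℂ)).re < b + Real.log μ := by rw [hre]; linarith
  have hsub : x0 + (Real.log μ : ℂ) - (Real.log μ : ℂ) = x0 := by ring
  have hresub : ∀ x : ℂ, (x - (Real.log μ : ℂ)).re = x.re - Real.log μ := by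
    intro x; simp
  have key := refl_contact (U := fun y => exp ((k : ℂ) * LD y)) (c := a + Real.log μ / 2)
    (h := Real.log μ) (T := Real.pi) hl Real.pi_pos
    (fun y _ h2 => dU h (by linarith))
    (fun y _ h2 => by
      rcases lt_or_ge y.re (b + Real.log μ) with h3 | h3
      · exact perU h h3
      · linarith)
    (fun y _ _ => exp_ne_zero _)
    (fun y hy => (Ule h (by rw [hresub]; linarith)).2 (hf _ (by rw [hresub]; linarith)))
    (x0 := x0 + (Real.log μ : ℂ)) (by rw [hre]; linarith)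
    (by
      apply le_antisymm
      · exact (Ule h (by rw [hsub]; exact hb0)).2 (by rw [hsub]; exact he.le)
      · by_contra hlt
        have := (Ult h (x := x0 + (Real.log μ : ℂ)) (by rw [hsub]; exact hb0)).1
          (not_le.mp hlt)
        rw [hsub] at this
        linarith)
  rw [hsub] at key
  simp only [derU h hb1, derU h hb2] at key
  obtain ⟨k1, k2⟩ := key
  simp only [re_ofReal_mul, im_ofReal_mul] at k1 k2
  have k3 : 0 ≤ (deriv LD (x0 + Real.log μ)).re + (deriv LD x0).re := by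
    have : 0 ≤ k * ((deriv LD (x0 + Real.log μ)).re + (deriv LD x0).re) := by
      rw [mul_add]; exact k1
    exact nonneg_of_mul_nonneg_right this hk
  have k4 : (deriv LD (x0 + Real.log μ)).im = (deriv LD x0).im :=
    mul_left_cancel₀ hk.ne' k2
  have hF := h.derivF hb0
  have hre2 := congrArg Complex.re hF
  simp only [add_re, mul_re, sub_re, one_re, sub_im, one_im, zero_sub, he, k4] at hre2
  have := hR x0 hx0
  nlinarith

/-- (3) `refl_strict` for `U = exp (k LD)`; the strict point from `Ch.f_lt_some`. -/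
theorem Ch.step_m (h : Ch k μ b q LX LD) {c : ℝ} (hc : c < b + Real.log μ / 2)
    (hf : ∀ x : ℂ, x.re = c - Real.log μ / 2 → (ff k μ LX LD x).re ≤ 1 / 2) :
    ∀ x : ℂ, x.re = c → (deriv LD x).re < 0 := by
  intro x hx
  have hl := el_pos h.hμ
  have hk := h.hk
  have hresub : ∀ x : ℂ, (x - (Real.log μ : ℂ)).re = x.re - Real.log μ := by
    intro x; simp
  obtain ⟨x1, hx1, hx1f⟩ := h.f_lt_some (a := c - Real.log μ / 2) (by linarith) hf
  have hsub : x1 + (Real.log μ : ℂ) - (Real.log μ : ℂ) = x1 := by ring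
  have hre : (x1 + (Real.log μ : ℂ)).re = x1.re + Real.log μ := by simp
  have key := refl_strict (U := fun y => exp ((k : ℂ) * LD y)) (c := c) (h := Real.log μ)
    (T := Real.pi) hl Real.pi_pos
    (fun y _ h2 => dU h (by linarith))
    (fun y _ h2 => perU h (by linarith))
    (fun y _ _ => exp_ne_zero _)
    (fun y hy => (Ule h (by rw [hresub]; linarith)).2 (hf _ (by rw [hresub]; linarith)))
    ⟨x1 + (Real.log μ : ℂ), by rw [hre]; linarith,
      (Ult h (by rw [hsub]; linarith)).2 (by rw [hsub]; exact hx1f)⟩ x hx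
  simp only [derU h (x := x) (by linarith)] at key
  rw [re_ofReal_mul] at key
  by_contra hcon
  have := mul_nonneg hk.le (not_lt.mp hcon)
  linarith

/-- the algebra of step 4 -/
private theorem alg4 {U0 U1 t0 t1 m : ℂ} (hU : U0 - U1 ≠ 0) (hn : ‖U0‖ = ‖U1‖)
    (him : t0.im = t1.im) (hd : U0 * t0 - U1 * t1 = (U0 - U1) * m) :
    2 * m.re = t0.re + t1.re := by
  -- `m - (t0 + t1)/2 = (r/2) (U0 + U1)/(U0 - U1)`, `r = t0 - t1` real
  have h1 : (2 * m - (t0 + t1)) * (U0 - U1) = (t0 - t1) * (U0 + U1) := by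
    linear_combination (-2 : ℂ) * hd
  have h2 : t0 - t1 = ((t0.re - t1.re : ℝ) : ℂ) := by
    apply Complex.ext
    · simp
    · simp [him]
  have h3 : ((U0 + U1) * (starRingEnd ℂ) (U0 - U1)).re = 0 := by
    have h4 : U0.re ^ 2 + U0.im ^ 2 = U1.re ^ 2 + U1.im ^ 2 := by
      have := congrArg (fun z : ℝ => z ^ 2) hn
      simp only [Complex.sq_norm, Complex.normSq_apply] at this
      linarith
    simp only [mul_re, add_re, add_im, conj_re, conj_im, sub_re, sub_im]
    linarith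
  have h5 : (2 * m - (t0 + t1)) * ((U0 - U1) * (starRingEnd ℂ) (U0 - U1)) =
      (t0 - t1) * ((U0 + U1) * (starRingEnd ℂ) (U0 - U1)) := by
    rw [← mul_assoc, h1, mul_assoc]
  rw [Complex.mul_conj, h2] at h5
  have h6 := congrArg Complex.re h5
  rw [mul_comm, re_ofReal_mul, re_ofReal_mul, h3, mul_zero] at h6
  have h7 : Complex.normSq (U0 - U1) ≠ 0 := by
    rw [Ne, Complex.normSq_eq_zero]; exact hU
  have h8 : (2 * m - (t0 + t1)).re = 0 := by
    rcases mul_eq_zero.mp h6 with h | h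
    · exact absurd h h7
    · exact h
  simp only [sub_re, add_re, mul_re, re_ofNat, im_ofNat, zero_mul, sub_zero] at h8
  linarith

/-- (4) (S_U) stays strict. At an equality point `x0`: `refl_contact` for `U = q - w`,
`c = β - log μ / 2`: with `t_0 = q'(x0)/(q x0 - w)`, `t_1 = q'(x0 - log μ)/(q (x0 - log μ) - w)`:
`Re t_0 + Re t_1 ≥ 0`, `t_0 - t_1` real, `|U_0| = |U_1|`, `LD' = (U_0 t_0 - U_1 t_1)/(U_0 - U_1)`
(`Ch.derivD`), and `Re (U_0/(U_0 - U_1)) = 1/2`, so `2 Re LD' = Re t_0 + Re t_1 ≥ 0`: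
contradiction. -/
theorem Ch.step_su (h : Ch k μ b q LX LD) {w : ℂ} (hw : w ^ 2 = -1) {β : ℝ}
    (hβ : β < b + Real.log μ / 2) (hM : ∀ x : ℂ, x.re = β → (deriv LD x).re < 0)
    (hS : ∀ x : ℂ, x.re = β → ‖q x - w‖ ≤ ‖q (x - Real.log μ) - w‖) :
    ∀ x : ℂ, x.re = β → ‖q x - w‖ < ‖q (x - Real.log μ) - w‖ := by
  intro x0 hx0
  have hl := el_pos h.hμ
  by_contra hcon
  have he : ‖q x0 - w‖ = ‖q (x0 - Real.log μ) - w‖ := le_antisymm (hS x0 hx0) (not_lt.mp hcon)
  have hresub : ∀ x : ℂ, (x - (Real.log μ : ℂ)).re = x.re - Real.log μ := by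
    intro x; simp
  have key := refl_contact (U := fun y => q y - w) (c := β - Real.log μ / 2)
    (h := Real.log μ) (T := 2 * Real.pi) hl (by positivity)
    (fun y _ h2 => (h.dq' (by linarith)).sub_const w)
    (fun y _ h2 => by
      show ‖q (y + ((2 * Real.pi : ℝ) : ℂ) * I) - w‖ = ‖q y - w‖
      rw [per2 h (by linarith)])
    (fun y _ h2 => h.q_ne hw (by linarith)) (fun y hy => hS y (by linarith))
    (x0 := x0) (by linarith) he
  simp only [dsub] at key
  obtain ⟨k1, k2⟩ := key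
  have hb : x0.re < b + Real.log μ := by linarith
  have hn0 : q (x0 - Real.log μ) - w ≠ 0 := h.q_ne hw (by rw [hresub]; linarith)
  have hn1 : q x0 - w ≠ 0 := by
    intro h0
    rw [h0, norm_zero] at he
    exact hn0 (norm_eq_zero.mp he.symm)
  have hD := h.D_ne hb
  have hder := h.derivD hb
  have halg := alg4 (U0 := q x0 - w) (U1 := q (x0 - Real.log μ) - w)
    (t0 := deriv q x0 / (q x0 - w))
    (t1 := deriv q (x0 - Real.log μ) / (q (x0 - Real.log μ) - w)) (m := deriv LD x0)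
    (by
      have : q x0 - w - (q (x0 - Real.log μ) - w) = q x0 - q (x0 - Real.log μ) := by ring
      rw [this]; exact hD) he k2
    (by
      rw [mul_div_cancel₀ _ hn1, mul_div_cancel₀ _ hn0, hder]
      ring)
  have := hM x0 hx0
  linarith

end EQH
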