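import Pool.Agent.Lib.MP_226de1_co.H.GStart

/-! The chart in the disc variable `z = -e^(2g)`: `q_{-1} = sinh g_{-1}`, `t = e^(g_{-1} - g)`,
`z_{-1} = z t^2`, `s = xi_{-1} / D`, `r = xi / D`, `s^k + r_{-1}^k = C`. -/

set_option autoImplicit false

namespace EQH

open Complex Filter Topology Set Metric

/-- An even analytic function of `w` is an analytic function of `-w^2`. -/
theorem even_factor {s : ℝ} (hs : 0 < s) {F : ℂ → ℂ} (hF : DifferentiableOn ℂ F (ball 0 s))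
    (he : ∀ w ∈ ball (0 : ℂ) s, F (-w) = F w) :
    ∃ T : ℂ → ℂ, DifferentiableOn ℂ T (ball 0 (s ^ 2)) ∧
      ∀ w ∈ ball (0 : ℂ) s, T (-w ^ 2) = F w := by
  set sq : ℂ → ℂ := fun v => v ^ (1 / 2 : ℂ) with hsq
  have hsq2 : ∀ v : ℂ, sq v ^ 2 = v := by
    intro v
    have := Complex.cpow_nat_inv_pow v (n := 2) two_ne_zero
    simp only [hsq]
    rw [one_div]
    exact_mod_cast this
  have hnorm : ∀ v u : ℂ, u ^ 2 = v → ‖v‖ < s ^ 2 → ‖u‖ < s := by
    intro v u huv hv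
    rw [← huv, norm_pow] at hv
    exact lt_of_pow_lt_pow_left₀ 2 hs.le hv
  have hFeq : ∀ u v : ℂ, u ^ 2 = v ^ 2 → ‖v‖ < s → F u = F v := by
    intro u v huv hv
    rcases sq_eq_sq_iff_eq_or_eq_neg.1 huv with h1 | h1
    · rw [h1]
    · rw [h1]
      exact he v (mem_ball_zero_iff.2 hv)
  refine ⟨fun z => F (sq (-z)), ?_, ?_⟩
  · have hnh : ball (0 : ℂ) (s ^ 2) ∈ 𝓝 (0 : ℂ) := ball_mem_nhds _ (by positivity)
    refine (Complex.differentiableOn_compl_singleton_and_continuousAt_iff hnh).1 ⟨?_, ?_⟩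
    · rintro z ⟨hz, hz0⟩
      have hz0' : z ≠ 0 := hz0
      have hv0 : -z ≠ 0 := neg_ne_zero.2 hz0'
      rw [mem_ball_zero_iff] at hz
      refine DifferentiableAt.differentiableWithinAt ?_
      by_cases hsl : -z ∈ slitPlane
      · have h1 : DifferentiableAt ℂ (fun z : ℂ => sq (-z)) z := by
          simp only [hsq]
          exact (differentiableAt_id.neg).cpow (differentiableAt_const _) hsl
        have h2 : sq (-z) ∈ ball (0 : ℂ) s := by
          rw [mem_ball_zero_iff]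
          exact hnorm _ _ (hsq2 _) (by rwa [norm_neg])
        exact (hF.differentiableAt (isOpen_ball.mem_nhds h2)).comp z h1
      · have hsl' : z ∈ slitPlane := by
          rw [Complex.mem_slitPlane_iff] at hsl ⊢
          push Not at hsl
          obtain ⟨a, b⟩ := hsl
          rw [neg_re] at a
          rw [neg_im, neg_eq_zero] at b
          left
          rcases lt_or_eq_of_le (neg_nonpos.1 a) with h | h
          · exact h
          · exact absurd (Complex.ext h.symm b) hz0'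
        have h1 : DifferentiableAt ℂ (fun z : ℂ => I * sq z) z := by
          simp only [hsq]
          exact (differentiableAt_id.cpow (differentiableAt_const _) hsl').const_mul _
        have hI : ∀ z : ℂ, (I * sq z) ^ 2 = -z := by
          intro z
          rw [mul_pow, hsq2, I_sq]
          ring
        have h2 : I * sq z ∈ ball (0 : ℂ) s := by
          rw [mem_ball_zero_iff]
          exact hnorm _ _ (hI z) (by rwa [norm_neg])
        have h3 : DifferentiableAt ℂ (fun z => F (I * sq z)) z :=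
          (hF.differentiableAt (isOpen_ball.mem_nhds h2)).comp z h1
        refine h3.congr_of_eventuallyEq ?_
        have h4 : ∀ᶠ y in 𝓝 z, ‖y‖ < s ^ 2 :=
          continuous_norm.continuousAt.eventually_lt continuousAt_const hz
        filter_upwards [h4] with y hy
        refine hFeq _ _ ?_ (hnorm _ _ (hI y) (by rwa [norm_neg]))
        rw [hsq2, hI]
    · have h0 : sq (-0) = 0 := by
        simp [hsq]
      have h1 : ContinuousAt F 0 :=
        (hF.differentiableAt (isOpen_ball.mem_nhds (mem_ball_self hs))).continuousAt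
      have h2 : Tendsto (fun z : ℂ => sq (-z)) (𝓝 0) (𝓝 0) := by
        rw [tendsto_zero_iff_norm_tendsto_zero]
        have h3 : ∀ z : ℂ, ‖sq (-z)‖ = Real.sqrt ‖z‖ := by
          intro z
          rw [← Real.sqrt_sq (norm_nonneg (sq (-z))), ← norm_pow, hsq2, norm_neg]
        simp only [h3]
        have h4 : Tendsto (fun z : ℂ => Real.sqrt ‖z‖) (𝓝 0) (𝓝 (Real.sqrt ‖(0 : ℂ)‖)) :=
          (Real.continuous_sqrt.comp continuous_norm).tendsto 0
        simpa using h4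
      show Tendsto (fun z => F (sq (-z))) (𝓝 0) (𝓝 (F (sq (-0))))
      rw [h0]
      exact h1.tendsto.comp h2
  · intro w hw
    rw [mem_ball_zero_iff] at hw
    show F (sq (- -w ^ 2)) = F w
    rw [neg_neg]
    exact hFeq _ _ (hsq2 _) hw

/-- The chart in the disc variable `z = -e^(2g)`, near `z = 0`. -/
structure TD (k μ r : ℝ) (t lS lR : ℂ → ℂ) : Prop where
  hk : 0 < k
  hμ : 1 < μ
  hr : 0 < r
  hr1 : r ≤ 1
  dt : DifferentiableOn ℂ t (ball 0 r)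
  dS : DifferentiableOn ℂ lS (ball 0 r)
  dR : DifferentiableOn ℂ lR (ball 0 r)
  t0 : t 0 = ((1 / μ : ℝ) : ℂ)
  S0 : lS 0 = ((Real.log μ - Real.log (μ - 1) : ℝ) : ℂ)
  R0 : lR 0 = ((-Real.log (μ - 1) : ℝ) : ℂ)
  tlt : ∀ z ∈ ball (0 : ℂ) r, ‖t z‖ < 1
  tne : ∀ z ∈ ball (0 : ℂ) r, t z ≠ 0
  tcj : ∀ z ∈ ball (0 : ℂ) r, t ((starRingEnd ℂ) z) = (starRingEnd ℂ) (t z)
  Scj : ∀ z ∈ ball (0 : ℂ) r, lS ((starRingEnd ℂ) z) = (starRingEnd ℂ) (lS z)
  Rcj : ∀ z ∈ ball (0 : ℂ) r, lR ((starRingEnd ℂ) z) = (starRingEnd ℂ) (lR z)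
  expS : ∀ z ∈ ball (0 : ℂ) r, exp (lS z) = (1 - z * t z ^ 2) / ((1 - t z) * (1 - z * t z))
  expR : ∀ z ∈ ball (0 : ℂ) r, exp (lR z) = (1 - z) * t z / ((1 - t z) * (1 - z * t z))
  feq : ∀ z ∈ ball (0 : ℂ) r,
    exp ((k : ℂ) * lS z) + exp ((k : ℂ) * lR (z * t z ^ 2)) = (CK k μ : ℂ)

private theorem td_alg {τ μ A B a0 a1 E0 E1 D w t : ℂ} (hμ : μ ≠ 0) (hE0 : E0 ≠ 0)
    (hE1 : E1 ≠ 0) (hD : D ≠ 0) (e1 : E0 = A + a0) (e2 : E1 = B + a1)
    (f1 : A * A = τ ^ 2 + a0 ^ 2) (f2 : B * B = (τ / μ) ^ 2 + a1 ^ 2) (f3 : D = μ * a1 - a0)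
    (hw : w = τ / E0) (ht : t = E0 / (μ * E1)) :
    μ * B / D = (1 - -w ^ 2 * t ^ 2) / ((1 - t) * (1 - -w ^ 2 * t)) ∧
      A / D = (1 - -w ^ 2) * t / ((1 - t) * (1 - -w ^ 2 * t)) := by
  have k1 : τ ^ 2 = E0 * (A - a0) := by
    rw [e1]
    linear_combination -f1
  have k2 : τ ^ 2 = μ ^ 2 * (E1 * (B - a1)) := by
    have k3 : (τ / μ) ^ 2 = E1 * (B - a1) := by
      rw [e2]
      linear_combination -f2
    rw [← k3]
    field_simp
  have m1 : 1 - -w ^ 2 = 2 * A / E0 := by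
    rw [hw]
    field_simp
    linear_combination k1 + E0 * e1
  have m2 : 1 - -w ^ 2 * t ^ 2 = 2 * B / E1 := by
    rw [hw, ht]
    field_simp
    linear_combination k2 + μ ^ 2 * E1 * e2
  have m3 : (1 - t) * (1 - -w ^ 2 * t) = 2 * D / (μ * E1) := by
    rw [hw, ht]
    field_simp
    linear_combination μ * E1 * k1 - E0 * k2 + μ * E0 * E1 * (μ * e2 - e1 - 2 * f3)
  rw [m1, m2, m3, ht]
  constructor
  · field_simp
  · field_simp

/-- the link between the disc chart and the chart in `x` -/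
def TDx (μ r b : ℝ) (lX lD L t lS lR : ℂ → ℂ) : Prop :=
  ∀ x : ℂ, x.re < b →
    ‖-exp (2 * Gx L x)‖ < r ∧
    t (-exp (2 * Gx L x)) = exp (Gx L (x - Real.log μ) - Gx L x) ∧
    lS (-exp (2 * Gx L x)) = LT lX (x - Real.log μ) - LT lD x ∧
    lR (-exp (2 * Gx L x)) = LT lX x - LT lD x

theorem exists_TD {k μ ρ : ℝ} {α lX lD L : ℂ → ℂ} (h : TCh k μ ρ α lX lD)
    (hL : GLog ρ α lX L) :
    ∃ (r b : ℝ) (t lS lR : ℂ → ℂ), TD k μ r t lS lR ∧ TDx μ r b lX lD L t lS lR := by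
  have hρ := h.hρ
  have hμ := h.hμ
  have hk := h.hk
  have hμ0 : 0 < μ := by linarith
  have hμc : (μ : ℂ) ≠ 0 := by exact_mod_cast hμ0.ne'
  have hb : ball (0 : ℂ) ρ ⊆ ball 0 (μ * ρ) := ball_subset_ball (by nlinarith)
  have hb0 : (0 : ℂ) ∈ ball (0 : ℂ) ρ := mem_ball_self hρ
  obtain ⟨hsX, hsD⟩ := h.sym
  set φ : ℂ → ℂ := fun t => t * exp (-L t) with hφ
  have hLan : AnalyticAt ℂ L 0 := (hL.dL.analyticOnNhd isOpen_ball) 0 hb0
  have hφan : AnalyticAt ℂ φ 0 := analyticAt_id.mul hLan.neg.cexp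
  have hLd : HasDerivAt L (deriv L 0) 0 := hLan.differentiableAt.hasDerivAt
  have hφ0 : φ 0 = 0 := by simp [hφ]
  have hφd : deriv φ 0 = 1 / 2 := by
    have h1 : HasDerivAt φ (1 * exp (-L 0) + 0 * (exp (-L 0) * -deriv L 0)) 0 :=
      (hasDerivAt_id (0 : ℂ)).mul hLd.neg.cexp
    rw [h1.deriv, zero_mul, add_zero, one_mul, hL.L0, ← Complex.ofReal_neg, ← Complex.ofReal_exp,
      Real.exp_neg, Real.exp_log (by norm_num)]
    norm_num
  obtain ⟨ψ, hψ0, hψan, -, hl, hr⟩ := local_inv hφan hφ0 (by rw [hφd]; norm_num)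
  have hψc : Tendsto ψ (𝓝 0) (𝓝 0) := by
    have := hψan.continuousAt.tendsto
    rwa [hψ0] at this
  have hφc : Tendsto φ (𝓝 0) (𝓝 0) := by
    have := hφan.continuousAt.tendsto
    rwa [hφ0] at this
  have hnegc : Tendsto (fun t : ℂ => -t) (𝓝 0) (𝓝 0) := by
    have : Continuous fun t : ℂ => -t := continuous_neg
    simpa using this.tendsto 0
  have hconjc : Tendsto (fun t : ℂ => (starRingEnd ℂ) t) (𝓝 0) (𝓝 0) := by
    simpa using Complex.continuous_conj.tendsto 0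
  have hball : ∀ᶠ t in 𝓝 (0 : ℂ), t ∈ ball (0 : ℂ) ρ := ball_mem_nhds _ hρ
  have hφodd : ∀ t ∈ ball (0 : ℂ) ρ, φ (-t) = -φ t := by
    intro t ht
    simp only [hφ]
    rw [hL.even t ht]
    ring
  have hφcj : ∀ t ∈ ball (0 : ℂ) ρ, φ ((starRingEnd ℂ) t) = (starRingEnd ℂ) (φ t) := by
    intro t ht
    simp only [hφ]
    rw [hL.cj t ht, map_mul, ← Complex.exp_conj, map_neg]
  have hψball : ∀ᶠ w in 𝓝 (0 : ℂ), ψ w ∈ ball (0 : ℂ) ρ := hψc.eventually hball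
  have hψodd : ∀ᶠ w in 𝓝 (0 : ℂ), ψ (-w) = -ψ w := by
    filter_upwards [hr, hψball, (hnegc.comp hψc).eventually hl] with w h1 h2 h3
    have h4 : φ (-ψ w) = -w := by rw [hφodd _ h2, h1]
    simp only [Function.comp_apply] at h3
    rw [h4] at h3
    exact h3
  have hψcj : ∀ᶠ w in 𝓝 (0 : ℂ), ψ ((starRingEnd ℂ) w) = (starRingEnd ℂ) (ψ w) := by
    filter_upwards [hr, hψball, (hconjc.comp hψc).eventually hl] with w h1 h2 h3
    have h4 : φ ((starRingEnd ℂ) (ψ w)) = (starRingEnd ℂ) w := by rw [hφcj _ h2, h1]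
    simp only [Function.comp_apply] at h3
    rw [h4] at h3
    exact h3
  -- left inverse on a ball of radius `δ`
  obtain ⟨δ, hδ, hδl⟩ : ∃ δ : ℝ, 0 < δ ∧ ∀ τ : ℂ, ‖τ‖ < δ → ψ (φ τ) = τ := by
    rw [Metric.eventually_nhds_iff] at hl
    obtain ⟨δ, hδ, h1⟩ := hl
    exact ⟨δ, hδ, fun τ hτ => h1 (by rwa [dist_zero_right])⟩
  -- the functions of `w`
  set Rw : ℂ → ℂ := fun w => exp (L (ψ w) - L (ψ w / μ)) / μ with hRw
  set Sw : ℂ → ℂ := fun w => lX (ψ w / μ) - lD (ψ w) + (Real.log μ : ℂ) with hSw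
  set Qw : ℂ → ℂ := fun w => lX (ψ w) - lD (ψ w) with hQw
  have hdivb : ∀ r : ℝ, 0 < r → ∀ τ : ℂ, ‖τ‖ < r → ‖τ / μ‖ < r := by
    intro r _ τ hτ
    rw [norm_div, Complex.norm_real, Real.norm_of_nonneg hμ0.le]
    exact (div_le_self (norm_nonneg _) hμ.le).trans_lt hτ
  have hRw0 : Tendsto Rw (𝓝 0) (𝓝 ((1 / μ : ℝ) : ℂ)) := by
    have h1 : Tendsto (fun w => L (ψ w)) (𝓝 0) (𝓝 (L 0)) := hLan.continuousAt.tendsto.comp hψc
    have h2 : Tendsto (fun w => ψ w / μ) (𝓝 0) (𝓝 0) := by simpa using hψc.div_const (μ : ℂ)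
    have h3 : Tendsto (fun w => L (ψ w / μ)) (𝓝 0) (𝓝 (L 0)) :=
      hLan.continuousAt.tendsto.comp h2
    have h4 := (h1.sub h3).cexp.div_const (μ : ℂ)
    rw [sub_self, Complex.exp_zero] at h4
    simpa using h4
  have hRlt : ∀ᶠ w in 𝓝 (0 : ℂ), ‖Rw w‖ < 1 := by
    have h1 := hRw0.norm
    rw [Complex.norm_real, Real.norm_of_nonneg (by positivity)] at h1
    exact h1 (Iio_mem_nhds ((div_lt_one hμ0).2 hμ))
  have hall : ∀ᶠ w in 𝓝 (0 : ℂ), AnalyticAt ℂ ψ w ∧ φ (ψ w) = w ∧ ψ w ∈ ball (0 : ℂ) ρ ∧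
      ψ (-w) = -ψ w ∧ ψ ((starRingEnd ℂ) w) = (starRingEnd ℂ) (ψ w) ∧ ‖ψ w‖ < δ ∧
      ‖Rw w‖ < 1 := by
    filter_upwards [hψan.eventually_analyticAt, hr, hψball, hψodd, hψcj,
      hψc.eventually (ball_mem_nhds (0 : ℂ) hδ), hRlt] with w a1 a2 a3 a4 a5 a6 a7
    exact ⟨a1, a2, a3, a4, a5, mem_ball_zero_iff.1 a6, a7⟩
  obtain ⟨s, hs, hs1, hsall⟩ : ∃ s : ℝ, 0 < s ∧ s ≤ 1 ∧ ∀ w : ℂ, ‖w‖ < s → AnalyticAt ℂ ψ w ∧
      φ (ψ w) = w ∧ ψ w ∈ ball (0 : ℂ) ρ ∧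
      ψ (-w) = -ψ w ∧ ψ ((starRingEnd ℂ) w) = (starRingEnd ℂ) (ψ w) ∧ ‖ψ w‖ < δ ∧
      ‖Rw w‖ < 1 := by
    rw [Metric.eventually_nhds_iff] at hall
    obtain ⟨s, hs, h1⟩ := hall
    exact ⟨min s 1, lt_min hs one_pos, min_le_right _ _,
      fun w hws => h1 (by rw [dist_zero_right]; exact hws.trans_le (min_le_left _ _))⟩
  -- even functions of `w` on the ball `s`
  have hψd : DifferentiableOn ℂ ψ (ball 0 s) := fun w hw =>
    (hsall w (mem_ball_zero_iff.1 hw)).1.differentiableAt.differentiableWithinAt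
  have hψm : MapsTo ψ (ball (0 : ℂ) s) (ball 0 ρ) := fun w hw =>
    (hsall w (mem_ball_zero_iff.1 hw)).2.2.1
  have hψμd : DifferentiableOn ℂ (fun w => ψ w / μ) (ball 0 s) := hψd.div_const _
  have hψμm : MapsTo (fun w => ψ w / μ) (ball (0 : ℂ) s) (ball 0 ρ) := fun w hw =>
    mem_ball_zero_iff.2 (hdivb ρ hρ _ (mem_ball_zero_iff.1 (hψm hw)))
  have hRd : DifferentiableOn ℂ Rw (ball 0 s) :=
    ((hL.dL.comp hψd hψm).sub (hL.dL.comp hψμd hψμm)).cexp.div_const _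
  have hDψ : DifferentiableOn ℂ (fun w => lD (ψ w)) (ball 0 s) :=
    (h.dD.mono hb).comp hψd hψm
  have hSd : DifferentiableOn ℂ Sw (ball 0 s) :=
    ((h.dX.comp hψμd hψμm).sub hDψ).add_const _
  have hQd : DifferentiableOn ℂ Qw (ball 0 s) := (h.dX.comp hψd hψm).sub hDψ
  have hodd : ∀ w ∈ ball (0 : ℂ) s, ψ (-w) = -ψ w := fun w hw =>
    (hsall w (mem_ball_zero_iff.1 hw)).2.2.2.1
  have hRe : ∀ w ∈ ball (0 : ℂ) s, Rw (-w) = Rw w := by
    intro w hw
    simp only [hRw]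
    rw [hodd w hw, neg_div, hL.even _ (hψm hw), hL.even _ (hψμm hw)]
  have hSe : ∀ w ∈ ball (0 : ℂ) s, Sw (-w) = Sw w := by
    intro w hw
    simp only [hSw]
    rw [hodd w hw, neg_div, (hsX _ (mem_ball_zero_iff.1 (hψμm hw))).1,
      (hsD _ (mem_ball_zero_iff.1 (hb (hψm hw)))).1]
  have hQe : ∀ w ∈ ball (0 : ℂ) s, Qw (-w) = Qw w := by
    intro w hw
    simp only [hQw]
    rw [hodd w hw, (hsX _ (mem_ball_zero_iff.1 (hψm hw))).1,
      (hsD _ (mem_ball_zero_iff.1 (hb (hψm hw)))).1]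
  obtain ⟨t, htd, hte⟩ := even_factor hs hRd hRe
  obtain ⟨lS, hlSd, hlSe⟩ := even_factor hs hSd hSe
  obtain ⟨lR, hlRd, hlRe⟩ := even_factor hs hQd hQe
  -- every `z` is `- w ^ 2`
  have hsurj : ∀ z ∈ ball (0 : ℂ) (s ^ 2), ∃ w ∈ ball (0 : ℂ) s, z = -w ^ 2 := by
    intro z hz
    refine ⟨(-z) ^ (1 / 2 : ℂ), ?_, ?_⟩
    · have h1 : ((-z) ^ (1 / 2 : ℂ)) ^ 2 = -z := by
        have := Complex.cpow_nat_inv_pow (-z) (n := 2) two_ne_zero
        rw [one_div]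
        exact_mod_cast this
      rw [mem_ball_zero_iff] at hz ⊢
      have h2 : ‖(-z) ^ (1 / 2 : ℂ)‖ ^ 2 < s ^ 2 := by
        rw [← norm_pow, h1, norm_neg]
        exact hz
      exact lt_of_pow_lt_pow_left₀ 2 hs.le h2
    · have h1 : ((-z) ^ (1 / 2 : ℂ)) ^ 2 = -z := by
        have := Complex.cpow_nat_inv_pow (-z) (n := 2) two_ne_zero
        rw [one_div]
        exact_mod_cast this
      rw [h1, neg_neg]
  -- algebra
  have hw1 : ∀ w ∈ ball (0 : ℂ) s, w = ψ w / exp (L (ψ w)) := by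
    intro w hw
    have h1 : ψ w * exp (-L (ψ w)) = w := (hsall w (mem_ball_zero_iff.1 hw)).2.1
    rw [Complex.exp_neg] at h1
    exact h1.symm
  have hR1 : ∀ w, Rw w = exp (L (ψ w)) / (μ * exp (L (ψ w / μ))) := by
    intro w
    simp only [hRw]
    rw [Complex.exp_sub]
    field_simp
  have halg : ∀ w ∈ ball (0 : ℂ) s,
      exp (Sw w) = (1 - -w ^ 2 * Rw w ^ 2) / ((1 - Rw w) * (1 - -w ^ 2 * Rw w)) ∧
      exp (Qw w) = (1 - -w ^ 2) * Rw w / ((1 - Rw w) * (1 - -w ^ 2 * Rw w)) := by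
    intro w hw
    have hτ := hψm hw
    have hτμ : ψ w / μ ∈ ball (0 : ℂ) ρ := hψμm hw
    have f1 := h.expX (ψ w) (mem_ball_zero_iff.1 hτ)
    have f2 := h.expX (ψ w / μ) (mem_ball_zero_iff.1 hτμ)
    have g1 : exp (2 * lX (ψ w)) = exp (lX (ψ w)) * exp (lX (ψ w)) := by
      rw [← Complex.exp_add]
      congr 1
      ring
    have g2 : exp (2 * lX (ψ w / μ)) = exp (lX (ψ w / μ)) * exp (lX (ψ w / μ)) := by
      rw [← Complex.exp_add]
      congr 1
      ring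
    rw [g1] at f1
    rw [g2] at f2
    have hS1 : exp (Sw w) = μ * exp (lX (ψ w / μ)) / exp (lD (ψ w)) := by
      simp only [hSw]
      rw [Complex.exp_add, Complex.exp_sub, ← Complex.ofReal_exp, Real.exp_log hμ0]
      ring
    have hQ1 : exp (Qw w) = exp (lX (ψ w)) / exp (lD (ψ w)) := by
      simp only [hQw]
      rw [Complex.exp_sub]
    rw [hS1, hQ1]
    exact td_alg hμc (exp_ne_zero _) (exp_ne_zero _) (exp_ne_zero _) (hL.expL _ hτ)
      (hL.expL _ hτμ) f1 f2 (h.expD _ (mem_ball_zero_iff.1 (hb hτ))) (hw1 w hw) (hR1 w)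
  -- the step
  have hstep : ∀ w ∈ ball (0 : ℂ) s, w * Rw w ∈ ball (0 : ℂ) s ∧ ψ (w * Rw w) = ψ w / μ := by
    intro w hw
    obtain ⟨-, a2, -, -, -, a6, a7⟩ := hsall w (mem_ball_zero_iff.1 hw)
    have h1 : w * Rw w = φ (ψ w / μ) := by
      nth_rewrite 1 [hw1 w hw]
      rw [hR1 w]
      simp only [hφ]
      rw [Complex.exp_neg]
      field_simp
    constructor
    · rw [mem_ball_zero_iff, norm_mul]
      have := mem_ball_zero_iff.1 hw
      calc ‖w‖ * ‖Rw w‖ ≤ ‖w‖ * 1 := mul_le_mul_of_nonneg_left a7.le (norm_nonneg _)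
        _ < s := by rwa [mul_one]
    · rw [h1]
      exact hδl _ (hdivb δ hδ _ a6)
  have hs2 : 0 < s ^ 2 := by positivity
  have hm0 : (0 : ℂ) ∈ ball (0 : ℂ) s := mem_ball_self hs
  have hT : TD k μ (s ^ 2) t lS lR := by
    refine
      { hk := hk
        hμ := hμ
        hr := hs2
        hr1 := pow_le_one₀ hs.le hs1
        dt := htd
        dS := hlSd
        dR := hlRd
        t0 := ?_
        S0 := ?_
        R0 := ?_
        tlt := ?_
        tne := ?_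
        tcj := ?_
        Scj := ?_
        Rcj := ?_
        expS := ?_
        expR := ?_
        feq := ?_ }
    · have h1 := hte 0 hm0
      rw [zero_pow two_ne_zero, neg_zero] at h1
      rw [h1, hR1, hψ0, zero_div]
      push_cast
      field_simp [exp_ne_zero]
    · have h1 := hlSe 0 hm0
      rw [zero_pow two_ne_zero, neg_zero] at h1
      rw [h1]
      simp only [hSw]
      rw [hψ0, zero_div, h.X0, h.D0]
      push_cast
      ring
    · have h1 := hlRe 0 hm0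
      rw [zero_pow two_ne_zero, neg_zero] at h1
      rw [h1]
      simp only [hQw]
      rw [hψ0, h.X0, h.D0]
      push_cast
      ring
    · intro z hz
      obtain ⟨w, hw, rfl⟩ := hsurj z hz
      rw [hte w hw]
      exact (hsall w (mem_ball_zero_iff.1 hw)).2.2.2.2.2.2
    · intro z hz
      obtain ⟨w, hw, rfl⟩ := hsurj z hz
      rw [hte w hw, hR1]
      exact div_ne_zero (exp_ne_zero _) (mul_ne_zero hμc (exp_ne_zero _))
    all_goals
      intro z hz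
      obtain ⟨w, hw, rfl⟩ := hsurj z hz
      have hwc : (starRingEnd ℂ) w ∈ ball (0 : ℂ) s := by simpa using hw
      have hcw : (starRingEnd ℂ) (-w ^ 2) = -((starRingEnd ℂ) w) ^ 2 := by simp
      have hψw := (hsall w (mem_ball_zero_iff.1 hw)).2.2.2.2.1
      have hdc : (starRingEnd ℂ) (ψ w) / μ = (starRingEnd ℂ) (ψ w / μ) := by simp
      have hτ := hψm hw
      have hτμ : ψ w / μ ∈ ball (0 : ℂ) ρ := hψμm hw
    · rw [hcw, hte _ hwc, hte w hw]
      simp only [hRw]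
      rw [hψw, hdc, hL.cj _ hτ, hL.cj _ hτμ, ← map_sub, Complex.exp_conj, map_div₀,
        Complex.conj_ofReal]
    · rw [hcw, hlSe _ hwc, hlSe w hw]
      simp only [hSw]
      rw [hψw, hdc, (hsX _ (mem_ball_zero_iff.1 hτμ)).2,
        (hsD _ (mem_ball_zero_iff.1 (hb hτ))).2, map_add, map_sub, Complex.conj_ofReal]
    · rw [hcw, hlRe _ hwc, hlRe w hw]
      simp only [hQw]
      rw [hψw, (hsX _ (mem_ball_zero_iff.1 hτ)).2,
        (hsD _ (mem_ball_zero_iff.1 (hb hτ))).2, map_sub]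
    · rw [hlSe w hw, hte w hw]
      exact (halg w hw).1
    · rw [hlRe w hw, hte w hw]
      exact (halg w hw).2
    · obtain ⟨h1, h2⟩ := hstep w hw
      have h3 : -w ^ 2 * Rw w ^ 2 = -(w * Rw w) ^ 2 := by ring
      rw [hlSe w hw, hte w hw, h3, hlRe _ h1]
      simp only [hSw, hQw]
      rw [h2]
      have h4 := h.feq (ψ w / μ) (mem_ball_zero_iff.1 hτμ)
      rw [mul_div_cancel₀ _ hμc] at h4
      have h5 : exp ((k : ℂ) * (lX (ψ w / μ) - lD (ψ w) + (Real.log μ : ℂ))) =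
          exp ((k : ℂ) * lX (ψ w / μ)) * (((μ ^ k : ℝ) : ℂ) * exp (-(k : ℂ) * lD (ψ w))) := by
        rw [Real.rpow_def_of_pos hμ0, Complex.ofReal_exp, ← Complex.exp_add, ← Complex.exp_add]
        congr 1
        push_cast
        ring
      have h6 : exp ((k : ℂ) * (lX (ψ w / μ) - lD (ψ w / μ))) =
          exp ((k : ℂ) * lX (ψ w / μ)) * exp (-(k : ℂ) * lD (ψ w / μ)) := by
        rw [← Complex.exp_add]
        congr 1
        ring
      have h7 : exp ((k : ℂ) * lX (ψ w / μ)) * exp (-(k : ℂ) * lX (ψ w / μ)) = 1 := by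
        rw [← Complex.exp_add]
        rw [show (k : ℂ) * lX (ψ w / μ) + -(k : ℂ) * lX (ψ w / μ) = 0 by ring, Complex.exp_zero]
      rw [h5, h6, ← mul_add, add_comm, h4]
      calc exp ((k : ℂ) * lX (ψ w / μ)) * ((CK k μ : ℂ) * exp (-(k : ℂ) * lX (ψ w / μ)))
          = (CK k μ : ℂ) * (exp ((k : ℂ) * lX (ψ w / μ)) * exp (-(k : ℂ) * lX (ψ w / μ))) := by
            ring
        _ = (CK k μ : ℂ) := by rw [h7, mul_one]
  -- the link
  obtain ⟨δ', hδ', hδ'l⟩ : ∃ δ' : ℝ, 0 < δ' ∧ ∀ τ : ℂ, ‖τ‖ < δ' → ψ (φ τ) = τ ∧ ‖φ τ‖ < s := by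
    have h1 : ∀ᶠ τ in 𝓝 (0 : ℂ), ψ (φ τ) = τ ∧ ‖φ τ‖ < s := by
      filter_upwards [hl, hφc.eventually (ball_mem_nhds (0 : ℂ) hs)] with τ a1 a2
      exact ⟨a1, mem_ball_zero_iff.1 a2⟩
    rw [Metric.eventually_nhds_iff] at h1
    obtain ⟨δ', hδ', h2⟩ := h1
    exact ⟨δ', hδ', fun τ hτ => h2 (by rwa [dist_zero_right])⟩
  refine ⟨s ^ 2, Real.log δ', t, lS, lR, hT, ?_⟩
  intro x hx
  have hτ : ‖exp x‖ < δ' := by
    rw [Complex.norm_exp]
    exact (Real.lt_log_iff_exp_lt hδ').1 hx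
  obtain ⟨c1, c2⟩ := hδ'l _ hτ
  have hw : φ (exp x) ∈ ball (0 : ℂ) s := mem_ball_zero_iff.2 c2
  have hg : -exp (2 * Gx L x) = -φ (exp x) ^ 2 := by
    unfold Gx
    simp only [hφ]
    rw [mul_pow, ← Complex.exp_nat_mul, ← Complex.exp_nat_mul, ← Complex.exp_add]
    congr 2
    push_cast
    ring
  have hex : exp (x - (Real.log μ : ℂ)) = exp x / μ := by
    rw [Complex.exp_sub, ← Complex.ofReal_exp, Real.exp_log hμ0]
  have hlμ : exp (-(Real.log μ : ℂ)) = (μ : ℂ)⁻¹ := by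
    rw [Complex.exp_neg, ← Complex.ofReal_exp, Real.exp_log hμ0]
  refine ⟨?_, ?_, ?_, ?_⟩
  · rw [hg, norm_neg, norm_pow]
    exact pow_lt_pow_left₀ c2 (norm_nonneg _) two_ne_zero
  · rw [hg, hte _ hw]
    simp only [hRw]
    rw [c1]
    unfold Gx
    rw [hex]
    have h1 : x - (Real.log μ : ℂ) - L (exp x / μ) - (x - L (exp x)) =
        (L (exp x) - L (exp x / μ)) + -(Real.log μ : ℂ) := by ring
    rw [h1, Complex.exp_add, hlμ]
    rfl
  · rw [hg, hlSe _ hw]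
    simp only [hSw]
    rw [c1]
    unfold LT
    rw [hex]
    ring
  · rw [hg, hlRe _ hw]
    simp only [hQw]
    rw [c1]
    unfold LT
    ring

end EQH
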