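import Pool.Agent.Lib.MP_226de1_co.H.Defs

/-! From the `t`-plane chart to the `x`-plane chart. -/

set_option autoImplicit false

namespace EQH

open Complex Filter Topology Set

variable {k μ ρ : ℝ} {α lX lD : ℂ → ℂ}

/-- Two continuous logarithms on a ball (or any star shaped set, here a ball) with the same
value at `0` agree. Proof: `n t = (g t - h t) / (2 pi i) * c` is integer valued and continuous
on a connected set. -/
theorem log_unique {r : ℝ} {c : ℂ} (hc : c ≠ 0) {g h : ℂ → ℂ}
    (hg : ContinuousOn g (Metric.ball 0 r)) (hh : ContinuousOn h (Metric.ball 0 r))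
    (he : ∀ t ∈ Metric.ball (0 : ℂ) r, exp (c * g t) = exp (c * h t)) (h0 : g 0 = h 0) :
    ∀ t ∈ Metric.ball (0 : ℂ) r, g t = h t := by
  intro t ht
  have hr : 0 < r := lt_of_le_of_lt (norm_nonneg t) (by simpa using ht)
  have hex : ∀ s ∈ Metric.ball (0 : ℂ) r, ∃ n : ℤ, c * g s = c * h s + n * (2 * Real.pi * I) := by
    intro s hs
    exact Complex.exp_eq_exp_iff_exists_int.1 (he s hs)
  set f : ℂ → ℝ := fun s => (c * g s - c * h s).im / (2 * Real.pi) with hf
  have hfc : ContinuousOn f (Metric.ball 0 r) := by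
    have : ContinuousOn (fun s => c * g s - c * h s) (Metric.ball 0 r) :=
      (continuousOn_const.mul hg).sub (continuousOn_const.mul hh)
    exact (Complex.continuous_im.comp_continuousOn this).div_const _
  have hpi : Real.pi ≠ 0 := Real.pi_ne_zero
  have hfn : ∀ s ∈ Metric.ball (0 : ℂ) r, ∀ n : ℤ,
      c * g s = c * h s + n * (2 * Real.pi * I) → f s = n := by
    intro s _ n hn
    have h1 : c * g s - c * h s = ((n : ℝ) * (2 * Real.pi) : ℝ) * I := by
      rw [hn]; push_cast; ring
    simp only [hf]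
    rw [h1]
    simp only [Complex.mul_im, Complex.ofReal_re, Complex.ofReal_im, Complex.I_im, Complex.I_re,
      mul_zero, mul_one, add_zero]
    field_simp
  have hpre : IsPreconnected (f '' Metric.ball 0 r) :=
    (convex_ball (0 : ℂ) r).isPreconnected.image f hfc
  have hoc : OrdConnected (f '' Metric.ball 0 r) := hpre.ordConnected
  have hint : ∀ y ∈ f '' Metric.ball 0 r, ∃ n : ℤ, y = n := by
    rintro y ⟨s, hs, rfl⟩
    obtain ⟨n, hn⟩ := hex s hs
    exact ⟨n, hfn s hs n hn⟩
  have h0m : (0 : ℝ) ∈ f '' Metric.ball 0 r := by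
    refine ⟨0, by simpa using hr, ?_⟩
    simp [hf, h0]
  obtain ⟨n, hn⟩ := hex t ht
  have hft : f t = n := hfn t ht n hn
  have htm : f t ∈ f '' Metric.ball 0 r := mem_image_of_mem f ht
  have hn0 : n = 0 := by
    rcases lt_trichotomy n 0 with hlt | heq | hgt
    · exfalso
      have h1 : (n : ℝ) ≤ -1 := by exact_mod_cast (by omega : n ≤ -1)
      have h2 : (-(1 / 2) : ℝ) ∈ f '' Metric.ball 0 r :=
        hoc.out htm h0m ⟨by rw [hft]; linarith, by norm_num⟩
      obtain ⟨m, hm⟩ := hint _ h2
      have h3 : (-1 : ℝ) = 2 * m := by linarith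
      have h4 : (-1 : ℤ) = 2 * m := by exact_mod_cast h3
      omega
    · exact heq
    · exfalso
      have h1 : (1 : ℝ) ≤ n := by exact_mod_cast (by omega : 1 ≤ n)
      have h2 : (1 / 2 : ℝ) ∈ f '' Metric.ball 0 r :=
        hoc.out h0m htm ⟨by norm_num, by rw [hft]; linarith⟩
      obtain ⟨m, hm⟩ := hint _ h2
      have h3 : (1 : ℝ) = 2 * m := by linarith
      have h4 : (1 : ℤ) = 2 * m := by exact_mod_cast h3
      omega
  rw [hn0] at hn
  have h5 : c * g t = c * h t := by simpa using hn
  exact mul_left_cancel₀ hc h5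

/-- analytic logarithm on a ball. Proof: primitive of `F' / F`
(`DifferentiableOn.isExactOn_ball`), see `Mathlib/Analysis/Complex/HasPrimitives` and
`BranchLogRoot`. -/
theorem log_exists {r : ℝ} {F : ℂ → ℂ} (hr : 0 < r) (hF : DifferentiableOn ℂ F (Metric.ball 0 r))
    (hne : ∀ t ∈ Metric.ball (0 : ℂ) r, F t ≠ 0) {a : ℂ} (ha : exp a = F 0) :
    ∃ L : ℂ → ℂ, DifferentiableOn ℂ L (Metric.ball 0 r) ∧ L 0 = a ∧
      ∀ t ∈ Metric.ball (0 : ℂ) r, exp (L t) = F t := by
  have hd : DifferentiableOn ℂ (fun z => deriv F z / F z) (Metric.ball 0 r) :=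
    (hF.deriv Metric.isOpen_ball).div hF hne
  obtain ⟨L, hL0, hL⟩ := (hd.isExactOn_ball).with_val_at 0 a
  have hm0 : (0 : ℂ) ∈ Metric.ball (0 : ℂ) r := by simpa using hr
  have hder : ∀ z ∈ Metric.ball (0 : ℂ) r, HasDerivAt (fun z => F z * exp (-L z)) 0 z := by
    intro z hz
    have h1 : HasDerivAt F (deriv F z) z :=
      (hF.differentiableAt (Metric.isOpen_ball.mem_nhds hz)).hasDerivAt
    have h2 : HasDerivAt (fun z => exp (-L z)) (exp (-L z) * -(deriv F z / F z)) z :=
      (hL z hz).neg.cexp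
    have h3 := h1.mul h2
    have h4 : deriv F z * exp (-L z) + F z * (exp (-L z) * -(deriv F z / F z)) = 0 := by
      have := hne z hz
      field_simp
      ring
    rw [h4] at h3
    exact h3
  refine ⟨L, fun z hz => (hL z hz).differentiableAt.differentiableWithinAt, hL0, ?_⟩
  intro t ht
  have hc : F t * exp (-L t) = F 0 * exp (-L 0) := by
    have hdd : DifferentiableOn ℂ (fun z => F z * exp (-L z)) (Metric.ball 0 r) :=
      fun z hz => (hder z hz).differentiableAt.differentiableWithinAt
    have hde : EqOn (deriv (fun z => F z * exp (-L z))) 0 (Metric.ball 0 r) :=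
      fun z hz => (hder z hz).deriv
    exact Metric.isOpen_ball.is_const_of_deriv_eq_zero
      (convex_ball (0 : ℂ) r).isPreconnected hdd hde ht hm0
  rw [hL0, ← ha, ← Complex.exp_add, add_neg_cancel, Complex.exp_zero] at hc
  have h6 : F t * exp (-L t) * exp (L t) = exp (L t) := by rw [hc, one_mul]
  rw [mul_assoc, ← Complex.exp_add, neg_add_cancel, Complex.exp_zero, mul_one] at h6
  exact h6.symm

private theorem norm_cj (t : ℂ) : ‖(starRingEnd ℂ) t‖ = ‖t‖ := Complex.norm_conj t

private theorem cont_comp_neg {r : ℝ} {g : ℂ → ℂ} (hg : ContinuousOn g (Metric.ball 0 r)) :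
    ContinuousOn (fun t => g (-t)) (Metric.ball 0 r) := by
  refine hg.comp continuous_neg.continuousOn ?_
  intro t ht
  simpa using ht

private theorem cont_comp_cj {r : ℝ} {g : ℂ → ℂ} (hg : ContinuousOn g (Metric.ball 0 r)) :
    ContinuousOn (fun t => (starRingEnd ℂ) (g ((starRingEnd ℂ) t))) (Metric.ball 0 r) := by
  refine Complex.continuous_conj.comp_continuousOn
    (hg.comp Complex.continuous_conj.continuousOn ?_)
  intro t ht
  simpa using ht

private theorem small_div (h : TCh k μ ρ α lX lD) {t : ℂ} (ht : ‖t‖ < μ * ρ) :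
    ‖t / μ‖ < ρ := by
  have hμ0 : 0 < μ := lt_trans one_pos h.hμ
  rw [norm_div, Complex.norm_real, Real.norm_of_nonneg hμ0.le, div_lt_iff₀ hμ0]
  linarith [mul_comm μ ρ]

private theorem small_up (h : TCh k μ ρ α lX lD) {t : ℂ} (ht : ‖t‖ < ρ) : ‖t‖ < μ * ρ := by
  have h1 := h.hρ
  have h2 := h.hμ
  nlinarith

/-- `lX`, `lD` are even and commute with conjugation, by `log_unique` (the right hand sides of
`expX`, `expD` are even and symmetric). -/
theorem TCh.sym (h : TCh k μ ρ α lX lD) :
    (∀ t : ℂ, ‖t‖ < ρ → lX (-t) = lX t ∧ lX ((starRingEnd ℂ) t) = (starRingEnd ℂ) (lX t)) ∧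
    (∀ t : ℂ, ‖t‖ < μ * ρ →
      lD (-t) = lD t ∧ lD ((starRingEnd ℂ) t) = (starRingEnd ℂ) (lD t)) := by
  have two_ne : (2 : ℂ) ≠ 0 := two_ne_zero
  have cX := h.dX.continuousOn
  have cD := h.dD.continuousOn
  refine ⟨fun t ht => ⟨?_, ?_⟩, fun t ht => ⟨?_, ?_⟩⟩
  · refine log_unique two_ne (cont_comp_neg cX) cX ?_ (by simp) t (by simpa using ht)
    intro s hs
    have hs' : ‖s‖ < ρ := by simpa using hs
    rw [h.expX s hs', h.expX (-s) (by simpa using hs'), h.even s (small_up h hs')]
    ring
  · have key := log_unique two_ne (cont_comp_cj cX) cX ?_ (by simp [h.X0]) t (by simpa using ht)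
    · have := congrArg (starRingEnd ℂ) key
      simpa using this
    · intro s hs
      have hs' : ‖s‖ < ρ := by simpa using hs
      have h1 : (2 : ℂ) * (starRingEnd ℂ) (lX ((starRingEnd ℂ) s)) =
          (starRingEnd ℂ) (2 * lX ((starRingEnd ℂ) s)) := by
        rw [map_mul, Complex.conj_ofNat]
      show exp (2 * (starRingEnd ℂ) (lX ((starRingEnd ℂ) s))) = exp (2 * lX s)
      rw [h1, Complex.exp_conj, h.expX _ (by rw [norm_cj]; exact hs'), h.expX s hs', map_add,
        map_pow, map_pow, h.cj s (small_up h hs'), Complex.conj_conj, Complex.conj_conj]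
  · refine log_unique one_ne_zero (cont_comp_neg cD) cD ?_ (by simp) t (by simpa using ht)
    intro s hs
    have hs' : ‖s‖ < μ * ρ := by simpa using hs
    rw [one_mul, one_mul, h.expD s hs', h.expD (-s) (by simpa using hs'), h.even s hs', neg_div,
      h.even (s / μ) (small_up h (small_div h hs'))]
  · have key := log_unique one_ne_zero (cont_comp_cj cD) cD ?_
      (by simp only [map_zero, h.D0, Complex.conj_ofReal]) t (by simpa using ht)
    · have := congrArg (starRingEnd ℂ) key
      simpa using this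
    · intro s hs
      have hs' : ‖s‖ < μ * ρ := by simpa using hs
      have h2 : (starRingEnd ℂ) s / μ = (starRingEnd ℂ) (s / μ) := by
        rw [map_div₀, Complex.conj_ofReal]
      show exp (1 * (starRingEnd ℂ) (lD ((starRingEnd ℂ) s))) = exp (1 * lD s)
      rw [one_mul, one_mul, Complex.exp_conj, h.expD _ (by rw [norm_cj]; exact hs'),
        h.expD s hs', h2, h.cj s hs', h.cj _ (small_up h (small_div h hs')), map_sub, map_mul,
        Complex.conj_conj, Complex.conj_conj, Complex.conj_ofReal]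

private theorem exp_small {b : ℝ} (hb : 0 < b) {x : ℂ} (hx : x.re < Real.log b) :
    ‖exp x‖ < b := by
  rw [Complex.norm_exp]
  calc Real.exp x.re < Real.exp (Real.log b) := Real.exp_lt_exp.2 hx
    _ = b := Real.exp_log hb

private theorem exp_pi (x : ℂ) : exp (x + Real.pi * I) = -exp x := by
  rw [Complex.exp_add, Complex.exp_pi_mul_I]; ring

private theorem exp_neg_pi (x : ℂ) : exp (-(x + Real.pi * I)) = -exp (-x) := by
  rw [neg_add, Complex.exp_add, Complex.exp_neg (Real.pi * I), Complex.exp_pi_mul_I]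
  norm_num

private theorem tendsto_exp_comap : Tendsto exp (comap Complex.re atBot) (𝓝 0) := by
  rw [tendsto_zero_iff_norm_tendsto_zero]
  have h1 : Tendsto (fun x : ℂ => Real.exp x.re) (comap Complex.re atBot) (𝓝 0) :=
    Real.tendsto_exp_atBot.comp tendsto_comap
  simpa [Complex.norm_exp] using h1

/-- The chart in `x`. `exp (x + pi I) = - exp x`; limits: `exp x -> 0` as `Re x -> -infinity`
and continuity at `0`. -/
theorem TCh.toCh (h : TCh k μ ρ α lX lD) : Ch k μ (Real.log ρ) (qT α) (LT lX) (LT lD) := by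
  have hμ0 : 0 < μ := lt_trans one_pos h.hμ
  have hρ := h.hρ
  have hμρ : 0 < μ * ρ := mul_pos hμ0 hρ
  obtain ⟨sX, sD⟩ := h.sym
  have hlog : Real.log (μ * ρ) = Real.log ρ + Real.log μ := by
    rw [Real.log_mul hμ0.ne' hρ.ne']; ring
  have small1 : ∀ x : ℂ, x.re < Real.log ρ → ‖exp x‖ < ρ := fun x hx => exp_small hρ hx
  have small2 : ∀ x : ℂ, x.re < Real.log ρ + Real.log μ → ‖exp x‖ < μ * ρ :=
    fun x hx => exp_small hμρ (by rw [hlog]; exact hx)
  have expμ : exp ((Real.log μ : ℝ) : ℂ) = (μ : ℂ) := by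
    rw [← Complex.ofReal_exp, Real.exp_log hμ0]
  have hμne : (μ : ℂ) ≠ 0 := by exact_mod_cast hμ0.ne'
  have hm2 : (0 : ℂ) ∈ Metric.ball (0 : ℂ) (μ * ρ) := by simpa using hμρ
  have hm1 : (0 : ℂ) ∈ Metric.ball (0 : ℂ) ρ := by simpa using hρ
  refine
    { hk := h.hk
      hμ := h.hμ
      dq := ?_
      dX := ?_
      dD := ?_
      qpi := ?_
      Xpi := ?_
      Dpi := ?_
      qcj := ?_
      Xcj := ?_
      Dcj := ?_
      expX := ?_
      expD := ?_
      feq := ?_
      lq := ?_
      lX := ?_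
      lD := ?_ }
  · unfold qT
    refine DifferentiableOn.mul (by fun_prop) ?_
    refine h.dα.comp (by fun_prop) ?_
    intro x hx
    simpa using small2 x hx
  · unfold LT
    refine DifferentiableOn.sub ?_ (by fun_prop)
    refine h.dX.comp (by fun_prop) ?_
    intro x hx
    simpa using small1 x hx
  · unfold LT
    refine DifferentiableOn.sub ?_ (by fun_prop)
    refine h.dD.comp (by fun_prop) ?_
    intro x hx
    simpa using small2 x hx
  · intro x hx
    unfold qT
    rw [exp_pi, exp_neg_pi, h.even _ (small2 x hx)]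
    ring
  · intro x hx
    unfold LT
    rw [exp_pi, (sX _ (small1 x hx)).1]
    ring
  · intro x hx
    unfold LT
    rw [exp_pi, (sD _ (small2 x hx)).1]
    ring
  · intro x hx
    unfold qT
    rw [Complex.exp_conj, h.cj _ (small2 x hx), map_mul, map_neg, ← Complex.exp_conj, map_neg]
  · intro x hx
    unfold LT
    rw [Complex.exp_conj, (sX _ (small1 x hx)).2, map_sub]
  · intro x hx
    unfold LT
    rw [Complex.exp_conj, (sD _ (small2 x hx)).2, map_sub]
  · intro x hx
    unfold LT qT
    have h1 : (2 : ℂ) * (lX (exp x) - x) = 2 * lX (exp x) + (-x + -x) := by ring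
    rw [h1, Complex.exp_add, h.expX _ (small1 x hx), Complex.exp_add, add_mul]
    have h2 : exp x * exp (-x) = 1 := by
      rw [← Complex.exp_add, add_neg_cancel, Complex.exp_zero]
    have h3 : exp x ^ 2 * (exp (-x) * exp (-x)) = 1 := by
      calc exp x ^ 2 * (exp (-x) * exp (-x)) = (exp x * exp (-x)) ^ 2 := by ring
        _ = 1 := by rw [h2]; ring
    rw [h3]
    ring
  · intro x hx
    unfold LT qT
    have h4 : exp (x - (Real.log μ : ℂ)) = exp x / μ := by
      rw [Complex.exp_sub, expμ]
    have h5 : exp (-(x - (Real.log μ : ℂ))) = exp (-x) * μ := by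
      rw [neg_sub, sub_eq_add_neg, add_comm, Complex.exp_add, expμ]
    rw [h4, h5, sub_eq_add_neg (lD (exp x)) x, Complex.exp_add, h.expD _ (small2 x hx)]
    ring
  · intro x hx
    unfold LT
    have hs := small1 x hx
    have h6 : exp (x + (Real.log μ : ℂ)) = μ * exp x := by
      rw [Complex.exp_add, expμ, mul_comm]
    have h7 : ((μ ^ k : ℝ) : ℂ) = exp ((k : ℂ) * (Real.log μ : ℂ)) := by
      rw [Real.rpow_def_of_pos hμ0, Complex.ofReal_exp]
      congr 1
      push_cast
      ring
    have h8 := h.feq _ hs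
    rw [h7] at h8
    rw [h6]
    have e1 : exp (-(k : ℂ) * (lD (exp x) - x)) = exp ((k : ℂ) * x) * exp (-(k : ℂ) * lD (exp x)) := by
      rw [← Complex.exp_add]; congr 1; ring
    have e2 : exp (-(k : ℂ) * (lD (μ * exp x) - (x + (Real.log μ : ℂ)))) =
        exp ((k : ℂ) * x) * (exp ((k : ℂ) * (Real.log μ : ℂ)) *
          exp (-(k : ℂ) * lD (μ * exp x))) := by
      rw [← Complex.exp_add, ← Complex.exp_add]; congr 1; ring
    have e3 : exp (-(k : ℂ) * (lX (exp x) - x)) = exp ((k : ℂ) * x) * exp (-(k : ℂ) * lX (exp x)) := by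
      rw [← Complex.exp_add]; congr 1; ring
    rw [e1, e2, e3, ← mul_add, h8]
    ring
  · have h9 : Tendsto (fun x : ℂ => -α (exp x)) (comap Complex.re atBot) (𝓝 (-1)) := by
      have hc : ContinuousAt α 0 :=
        (h.dα.differentiableAt (Metric.isOpen_ball.mem_nhds hm2)).continuousAt
      have := (hc.tendsto.comp tendsto_exp_comap).neg
      rw [h.α0] at this
      exact this
    refine h9.congr ?_
    intro x
    unfold qT
    have h2 : exp (-x) * exp x = 1 := by
      rw [← Complex.exp_add, neg_add_cancel, Complex.exp_zero]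
    calc -α (exp x) = -(exp (-x) * exp x) * α (exp x) := by rw [h2]; ring
      _ = -exp (-x) * α (exp x) * exp x := by ring
  · have hc : ContinuousAt lX 0 :=
      (h.dX.differentiableAt (Metric.isOpen_ball.mem_nhds hm1)).continuousAt
    have h9 := hc.tendsto.comp tendsto_exp_comap
    rw [h.X0] at h9
    refine h9.congr ?_
    intro x
    unfold LT
    simp
  · have hc : ContinuousAt lD 0 :=
      (h.dD.differentiableAt (Metric.isOpen_ball.mem_nhds hm2)).continuousAt
    have h9 := hc.tendsto.comp tendsto_exp_comap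
    rw [h.D0] at h9
    refine h9.congr ?_
    intro x
    unfold LT
    simp

/-- restriction to a smaller radius -/
theorem TCh.mono (h : TCh k μ ρ α lX lD) {ρ' : ℝ} (h0 : 0 < ρ') (h1 : ρ' ≤ ρ) :
    TCh k μ ρ' α lX lD := by
  have hμ0 : 0 < μ := lt_trans one_pos h.hμ
  have h2 : μ * ρ' ≤ μ * ρ := mul_le_mul_of_nonneg_left h1 hμ0.le
  exact
    { hk := h.hk
      hμ := h.hμ
      hρ := h0
      dα := h.dα.mono (Metric.ball_subset_ball h2)
      dX := h.dX.mono (Metric.ball_subset_ball h1)
      dD := h.dD.mono (Metric.ball_subset_ball h2)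
      even := fun t ht => h.even t (lt_of_lt_of_le ht h2)
      cj := fun t ht => h.cj t (lt_of_lt_of_le ht h2)
      α0 := h.α0
      X0 := h.X0
      D0 := h.D0
      expX := fun t ht => h.expX t (lt_of_lt_of_le ht h1)
      expD := fun t ht => h.expD t (lt_of_lt_of_le ht h2)
      feq := fun t ht => h.feq t (lt_of_lt_of_le ht h1) }

end EQH
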