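import Pool.Agent.Lib.MP_226de1_co.H.NoSym
import Pool.Agent.Lib.MP_226de1_co.H.Dirs

/-! The first zero of `1 + q^2` is at the corner `u + i pi/2`, it is simple, and
`arg xi ∈ (-pi/4, 0)` on the line `Re x = u` below the corner. -/

set_option autoImplicit false

namespace EQH

open Complex Filter Topology Set

variable {k μ u : ℝ} {q LX LD : ℂ → ℂ}

/-- the final structure: everything about the maximal chart -/
structure HL (k μ u : ℝ) (q LX LD : ℂ → ℂ) : Prop where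
  ch : Ch k μ u q LX LD
  lp : Lp k μ u q LX LD
  qd : Qd μ u q LX LD
  corner : q ⟨u, Real.pi / 2⟩ = I
  dcorner : (deriv q ⟨u, Real.pi / 2⟩).re = 0 ∧ (deriv q ⟨u, Real.pi / 2⟩).im < 0
  xi : ∀ y : ℝ, 0 < y → y < Real.pi / 2 →
    (1 + q ⟨u, y⟩ ^ 2).im < 0 ∧ 0 < (1 + q ⟨u, y⟩ ^ 2).re
  quadu : ∀ y : ℝ, 0 < y → y < Real.pi / 2 → (q ⟨u, y⟩).re < 0 ∧ 0 < (q ⟨u, y⟩).im

theorem Ch.qcontU (h : Ch k μ u q LX LD) {x : ℂ} (hx : x.re ≤ u) : ContinuousAt q x :=
  (h.dq' (by have := el_pos h.hμ; linarith)).continuousAt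

theorem Ch.tendU (h : Ch k μ u q LX LD) (z : ℝ) :
    Tendsto (fun a : ℝ => q ⟨a, z⟩) (𝓝[<] u) (𝓝 (q ⟨u, z⟩)) := by
  have h1 : Tendsto (fun a : ℝ => (⟨a, z⟩ : ℂ)) (𝓝 u) (𝓝 ⟨u, z⟩) := by
    have h2 : (fun a : ℝ => (⟨a, z⟩ : ℂ)) = fun a : ℝ => (a : ℂ) + z * I := by
      funext a
      apply Complex.ext <;> simp
    have h3 : (⟨u, z⟩ : ℂ) = (u : ℂ) + z * I := by
      apply Complex.ext <;> simp
    rw [h2, h3]
    exact (Continuous.tendsto (by fun_prop) _)
  exact ((h.qcontU (x := ⟨u, z⟩) (le_refl u)).tendsto.comp h1).mono_left nhdsWithin_le_nhds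

theorem im_one_add_sq (w : ℂ) : (1 + w ^ 2).im = 2 * w.re * w.im := by
  simp [pow_two]
  ring

theorem re_one_add_sq (w : ℂ) : (1 + w ^ 2).re = 1 + w.re ^ 2 - w.im ^ 2 := by
  simp [pow_two]
  ring

/-- closed conditions on the line `Re x = u` (limits `a -> u` from the left; `q` is continuous
there): `Im (1 + q^2) ≤ 0`, second quadrant (closed), on top `q = i v`, `v ≥ 1`. -/
theorem Ch.lineu (h : Ch k μ u q LX LD) (hq : Qd μ u q LX LD) :
    (∀ x : ℂ, x.re ≤ u → 0 ≤ x.im → x.im ≤ Real.pi / 2 →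
      (1 + q x ^ 2).im ≤ 0 ∧ (q x).re ≤ 0 ∧ 0 ≤ (q x).im) ∧
    (∀ x : ℂ, x.re ≤ u → x.im = Real.pi / 2 → (q x).re = 0 ∧ 1 ≤ (q x).im) := by
  have hel := el_pos h.hμ
  have hpi := Real.pi_pos
  constructor
  · intro x hx h0 h1
    have hc : ContinuousAt q x := h.qcontU hx
    have ht : Tendsto (fun t : ℝ => x + t * ((⟨u - 1, Real.pi / 4⟩ : ℂ) - x)) (𝓝[>] 0) (𝓝 x) := by
      have h3 : Tendsto (fun t : ℝ => x + t * ((⟨u - 1, Real.pi / 4⟩ : ℂ) - x)) (𝓝 0)
          (𝓝 (x + ((0 : ℝ) : ℂ) * ((⟨u - 1, Real.pi / 4⟩ : ℂ) - x))) :=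
        Continuous.tendsto (by fun_prop) _
      rw [ofReal_zero, zero_mul, add_zero] at h3
      exact h3.mono_left nhdsWithin_le_nhds
    have hev : ∀ᶠ t : ℝ in 𝓝[>] (0 : ℝ),
        (q (x + t * ((⟨u - 1, Real.pi / 4⟩ : ℂ) - x))).re < 0 ∧
          0 < (q (x + t * ((⟨u - 1, Real.pi / 4⟩ : ℂ) - x))).im := by
      filter_upwards [Ioo_mem_nhdsGT (zero_lt_one : (0 : ℝ) < 1)] with t ht1
      obtain ⟨t0, t1⟩ := ht1
      have e1 : (x + t * ((⟨u - 1, Real.pi / 4⟩ : ℂ) - x)).re = x.re + t * (u - 1 - x.re) := by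
        simp
      have e2 : (x + t * ((⟨u - 1, Real.pi / 4⟩ : ℂ) - x)).im =
          x.im + t * (Real.pi / 4 - x.im) := by
        simp
      apply hq.quad
      · rw [e1]
        nlinarith
      · rw [e2]
        nlinarith
      · rw [e2]
        nlinarith
    have hqt := hc.tendsto.comp ht
    have hre : (q x).re ≤ 0 :=
      le_of_tendsto ((continuous_re.tendsto _).comp hqt) (hev.mono fun t ht => ht.1.le)
    have him : 0 ≤ (q x).im :=
      ge_of_tendsto ((continuous_im.tendsto _).comp hqt) (hev.mono fun t ht => ht.2.le)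
    refine ⟨?_, hre, him⟩
    rw [im_one_add_sq]
    nlinarith
  · intro x hx hi
    refine ⟨h.lines.2.2.2.2.2 x (by linarith) hi, ?_⟩
    have hc : ContinuousAt q x := h.qcontU hx
    have ht : Tendsto (fun t : ℝ => x - t) (𝓝[>] 0) (𝓝 x) := by
      have h3 : Tendsto (fun t : ℝ => x - t) (𝓝 0) (𝓝 (x - ((0 : ℝ) : ℂ))) :=
        Continuous.tendsto (by fun_prop) _
      rw [ofReal_zero, sub_zero] at h3
      exact h3.mono_left nhdsWithin_le_nhds
    have hev : ∀ᶠ t : ℝ in 𝓝[>] (0 : ℝ), 1 < (q (x - t)).im := by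
      filter_upwards [self_mem_nhdsWithin] with t ht1
      refine (hq.top (x - t) ?_ ?_).2
      · have : (0 : ℝ) < t := ht1
        simp
        linarith
      · simp [hi]
    exact ge_of_tendsto ((continuous_im.tendsto _).comp (hc.tendsto.comp ht))
      (hev.mono fun t ht => ht.le)

/-- cross product: `Im (conj (xi^2 (u + iy)) xi^2 (u + iy')) ≤ 0` for `0 ≤ y < y' ≤ pi/2`.
For `Re x = a < u`: `xi^2 = exp (2 LX)` and `2 (Im LX(y') - Im LX(y))` is in `(-pi, 0)`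
(`Qd.antiX` and `Qd.imX`, `Ch.lines` at the ends); limit `a -> u`. -/
theorem Ch.cross (h : Ch k μ u q LX LD) (hq : Qd μ u q LX LD) {y y' : ℝ} (h0 : 0 ≤ y)
    (h1 : y < y') (h2 : y' ≤ Real.pi / 2) :
    ((starRingEnd ℂ) (1 + q ⟨u, y⟩ ^ 2) * (1 + q ⟨u, y'⟩ ^ 2)).im ≤ 0 := by
  have key : ∀ a : ℝ, a < u →
      ((starRingEnd ℂ) (1 + q ⟨a, y⟩ ^ 2) * (1 + q ⟨a, y'⟩ ^ 2)).im ≤ 0 := by
    intro a ha
    rw [← h.expX ⟨a, y⟩ ha, ← h.expX ⟨a, y'⟩ ha, ← Complex.exp_conj, ← Complex.exp_add,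
      Complex.exp_im]
    have hA := hq.antiX ⟨a, y⟩ ⟨a, y'⟩ ha rfl h1
    have him : ((starRingEnd ℂ) (2 * LX ⟨a, y⟩) + 2 * LX ⟨a, y'⟩).im =
        2 * ((LX ⟨a, y'⟩).im - (LX ⟨a, y⟩).im) := by
      simp
      ring
    rw [him]
    have hlo : -(Real.pi / 2) ≤ (LX ⟨a, y'⟩).im - (LX ⟨a, y⟩).im := by
      have h3 : -(Real.pi / 2) ≤ (LX ⟨a, y'⟩).im := by
        rcases h2.lt_or_eq with h4 | h4
        · exact (hq.imX ⟨a, y'⟩ ha (lt_of_le_of_lt h0 h1) h4).1.le
        · exact (h.lines.2.1 ⟨a, y'⟩ ha h4).ge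
      have h5 : (LX ⟨a, y⟩).im ≤ 0 := by
        rcases h0.lt_or_eq with h4 | h4
        · exact (hq.imX ⟨a, y⟩ ha h4 (lt_of_lt_of_le h1 h2)).2.le
        · exact (h.lines.1 ⟨a, y⟩ ha h4.symm).le
      linarith
    exact mul_nonpos_of_nonneg_of_nonpos (Real.exp_pos _).le
      (Real.sin_nonpos_of_nonpos_of_neg_pi_le (by linarith) (by linarith))
  have hlim : Tendsto
      (fun a : ℝ => ((starRingEnd ℂ) (1 + q ⟨a, y⟩ ^ 2) * (1 + q ⟨a, y'⟩ ^ 2)).im) (𝓝[<] u)
      (𝓝 ((starRingEnd ℂ) (1 + q ⟨u, y⟩ ^ 2) * (1 + q ⟨u, y'⟩ ^ 2)).im) :=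
    (continuous_im.tendsto _).comp
      (((continuous_conj.tendsto _).comp (((h.tendU y).pow 2).const_add 1)).mul
        (((h.tendU y').pow 2).const_add 1))
  exact le_of_tendsto hlim (eventually_nhdsWithin_of_forall fun a ha => key a ha)

/-- `xi^2 (u + i (y0 - η)) / η^m -> c > 0` is impossible: by `Ch.cross`
`Im (conj (xi^2 (u+iy))) ≤ 0`, so with `Ch.lineu` `Im xi^2 = 0` for `0 < y < y0`; `Ch.nosym`. -/
theorem Ch.bad (h : Ch k μ u q LX LD) (hq : Qd μ u q LX LD) {y0 c : ℝ} (h0 : 0 < y0)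
    (h2 : y0 ≤ Real.pi / 2) (hc : 0 < c) {m : ℕ}
    (hl : Tendsto (fun η : ℝ => (1 + q ((⟨u, y0⟩ : ℂ) - η * I) ^ 2) / (η : ℂ) ^ m) (𝓝[>] 0)
      (𝓝 (c : ℂ))) : False := by
  have hpi := Real.pi_pos
  have hel := el_pos h.hμ
  refine h.nosym (a := u) (y1 := 0) (y2 := y0) (by linarith) h0 fun y hy0 hy1 => ?_
  have hle := ((h.lineu hq).1 ⟨u, y⟩ (le_refl u) hy0.le (by simpa using by linarith)).1
  have hge : 0 ≤ (1 + q ⟨u, y⟩ ^ 2).im := by
    have hlim : Tendsto (fun η : ℝ => ((starRingEnd ℂ) (1 + q ⟨u, y⟩ ^ 2) *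
        ((1 + q ((⟨u, y0⟩ : ℂ) - η * I) ^ 2) / (η : ℂ) ^ m)).im) (𝓝[>] 0)
        (𝓝 ((starRingEnd ℂ) (1 + q ⟨u, y⟩ ^ 2) * (c : ℂ)).im) :=
      (continuous_im.tendsto _).comp (hl.const_mul _)
    have hev : ∀ᶠ η : ℝ in 𝓝[>] (0 : ℝ), ((starRingEnd ℂ) (1 + q ⟨u, y⟩ ^ 2) *
        ((1 + q ((⟨u, y0⟩ : ℂ) - η * I) ^ 2) / (η : ℂ) ^ m)).im ≤ 0 := by
      filter_upwards [Ioo_mem_nhdsGT (show (0 : ℝ) < y0 - y by linarith)] with η hη
      obtain ⟨e0, e1⟩ := hη
      have e2 : ((⟨u, y0⟩ : ℂ) - η * I) = ⟨u, y0 - η⟩ := by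
        apply Complex.ext <;> simp
      have e3 := h.cross hq hy0.le (show y < y0 - η by linarith) (by linarith)
      rw [e2, ← mul_div_assoc, ← ofReal_pow, Complex.div_ofReal_im]
      exact div_nonpos_of_nonpos_of_nonneg e3 (pow_pos e0 m).le
    have h5 := le_of_tendsto hlim hev
    rw [Complex.im_mul_ofReal, Complex.conj_im] at h5
    nlinarith
  have h6 : (1 + q ⟨u, y⟩ ^ 2).im = 0 := le_antisymm hle hge
  simpa using h6

/-- no zero of `1 + q^2` on `Re x = u`, `0 ≤ Im x < pi/2`. `y = 0`: `q` real. `y > 0`: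
`dir_left` (with `Ch.lineu`; `1 + q^2` is not locally zero, e.g. by `strip_ident` or
`Ch.nosym`) and `Ch.bad`. -/
theorem Ch.noz (h : Ch k μ u q LX LD) (hq : Qd μ u q LX LD) {y : ℝ} (h0 : 0 ≤ y)
    (h1 : y < Real.pi / 2) : 1 + q ⟨u, y⟩ ^ 2 ≠ 0 := by
  have hpi := Real.pi_pos
  have hel := el_pos h.hμ
  intro hz
  rcases h0.lt_or_eq with hy | hy
  · have hg : AnalyticAt ℂ (fun x : ℂ => 1 + q x ^ 2) ⟨u, y⟩ := by
      have h1 : AnalyticAt ℂ q ⟨u, y⟩ := by
        apply h.dq.analyticAt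
        exact (isOpen_lt continuous_re continuous_const).mem_nhds (by simpa using by linarith)
      exact analyticAt_const.add (h1.pow 2)
    have hline := (h.lineu hq).1
    have hnear : ∀ᶠ x : ℂ in 𝓝 (⟨u, y⟩ : ℂ), 0 < x.im ∧ x.im < Real.pi / 2 := by
      have h2 : IsOpen {x : ℂ | 0 < x.im ∧ x.im < Real.pi / 2} :=
        (isOpen_lt continuous_const continuous_im).inter (isOpen_lt continuous_im continuous_const)
      exact h2.mem_nhds ⟨hy, h1⟩
    obtain ⟨m, c, hc, hl⟩ := dir_left (g := fun x : ℂ => 1 + q x ^ 2) hg hz (by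
      intro hloc
      obtain ⟨ε, hε, hball⟩ := Metric.eventually_nhds_iff_ball.1 hloc
      refine h.nosym (a := u) (y1 := y) (y2 := y + ε) (by linarith) (by linarith)
        fun z hz0 hz1 => ?_
      have h3 := hball ⟨u, z⟩ (by
        rw [Metric.mem_ball, Complex.dist_of_re_eq (z := ⟨u, z⟩) (w := ⟨u, y⟩) rfl, Real.dist_eq,
          abs_lt]
        constructor
        · change -ε < z - y
          linarith
        · change z - y < ε
          linarith)
      have h4 := congrArg Complex.im h3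
      simpa using h4) (by
      filter_upwards [hnear] with x hx hre
      exact (hline x hre hx.1.le hx.2.le).1)
    exact h.bad hq hy h1.le hc hl
  · have h3 := h.lines.2.2.2.2.1 ⟨u, y⟩ (by simpa using by linarith) (by simpa using hy.symm)
    have h4 := congrArg Complex.re hz
    rw [re_one_add_sq, h3] at h4
    simp at h4
    nlinarith [sq_nonneg (q ⟨u, y⟩).re]

/-- Main theorem of this file. Given any zero on `Re x = u`: by `pi`-periodicity (up to sign)
and conjugation there is one with `0 ≤ Im x ≤ pi/2`, hence (`Ch.noz`) at the corner; `q = I`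
there by `Ch.lineu`; `dir_corner` for `1 + q^2` and `Ch.bad`: `2 q q' = 2 I q'` is positive.
`xi`: cross with `y' = pi/2 - η`, `xi^2 ~ -i B' η`, gives `Re xi^2 ≥ 0`; strictness: if
`Re xi^2 (u+iy1) = 0` then (cross(y1, y), `Ch.noz`) `Re xi^2 = 0` on `(y1, pi/2)`,
`Ch.nosym2`; if `Im xi^2 (u+iy1) = 0` then `xi^2 > 0` there and cross(y, y1) gives
`Im xi^2 = 0` on `(0, y1)`, `Ch.nosym`. `quadu`: `Im q^2 < 0` and `Ch.lineu`. -/
theorem HL.mk' (h : Ch k μ u q LX LD) {x0 : ℂ} (hx0 : x0.re = u) (hz : 1 + q x0 ^ 2 = 0) :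
    HL k μ u q LX LD := by
  have hpi := Real.pi_pos
  have hel := el_pos h.hμ
  have hlp := h.loop
  have hq := h.qd hlp
  have hline := (h.lineu hq).1
  have htopl := (h.lineu hq).2
  have hper : ∀ x : ℂ, x.re = u → 1 + q (x + Real.pi * I) ^ 2 = 1 + q x ^ 2 := by
    intro x hx
    rw [h.qpi x (by linarith)]
    ring
  have hperN : ∀ (n : ℕ) (x : ℂ), x.re = u →
      1 + q (x + n * (Real.pi * I)) ^ 2 = 1 + q x ^ 2 := by
    intro n
    induction n with
    | zero =>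
      intro x hx
      simp
    | succ n ih =>
      intro x hx
      have e : x + ((n + 1 : ℕ) : ℂ) * (Real.pi * I) =
          (x + n * (Real.pi * I)) + Real.pi * I := by
        push_cast
        ring
      rw [e, hper _ (by simp [hx]), ih x hx]
  have hperZ : ∀ (n : ℤ) (x : ℂ), x.re = u →
      1 + q (x + n * (Real.pi * I)) ^ 2 = 1 + q x ^ 2 := by
    intro n x hx
    obtain ⟨m, rfl | rfl⟩ := n.eq_nat_or_neg
    · simpa using hperN m x hx
    · have h3 := hperN m (x + ((-(m : ℤ) : ℤ) : ℂ) * (Real.pi * I)) (by simp [hx])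
      rw [← h3]
      congr 3
      push_cast
      ring
  -- a zero with `0 ≤ Im ≤ pi/2`
  obtain ⟨y, hy0, hy1, hyz⟩ : ∃ y : ℝ, 0 ≤ y ∧ y ≤ Real.pi / 2 ∧ 1 + q ⟨u, y⟩ ^ 2 = 0 := by
    set n : ℤ := round (x0.im / Real.pi) with hn
    have hr := abs_sub_round (x0.im / Real.pi)
    rw [← hn, abs_le] at hr
    have e1 : x0.im / Real.pi * Real.pi = x0.im := by field_simp
    have hlo : -(Real.pi / 2) ≤ x0.im - n * Real.pi := by nlinarith [hr.1]
    have hhi : x0.im - n * Real.pi ≤ Real.pi / 2 := by nlinarith [hr.2]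
    have hz2 : 1 + q ⟨u, x0.im - n * Real.pi⟩ ^ 2 = 0 := by
      have h3 := hperZ (-n) x0 hx0
      have e2 : x0 + ((-n : ℤ) : ℂ) * (Real.pi * I) = ⟨u, x0.im - n * Real.pi⟩ := by
        apply Complex.ext
        · simp [hx0]
        · simp
          ring
      rw [e2, hz] at h3
      exact h3
    rcases le_total 0 (x0.im - n * Real.pi) with h4 | h4
    · exact ⟨_, h4, hhi, hz2⟩
    · refine ⟨-(x0.im - n * Real.pi), by linarith, by linarith, ?_⟩
      have h5 := h.qcj ⟨u, x0.im - n * Real.pi⟩ (by simpa using by linarith)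
      have e3 : (starRingEnd ℂ) (⟨u, x0.im - n * Real.pi⟩ : ℂ) =
          ⟨u, -(x0.im - n * Real.pi)⟩ := by
        apply Complex.ext <;> simp
      rw [e3] at h5
      have h6 := congrArg (starRingEnd ℂ) hz2
      rw [map_add, map_one, map_pow, map_zero, ← h5] at h6
      exact h6
  have hye : y = Real.pi / 2 := by
    by_contra hne
    exact h.noz hq hy0 (lt_of_le_of_ne hy1 hne) hyz
  subst hye
  have hct := htopl ⟨u, Real.pi / 2⟩ (le_refl u) rfl
  have hcorner : q ⟨u, Real.pi / 2⟩ = I := by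
    have h3 := congrArg Complex.re hyz
    rw [re_one_add_sq, hct.1] at h3
    simp at h3
    apply Complex.ext
    · simpa using hct.1
    · have : (q ⟨u, Real.pi / 2⟩).im = 1 := by nlinarith [hct.2]
      simpa using this
  have hqa : AnalyticAt ℂ q ⟨u, Real.pi / 2⟩ := by
    apply h.dq.analyticAt
    exact (isOpen_lt continuous_re continuous_const).mem_nhds (by simpa using by linarith)
  have hg : AnalyticAt ℂ (fun x : ℂ => 1 + q x ^ 2) ⟨u, Real.pi / 2⟩ :=
    analyticAt_const.add (hqa.pow 2)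
  have hgd : HasDerivAt (fun x : ℂ => 1 + q x ^ 2) (2 * I * deriv q ⟨u, Real.pi / 2⟩)
      ⟨u, Real.pi / 2⟩ := by
    have h3 := ((hqa.differentiableAt.hasDerivAt).pow 2).const_add 1
    rw [hcorner] at h3
    simpa using h3
  have hnear : ∀ᶠ x : ℂ in 𝓝 (⟨u, Real.pi / 2⟩ : ℂ), 0 < x.im := by
    exact (isOpen_lt continuous_const continuous_im).mem_nhds (by simpa using by linarith)
  have hder : (deriv q ⟨u, Real.pi / 2⟩).re = 0 ∧ (deriv q ⟨u, Real.pi / 2⟩).im < 0 := by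
    rcases dir_corner (g := fun x : ℂ => 1 + q x ^ 2) hg hyz (by
      intro hloc
      obtain ⟨ε, hε, hball⟩ := Metric.eventually_nhds_iff_ball.1 hloc
      refine h.nosym (a := u) (y1 := Real.pi / 2) (y2 := Real.pi / 2 + ε) (by linarith)
        (by linarith) fun z hz0 hz1 => ?_
      have h3 := hball ⟨u, z⟩ (by
        rw [Metric.mem_ball, Complex.dist_of_re_eq (z := ⟨u, z⟩) (w := ⟨u, Real.pi / 2⟩) rfl,
          Real.dist_eq, abs_lt]
        constructor
        · change -ε < z - Real.pi / 2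
          linarith
        · change z - Real.pi / 2 < ε
          linarith)
      have h4 := congrArg Complex.im h3
      simpa using h4) (by
      filter_upwards [hnear] with x hx hre him
      exact (hline x hre hx.le him).1) (by
      filter_upwards [hnear] with x hx hre him
      have h3 := htopl x hre him
      constructor
      · rw [im_one_add_sq, h3.1]
        simp
      · rw [re_one_add_sq, h3.1]
        nlinarith [h3.2]) with h3 | ⟨m, c, hc, hl⟩
    · rw [hgd.deriv] at h3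
      simp at h3
      exact ⟨h3.2, by linarith [h3.1]⟩
    · exact (h.bad hq (by linarith) (le_refl _) hc hl).elim
  -- `Re xi^2 ≥ 0`
  have hre0 : ∀ y : ℝ, 0 < y → y < Real.pi / 2 → 0 ≤ (1 + q ⟨u, y⟩ ^ 2).re := by
    intro y h0 h1
    have hphi : Tendsto (fun η : ℝ => ((η : ℝ)⁻¹ : ℝ) •
        (1 + q ((⟨u, Real.pi / 2⟩ : ℂ) - η * I) ^ 2)) (𝓝[>] 0)
        (𝓝 (2 * I * deriv q ⟨u, Real.pi / 2⟩ * (-I))) := by
      have h3 : HasDerivAt (fun z : ℂ => (⟨u, Real.pi / 2⟩ : ℂ) - z * I) (-I) ((0 : ℝ) : ℂ) := by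
        simpa using ((hasDerivAt_id ((0 : ℝ) : ℂ)).mul_const I).const_sub (⟨u, Real.pi / 2⟩ : ℂ)
      have h4 : HasDerivAt (fun z : ℂ => 1 + q ((⟨u, Real.pi / 2⟩ : ℂ) - z * I) ^ 2)
          (2 * I * deriv q ⟨u, Real.pi / 2⟩ * (-I)) ((0 : ℝ) : ℂ) := by
        have h5 : HasDerivAt (fun x : ℂ => 1 + q x ^ 2) (2 * I * deriv q ⟨u, Real.pi / 2⟩)
            ((⟨u, Real.pi / 2⟩ : ℂ) - ((0 : ℝ) : ℂ) * I) := by simpa using hgd
        exact HasDerivAt.comp (h₂ := fun x : ℂ => 1 + q x ^ 2)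
          (h := fun z : ℂ => (⟨u, Real.pi / 2⟩ : ℂ) - z * I) ((0 : ℝ) : ℂ) h5 h3
      have h6 := (h4.comp_ofReal).tendsto_slope_zero_right
      refine h6.congr' ?_
      filter_upwards with η
      simp [hcorner]
    have hlim := (continuous_im.tendsto _).comp
      (hphi.const_mul ((starRingEnd ℂ) (1 + q ⟨u, y⟩ ^ 2)))
    have hev : ∀ᶠ η : ℝ in 𝓝[>] (0 : ℝ), (Complex.im ∘ fun η : ℝ =>
        (starRingEnd ℂ) (1 + q ⟨u, y⟩ ^ 2) * (((η : ℝ)⁻¹ : ℝ) •
        (1 + q ((⟨u, Real.pi / 2⟩ : ℂ) - η * I) ^ 2))) η ≤ 0 := by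
      filter_upwards [Ioo_mem_nhdsGT (show (0 : ℝ) < Real.pi / 2 - y by linarith)] with η hη
      obtain ⟨e0, e1⟩ := hη
      have e2 : ((⟨u, Real.pi / 2⟩ : ℂ) - η * I) = ⟨u, Real.pi / 2 - η⟩ := by
        apply Complex.ext <;> simp
      have e3 := h.cross hq h0.le (show y < Real.pi / 2 - η by linarith) (by linarith)
      rw [Function.comp_apply, e2, mul_smul_comm, Complex.smul_im]
      exact mul_nonpos_of_nonneg_of_nonpos (inv_pos.2 e0).le e3
    have h5 := le_of_tendsto hlim hev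
    have h7 : ((starRingEnd ℂ) (1 + q ⟨u, y⟩ ^ 2) *
        (2 * I * deriv q ⟨u, Real.pi / 2⟩ * (-I))).im =
        2 * (1 + q ⟨u, y⟩ ^ 2).re * (deriv q ⟨u, Real.pi / 2⟩).im := by
      have e5 : 2 * I * deriv q ⟨u, Real.pi / 2⟩ * (-I) = 2 * deriv q ⟨u, Real.pi / 2⟩ := by
        linear_combination (-2 * deriv q ⟨u, Real.pi / 2⟩) * Complex.I_mul_I
      rw [e5, Complex.mul_im, Complex.conj_re, Complex.conj_im]
      have e6 : (2 * deriv q ⟨u, Real.pi / 2⟩).re = 0 := by simp [hder.1]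
      have e7 : (2 * deriv q ⟨u, Real.pi / 2⟩).im = 2 * (deriv q ⟨u, Real.pi / 2⟩).im := by simp
      rw [e6, e7]
      ring
    rw [h7] at h5
    nlinarith [hder.2]
  have hxi : ∀ y : ℝ, 0 < y → y < Real.pi / 2 →
      (1 + q ⟨u, y⟩ ^ 2).im < 0 ∧ 0 < (1 + q ⟨u, y⟩ ^ 2).re := by
    intro y1 h0 h1
    have hi1 := (hline ⟨u, y1⟩ (le_refl u) h0.le h1.le).1
    have hr1 := hre0 y1 h0 h1
    have hnz := h.noz hq h0.le h1
    constructor
    · by_contra hcon
      have hi2 : (1 + q ⟨u, y1⟩ ^ 2).im = 0 := le_antisymm hi1 (not_lt.1 hcon)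
      have hr2 : 0 < (1 + q ⟨u, y1⟩ ^ 2).re := by
        rcases hr1.lt_or_eq with h3 | h3
        · exact h3
        · exact absurd (Complex.ext (by simpa using h3.symm) (by simpa using hi2)) hnz
      refine h.nosym (a := u) (y1 := 0) (y2 := y1) (by linarith) h0 fun y hy0 hy1 => ?_
      have hle := (hline ⟨u, y⟩ (le_refl u) hy0.le (hy1.trans h1).le).1
      have hcr := h.cross hq hy0.le hy1 h1.le
      rw [Complex.mul_im, Complex.conj_re, Complex.conj_im, hi2] at hcr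
      have hge : 0 ≤ (1 + q ⟨u, y⟩ ^ 2).im := by
        by_contra h4
        have h4' := not_le.1 h4
        nlinarith [mul_pos (neg_pos.2 h4') hr2]
      have h6 : (1 + q ⟨u, y⟩ ^ 2).im = 0 := le_antisymm hle hge
      simpa using h6
    · by_contra hcon
      have hr2 : (1 + q ⟨u, y1⟩ ^ 2).re = 0 := le_antisymm (not_lt.1 hcon) hr1
      have hi2 : (1 + q ⟨u, y1⟩ ^ 2).im < 0 := by
        rcases hi1.lt_or_eq with h3 | h3
        · exact h3
        · exact absurd (Complex.ext (by simpa using hr2) (by simpa using h3)) hnz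
      refine h.nosym2 (a := u) (y1 := y1) (y2 := Real.pi / 2) (by linarith) h1
        fun y hy0 hy1 => ?_
      have hge := hre0 y (h0.trans hy0) hy1
      have hcr := h.cross hq h0.le hy0 hy1.le
      rw [Complex.mul_im, Complex.conj_re, Complex.conj_im, hr2] at hcr
      have hle : (1 + q ⟨u, y⟩ ^ 2).re ≤ 0 := by
        by_contra h4
        have h4' := not_le.1 h4
        nlinarith [mul_pos (neg_pos.2 hi2) h4']
      exact le_antisymm hle hge
  refine ⟨h, hlp, hq, hcorner, hder, hxi, fun y h0 h1 => ?_⟩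
  have h3 := hline ⟨u, y⟩ (le_refl u) h0.le h1.le
  have h4 := (hxi y h0 h1).1
  rw [im_one_add_sq] at h4
  constructor
  · rcases h3.2.1.lt_or_eq with h5 | h5
    · exact h5
    · rw [h5] at h4
      simp at h4
  · rcases h3.2.2.lt_or_eq with h5 | h5
    · exact h5
    · rw [← h5] at h4
      simp at h4

end EQH
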